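import Pool.Agent.Lib.MP_078aef_co_v.SumA

/-! Private children by Hall's theorem. -/

namespace Pool.Agent.RamV

open Finset Pool.Agent.RamseyHam Pool.Agent.RamQ Pool.Agent.RamH

variable {V : Type*} [Fintype V] [DecidableEq V]

/-- the vertices outside the hubs of level at least `i` -/
private theorem chi_card {G : SimpleGraph V} {K k w : ℕ} {N : ℕ → ℕ} (hN : Nm K k w N) {m : ℕ}
    {h : V → Option (Fin m)} {lev : V → ℕ} {hl : Fin m → ℕ} {L : ℕ} {a : ℕ → ℕ}
    (hL : Lv G w h lev hl L a) (i : ℕ) (hi : i ≤ L) :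
    (univ.filter (fun y => h y = none ∧ i ≤ lev y)).card ≤ 4 * a i ^ 11 := by
  have hw : 2 ≤ w := le_trans (by norm_num) hN.two
  have h1 : univ.filter (fun y => h y = none ∧ i ≤ lev y) ⊆
      (Icc i L).biUnion fun j => univ.filter (fun v => h v = none ∧ lev v = j) := by
    intro y hy
    rw [mem_filter] at hy
    rw [mem_biUnion]
    exact ⟨lev y, mem_Icc.2 ⟨hy.2.2, hL.lev_le y⟩, mem_filter.2 ⟨mem_univ _, hy.2.1, rfl⟩⟩
  calc (univ.filter (fun y => h y = none ∧ i ≤ lev y)).card
      ≤ ((Icc i L).biUnion fun j => univ.filter (fun v => h v = none ∧ lev v = j)).card :=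
        card_le_card h1
    _ ≤ ∑ j ∈ Icc i L, (univ.filter (fun v => h v = none ∧ lev v = j)).card := card_biUnion_le
    _ ≤ ∑ j ∈ Icc i L, 2 * a j ^ 11 := sum_le_sum fun j _ => hL.ys j
    _ = 2 * ∑ j ∈ Icc i L, a j ^ 11 := (mul_sum _ _ _).symm
    _ ≤ 2 * (2 * a i ^ 11) := Nat.mul_le_mul_left 2 (sum_scales hw hL.wa hL.sq i hi)
    _ = 4 * a i ^ 11 := by ring

/-- Proof: Hall's theorem (Finset.all_card_le_biUnion_card_iff_exists_injective) for the index type
`{y // h y = none} × Fin 20` and the sets `t (y, c) = (nb G y).filter (fun x => lev x < lev y)`.  For a nonempty finite set `s`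
of indices let `i` be the smallest level of a `y` in it: the union has at least `80 * a i ^ 11` members (`down`), and
`|s| ≤ 20 * ∑ j ∈ Icc i L, 2 * a j ^ 11 ≤ 80 * a i ^ 11` (`ys`, sum_scales).  `ch y` = image of the 20 values, `∅` for hub
vertices. -/
theorem children {G : SimpleGraph V} {K k w : ℕ} {N : ℕ → ℕ} (hN : Nm K k w N) {m : ℕ}
    {h : V → Option (Fin m)} {lev : V → ℕ} {hl : Fin m → ℕ} {L : ℕ} {a : ℕ → ℕ}
    (hL : Lv G w h lev hl L a) : ∃ ch : V → Finset V, Chd G h lev ch := by
  classical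
  obtain ⟨t, ht⟩ : ∃ t : {y : V // h y = none} × Fin 20 → Finset V,
      ∀ p, t p = (nb G p.1.1).filter (fun x => lev x < lev p.1.1) := ⟨_, fun _ => rfl⟩
  have hall : ∀ s : Finset ({y : V // h y = none} × Fin 20), s.card ≤ (s.biUnion t).card := by
    intro s
    rcases s.eq_empty_or_nonempty with rfl | hs
    · simp
    obtain ⟨p, hp, hmin⟩ := exists_min_image s (fun p => lev p.1.1) hs
    have h1 : 80 * a (lev p.1.1) ^ 11 ≤ (s.biUnion t).card := by
      refine le_trans (hL.down p.1.1 p.1.2) ?_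
      rw [← ht p]
      exact card_le_card (subset_biUnion_of_mem t hp)
    have h2 : s.card ≤ ((univ.filter (fun y => h y = none ∧ lev p.1.1 ≤ lev y)) ×ˢ
        (univ : Finset (Fin 20))).card := by
      refine card_le_card_of_injOn (fun q => (q.1.1, q.2)) ?_ ?_
      · intro q hq
        refine mem_coe.2 (mem_product.2 ⟨mem_filter.2 ⟨mem_univ _, q.1.2, ?_⟩, mem_univ _⟩)
        exact hmin q (mem_coe.1 hq)
      · intro q _ q' _ hqq
        have e1 := congrArg Prod.fst hqq
        have e2 := congrArg Prod.snd hqq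
        exact Prod.ext (Subtype.ext e1) e2
    rw [card_product, card_univ, Fintype.card_fin] at h2
    have h3 := chi_card hN hL (lev p.1.1) (hL.lev_le _)
    calc s.card ≤ _ := h2
      _ ≤ (4 * a (lev p.1.1) ^ 11) * 20 := Nat.mul_le_mul_right 20 h3
      _ = 80 * a (lev p.1.1) ^ 11 := by ring
      _ ≤ _ := h1
  obtain ⟨f, hf, hft⟩ := (Finset.all_card_le_biUnion_card_iff_exists_injective t).1 hall
  refine ⟨fun y => if hy : h y = none then univ.image fun c : Fin 20 => f (⟨y, hy⟩, c) else ∅,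
    ?_, ?_, ?_, ?_, ?_⟩
  · intro y hy
    rw [dif_pos hy, card_image_of_injective, card_univ, Fintype.card_fin]
    intro c c' hcc
    exact congrArg Prod.snd (hf hcc)
  · intro y hy
    exact dif_neg hy
  · intro y x hx
    by_cases hy : h y = none
    · rw [dif_pos hy, mem_image] at hx
      obtain ⟨c, -, rfl⟩ := hx
      have h1 := hft (⟨y, hy⟩, c)
      rw [ht, mem_filter] at h1
      exact mem_nb.1 h1.1
    · rw [dif_neg hy] at hx
      exact absurd hx (notMem_empty x)
  · intro y x hx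
    by_cases hy : h y = none
    · rw [dif_pos hy, mem_image] at hx
      obtain ⟨c, -, rfl⟩ := hx
      have h1 := hft (⟨y, hy⟩, c)
      rw [ht, mem_filter] at h1
      exact h1.2
    · rw [dif_neg hy] at hx
      exact absurd hx (notMem_empty x)
  · intro y y' x hx hx'
    by_cases hy : h y = none
    · by_cases hy' : h y' = none
      · rw [dif_pos hy, mem_image] at hx
        rw [dif_pos hy', mem_image] at hx'
        obtain ⟨c, -, hc⟩ := hx
        obtain ⟨c', -, hc'⟩ := hx'
        have h1 := hf (hc.trans hc'.symm)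
        exact congrArg (fun p : {y : V // h y = none} × Fin 20 => p.1.1) h1
      · rw [dif_neg hy'] at hx'
        exact absurd hx' (notMem_empty x)
    · rw [dif_neg hy] at hx
      exact absurd hx (notMem_empty x)

/-- Proof: `20` children for each of at most `∑ j ∈ Icc (i+1) L, 2 * a j ^ 11` vertices. -/
theorem children_card {G : SimpleGraph V} {K k w : ℕ} {N : ℕ → ℕ} (hN : Nm K k w N) {m : ℕ}
    {h : V → Option (Fin m)} {lev : V → ℕ} {hl : Fin m → ℕ} {L : ℕ} {a : ℕ → ℕ}
    (hL : Lv G w h lev hl L a) {ch : V → Finset V} (hc : Chd G h lev ch) (i : ℕ) (hi : i < L) :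
    ((univ.filter (fun y => i < lev y)).biUnion ch).card ≤ 80 * a (i + 1) ^ 11 := by
  have h1 : (univ.filter (fun y => i < lev y)).biUnion ch ⊆
      (univ.filter (fun y => h y = none ∧ i + 1 ≤ lev y)).biUnion ch := by
    intro x hx
    rw [mem_biUnion] at hx ⊢
    obtain ⟨y, hy, hxy⟩ := hx
    refine ⟨y, mem_filter.2 ⟨mem_univ _, ?_, (mem_filter.1 hy).2⟩, hxy⟩
    by_contra hne
    rw [hc.hub y hne] at hxy
    exact absurd hxy (notMem_empty x)
  have h2 := chi_card hN hL (i + 1) hi
  calc ((univ.filter (fun y => i < lev y)).biUnion ch).card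
      ≤ ((univ.filter (fun y => h y = none ∧ i + 1 ≤ lev y)).biUnion ch).card := card_le_card h1
    _ ≤ ∑ y ∈ univ.filter (fun y => h y = none ∧ i + 1 ≤ lev y), (ch y).card := card_biUnion_le
    _ = ∑ y ∈ univ.filter (fun y => h y = none ∧ i + 1 ≤ lev y), 20 :=
        sum_congr rfl fun y hy => hc.card y (mem_filter.1 hy).2.1
    _ = (univ.filter (fun y => h y = none ∧ i + 1 ≤ lev y)).card * 20 := by
        rw [sum_const, smul_eq_mul]
    _ ≤ (4 * a (i + 1) ^ 11) * 20 := Nat.mul_le_mul_right 20 h2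
    _ = 80 * a (i + 1) ^ 11 := by ring

end Pool.Agent.RamV
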