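import Pool.Agent.Lib.MP_078aef_co_v.Rer

/-! The classes of the vertices outside the deleted set. -/

namespace Pool.Agent.RamV

open Finset Pool.Agent.RamseyHam Pool.Agent.RamQ Pool.Agent.RamH

variable {V : Type*} [Fintype V] [DecidableEq V] {m r : ℕ} {G : SimpleGraph V}
  {h : V → Option (Fin m)} {ch : V → Finset V} {lev : V → ℕ} {I Es : Finset (El V r)}

private theorem not_Xt {D : Finset V} {θ : ℕ} {x : V} (hx : x ∉ Aa ch I Es D) :
    x ∉ Xt ch lev (Oc ch I Es) D θ := by
  intro h
  apply hx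
  unfold Xt at h
  unfold Aa
  rcases Finset.mem_union.1 h with h1 | h1
  · exact Finset.mem_union_left _ h1
  · exact Finset.mem_union_right _ (Finset.mem_filter.1 h1).1

omit [Fintype V] [DecidableEq V] in
private theorem gc_sub {A : Finset V} {v x z : V} {p : List V} (hp : Gc h ch A v p z) (hx : x ∈ p)
    (hxv : x ≠ v) : ∃ l, Gc h ch A x l z := by
  obtain ⟨l1, l2, hl, hl2⟩ := hp.1.sub x hx
  refine ⟨l2, hl2, fun y hy => hp.2 y ?_⟩
  cases l1 with
  | nil =>
    exfalso
    obtain ⟨t, ht⟩ := hp.1.head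
    obtain ⟨t', ht'⟩ := hl2.head
    rw [ht, ht', List.nil_append] at hl
    exact hxv (List.cons.inj hl).1.symm
  | cons a l1 =>
    rw [hl, List.cons_append, List.tail_cons]
    exact List.mem_append_right _ (List.mem_of_mem_tail hy)

/-- two good chains from the same vertex.
Proof: strong induction on `lev v`. Both chains are `[v]` for a hub vertex.  Otherwise `p = v :: p1`, `q = v :: q1`, chains from
children `x`, `y` outside `Aa`. If `x = y`: induction. If not: reroute (contrapositive) for the edge `v x` and the disjoint chains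
`v :: q1` from `v`, `p1` from `x` (Pth.disj; `x ∉ v :: q1` by Pth.next, `v ∉ p1` by the levels); a vertex outside `Aa` is outside
`Xt`. -/
theorem cls_one (hc : Chd G h lev ch) (hS : Sit G h ch I Es) {E : Finset (El V r)}
    (hE : ∀ e, e ∈ E ↔ IsEl G h ch e) {D : Finset V} (hD : Cld ch (Oc ch I Es) D) {θ : ℕ}
    (hlow : Low h lev ch I Es θ)
    (hno : ¬ ∃ (ρ : El V r → El V r) (g : El V r), Rer (ZMod 2) E (vt ch) (vc h) I Es ρ g)
    (j : Fin r) (n : ℕ) : ∀ v, lev v = n → v ∉ Xt ch lev (Oc ch I Es) D θ → ∀ p z q z',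
      Gc h ch (Aa ch I Es D) v p z → Gc h ch (Aa ch I Es D) v q z' → Eqv h ch I Es j z z' := by
  induction n using Nat.strong_induction_on with
  | _ n ih =>
    intro v hn hv p z q z' hp hq
    obtain ⟨hp1, hp2⟩ := hp
    obtain ⟨hq1, hq2⟩ := hq
    cases hp1 with
    | hub v hhub =>
      cases hq1 with
      | hub v _ => exact Eqv.refl _
      | cons v y q1 z' hy _ =>
        rw [hc.hub _ hhub] at hy
        exact absurd hy (Finset.notMem_empty _)
    | cons v x p1 z hx hp3 =>
      cases hq1 with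
      | hub v hhub =>
        rw [hc.hub _ hhub] at hx
        exact absurd hx (Finset.notMem_empty _)
      | cons v y q1 z' hy hq3 =>
        rw [List.tail_cons] at hp2 hq2
        have hlt := hc.lt _ _ hx
        have hxA : x ∉ Aa ch I Es D := hp2 x hp3.mem_start
        have gp : Gc h ch (Aa ch I Es D) x p1 z :=
          ⟨hp3, fun a ha => hp2 a (List.mem_of_mem_tail ha)⟩
        by_cases hxy : x = y
        · subst hxy
          exact ih (lev x) (hn ▸ hlt) x rfl (not_Xt hxA) p1 z q1 z' gp
            ⟨hq3, fun a ha => hq2 a (List.mem_of_mem_tail ha)⟩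
        · have hq4 : Pth h ch v (v :: q1) z' := Pth.cons v y q1 z' hy hq3
          have h1 : x ∉ v :: q1 := fun h1 => hxy (hq4.next hc h1
            (List.mem_cons_of_mem _ hq3.mem_start) hq4.mem_start hx hy)
          have h2 : v ∉ p1 := fun h2 => absurd (hp3.lev_le hc v h2) (not_le.2 hlt)
          have h3 := hq4.disj hc hp3 h1 h2
          refine Eqv.symm ?_
          by_contra hnew
          exact hno (reroute hc hS hE hD hlow (p := v :: q1) (q := p1) ⟨hq4, hq2⟩ gp hv
            (not_Xt hxA) (hc.adj _ _ hx) h3 hnew)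

/-- good chains from adjacent vertices.
Proof: if `v' ∈ p`: the rest of `p` from `v'` (Pth.sub) is a good chain, cls_one for `v'`; the same if `v ∈ q`; otherwise the
chains are disjoint (Pth.disj): reroute. -/
theorem cls_two (hc : Chd G h lev ch) (hS : Sit G h ch I Es) {E : Finset (El V r)}
    (hE : ∀ e, e ∈ E ↔ IsEl G h ch e) {D : Finset V} (hD : Cld ch (Oc ch I Es) D) {θ : ℕ}
    (hlow : Low h lev ch I Es θ)
    (hno : ¬ ∃ (ρ : El V r → El V r) (g : El V r), Rer (ZMod 2) E (vt ch) (vc h) I Es ρ g)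
    (j : Fin r) {v v' : V} (hv : v ∉ Xt ch lev (Oc ch I Es) D θ)
    (hv' : v' ∉ Xt ch lev (Oc ch I Es) D θ) (hadj : G.Adj v v') {p q : List V} {z z' : V}
    (hp : Gc h ch (Aa ch I Es D) v p z) (hq : Gc h ch (Aa ch I Es D) v' q z') :
    Eqv h ch I Es j z z' := by
  by_cases h1 : v' ∈ p
  · obtain ⟨l, hl⟩ := gc_sub hp h1 hadj.ne'
    exact cls_one hc hS hE hD hlow hno j (lev v') v' rfl hv' l z q z' hl hq
  by_cases h2 : v ∈ q
  · obtain ⟨l, hl⟩ := gc_sub hq h2 hadj.ne
    exact cls_one hc hS hE hD hlow hno j (lev v) v rfl hv p z l z' hp hl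
  by_contra hnew
  exact hno (reroute hc hS hE hD hlow hp hq hv hv' hadj (hp.1.disj hc hq.1 h1 h2) hnew)

end Pool.Agent.RamV
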