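import Pool.Agent.Lib.MP_078aef_co_v.SitD

/-! Counting classes of hubs. -/

namespace Pool.Agent.RamV

open Finset Pool.Agent.RamseyHam Pool.Agent.RamQ Pool.Agent.RamH

variable {V : Type*} [Fintype V] [DecidableEq V] {m r : ℕ} {G : SimpleGraph V}
  {h : V → Option (Fin m)} {ch : V → Finset V} {lev : V → ℕ}

/-- the number of classes of a subspace -/
private theorem cntClasses {m : ℕ} (W : Submodule (ZMod 2) (Fin m → ZMod 2)) (hm : 1 ≤ m) :
    ∃ (c : ℕ) (rep : Fin (c + 1) → Fin m) (cl : Fin m → Fin (c + 1)),
      (∀ i, cl (rep i) = i) ∧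
      (∀ i j, Pi.single i 1 + Pi.single j 1 ∈ W → cl i = cl j) ∧
      m ≤ c + 1 + Module.finrank (ZMod 2) W := by
  classical
  have two : ∀ x : Fin m → ZMod 2, x + x = 0 := fun x => by
    funext i
    exact CharTwo.add_self_eq_zero (x i)
  let st : Setoid (Fin m) :=
    { r := fun i j => (Pi.single i 1 + Pi.single j 1 : Fin m → ZMod 2) ∈ W
      iseqv :=
        { refl := fun i => by rw [two]; exact W.zero_mem
          symm := fun {i j} h => by rw [add_comm]; exact h
          trans := fun {i j k} h1 h2 => by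
            have h3 := W.add_mem h1 h2
            have h4 : (Pi.single i 1 + Pi.single j 1 + (Pi.single j 1 + Pi.single k 1) :
                Fin m → ZMod 2) = Pi.single i 1 + Pi.single k 1 := by
              have h5 := two (Pi.single j 1)
              calc (Pi.single i 1 + Pi.single j 1 + (Pi.single j 1 + Pi.single k 1) :
                  Fin m → ZMod 2) = Pi.single i 1 + (Pi.single j 1 + Pi.single j 1) +
                    Pi.single k 1 := by abel
                _ = _ := by rw [h5, add_zero]
            rw [h4] at h3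
            exact h3 } }
  have hpos : 0 < Fintype.card (Quotient st) := by
    have : Nonempty (Quotient st) := ⟨Quotient.mk st ⟨0, hm⟩⟩
    exact Fintype.card_pos
  obtain ⟨c, hc⟩ : ∃ c, Fintype.card (Quotient st) = c + 1 := ⟨_, (Nat.succ_pred_eq_of_pos hpos).symm⟩
  let e : Quotient st ≃ Fin (c + 1) := Fintype.equivFinOfCardEq hc
  refine ⟨c, fun κ => (e.symm κ).out, fun i => e (Quotient.mk st i), ?_, ?_, ?_⟩
  · intro i
    simp
  · intro i j hij
    have : Quotient.mk st i = Quotient.mk st j := Quotient.sound hij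
    simp only [this]
  · -- the quotient space is spanned by the classes
    let b : Quotient st → ((Fin m → ZMod 2) ⧸ W) := fun q => W.mkQ (Pi.single q.out 1)
    have h1 : ∀ i : Fin m, W.mkQ (Pi.single i 1) = b (Quotient.mk st i) := by
      intro i
      have h2 : st.r (Quotient.mk st i).out i := Quotient.exact (Quotient.out_eq (Quotient.mk st i))
      have h3 : (Pi.single (Quotient.mk st i).out 1 + Pi.single i 1 : Fin m → ZMod 2) ∈ W := h2
      have h4 : W.mkQ (Pi.single (Quotient.mk st i).out 1 + Pi.single i 1) = 0 := by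
        rw [Submodule.mkQ_apply, Submodule.Quotient.mk_eq_zero]
        exact h3
      rw [map_add] at h4
      have h5 : W.mkQ (Pi.single i 1) + W.mkQ (Pi.single i 1) = 0 := by
        rw [← map_add, two, map_zero]
      have h6 := h4.trans h5.symm
      exact (add_right_cancel h6).symm
    have hspan : Submodule.span (ZMod 2) (Set.range b) = ⊤ := by
      rw [eq_top_iff]
      rintro x -
      obtain ⟨y, rfl⟩ := W.mkQ_surjective x
      have h2 : y = ∑ i, y i • (Pi.single i 1 : Fin m → ZMod 2) := by
        funext j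
        rw [Finset.sum_apply, Finset.sum_eq_single j]
        · simp
        · intro i _ hij
          simp [Pi.single_eq_of_ne (Ne.symm hij)]
        · simp
      rw [h2, map_sum]
      refine Submodule.sum_mem _ fun i _ => ?_
      rw [map_smul, h1]
      exact Submodule.smul_mem _ _ (Submodule.subset_span ⟨_, rfl⟩)
    have h3 := finrank_range_le_card (R := ZMod 2) b
    rw [Set.finrank, hspan, finrank_top, hc] at h3
    have h4 := Submodule.finrank_quotient_add_finrank W
    rw [Module.finrank_fintype_fun_eq_card, Fintype.card_fin] at h4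
    omega

/-- the vectors of colour `j` -/
private def cntW (h : V → Option (Fin m)) (I : Finset (El V r)) (j : Fin r) :
    Submodule (ZMod 2) (Fin m → ZMod 2) :=
  Submodule.span (ZMod 2) (ve h '' {e | e ∈ I ∧ e.j = j})

omit [Fintype V] [DecidableEq V] in
/-- the colour `j` part of a span -/
private theorem cnt_proj {I : Finset (El V r)} {x : Fin r → Fin m → ZMod 2}
    (hx : x ∈ Submodule.span (ZMod 2) (vc h '' (I : Set (El V r)))) (j : Fin r) :
    x j ∈ cntW h I j := by
  have h1 : x j ∈ (Submodule.span (ZMod 2) (vc h '' (I : Set (El V r)))).map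
      (LinearMap.proj j) := ⟨x, hx, rfl⟩
  rw [Submodule.map_span] at h1
  refine Submodule.span_le.mpr ?_ h1
  rintro y ⟨z, ⟨e, he, rfl⟩, rfl⟩
  simp only [LinearMap.proj_apply, vc]
  by_cases hej : e.j = j
  · rw [← hej, Pi.single_eq_same]
    exact Submodule.subset_span ⟨e, ⟨he, rfl⟩, rfl⟩
  · rw [Pi.single_eq_of_ne (Ne.symm hej)]
    exact Submodule.zero_mem _

omit [Fintype V] [DecidableEq V] in
private theorem cnt_finrank (I : Finset (El V r)) (j : Fin r) :
    Module.finrank (ZMod 2) (cntW h I j) ≤ (I.filter (fun e => e.j = j)).card := by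
  classical
  have h1 : ve h '' {e | e ∈ I ∧ e.j = j} =
      (((I.filter (fun e => e.j = j)).image (fun e => ve h e) : Finset (Fin m → ZMod 2)) :
        Set (Fin m → ZMod 2)) := by
    rw [coe_image, coe_filter]
  rw [cntW, h1]
  exact (finrank_span_finset_le_card _).trans card_image_le

/-- Proof: compare classes, proj_mem, finrank_W_le in Lib/MP_078aef_co_h/Tree.lean (private; copy them).
`W j` = span of `ve h e`, `e ∈ I0 = I \ Bl (vt ch) I Es` of colour `j`: `x ∈ S0` implies `x j ∈ W j`; classes for `W j` gives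
`c j`, `rep j`, `cl j` with `m ≤ c j + 1 + finrank (W j)` and `finrank (W j) ≤` number of `e ∈ I0` of colour `j`; the sum over the colours:
`r (m - 1) ≤ ∑ c j + |I0|`.  With `J = Bl ..`: `|I0| = |I| - |J|`, so `∑ c j ≥ |J| + 1`; for the largest `c j`: `r * c ≥ |J| + 1`, so
`c ≥ 1` and `|Oc| ≤ |J| + |Es| ≤ 2 |J| ≤ 2 r c`. -/
theorem count_classes (hm : 1 ≤ m) {I Es : Finset (El V r)}
    (hcard : I.card < r * (m - 1)) (hle : Es.card ≤ (Bl (vt ch) I Es).card) :
    ∃ (j : Fin r) (c : ℕ) (rep : Fin (c + 1) → Fin m) (cl : Fin m → Fin (c + 1)),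
      (∀ i, cl (rep i) = i) ∧
      (∀ z z' i i', h z = some i → h z' = some i' → Eqv h ch I Es j z z' → cl i = cl i') ∧
      1 ≤ c ∧ (Oc ch I Es).card ≤ 2 * r * c := by
  classical
  have hrpos : 0 < r := by
    rcases Nat.eq_zero_or_pos r with h0 | h0
    · subst h0
      simp at hcard
    · exact h0
  have : NeZero r := ⟨hrpos.ne'⟩
  obtain ⟨J, hJ⟩ : ∃ J, J = Bl (vt ch) I Es := ⟨_, rfl⟩
  have hJI : J ⊆ I := by
    rw [hJ, Bl]
    exact filter_subset _ _
  obtain ⟨I0, hI0⟩ : ∃ I0, I0 = I \ J := ⟨_, rfl⟩
  have hc0 : I0.card + J.card = I.card := by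
    rw [hI0]
    exact card_sdiff_add_card_eq_card hJI
  choose c rep cl h1 h2 h3 using fun j : Fin r => cntClasses (cntW h I0 j) hm
  have hsum : ∑ j : Fin r, (I0.filter (fun e => e.j = j)).card = I0.card := by
    rw [card_eq_sum_card_fiberwise (f := fun e : El V r => e.j) (t := univ)
      (fun _ _ => by simp)]
  have h4 : ∀ j : Fin r, m - 1 ≤ c j + (I0.filter (fun e => e.j = j)).card := by
    intro j
    have h5 := h3 j
    have h6 := cnt_finrank (h := h) I0 j
    omega
  have h5 : r * (m - 1) ≤ ∑ j : Fin r, c j + I0.card := by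
    have h6 := Finset.sum_le_sum (s := univ) fun (j : Fin r) _ => h4 j
    rw [Finset.sum_add_distrib, hsum, Finset.sum_const, card_univ, Fintype.card_fin,
      smul_eq_mul] at h6
    exact h6
  obtain ⟨j, hj⟩ : ∃ j : Fin r, J.card + 1 ≤ r * c j := by
    by_contra hcon
    push Not at hcon
    have h6 := Finset.sum_lt_sum_of_nonempty (s := (univ : Finset (Fin r)))
      univ_nonempty fun j _ => hcon j
    rw [← Finset.mul_sum, Finset.sum_const, card_univ, Fintype.card_fin, smul_eq_mul] at h6
    have h7 := Nat.lt_of_mul_lt_mul_left h6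
    omega
  refine ⟨j, c j, rep j, cl j, h1 j, ?_, ?_, ?_⟩
  · intro z z' i i' hz hz' he
    have h6 : (Pi.single j (ev h z + ev h z') : Fin r → Fin m → ZMod 2) ∈
        Submodule.span (ZMod 2) (vc h '' (I0 : Set (El V r))) := by
      rw [hI0, hJ]
      exact he
    have h7 := cnt_proj h6 j
    rw [Pi.single_eq_same] at h7
    have h8 : ev h z = Pi.single i 1 := by simp only [ev, hz]
    have h9 : ev h z' = Pi.single i' 1 := by simp only [ev, hz']
    rw [h8, h9] at h7
    exact h2 j i i' h7
  · by_contra hcon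
    have h6 : c j = 0 := by omega
    rw [h6, mul_zero] at hj
    omega
  · have h6 : (Oc ch I Es).card ≤ J.card + Es.card := by
      rw [Oc, ← hJ]
      exact card_union_le _ _
    rw [← hJ] at hle
    have h7 : 2 * r * c j = r * c j + r * c j := by ring
    omega

end Pool.Agent.RamV
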