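import Pool.Agent.Lib.MP_078aef_co_h.Defs

/-! Levels, children, chains, elements and reroutings. -/

namespace Pool.Agent.RamV

open Finset Pool.Agent.RamseyHam Pool.Agent.RamQ Pool.Agent.RamH

variable {V : Type*}

/-- the numerical data -/
structure Nm (K k w : ℕ) (N : ℕ → ℕ) : Prop where
  two : 2 ^ 28 ≤ w
  wK : w ^ 28 ≤ K
  kw : k ≤ w ^ 29
  mono : Monotone N
  Nk : ∀ x, N x ≤ (k + x) ^ k
  Nx : ∀ x, N x ≤ (k + x) ^ x

section fin

variable [Fintype V] [DecidableEq V]

/-- the properties of critical graphs which are used -/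
structure Hy (G : SimpleGraph V) (K w : ℕ) (N : ℕ → ℕ) : Prop where
  tough : Tough G K
  deg : ∀ v, K ≤ (nb G v).card
  big : ∀ U : Finset V, U.card ≤ N (al G U)
  conn : ∀ X P Q : Finset V, P ∪ Q = univ \ X → Disjoint P Q → Non G P Q →
    ∀ v ∈ P, ∀ v' ∈ Q, N X.card + X.card ≤ (nb G v).card →
      N X.card + X.card ≤ (nb G v').card → False
  low : ∀ a, w ^ 2 < a → ∀ I : Finset V, Ind G I → (∀ v ∈ I, (nb G v).card < a ^ 14) →
    I.card ^ 2 ≤ a

/-- levels: `h` is the hub of a vertex, `lev` its level, `hl` the level of a hub, `a` the scales -/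
structure Lv (G : SimpleGraph V) (w : ℕ) {m : ℕ} (h : V → Option (Fin m)) (lev : V → ℕ)
    (hl : Fin m → ℕ) (L : ℕ) (a : ℕ → ℕ) : Prop where
  wa : ∀ i ≤ L, w ≤ a i
  sq : ∀ i < L, a (i + 1) ^ 2 ≤ a i
  lev_le : ∀ v, lev v ≤ L
  hl_le : ∀ i, hl i ≤ L
  hlev : ∀ v i, h v = some i → lev v = hl i
  rob : ∀ i, Rb G (Hb h i) (a (hl i) ^ 10)
  al_le : ∀ i, al G (Hb h i) ≤ a (hl i)
  deg : ∀ v i, h v = some i → a (hl i) ^ 10 ≤ (nb G v ∩ Hb h i).card
  hubs : ∀ j, (univ.filter (fun i => hl i = j)).card ≤ a j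
  ys : ∀ j, (univ.filter (fun v => h v = none ∧ lev v = j)).card ≤ 2 * a j ^ 11
  down : ∀ y, h y = none →
    80 * a (lev y) ^ 11 ≤ ((nb G y).filter (fun x => lev x < lev y)).card

/-- private children: 20 lower neighbours for every vertex outside the hubs -/
structure Chd (G : SimpleGraph V) {m : ℕ} (h : V → Option (Fin m)) (lev : V → ℕ)
    (ch : V → Finset V) : Prop where
  card : ∀ y, h y = none → (ch y).card = 20
  hub : ∀ y, h y ≠ none → ch y = ∅
  adj : ∀ y, ∀ x ∈ ch y, G.Adj y x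
  lt : ∀ y, ∀ x ∈ ch y, lev x < lev y
  uniq : ∀ y y' x, x ∈ ch y → x ∈ ch y' → y = y'

end fin

/-- `l` is a chain of children from `v` to the hub vertex `z` -/
inductive Pth {m : ℕ} (h : V → Option (Fin m)) (ch : V → Finset V) : V → List V → V → Prop
  | hub (v : V) : h v ≠ none → Pth h ch v [v] v
  | cons (v x : V) (l : List V) (z : V) : x ∈ ch v → Pth h ch x l z → Pth h ch v (v :: l) z

/-- a chain all of whose vertices except possibly the first one are outside `A` -/
def Gc {m : ℕ} (h : V → Option (Fin m)) (ch : V → Finset V) (A : Finset V) (v : V) (l : List V)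
    (z : V) : Prop :=
  Pth h ch v l z ∧ ∀ x ∈ l.tail, x ∉ A

/-- an element: two chains, two tokens and a colour -/
structure El (V : Type*) (r : ℕ) where
  p : List V
  q : List V
  t : Fin 5
  u : Fin 5
  j : Fin r

noncomputable instance {V : Type*} {r : ℕ} : DecidableEq (El V r) := Classical.decEq _

/-- `v`, `v'` are the ports and `z`, `z'` the ends of the element `e` -/
structure Ok (G : SimpleGraph V) {m : ℕ} (h : V → Option (Fin m)) (ch : V → Finset V) {r : ℕ}
    (e : El V r) (v v' z z' : V) : Prop where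
  p : Pth h ch v e.p z
  q : Pth h ch v' e.q z'
  adj : G.Adj v v'
  disj : ∀ x ∈ e.p, x ∉ e.q
  tok : ∀ y, v ∈ ch y → v' ∈ ch y → e.t ≠ e.u

/-- the valid elements -/
def IsEl (G : SimpleGraph V) {m : ℕ} (h : V → Option (Fin m)) (ch : V → Finset V) {r : ℕ}
    (e : El V r) : Prop :=
  ∃ v v' z z', Ok G h ch e v v' z z'

/-- the vector of an element -/
def ve {m : ℕ} (h : V → Option (Fin m)) {r : ℕ} (e : El V r) : Fin m → ZMod 2 :=
  vec h e.p + vec h e.q

/-- the coloured vector of an element -/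
def vc {m : ℕ} (h : V → Option (Fin m)) {r : ℕ} (e : El V r) : Fin r → Fin m → ZMod 2 :=
  Pi.single e.j (ve h e)

section dec

variable [DecidableEq V]

/-- the vertices of an element -/
def vs {r : ℕ} (e : El V r) : Finset V := e.p.toFinset ∪ e.q.toFinset

/-- the ports of an element -/
def pts {r : ℕ} (e : El V r) : Finset V := (e.p.take 1).toFinset ∪ (e.q.take 1).toFinset

variable [Fintype V]

/-- the tokens of an element -/
noncomputable def tk (ch : V → Finset V) {r : ℕ} (e : El V r) : Finset (V × Fin 5) := by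
  classical exact univ.filter (fun c => (∃ v ∈ e.p.take 1, v ∈ ch c.1 ∧ c.2 = e.t) ∨
    ∃ v ∈ e.q.take 1, v ∈ ch c.1 ∧ c.2 = e.u)

/-- the vertices and the tokens of an element -/
noncomputable def vt (ch : V → Finset V) {r : ℕ} (e : El V r) : Finset (V ⊕ V × Fin 5) :=
  (vs e).disjSum (tk ch e)

/-- pairwise compatible -/
def Cmp (ch : V → Finset V) {r : ℕ} (I : Finset (El V r)) : Prop :=
  ∀ e ∈ I, ∀ f ∈ I, e ≠ f → Disjoint (vt ch e) (vt ch f)

/-- all vertices of the members of `O` -/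
def Ov {r : ℕ} (O : Finset (El V r)) : Finset V := O.biUnion vs

/-- the number of tokens of `y` used by the members of `O` -/
noncomputable def cnt (ch : V → Finset V) {r : ℕ} (O : Finset (El V r)) (y : V) : ℕ :=
  ∑ f ∈ O, ((tk ch f).filter (fun c => c.1 = y)).card

/-- `D` contains the ports of `O`, all children of exhausted vertices, and every vertex with at
least `5` children in `D` -/
structure Cld (ch : V → Finset V) {r : ℕ} (O : Finset (El V r)) (D : Finset V) : Prop where
  card : D.card ≤ 15 * O.card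
  pts : ∀ f ∈ O, pts f ⊆ D
  exh : ∀ y, 4 ≤ cnt ch O y → ch y ⊆ D
  clo : ∀ y, 5 ≤ (ch y ∩ D).card → y ∈ D

/-- the set deleted at scale `θ` -/
noncomputable def Xt (ch : V → Finset V) (lev : V → ℕ) {r : ℕ} (O : Finset (El V r))
    (D : Finset V) (θ : ℕ) : Finset V := by
  classical exact D ∪ (Ov O).filter (fun x => ∃ y, x ∈ ch y ∧ θ < lev y)

end dec

/-- the members of `I` meeting a member of `Es` -/
def Bl {W ι : Type*} [DecidableEq W] (s : ι → Finset W) (I Es : Finset ι) :
    Finset ι := by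
  classical exact I.filter (fun f => ∃ e ∈ Es, ¬ Disjoint (s f) (s e))

/-- a rerouting of the occupants which makes room for the new element `g` -/
structure Rer (F : Type*) {W ι M : Type*} [DecidableEq W] [DecidableEq ι] [Field F]
    [AddCommGroup M] [Module F M] (E : Finset ι) (s : ι → Finset W) (v : ι → M)
    (I Es : Finset ι) (ρ : ι → ι) (g : ι) : Prop where
  mem : g ∈ E
  new : v g ∉ Submodule.span F (v '' ((I \ Bl s I Es : Finset ι) : Set ι))
  fix : ∀ f ∈ I \ Bl s I Es, ρ f = f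
  occ : ∀ f ∈ Bl s I Es ∪ Es, ρ f ∈ E ∧
    v (ρ f) - v f ∈ Submodule.span F (v '' ((I \ Bl s I Es : Finset ι) : Set ι)) ∧
    Disjoint (s g) (s (ρ f))
  disj : ∀ x ∈ I ∪ Es, ∀ y ∈ I ∪ Es, Disjoint (s x) (s y) → Disjoint (s (ρ x)) (s (ρ y))

end Pool.Agent.RamV
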