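import Pool.Agent.Lib.MP_078aef_co_v.ElM

/-! The closure of the ports and of the children of exhausted vertices. -/

namespace Pool.Agent.RamV

open Finset Pool.Agent.RamseyHam Pool.Agent.RamQ Pool.Agent.RamH

variable {V : Type*} [Fintype V] [DecidableEq V] {G : SimpleGraph V} {m r : ℕ}
  {h : V → Option (Fin m)} {ch : V → Finset V} {lev : V → ℕ}

/-- Proof: take `D ⊇ D0` of largest size such that every `y ∈ D \ D0` has at least 5 children in `D`.  It is closed (otherwise
add `y`).  With `Z = D \ D0`: `5 |Z| ≤ ∑ y ∈ Z, |ch y ∩ D| ≤ |D| = |D0| + |Z|` (the sets `ch y` are disjoint). -/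
theorem closure_exists (hc : Chd G h lev ch) (D0 : Finset V) :
    ∃ D : Finset V, D0 ⊆ D ∧ 4 * D.card ≤ 5 * D0.card ∧ ∀ y, 5 ≤ (ch y ∩ D).card → y ∈ D := by
  classical
  obtain ⟨D, hD, hmax⟩ := Finset.exists_max_image
    ((univ : Finset (Finset V)).filter fun D => D0 ⊆ D ∧ ∀ y ∈ D \ D0, 5 ≤ (ch y ∩ D).card)
    Finset.card ⟨D0, by
      rw [mem_filter]
      refine ⟨mem_univ _, Subset.rfl, fun y hy => ?_⟩
      rw [sdiff_self] at hy
      exact absurd hy (notMem_empty y)⟩
  rw [mem_filter] at hD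
  obtain ⟨-, h1, h2⟩ := hD
  refine ⟨D, h1, ?_, fun y hy => ?_⟩
  · have h3 : ∑ y ∈ D \ D0, 5 ≤ ∑ y ∈ D \ D0, (ch y ∩ D).card := Finset.sum_le_sum h2
    rw [Finset.sum_const, smul_eq_mul] at h3
    have h4 : ∑ y ∈ D \ D0, (ch y ∩ D).card = ((D \ D0).biUnion fun y => ch y ∩ D).card := by
      rw [Finset.card_biUnion]
      intro y _ y' _ hne
      rw [Function.onFun, Finset.disjoint_left]
      intro x hx hx'
      exact hne (hc.uniq y y' x (mem_inter.1 hx).1 (mem_inter.1 hx').1)
    have h5 : ((D \ D0).biUnion fun y => ch y ∩ D).card ≤ D.card := by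
      refine Finset.card_le_card fun x hx => ?_
      obtain ⟨y, -, hy⟩ := mem_biUnion.1 hx
      exact (mem_inter.1 hy).2
    have h6 := Finset.card_sdiff_add_card_eq_card h1
    omega
  · by_contra hyD
    have h3 := hmax (insert y D) (by
      rw [mem_filter]
      refine ⟨mem_univ _, h1.trans (subset_insert y D), fun z hz => ?_⟩
      rw [mem_sdiff, mem_insert] at hz
      have h4 : ∀ z, (ch z ∩ D).card ≤ (ch z ∩ insert y D).card := fun z =>
        Finset.card_le_card (Finset.inter_subset_inter_left (subset_insert y D))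
      rcases hz with ⟨rfl | hz, hz0⟩
      · exact hy.trans (h4 z)
      · exact (h2 z (mem_sdiff.2 ⟨hz, hz0⟩)).trans (h4 z))
    rw [card_insert_of_notMem hyD] at h3
    omega

/-- Proof: closure_exists for `D0 = O.biUnion pts ∪ (exhausted vertices).biUnion ch`, `|D0| ≤ 2 n + 20 * (n / 2) = 12 n`
(exhausted_card; `(ch y).card ≤ 20`, `Ok.mem_pts`). -/
theorem cld_exists (hc : Chd G h lev ch) {O : Finset (El V r)} (hO : ∀ e ∈ O, IsEl G h ch e) :
    ∃ D : Finset V, Cld ch O D := by
  obtain ⟨X, hX⟩ : ∃ X : Finset V, X = univ.filter (fun y => 4 ≤ cnt ch O y) := ⟨_, rfl⟩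
  obtain ⟨D, h1, h2, h3⟩ := closure_exists hc (O.biUnion pts ∪ X.biUnion ch)
  have h4 : (O.biUnion pts).card ≤ O.card * 2 := by
    refine Finset.card_biUnion_le_card_mul _ _ _ fun e he => ?_
    obtain ⟨v, v', z, z', hok⟩ := hO e he
    have h5 : pts e ⊆ {v, v'} := fun x hx => by
      rw [mem_insert, mem_singleton]
      exact hok.mem_pts.1 hx
    exact (Finset.card_le_card h5).trans Finset.card_le_two
  have h5 : (X.biUnion ch).card ≤ X.card * 20 := by
    refine Finset.card_biUnion_le_card_mul _ _ _ fun y _ => ?_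
    by_cases hy : h y = none
    · exact (hc.card y hy).le
    · rw [hc.hub y hy, card_empty]
      exact Nat.zero_le _
  have h6 := exhausted_card hO hc
  rw [← hX] at h6
  have h7 := Finset.card_union_le (O.biUnion pts) (X.biUnion ch)
  refine ⟨D, by omega, fun f hf => ?_, fun y hy => ?_, h3⟩
  · refine Finset.Subset.trans (Finset.subset_biUnion_of_mem pts hf) ?_
    exact Finset.Subset.trans Finset.subset_union_left h1
  · refine Finset.Subset.trans (Finset.subset_biUnion_of_mem ch (show y ∈ X from ?_)) ?_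
    · rw [hX, mem_filter]
      exact ⟨mem_univ _, hy⟩
    · exact Finset.Subset.trans Finset.subset_union_right h1

end Pool.Agent.RamV
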