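import Pool.Agent.Lib.MP_078aef_co_v.PthL

/-! Elements: ports, tokens, vectors. -/

namespace Pool.Agent.RamV

open Finset Pool.Agent.RamseyHam Pool.Agent.RamQ Pool.Agent.RamH

variable {V : Type*} [Fintype V] [DecidableEq V] {G : SimpleGraph V} {m r : ℕ}
  {h : V → Option (Fin m)} {ch : V → Finset V} {lev : V → ℕ} {v v' z z' : V} {e f : El V r}

omit [Fintype V] in
theorem mem_vs {x : V} : x ∈ vs e ↔ x ∈ e.p ∨ x ∈ e.q := by
  unfold vs
  rw [Finset.mem_union, List.mem_toFinset, List.mem_toFinset]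

omit [Fintype V] in
theorem Ok.mem_pts (he : Ok G h ch e v v' z z') {x : V} : x ∈ pts e ↔ x = v ∨ x = v' := by
  obtain ⟨t, ht⟩ := he.p.head
  obtain ⟨t', ht'⟩ := he.q.head
  unfold pts
  rw [Finset.mem_union, List.mem_toFinset, List.mem_toFinset, ht, ht']
  simp

omit [Fintype V] in
theorem Ok.pts_sub (he : Ok G h ch e v v' z z') : pts e ⊆ vs e := by
  intro x hx
  rw [mem_vs]
  rcases he.mem_pts.1 hx with rfl | rfl
  · exact Or.inl he.p.mem_start
  · exact Or.inr he.q.mem_start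

theorem Ok.mem_tk (he : Ok G h ch e v v' z z') {c : V × Fin 5} :
    c ∈ tk ch e ↔ (v ∈ ch c.1 ∧ c.2 = e.t) ∨ (v' ∈ ch c.1 ∧ c.2 = e.u) := by
  obtain ⟨t, ht⟩ := he.p.head
  obtain ⟨t', ht'⟩ := he.q.head
  unfold tk
  rw [Finset.mem_filter, ht, ht']
  simp

theorem disj_vt : Disjoint (vt ch e) (vt ch f) ↔
    Disjoint (vs e) (vs f) ∧ Disjoint (tk ch e) (tk ch f) := by
  unfold vt
  constructor
  · intro hd
    rw [Finset.disjoint_left] at hd
    refine ⟨Finset.disjoint_left.2 fun x h1 h2 => ?_, Finset.disjoint_left.2 fun c h1 h2 => ?_⟩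
    · exact hd (Finset.inl_mem_disjSum.2 h1) (Finset.inl_mem_disjSum.2 h2)
    · exact hd (Finset.inr_mem_disjSum.2 h1) (Finset.inr_mem_disjSum.2 h2)
  · rintro ⟨h1, h2⟩
    rw [Finset.disjoint_left] at h1 h2 ⊢
    rintro (x | c) h3 h4
    · exact h1 (Finset.inl_mem_disjSum.1 h3) (Finset.inl_mem_disjSum.1 h4)
    · exact h2 (Finset.inr_mem_disjSum.1 h3) (Finset.inr_mem_disjSum.1 h4)

omit [Fintype V] in
theorem Ok.vs_nonempty (he : Ok G h ch e v v' z z') : (vs e).Nonempty :=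
  ⟨v, mem_vs.2 (Or.inl he.p.mem_start)⟩

theorem IsEl.vt_nonempty (he : IsEl G h ch e) : (vt ch e).Nonempty := by
  obtain ⟨v, v', z, z', h1⟩ := he
  obtain ⟨x, hx⟩ := h1.vs_nonempty
  exact ⟨Sum.inl x, Finset.inl_mem_disjSum.2 hx⟩

/-- Proof: Pth.vec_eq -/
theorem Ok.ve_eq (hc : Chd G h lev ch) (he : Ok G h ch e v v' z z') : ve h e = ev h z + ev h z' := by
  unfold ve
  rw [he.p.vec_eq hc, he.q.vec_eq hc]

/-- Proof: ev_some, `ev` of two vertices of the same hub are equal, characteristic 2. -/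
theorem Ok.ve_zero (hc : Chd G h lev ch) (he : Ok G h ch e v v' z z') (hz : h z = h z') :
    ve h e = 0 := by
  have h1 : ev h z = ev h z' := by
    unfold ev
    rw [hz]
  rw [he.ve_eq hc, h1]
  funext i
  rw [Pi.add_apply, Pi.zero_apply]
  exact CharTwo.add_self_eq_zero _

/-- a vertex of an element which is not a port has its parent on the same chain.
Proof: Pth.par for the two chains. -/
theorem Ok.par (he : Ok G h ch e v v' z z') {x : V} (hx : x ∈ vs e) (hp : x ∉ pts e) :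
    ∃ y ∈ vs e, x ∈ ch y := by
  rw [he.mem_pts, not_or] at hp
  rcases mem_vs.1 hx with h1 | h1
  · obtain ⟨t, ht⟩ := he.p.head
    have h2 : x ∈ e.p.tail := by
      rw [ht] at h1 ⊢
      exact (List.mem_cons.1 h1).resolve_left hp.1
    obtain ⟨y, hy, hxy⟩ := he.p.par x h2
    exact ⟨y, mem_vs.2 (Or.inl hy), hxy⟩
  · obtain ⟨t, ht⟩ := he.q.head
    have h2 : x ∈ e.q.tail := by
      rw [ht] at h1 ⊢
      exact (List.mem_cons.1 h1).resolve_left hp.2
    obtain ⟨y, hy, hxy⟩ := he.q.par x h2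
    exact ⟨y, mem_vs.2 (Or.inr hy), hxy⟩

/-- at most one vertex of an element which is not a port is a child of `y`, and then `y` is on the element.
Proof: Pth.pred and Pth.next; the two chains are disjoint. -/
theorem Ok.next (hc : Chd G h lev ch) (he : Ok G h ch e v v' z z') {x x' y : V} (hx : x ∈ vs e)
    (hx' : x' ∈ vs e) (hp : x ∉ pts e) (hp' : x' ∉ pts e) (h1 : x ∈ ch y) (h2 : x' ∈ ch y) :
    x = x' ∧ y ∈ vs e := by
  rw [he.mem_pts, not_or] at hp hp'
  rcases mem_vs.1 hx with h3 | h3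
  · have h4 := he.p.pred hc h3 hp.1 h1
    rcases mem_vs.1 hx' with h5 | h5
    · exact ⟨he.p.next hc h3 h5 h4 h1 h2, mem_vs.2 (Or.inl h4)⟩
    · exact absurd (he.q.pred hc h5 hp'.2 h2) (he.disj y h4)
  · have h4 := he.q.pred hc h3 hp.2 h1
    rcases mem_vs.1 hx' with h5 | h5
    · exact absurd h4 (he.disj y (he.p.pred hc h5 hp'.1 h2))
    · exact ⟨he.q.next hc h3 h5 h4 h1 h2, mem_vs.2 (Or.inr h4)⟩

end Pool.Agent.RamV
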