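import Pool.Agent.Lib.MP_078aef_co_v.ElL

/-! Elements: counting ports and tokens. -/

namespace Pool.Agent.RamV

open Finset Pool.Agent.RamseyHam Pool.Agent.RamQ Pool.Agent.RamH

variable {V : Type*} [Fintype V] [DecidableEq V] {G : SimpleGraph V} {m r : ℕ}
  {h : V → Option (Fin m)} {ch : V → Finset V} {lev : V → ℕ} {v v' z z' : V} {e f : El V r}

/-- there are finitely many elements. Proof: the lists of an element are without repetition, so of length at most
`Fintype.card V` (List.finite_length_le); inject `El` into a product. -/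
theorem exists_E (hc : Chd G h lev ch) (r : ℕ) :
    ∃ E : Finset (El V r), ∀ e, e ∈ E ↔ IsEl G h ch e := by
  obtain ⟨A, hA⟩ : ∃ A : Set (List V), A = {l : List V | l.length ≤ Fintype.card V} := ⟨_, rfl⟩
  have hfin : A.Finite := by
    rw [hA]
    exact List.finite_length_le V _
  obtain ⟨g, hg⟩ : ∃ g : El V r → List V × List V × Fin 5 × Fin 5 × Fin r,
      g = fun e => (e.p, e.q, e.t, e.u, e.j) := ⟨_, rfl⟩
  have hginj : Function.Injective g := by
    rintro ⟨p, q, t, u, j⟩ ⟨p', q', t', u', j'⟩ hh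
    rw [hg] at hh
    simp only [Prod.mk.injEq] at hh
    obtain ⟨rfl, rfl, rfl, rfl, rfl⟩ := hh
    rfl
  have hB : (A ×ˢ A ×ˢ (Set.univ : Set (Fin 5 × Fin 5 × Fin r))).Finite :=
    hfin.prod (hfin.prod Set.finite_univ)
  have hE : {e : El V r | IsEl G h ch e}.Finite := by
    refine (hB.preimage hginj.injOn).subset fun e he => ?_
    obtain ⟨v, v', z, z', he⟩ := he
    rw [Set.mem_preimage, hg, hA]
    exact ⟨(he.p.nodup hc).length_le_card, (he.q.nodup hc).length_le_card, Set.mem_univ _⟩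
  exact ⟨hE.toFinset, fun e => hE.mem_toFinset⟩

omit [Fintype V] [DecidableEq V] in
/-- The ports of an element are determined. -/
private theorem elm_uniq {v v' z z' w w' y y' : V} (h1 : Ok G h ch e v v' z z')
    (h2 : Ok G h ch e w w' y y') : w = v ∧ w' = v' := by
  obtain ⟨t, ht⟩ := h1.p.head
  obtain ⟨s, hs⟩ := h2.p.head
  obtain ⟨t', ht'⟩ := h1.q.head
  obtain ⟨s', hs'⟩ := h2.q.head
  rw [ht] at hs
  rw [ht'] at hs'
  exact ⟨(List.cons.inj hs).1.symm, (List.cons.inj hs').1.symm⟩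

/-- Proof: map a port `x ∈ ch y` of a member of `I` to its token `(y, t)`; different ports have different tokens
(`Ok.tok` within one element, `Cmp` for different ones). -/
theorem ports_card {I : Finset (El V r)} (hI : ∀ e ∈ I, IsEl G h ch e) (hcmp : Cmp ch I) (y : V) :
    (ch y ∩ I.biUnion pts).card ≤ 5 := by
  have h1 : ∀ x : V, ∃ t : Fin 5, x ∈ ch y ∩ I.biUnion pts → ∃ e ∈ I, ∃ v v' z z',
      Ok G h ch e v v' z z' ∧ ((x = v ∧ t = e.t) ∨ (x = v' ∧ t = e.u)) := by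
    intro x
    by_cases hx : x ∈ ch y ∩ I.biUnion pts
    · rw [mem_inter, mem_biUnion] at hx
      obtain ⟨hxy, e, he, hxe⟩ := hx
      obtain ⟨v, v', z, z', hok⟩ := hI e he
      rcases hok.mem_pts.1 hxe with h2 | h2
      · exact ⟨e.t, fun _ => ⟨e, he, v, v', z, z', hok, Or.inl ⟨h2, rfl⟩⟩⟩
      · exact ⟨e.u, fun _ => ⟨e, he, v, v', z, z', hok, Or.inr ⟨h2, rfl⟩⟩⟩
    · exact ⟨0, fun h2 => absurd h2 hx⟩
  choose t ht using h1
  have hinj : Set.InjOn t (ch y ∩ I.biUnion pts : Finset V) := by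
    intro x hx x' hx' hxx
    rw [mem_coe] at hx hx'
    obtain ⟨e, he, v, v', z, z', hok, h2⟩ := ht x hx
    obtain ⟨f, hf, w, w', a, a', hok', h3⟩ := ht x' hx'
    have hxy := (mem_inter.1 hx).1
    have hxy' := (mem_inter.1 hx').1
    have h4 : (y, t x) ∈ tk ch e := by
      rw [hok.mem_tk]
      rcases h2 with ⟨h2, h2'⟩ | ⟨h2, h2'⟩
      · exact Or.inl ⟨h2 ▸ hxy, h2'⟩
      · exact Or.inr ⟨h2 ▸ hxy, h2'⟩
    have h5 : (y, t x) ∈ tk ch f := by
      rw [hok'.mem_tk, hxx]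
      rcases h3 with ⟨h3, h3'⟩ | ⟨h3, h3'⟩
      · exact Or.inl ⟨h3 ▸ hxy', h3'⟩
      · exact Or.inr ⟨h3 ▸ hxy', h3'⟩
    have hef : e = f := by
      by_contra hne
      exact Finset.disjoint_left.1 (disj_vt.1 (hcmp e he f hf hne)).2 h4 h5
    subst hef
    obtain ⟨e1, e2⟩ := elm_uniq hok hok'
    rw [e1, e2] at h3
    rcases h2 with ⟨h2, h2'⟩ | ⟨h2, h2'⟩ <;> rcases h3 with ⟨h3, h3'⟩ | ⟨h3, h3'⟩
    · rw [h2, h3]
    · exfalso
      rw [h2] at hxy
      rw [h3] at hxy'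
      exact hok.tok y hxy hxy' (by rw [← h2', ← h3', hxx])
    · exfalso
      rw [h2] at hxy
      rw [h3] at hxy'
      exact hok.tok y hxy' hxy (by rw [← h2', ← h3', hxx])
    · rw [h2, h3]
  have h2 := Finset.card_le_card_of_injOn t (t := (univ : Finset (Fin 5)))
    (fun x _ => mem_coe.2 (mem_univ _)) hinj
  rwa [Finset.card_univ, Fintype.card_fin] at h2

/-- The data of a vertex of `ch y ∩ (Ov I \ I.biUnion pts)`. -/
private theorem elm_np (hc : Chd G h lev ch) {I : Finset (El V r)}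
    (hI : ∀ e ∈ I, IsEl G h ch e) {y x : V} (hx : x ∈ ch y ∩ (Ov I \ I.biUnion pts)) :
    ∃ e ∈ I, x ∈ vs e ∧ x ∉ pts e ∧ x ∈ ch y ∧ y ∈ vs e := by
  rw [mem_inter, mem_sdiff] at hx
  obtain ⟨hxy, hxO, hxp⟩ := hx
  unfold Ov at hxO
  obtain ⟨e, he, hxe⟩ := mem_biUnion.1 hxO
  have hnp : x ∉ pts e := fun h1 => hxp (mem_biUnion.2 ⟨e, he, h1⟩)
  obtain ⟨v, v', z, z', hok⟩ := hI e he
  exact ⟨e, he, hxe, hnp, hxy, (hok.next hc hxe hxe hnp hnp hxy hxy).2⟩

/-- Proof: such an `x` is on a member `e` of `I` containing `y` (Ok.next); there is only one such member, and on it only one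
such `x`. -/
theorem nonports_card (hc : Chd G h lev ch) {I : Finset (El V r)} (hI : ∀ e ∈ I, IsEl G h ch e)
    (hcmp : Cmp ch I) (y : V) : (ch y ∩ (Ov I \ I.biUnion pts)).card ≤ 1 := by
  rw [Finset.card_le_one]
  intro x hx x' hx'
  obtain ⟨e, he, h1, h2, h3, h4⟩ := elm_np hc hI hx
  obtain ⟨f, hf, g1, g2, g3, g4⟩ := elm_np hc hI hx'
  have hef : e = f := by
    by_contra hne
    exact Finset.disjoint_left.1 (disj_vt.1 (hcmp e he f hf hne)).1 h4 g4
  subst hef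
  obtain ⟨v, v', z, z', hok⟩ := hI e he
  exact (hok.next hc h1 g1 h2 g2 h3 g3).1

/-- Proof: Ok.next -/
theorem nonports_empty (hc : Chd G h lev ch) {I : Finset (El V r)} (hI : ∀ e ∈ I, IsEl G h ch e)
    (y : V) (hy : y ∉ Ov I) : ch y ∩ (Ov I \ I.biUnion pts) = ∅ := by
  refine Finset.eq_empty_of_forall_notMem fun x hx => hy ?_
  obtain ⟨e, he, -, -, -, h4⟩ := elm_np hc hI hx
  unfold Ov
  exact mem_biUnion.2 ⟨e, he, h4⟩

/-- Proof: at most three of the five tokens `(y, t)` are used. -/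
theorem free_tokens (O : Finset (El V r)) (y : V) (hy : cnt ch O y ≤ 3) :
    ∃ t t' : Fin 5, t ≠ t' ∧ ∀ f ∈ O, (y, t) ∉ tk ch f ∧ (y, t') ∉ tk ch f := by
  obtain ⟨U, hU⟩ : ∃ U : Finset (Fin 5), U = O.biUnion fun f =>
    ((tk ch f).filter (fun c => c.1 = y)).image Prod.snd := ⟨_, rfl⟩
  have h1 : U.card ≤ 3 := by
    refine le_trans ?_ hy
    rw [hU]
    refine Finset.card_biUnion_le.trans ?_
    unfold cnt
    exact Finset.sum_le_sum fun f _ => Finset.card_image_le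
  have h2 : 1 < (univ \ U).card := by
    have h3 := Finset.card_sdiff_add_card_eq_card (Finset.subset_univ U)
    rw [Finset.card_univ, Fintype.card_fin] at h3
    omega
  obtain ⟨t, ht, t', ht', hne⟩ := Finset.one_lt_card.1 h2
  have h3 : ∀ t ∈ univ \ U, ∀ f ∈ O, (y, t) ∉ tk ch f := by
    intro t ht f hf hyt
    refine (mem_sdiff.1 ht).2 ?_
    rw [hU]
    exact mem_biUnion.2 ⟨f, hf, mem_image.2 ⟨(y, t), mem_filter.2 ⟨hyt, rfl⟩, rfl⟩⟩
  exact ⟨t, t', hne, fun f hf => ⟨h3 t ht f hf, h3 t' ht' f hf⟩⟩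

/-- An element has at most two tokens. -/
private theorem elm_tk (hc : Chd G h lev ch) (he : IsEl G h ch e) : (tk ch e).card ≤ 2 := by
  classical
  obtain ⟨v, v', z, z', hok⟩ := he
  obtain ⟨A, hA⟩ : ∃ A, A = (tk ch e).filter (fun c => v ∈ ch c.1 ∧ c.2 = e.t) := ⟨_, rfl⟩
  obtain ⟨B, hB⟩ : ∃ B, B = (tk ch e).filter (fun c => v' ∈ ch c.1 ∧ c.2 = e.u) := ⟨_, rfl⟩
  have hA1 : A.card ≤ 1 := by
    rw [Finset.card_le_one, hA]
    intro a ha b hb
    obtain ⟨-, ha1, ha2⟩ := mem_filter.1 ha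
    obtain ⟨-, hb1, hb2⟩ := mem_filter.1 hb
    exact Prod.ext (hc.uniq _ _ _ ha1 hb1) (ha2.trans hb2.symm)
  have hB1 : B.card ≤ 1 := by
    rw [Finset.card_le_one, hB]
    intro a ha b hb
    obtain ⟨-, ha1, ha2⟩ := mem_filter.1 ha
    obtain ⟨-, hb1, hb2⟩ := mem_filter.1 hb
    exact Prod.ext (hc.uniq _ _ _ ha1 hb1) (ha2.trans hb2.symm)
  have h1 : tk ch e ⊆ A ∪ B := by
    intro c hcc
    rw [mem_union, hA, hB, mem_filter, mem_filter]
    rcases hok.mem_tk.1 hcc with h2 | h2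
    · exact Or.inl ⟨hcc, h2⟩
    · exact Or.inr ⟨hcc, h2⟩
  have h2 := (Finset.card_le_card h1).trans (Finset.card_union_le A B)
  omega

/-- Proof: every element has at most two tokens, `sum over y of cnt ≤ 2 * O.card`. -/
theorem exhausted_card {O : Finset (El V r)} (hO : ∀ e ∈ O, IsEl G h ch e)
    (hc : Chd G h lev ch) : 2 * (univ.filter (fun y => 4 ≤ cnt ch O y)).card ≤ O.card := by
  have h1 : ∑ y, cnt ch O y = ∑ f ∈ O, (tk ch f).card := by
    unfold cnt
    rw [Finset.sum_comm]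
    refine Finset.sum_congr rfl fun f _ => ?_
    exact (Finset.card_eq_sum_card_fiberwise (f := fun c : V × Fin 5 => c.1) (t := univ)
      (fun c _ => mem_coe.2 (mem_univ _))).symm
  have h2 : ∑ f ∈ O, (tk ch f).card ≤ O.card * 2 := by
    rw [← smul_eq_mul]
    exact Finset.sum_le_card_nsmul O _ 2 fun f hf => elm_tk hc (hO f hf)
  have h3 : (univ.filter (fun y => 4 ≤ cnt ch O y)).card * 4 ≤ ∑ y, cnt ch O y := by
    rw [← smul_eq_mul]
    refine (Finset.card_nsmul_le_sum (univ.filter (fun y => 4 ≤ cnt ch O y)) (cnt ch O) 4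
      fun y hy => (mem_filter.1 hy).2).trans ?_
    exact Finset.sum_le_sum_of_subset (Finset.filter_subset _ _)
  omega

end Pool.Agent.RamV
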