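import Pool.Agent.Lib.MP_078aef_co_v.Defs
import Pool.Agent.Lib.MP_078aef_co_h.Hax

/-! Haxell's theorem with reroutings. -/

set_option autoImplicit false
set_option linter.unusedSectionVars false

namespace Pool.Agent.RamV

open Finset Pool.Agent.RamseyHam Pool.Agent.RamQ Pool.Agent.RamH

section hax

variable {V ι F M : Type*} [DecidableEq V] [DecidableEq ι] [Field F] [AddCommGroup M] [Module F M]

/-- the elements of `I` meeting a member of `es` -/
private def QQ (vt : ι → Finset V) (I : Finset ι) (es : List ι) : Finset ι :=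
  I.filter (fun f => ∃ e ∈ es, ¬ Disjoint (vt f) (vt e))

private theorem mem_QQ {vt : ι → Finset V} {I : Finset ι} {es : List ι} {f : ι} :
    f ∈ QQ vt I es ↔ f ∈ I ∧ ∃ e ∈ es, ¬ Disjoint (vt f) (vt e) := by
  simp [QQ]

/-- chains, newest element first -/
private def Ch (F : Type*) {V ι M : Type*} [DecidableEq V] [DecidableEq ι] [Field F]
    [AddCommGroup M] [Module F M] (E : Finset ι) (vt : ι → Finset V) (vc : ι → M)
    (I : Finset ι) : List ι → Prop
  | [] => True
  | e :: es => Ch F E vt vc I es ∧ e ∈ E ∧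
      vc e ∉ Submodule.span F (vc '' ((I \ QQ vt I es : Finset ι) : Set ι)) ∧
      (∀ x ∈ es, Disjoint (vt e) (vt x)) ∧ (∀ f ∈ QQ vt I es, Disjoint (vt e) (vt f)) ∧
      ∀ x ∈ es, (QQ vt I [x]).Nonempty

/-- independent and pairwise disjoint -/
private def Gd0 (F : Type*) {V ι M : Type*} [DecidableEq V] [DecidableEq ι] [Field F]
    [AddCommGroup M] [Module F M] (E : Finset ι) (vt : ι → Finset V) (vc : ι → M)
    (I : Finset ι) : Prop :=
  I ⊆ E ∧ (∀ e ∈ I, ∀ f ∈ I, e ≠ f → Disjoint (vt e) (vt f)) ∧ LinearIndepOn F vc (I : Set ι)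

/-- the potential -/
private def gain (vt : ι → Finset V) (R : ℕ) (I : Finset ι) : List ι → ℕ
  | [] => 0
  | e :: es => gain vt R I es + (R + 1 - (QQ vt I [e]).card) * (R + 2) ^ (R - es.length)

private theorem span_fun {vc : ι → M} {I : Finset ι} {x : M}
    (h : x ∈ Submodule.span F (vc '' (I : Set ι))) : ∃ a : ι → F, ∑ g ∈ I, a g • vc g = x := by
  obtain ⟨c, hc⟩ := (Submodule.mem_span_image_finset_iff_exists_fun F).1 h
  refine ⟨fun i => if h : i ∈ I then c ⟨i, h⟩ else 0, ?_⟩
  rw [← hc, ← Finset.sum_coe_sort I]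
  refine Finset.sum_congr rfl fun i _ => ?_
  simp

private theorem fun_span {vc : ι → M} {I : Finset ι} {a : ι → F} {S : Set ι}
    (h : ∀ g ∈ I, a g ≠ 0 → g ∈ S) : ∑ g ∈ I, a g • vc g ∈ Submodule.span F (vc '' S) := by
  refine Submodule.sum_mem _ fun g hg => ?_
  by_cases h0 : a g = 0
  · rw [h0, zero_smul]
    exact Submodule.zero_mem _
  · exact Submodule.smul_mem _ _ (Submodule.subset_span ⟨g, h g hg h0, rfl⟩)

private theorem QQ_cons {vt : ι → Finset V} {I : Finset ι} {e : ι} {es : List ι} :
    QQ vt I (e :: es) = QQ vt I [e] ∪ QQ vt I es := by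
  ext f
  simp only [mem_QQ, mem_union, List.mem_cons, List.not_mem_nil, or_false]
  constructor
  · rintro ⟨hf, x, rfl | hx, hd⟩
    · exact Or.inl ⟨hf, x, rfl, hd⟩
    · exact Or.inr ⟨hf, x, hx, hd⟩
  · rintro (⟨hf, x, hx, hd⟩ | ⟨hf, x, hx, hd⟩)
    · exact ⟨hf, x, Or.inl hx, hd⟩
    · exact ⟨hf, x, Or.inr hx, hd⟩

private theorem QQ_sub {vt : ι → Finset V} {I : Finset ι} {es : List ι} : QQ vt I es ⊆ I :=
  filter_subset _ _

private theorem Ch.app {E : Finset ι} {vt : ι → Finset V} {vc : ι → M} {I : Finset ι} :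
    ∀ {p l : List ι}, Ch F E vt vc I (p ++ l) → Ch F E vt vc I l
  | [], _, h => h
  | _ :: p, _, h => Ch.app (p := p) h.1

private theorem Ch.mem {E : Finset ι} {vt : ι → Finset V} {vc : ι → M} {I : Finset ι} :
    ∀ {l : List ι}, Ch F E vt vc I l → ∀ x ∈ l, x ∈ E
  | [], _, x, hx => absurd hx (List.not_mem_nil)
  | e :: l, h, x, hx => by
    rcases List.mem_cons.1 hx with rfl | hx
    · exact h.2.1
    · exact Ch.mem h.1 x hx

private theorem Ch.card {E : Finset ι} {vt : ι → Finset V} {vc : ι → M} {I : Finset ι} :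
    ∀ {l : List ι}, Ch F E vt vc I l → (∀ x ∈ l, (QQ vt I [x]).Nonempty) →
      l.length ≤ (QQ vt I l).card
  | [], _, _ => Nat.zero_le _
  | e :: l, h, h' => by
    have h1 := Ch.card h.1 fun x hx => h' x (List.mem_cons_of_mem _ hx)
    have h2 : Disjoint (QQ vt I [e]) (QQ vt I l) := by
      rw [Finset.disjoint_left]
      intro f hf hf'
      obtain ⟨-, x, hx, hd⟩ := mem_QQ.1 hf
      rw [List.mem_singleton] at hx
      subst hx
      exact hd (h.2.2.2.2.1 f hf').symm
    have h3 := Finset.card_pos.2 (h' e List.mem_cons_self)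
    rw [QQ_cons, card_union_of_disjoint h2, List.length_cons]
    omega

private theorem Ch.len {E : Finset ι} {vt : ι → Finset V} {vc : ι → M} {I : Finset ι} {R : ℕ}
    (hI : I.card < R) : ∀ {l : List ι}, Ch F E vt vc I l → l.length ≤ R
  | [], _ => Nat.zero_le _
  | e :: l, h => by
    have h1 := Ch.card h.1 h.2.2.2.2.2
    have h2 : (QQ vt I l).card ≤ I.card := card_le_card QQ_sub
    rw [List.length_cons]
    omega

private theorem gain_app (vt : ι → Finset V) (R : ℕ) (I : Finset ι) (l : List ι) :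
    ∀ p : List ι, (p ++ l).length ≤ R →
      gain vt R I (p ++ l) + (R + 2) ^ (R - (p ++ l).length + 1) ≤
        gain vt R I l + (R + 2) ^ (R - l.length + 1)
  | [], _ => le_refl _
  | a :: p, h => by
    have h0 : (p ++ l).length + 1 ≤ R := h
    have h1 := gain_app vt R I l p (by omega)
    refine le_trans ?_ h1
    have h2 : R - (a :: p ++ l).length + 1 = R - (p ++ l).length := by
      have : (a :: p ++ l).length = (p ++ l).length + 1 := rfl
      omega
    rw [h2]
    change gain vt R I (p ++ l) + (R + 1 - (QQ vt I [a]).card) * (R + 2) ^ (R - (p ++ l).length) +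
      (R + 2) ^ (R - (p ++ l).length) ≤ _
    rw [pow_succ, add_assoc]
    apply Nat.add_le_add_left
    have h3 : R + 1 - (QQ vt I [a]).card ≤ R + 1 := Nat.sub_le _ _
    calc (R + 1 - (QQ vt I [a]).card) * (R + 2) ^ (R - (p ++ l).length) +
          (R + 2) ^ (R - (p ++ l).length)
        ≤ (R + 1) * (R + 2) ^ (R - (p ++ l).length) + (R + 2) ^ (R - (p ++ l).length) := by
          gcongr
      _ = (R + 2) ^ (R - (p ++ l).length) * (R + 2) := by ring

/-- the oldest element of the chain met by the circuit -/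
private theorem oldest {vt : ι → Finset V} {I : Finset ι} {P : ι → Prop} :
    ∀ l : List ι, (∃ g ∈ QQ vt I l, P g) → ∃ p x old, l = p ++ x :: old ∧
      (∃ g ∈ QQ vt I [x], P g) ∧ ∀ g ∈ QQ vt I old, ¬ P g
  | [], h => by
    obtain ⟨g, hg, -⟩ := h
    obtain ⟨-, x, hx, -⟩ := mem_QQ.1 hg
    exact absurd hx List.not_mem_nil
  | a :: l, h => by
    by_cases h1 : ∃ g ∈ QQ vt I l, P g
    · obtain ⟨p, x, old, rfl, h2, h3⟩ := oldest l h1
      exact ⟨a :: p, x, old, rfl, h2, h3⟩
    · obtain ⟨g, hg, hP⟩ := h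
      rw [QQ_cons, mem_union] at hg
      refine ⟨[], a, l, rfl, ⟨g, ?_, hP⟩, fun g' hg' hP' => h1 ⟨g', hg', hP'⟩⟩
      rcases hg with hg | hg
      · exact hg
      · exact absurd ⟨g, hg, hP⟩ h1

private theorem QQ_exch {vt : ι → Finset V} {I : Finset ι} {f e : ι} {l : List ι}
    (he : ∀ x ∈ l, Disjoint (vt e) (vt x)) :
    QQ vt (insert e (I.erase f)) l = (QQ vt I l).erase f := by
  ext g
  simp only [mem_QQ, mem_erase, mem_insert]
  constructor
  · rintro ⟨rfl | ⟨hg, hg'⟩, x, hx, hd⟩
    · exact absurd (he x hx) hd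
    · exact ⟨hg, hg', x, hx, hd⟩
  · rintro ⟨hg, hg', x, hx, hd⟩
    exact ⟨Or.inr ⟨hg, hg'⟩, x, hx, hd⟩

private theorem span_exch {vt : ι → Finset V} {vc : ι → M} {I : Finset ι} {f e : ι} {a : ι → F}
    {l : List ι} (hsum : ∑ g ∈ I, a g • vc g = vc e) (he : ∀ x ∈ l, Disjoint (vt e) (vt x))
    (ha : ∀ g ∈ QQ vt I l, a g = 0) (hf : f ∉ QQ vt I l) {y : M}
    (hy : y ∉ Submodule.span F (vc '' ((I \ QQ vt I l : Finset ι) : Set ι))) :
    y ∉ Submodule.span F (vc '' ((insert e (I.erase f) \ QQ vt (insert e (I.erase f)) l :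
      Finset ι) : Set ι)) := by
  intro hcon
  apply hy
  rw [QQ_exch he, erase_eq_of_notMem hf] at hcon
  refine Submodule.span_le.2 ?_ hcon
  rintro z ⟨g, hg, rfl⟩
  rw [mem_coe, mem_sdiff, mem_insert, mem_erase] at hg
  obtain ⟨rfl | ⟨hg1, hg2⟩, hg3⟩ := hg
  · rw [← hsum]
    refine fun_span fun g hg h0 => ?_
    rw [mem_coe, mem_sdiff]
    exact ⟨hg, fun h => h0 (ha g h)⟩
  · refine Submodule.subset_span ⟨g, ?_, rfl⟩
    rw [mem_coe, mem_sdiff]
    exact ⟨hg2, hg3⟩

private theorem Ch.exch {E : Finset ι} {vt : ι → Finset V} {vc : ι → M} {I : Finset ι} {f e : ι}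
    {a : ι → F} (hsum : ∑ g ∈ I, a g • vc g = vc e) :
    ∀ {l : List ι}, Ch F E vt vc I l → (∀ x ∈ l, Disjoint (vt e) (vt x)) →
      (∀ g ∈ QQ vt I l, a g = 0) → f ∉ QQ vt I l → Ch F E vt vc (insert e (I.erase f)) l
  | [], _, _, _, _ => trivial
  | b :: l, h, he, ha, hf => by
    have he' : ∀ x ∈ l, Disjoint (vt e) (vt x) := fun x hx => he x (List.mem_cons_of_mem _ hx)
    rw [QQ_cons] at ha hf
    rw [mem_union, not_or] at hf
    have ha' : ∀ g ∈ QQ vt I l, a g = 0 := fun g hg => ha g (mem_union_right _ hg)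
    refine ⟨Ch.exch hsum h.1 he' ha' hf.2, h.2.1, span_exch hsum he' ha' hf.2 h.2.2.1,
      h.2.2.2.1, ?_, ?_⟩
    · intro g hg
      rw [QQ_exch he'] at hg
      exact h.2.2.2.2.1 g (mem_of_mem_erase hg)
    · intro x hx
      rw [QQ_exch (fun y hy => by
        rw [List.mem_singleton] at hy
        rw [hy]
        exact he' x hx)]
      have h1 : f ∉ QQ vt I [x] := by
        intro h2
        apply hf.2
        obtain ⟨h3, y, hy, hd⟩ := mem_QQ.1 h2
        rw [List.mem_singleton] at hy
        rw [hy] at hd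
        exact mem_QQ.2 ⟨h3, x, hx, hd⟩
      rw [erase_eq_of_notMem h1]
      exact h.2.2.2.2.2 x hx

private theorem gain_congr {vt : ι → Finset V} {R : ℕ} {I J : Finset ι} :
    ∀ {l : List ι}, (∀ x ∈ l, (QQ vt I [x]).card = (QQ vt J [x]).card) →
      gain vt R I l = gain vt R J l
  | [], _ => rfl
  | b :: l, h => by
    have h1 := gain_congr (R := R) (l := l) fun x hx => h x (List.mem_cons_of_mem _ hx)
    change gain vt R I l + (R + 1 - (QQ vt I [b]).card) * (R + 2) ^ (R - l.length) =
      gain vt R J l + (R + 1 - (QQ vt J [b]).card) * (R + 2) ^ (R - l.length)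
    rw [h1, h b List.mem_cons_self]

private theorem Bl_eq (vt : ι → Finset V) (I : Finset ι) (es : List ι) :
    Bl vt I es.toFinset = QQ vt I es := by
  ext f
  simp [Bl, mem_QQ]

private theorem QQ_mono {vt : ι → Finset V} {I : Finset ι} {l es : List ι} (h : ∀ x ∈ l, x ∈ es) :
    QQ vt I l ⊆ QQ vt I es := by
  intro f hf
  obtain ⟨h1, x, hx, hd⟩ := mem_QQ.1 hf
  exact mem_QQ.2 ⟨h1, x, h x hx, hd⟩

/-- the members of a chain are pairwise disjoint -/
private theorem Ch.pw {E : Finset ι} {vt : ι → Finset V} {vc : ι → M} {I : Finset ι} :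
    ∀ {l : List ι}, Ch F E vt vc I l → ∀ x ∈ l, ∀ y ∈ l, x ≠ y → Disjoint (vt x) (vt y)
  | [], _, x, hx => absurd hx List.not_mem_nil
  | e :: l, h, x, hx => by
    intro y hy hxy
    rcases List.mem_cons.1 hx with hx1 | hx1
    · rcases List.mem_cons.1 hy with hy1 | hy1
      · exact absurd (hx1.trans hy1.symm) hxy
      · rw [hx1]
        exact h.2.2.2.1 y hy1
    · rcases List.mem_cons.1 hy with hy1 | hy1
      · rw [hy1]
        exact (h.2.2.2.1 x hx1).symm
      · exact Ch.pw h.1 x hx1 y hy1 hxy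

/-- the members of a chain are not in `I` -/
private theorem Ch.not_mem {E : Finset ι} {vt : ι → Finset V} {vc : ι → M} {I : Finset ι} :
    ∀ {l : List ι}, Ch F E vt vc I l → ∀ x ∈ l, x ∉ I
  | [], _, x, hx => absurd hx List.not_mem_nil
  | e :: l, h, x, hx => by
    rcases List.mem_cons.1 hx with rfl | hx
    · intro hI
      apply h.2.2.1
      refine Submodule.subset_span ⟨x, ?_, rfl⟩
      rw [mem_coe, mem_sdiff]
      refine ⟨hI, fun h' => ?_⟩
      obtain ⟨-, y, hy, hd⟩ := mem_QQ.1 h'
      exact hd (h.2.2.2.1 y hy)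
    · exact Ch.not_mem h.1 x hx

/-- a rerouting does not change the spans -/
private theorem span_im {vc : ι → M} {ρ : ι → ι} {I I0 A : Finset ι}
    (h0 : I0 ⊆ A) (hA : A ⊆ I) (hfix : ∀ f ∈ I0, ρ f = f)
    (hmv : ∀ f ∈ I, vc (ρ f) - vc f ∈ Submodule.span F (vc '' ((I0 : Finset ι) : Set ι))) :
    Submodule.span F (vc '' ((A.image ρ : Finset ι) : Set ι)) =
      Submodule.span F (vc '' ((A : Finset ι) : Set ι)) := by
  have h1 : Submodule.span F (vc '' ((I0 : Finset ι) : Set ι)) ≤
      Submodule.span F (vc '' ((A : Finset ι) : Set ι)) :=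
    Submodule.span_mono (Set.image_mono (by exact_mod_cast h0))
  have h2 : Submodule.span F (vc '' ((I0 : Finset ι) : Set ι)) ≤
      Submodule.span F (vc '' ((A.image ρ : Finset ι) : Set ι)) := by
    apply Submodule.span_mono
    apply Set.image_mono
    intro f hf
    rw [mem_coe] at hf ⊢
    exact mem_image.2 ⟨f, h0 hf, hfix f hf⟩
  apply le_antisymm
  · rw [Submodule.span_le]
    rintro z ⟨f', hf', rfl⟩
    rw [mem_coe, mem_image] at hf'
    obtain ⟨f, hf, rfl⟩ := hf'
    have h3 := h1 (hmv f (hA hf))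
    have h4 : vc f ∈ Submodule.span F (vc '' ((A : Finset ι) : Set ι)) :=
      Submodule.subset_span ⟨f, hf, rfl⟩
    have h5 := Submodule.add_mem _ h3 h4
    rwa [sub_add_cancel] at h5
  · rw [Submodule.span_le]
    rintro z ⟨f, hf, rfl⟩
    have h3 := h2 (hmv f (hA hf))
    have h4 : vc (ρ f) ∈ Submodule.span F (vc '' ((A.image ρ : Finset ι) : Set ι)) :=
      Submodule.subset_span ⟨ρ f, mem_coe.2 (mem_image_of_mem _ hf), rfl⟩
    have h5 := Submodule.sub_mem _ h4 h3
    rwa [sub_sub_cancel] at h5

/-- independence is kept -/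
private theorem indep_im {vc : ι → M} {ρ : ι → ι} {I : Finset ι}
    (hinj : Set.InjOn ρ (I : Set ι)) (hI : LinearIndepOn F vc (I : Set ι))
    (hs : Submodule.span F (vc '' ((I.image ρ : Finset ι) : Set ι)) =
      Submodule.span F (vc '' ((I : Finset ι) : Set ι))) :
    LinearIndepOn F vc ((I.image ρ : Finset ι) : Set ι) := by
  have h1 : ∀ J : Finset ι, LinearIndepOn F vc (J : Set ι) ↔
      J.card = Module.finrank F (Submodule.span F (vc '' (J : Set ι))) := by
    intro J
    have h2 := linearIndependent_iff_card_eq_finrank_span (R := F)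
      (b := fun x : (J : Set ι) => vc x)
    have h3 : Set.range (fun x : (J : Set ι) => vc x) = vc '' (J : Set ι) := by
      ext z
      simp
    rw [h3] at h2
    have h4 : Fintype.card (J : Set ι) = J.card := by simp
    rw [h4] at h2
    exact h2
  rw [h1] at hI ⊢
  rw [hs, ← hI, card_image_of_injOn hinj]

/-- the situation of the extension step -/
private structure Sit (F : Type*) {V ι M : Type*} [DecidableEq V] [DecidableEq ι] [Field F]
    [AddCommGroup M] [Module F M] (E : Finset ι) (vt : ι → Finset V) (vc : ι → M)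
    (I : Finset ι) (es : List ι) (ρ : ι → ι) (g : ι) : Prop where
  ne : ∀ e ∈ E, (vt e).Nonempty
  gd : Gd0 F E vt vc I
  ch : Ch F E vt vc I es
  all : ∀ x ∈ es, (QQ vt I [x]).Nonempty
  mem : g ∈ E
  new : vc g ∉ Submodule.span F (vc '' ((I \ QQ vt I es : Finset ι) : Set ι))
  fix : ∀ f ∈ I \ QQ vt I es, ρ f = f
  inE : ∀ f ∈ I, ρ f ∈ E
  inE' : ∀ f ∈ es, ρ f ∈ E
  mv : ∀ f ∈ I, vc (ρ f) - vc f ∈ Submodule.span F (vc '' ((I \ QQ vt I es : Finset ι) : Set ι))
  mv' : ∀ f ∈ es, vc (ρ f) - vc f ∈ Submodule.span F (vc '' ((I \ QQ vt I es : Finset ι) : Set ι))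
  dg : ∀ f ∈ QQ vt I es, Disjoint (vt g) (vt (ρ f))
  dg' : ∀ f ∈ es, Disjoint (vt g) (vt (ρ f))
  dII : ∀ x ∈ I, ∀ y ∈ I, Disjoint (vt x) (vt y) → Disjoint (vt (ρ x)) (vt (ρ y))
  dIe : ∀ x ∈ I, ∀ y ∈ es, Disjoint (vt x) (vt y) → Disjoint (vt (ρ x)) (vt (ρ y))
  dee : ∀ x ∈ es, ∀ y ∈ es, Disjoint (vt x) (vt y) → Disjoint (vt (ρ x)) (vt (ρ y))

private theorem Sit.inj {E : Finset ι} {vt : ι → Finset V} {vc : ι → M} {I : Finset ι}
    {es : List ι} {ρ : ι → ι} {g : ι} (h : Sit F E vt vc I es ρ g) : Set.InjOn ρ (I : Set ι) := by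
  intro x hx y hy hxy
  by_contra hne
  have h1 := h.dII x hx y hy (h.gd.2.1 x hx y hy hne)
  rw [hxy] at h1
  have h2 := h.ne _ (h.inE y hy)
  rw [disjoint_self] at h1
  exact h2.ne_empty h1

private theorem Sit.gd' {E : Finset ι} {vt : ι → Finset V} {vc : ι → M} {I : Finset ι}
    {es : List ι} {ρ : ι → ι} {g : ι} (h : Sit F E vt vc I es ρ g) : Gd0 F E vt vc (I.image ρ) := by
  refine ⟨?_, ?_, ?_⟩
  · intro f' hf'
    obtain ⟨f, hf, rfl⟩ := mem_image.1 hf'
    exact h.inE f hf
  · intro a ha b hb hab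
    obtain ⟨x, hx, rfl⟩ := mem_image.1 ha
    obtain ⟨y, hy, rfl⟩ := mem_image.1 hb
    exact h.dII x hx y hy (h.gd.2.1 x hx y hy fun hxy => hab (by rw [hxy]))
  · exact indep_im h.inj h.gd.2.2 (span_im sdiff_subset (Finset.Subset.refl I) h.fix h.mv)

/-- the blockers of rerouted chain members -/
private theorem Sit.bl {E : Finset ι} {vt : ι → Finset V} {vc : ι → M} {I : Finset ι}
    {es : List ι} {ρ : ι → ι} {g : ι} (h : Sit F E vt vc I es ρ g) {x : ι} (hx : x ∈ es) :
    QQ vt (I.image ρ) [ρ x] ⊆ (QQ vt I [x]).image ρ := by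
  intro f' hf'
  obtain ⟨h1, y, hy, hd⟩ := mem_QQ.1 hf'
  rw [List.mem_singleton] at hy
  rw [hy] at hd
  obtain ⟨f, hf, rfl⟩ := mem_image.1 h1
  refine mem_image.2 ⟨f, mem_QQ.2 ⟨hf, x, List.mem_singleton.2 rfl, fun hd' => hd ?_⟩, rfl⟩
  exact h.dIe f hf x hx hd'

/-- the blockers of a rerouted part of the chain without change -/
private theorem Sit.bls {E : Finset ι} {vt : ι → Finset V} {vc : ι → M} {I : Finset ι}
    {es : List ι} {ρ : ι → ι} {g : ι} (h : Sit F E vt vc I es ρ g) {l : List ι}
    (hl : ∀ x ∈ l, QQ vt (I.image ρ) [ρ x] = (QQ vt I [x]).image ρ) :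
    QQ vt (I.image ρ) (l.map ρ) = (QQ vt I l).image ρ := by
  induction l with
  | nil => ext f; simp [mem_QQ]
  | cons a l ih =>
    rw [List.map_cons, QQ_cons, hl a List.mem_cons_self,
      ih fun x hx => hl x (List.mem_cons_of_mem _ hx), QQ_cons (e := a) (es := l), image_union]

private theorem Sit.span {E : Finset ι} {vt : ι → Finset V} {vc : ι → M} {I : Finset ι}
    {es : List ι} {ρ : ι → ι} {g : ι} (h : Sit F E vt vc I es ρ g) {l : List ι}
    (hle : ∀ x ∈ l, x ∈ es)
    (hl : ∀ x ∈ l, QQ vt (I.image ρ) [ρ x] = (QQ vt I [x]).image ρ) :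
    Submodule.span F (vc '' ((I.image ρ \ QQ vt (I.image ρ) (l.map ρ) : Finset ι) : Set ι)) =
      Submodule.span F (vc '' ((I \ QQ vt I l : Finset ι) : Set ι)) := by
  rw [h.bls hl, ← image_sdiff_of_injOn h.inj QQ_sub]
  exact span_im (sdiff_subset_sdiff (Finset.Subset.refl I) (QQ_mono hle)) sdiff_subset h.fix h.mv

/-- the rerouted chain -/
private theorem Sit.chain {E : Finset ι} {vt : ι → Finset V} {vc : ι → M} {I : Finset ι}
    {es : List ι} {ρ : ι → ι} {g : ι} (h : Sit F E vt vc I es ρ g) : ∀ {l : List ι},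
    Ch F E vt vc I l → (∀ x ∈ l, x ∈ es) →
    (∀ x ∈ l.tail, QQ vt (I.image ρ) [ρ x] = (QQ vt I [x]).image ρ) →
    Ch F E vt vc (I.image ρ) (l.map ρ)
  | [], _, _, _ => trivial
  | e :: l, hc, hle, hl => by
    have hl' : ∀ x ∈ l, QQ vt (I.image ρ) [ρ x] = (QQ vt I [x]).image ρ := hl
    have hle' : ∀ x ∈ l, x ∈ es := fun x hx => hle x (List.mem_cons_of_mem _ hx)
    have hee : e ∈ es := hle e List.mem_cons_self
    refine ⟨h.chain hc.1 hle' (fun x hx => hl' x (List.mem_of_mem_tail hx)), h.inE' e hee, ?_, ?_,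
      ?_, ?_⟩
    · rw [h.span hle' hl']
      intro hcon
      apply hc.2.2.1
      have h1 : Submodule.span F (vc '' ((I \ QQ vt I es : Finset ι) : Set ι)) ≤
          Submodule.span F (vc '' ((I \ QQ vt I l : Finset ι) : Set ι)) := by
        apply Submodule.span_mono
        apply Set.image_mono
        exact_mod_cast sdiff_subset_sdiff (Finset.Subset.refl I) (QQ_mono hle')
      have h2 := Submodule.sub_mem _ hcon (h1 (h.mv' e hee))
      rwa [sub_sub_cancel] at h2
    · intro x' hx'
      obtain ⟨x, hx, rfl⟩ := List.mem_map.1 hx'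
      exact h.dee e hee x (hle' x hx) (hc.2.2.2.1 x hx)
    · intro f' hf'
      rw [h.bls hl'] at hf'
      obtain ⟨f, hf, rfl⟩ := mem_image.1 hf'
      exact (h.dIe f (QQ_sub hf) e hee (hc.2.2.2.2.1 f hf).symm).symm
    · intro x' hx'
      obtain ⟨x, hx, rfl⟩ := List.mem_map.1 hx'
      rw [hl' x hx]
      exact (hc.2.2.2.2.2 x hx).image _

private theorem Sit.gain {E : Finset ι} {vt : ι → Finset V} {vc : ι → M} {I : Finset ι}
    {es : List ι} {ρ : ι → ι} {g : ι} (h : Sit F E vt vc I es ρ g) {R : ℕ} : ∀ {l : List ι},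
    (∀ x ∈ l, QQ vt (I.image ρ) [ρ x] = (QQ vt I [x]).image ρ) →
    gain vt R (I.image ρ) (l.map ρ) = gain vt R I l
  | [], _ => rfl
  | b :: l, hl => by
    have h1 := h.gain (R := R) (l := l) fun x hx => hl x (List.mem_cons_of_mem _ hx)
    change RamV.gain vt R (I.image ρ) (l.map ρ) + (R + 1 - (QQ vt (I.image ρ) [ρ b]).card) *
      (R + 2) ^ (R - (l.map ρ).length) =
      RamV.gain vt R I l + (R + 1 - (QQ vt I [b]).card) * (R + 2) ^ (R - l.length)
    rw [h1, hl b List.mem_cons_self, List.length_map, card_image_of_injOn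
      (h.inj.mono (by exact_mod_cast QQ_sub))]

/-- the oldest member with a property -/
private theorem oldest' {P : ι → Prop} : ∀ l : List ι, (∃ x ∈ l, P x) →
    ∃ p x old, l = p ++ x :: old ∧ P x ∧ ∀ y ∈ old, ¬ P y
  | [], h => by
    obtain ⟨x, hx, -⟩ := h
    exact absurd hx List.not_mem_nil
  | a :: l, h => by
    by_cases h1 : ∃ x ∈ l, P x
    · obtain ⟨p, x, old, rfl, h2, h3⟩ := oldest' l h1
      exact ⟨a :: p, x, old, rfl, h2, h3⟩
    · obtain ⟨x, hx, hP⟩ := h
      rcases List.mem_cons.1 hx with rfl | hx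
      · exact ⟨[], x, l, rfl, hP, fun y hy hPy => h1 ⟨y, hy, hPy⟩⟩
      · exact absurd ⟨x, hx, hP⟩ h1

private theorem ext_step (E : Finset ι) (vt : ι → Finset V) (vc : ι → M) (R k : ℕ)
    (hne : ∀ e ∈ E, (vt e).Nonempty)
    (hyp : ∀ I Es : Finset ι, I ⊆ E → Es ⊆ E → Disjoint I Es →
      (∀ e ∈ I, ∀ f ∈ I, e ≠ f → Disjoint (vt e) (vt f)) →
      (∀ e ∈ Es, ∀ f ∈ Es, e ≠ f → Disjoint (vt e) (vt f)) →
      LinearIndepOn F vc (I : Set ι) → I.card < R → Es.card ≤ (Bl vt I Es).card →
      ∃ (ρ : ι → ι) (g : ι), Rer F E vt vc I Es ρ g)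
    (hk : k < R) (I : Finset ι) (es : List ι)
    (hI : Gd0 F E vt vc I) (hIk : I.card = k) (hC : Ch F E vt vc I es)
    (hall : ∀ x ∈ es, (QQ vt I [x]).Nonempty) :
    ∃ (J : Finset ι) (fs : List ι), Gd0 F E vt vc J ∧ J.card = k ∧ Ch F E vt vc J fs ∧
      gain vt R I es < gain vt R J fs := by
  obtain ⟨ρ, g, hR⟩ := hyp I es.toFinset hI.1 (fun x hx => Ch.mem hC x (List.mem_toFinset.1 hx))
    (by
      rw [Finset.disjoint_right]
      intro x hx
      exact Ch.not_mem hC x (List.mem_toFinset.1 hx))
    hI.2.1 (fun x hx y hy => Ch.pw hC x (List.mem_toFinset.1 hx) y (List.mem_toFinset.1 hy))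
    hI.2.2 (by omega) (by
      rw [Bl_eq]
      exact (es.toFinset_card_le).trans (Ch.card hC hall))
  have hmz : ∀ f ∈ I \ QQ vt I es, vc (ρ f) - vc f ∈
      Submodule.span F (vc '' ((I \ QQ vt I es : Finset ι) : Set ι)) := by
    intro f hf
    have h1 := hR.fix f (by rw [Bl_eq]; exact hf)
    rw [h1, sub_self]
    exact Submodule.zero_mem _
  have hocc := hR.occ
  rw [Bl_eq] at hocc
  have hS : Sit F E vt vc I es ρ g :=
    { ne := hne
      gd := hI
      ch := hC
      all := hall
      mem := hR.mem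
      new := by
        have := hR.new
        rwa [Bl_eq] at this
      fix := by
        have := hR.fix
        rwa [Bl_eq] at this
      inE := by
        intro f hf
        by_cases h : f ∈ QQ vt I es
        · exact (hocc f (mem_union_left _ h)).1
        · have h1 := hR.fix f (by rw [Bl_eq]; exact mem_sdiff.2 ⟨hf, h⟩)
          rw [h1]
          exact hI.1 hf
      inE' := fun f hf => (hocc f (mem_union_right _ (List.mem_toFinset.2 hf))).1
      mv := by
        intro f hf
        by_cases h : f ∈ QQ vt I es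
        · exact (hocc f (mem_union_left _ h)).2.1
        · exact hmz f (mem_sdiff.2 ⟨hf, h⟩)
      mv' := fun f hf => (hocc f (mem_union_right _ (List.mem_toFinset.2 hf))).2.1
      dg := fun f hf => (hocc f (mem_union_left _ hf)).2.2
      dg' := fun f hf => (hocc f (mem_union_right _ (List.mem_toFinset.2 hf))).2.2
      dII := fun x hx y hy => hR.disj x (mem_union_left _ hx) y (mem_union_left _ hy)
      dIe := fun x hx y hy => hR.disj x (mem_union_left _ hx) y
        (mem_union_right _ (List.mem_toFinset.2 hy))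
      dee := fun x hx y hy => hR.disj x (mem_union_right _ (List.mem_toFinset.2 hx)) y
        (mem_union_right _ (List.mem_toFinset.2 hy)) }
  have hJk : (I.image ρ).card = k := by rw [card_image_of_injOn hS.inj, hIk]
  by_cases hex : ∃ x ∈ es, QQ vt (I.image ρ) [ρ x] ≠ (QQ vt I [x]).image ρ
  · -- a blocker set shrinks
    obtain ⟨p, x, old, hes, hx, hold⟩ := oldest' es hex
    have hold' : ∀ y ∈ old, QQ vt (I.image ρ) [ρ y] = (QQ vt I [y]).image ρ :=
      fun y hy => not_not.1 (hold y hy)
    have hsub : ∀ y ∈ x :: old, y ∈ es := by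
      intro y hy
      rw [hes]
      exact List.mem_append_right _ hy
    have hCx : Ch F E vt vc I (x :: old) := by
      have h1 := hC
      rw [hes] at h1
      exact Ch.app h1
    refine ⟨I.image ρ, (x :: old).map ρ, hS.gd', hJk, hS.chain hCx hsub hold', ?_⟩
    have hlen : (p ++ x :: old).length ≤ R := by
      have h1 : es.length ≤ R := Ch.len (by omega) hC
      rwa [hes] at h1
    have hg1 := gain_app vt R I (x :: old) p hlen
    have hxe : x ∈ es := hsub x List.mem_cons_self
    have hlt : (QQ vt (I.image ρ) [ρ x]).card < (QQ vt I [x]).card := by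
      have h1 : QQ vt (I.image ρ) [ρ x] ⊂ (QQ vt I [x]).image ρ :=
        (Finset.ssubset_iff_subset_ne).2 ⟨hS.bl hxe, hx⟩
      exact (card_lt_card h1).trans_le card_image_le
    have hQI : (QQ vt I [x]).card ≤ I.card := card_le_card QQ_sub
    have hg2 : gain vt R I (x :: old) + (R + 2) ^ (R - old.length) ≤
        gain vt R (I.image ρ) ((x :: old).map ρ) := by
      change gain vt R I old + (R + 1 - (QQ vt I [x]).card) * (R + 2) ^ (R - old.length) +
          (R + 2) ^ (R - old.length) ≤
        gain vt R (I.image ρ) (old.map ρ) + (R + 1 - (QQ vt (I.image ρ) [ρ x]).card) *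
          (R + 2) ^ (R - (old.map ρ).length)
      rw [hS.gain hold', List.length_map, add_assoc, ← Nat.succ_mul]
      apply Nat.add_le_add_left
      apply Nat.mul_le_mul_right
      omega
    have hg4 : R - (x :: old).length + 1 = R - old.length := by
      have h1 : (p ++ x :: old).length = p.length + old.length + 1 := by
        simp only [List.length_cons, List.length_append]
        omega
      rw [List.length_cons]
      omega
    rw [hg4] at hg1
    have hg5 : 0 < (R + 2) ^ (R - (p ++ x :: old).length + 1) := by positivity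
    rw [hes]
    omega
  · -- the chain is extended
    push Not at hex
    refine ⟨I.image ρ, g :: es.map ρ, hS.gd', hJk, ⟨hS.chain hC (fun x hx => hx)
      (fun x hx => hex x (List.mem_of_mem_tail hx)), hS.mem, ?_, ?_, ?_, ?_⟩, ?_⟩
    · rw [hS.span (fun x hx => hx) hex]
      exact hS.new
    · intro x' hx'
      obtain ⟨x, hx, rfl⟩ := List.mem_map.1 hx'
      exact hS.dg' x hx
    · intro f' hf'
      rw [hS.bls hex] at hf'
      obtain ⟨f, hf, rfl⟩ := mem_image.1 hf'
      exact hS.dg f hf
    · intro x' hx'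
      obtain ⟨x, hx, rfl⟩ := List.mem_map.1 hx'
      rw [hex x hx]
      exact (hall x hx).image _
    · change _ < gain vt R (I.image ρ) (es.map ρ) + _
      rw [hS.gain hex]
      have h1 : (QQ vt (I.image ρ) [g]).card ≤ (I.image ρ).card := card_le_card QQ_sub
      have h2 : 0 < (R + 1 - (QQ vt (I.image ρ) [g]).card) *
          (R + 2) ^ (R - (es.map ρ).length) :=
        Nat.mul_pos (by omega) (by positivity)
      omega

/-- one step: the potential can be increased -/
private theorem step (E : Finset ι) (vt : ι → Finset V) (vc : ι → M) (R k : ℕ)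
    (hne : ∀ e ∈ E, (vt e).Nonempty)
    (hyp : ∀ I Es : Finset ι, I ⊆ E → Es ⊆ E → Disjoint I Es →
      (∀ e ∈ I, ∀ f ∈ I, e ≠ f → Disjoint (vt e) (vt f)) →
      (∀ e ∈ Es, ∀ f ∈ Es, e ≠ f → Disjoint (vt e) (vt f)) →
      LinearIndepOn F vc (I : Set ι) → I.card < R → Es.card ≤ (Bl vt I Es).card →
      ∃ (ρ : ι → ι) (g : ι), Rer F E vt vc I Es ρ g)
    (hk : k < R) (hmax : ∀ J, Gd0 F E vt vc J → J.card ≤ k) (I : Finset ι) (es : List ι)
    (hI : Gd0 F E vt vc I) (hIk : I.card = k) (hC : Ch F E vt vc I es) :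
    ∃ (J : Finset ι) (fs : List ι), Gd0 F E vt vc J ∧ J.card = k ∧ Ch F E vt vc J fs ∧
      gain vt R I es < gain vt R J fs := by
  by_cases hall : ∀ x ∈ es, (QQ vt I [x]).Nonempty
  · -- extension
    exact ext_step E vt vc R k hne hyp hk I es hI hIk hC hall
  · -- exchange
    cases es with
    | nil => exact absurd (fun x hx => absurd hx List.not_mem_nil) hall
    | cons e es =>
      obtain ⟨hC0, heE, hspan, hd1, hd2, hne⟩ := hC
      have hme : QQ vt I [e] = ∅ := by
        rw [← Finset.not_nonempty_iff_eq_empty]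
        intro h
        apply hall
        intro x hx
        rcases List.mem_cons.1 hx with rfl | hx
        · exact h
        · exact hne x hx
      have hdI : ∀ g ∈ I, Disjoint (vt g) (vt e) := by
        intro g hg
        by_contra hcon
        have : g ∈ QQ vt I [e] := mem_QQ.2 ⟨hg, e, List.mem_singleton.2 rfl, hcon⟩
        rw [hme] at this
        exact absurd this (notMem_empty _)
      have heI : e ∉ I := by
        intro h
        apply hspan
        refine Submodule.subset_span ⟨e, ?_, rfl⟩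
        rw [mem_coe, mem_sdiff]
        refine ⟨h, fun h' => ?_⟩
        obtain ⟨-, x, hx, hd⟩ := mem_QQ.1 h'
        exact hd (hd1 x hx)
      have hin : vc e ∈ Submodule.span F (vc '' (I : Set ι)) := by
        by_contra hcon
        have h1 : Gd0 F E vt vc (insert e I) := by
          refine ⟨insert_subset heE hI.1, ?_, ?_⟩
          · intro a ha b hb hab
            rw [mem_insert] at ha hb
            rcases ha with rfl | ha <;> rcases hb with rfl | hb
            · exact absurd rfl hab
            · exact (hdI b hb).symm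
            · exact hdI a ha
            · exact hI.2.1 a ha b hb hab
          · rw [coe_insert]
            exact hI.2.2.insert hcon
        have h2 := hmax _ h1
        rw [card_insert_of_notMem heI] at h2
        omega
      obtain ⟨a, ha⟩ := span_fun hin
      have hex : ∃ g ∈ QQ vt I es, a g ≠ 0 := by
        by_contra hcon
        push Not at hcon
        apply hspan
        rw [← ha]
        refine fun_span fun g hg h0 => ?_
        rw [mem_coe, mem_sdiff]
        exact ⟨hg, fun h => h0 (hcon g h)⟩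
      obtain ⟨p, x, old, rfl, ⟨f, hf, haf⟩, hold⟩ := oldest (P := fun g => a g ≠ 0) es hex
      have hold' : ∀ g ∈ QQ vt I old, a g = 0 := fun g hg => not_not.1 (hold g hg)
      obtain ⟨hfI, x', hx', hfx⟩ := mem_QQ.1 hf
      rw [List.mem_singleton] at hx'
      subst hx'
      have hCx : Ch F E vt vc I (x' :: old) := Ch.app hC0
      have hfold : f ∉ QQ vt I old := fun h => hfx (hCx.2.2.2.2.1 f h).symm
      have heold : ∀ y ∈ old, Disjoint (vt e) (vt y) := fun y hy =>
        hd1 y (List.mem_append_right _ (List.mem_cons_of_mem _ hy))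
      have hex' : Disjoint (vt e) (vt x') :=
        hd1 x' (List.mem_append_right _ List.mem_cons_self)
      have hex1 : ∀ y ∈ [x'], Disjoint (vt e) (vt y) := by
        intro y hy
        rw [List.mem_singleton] at hy
        rw [hy]
        exact hex'
      have hefI : e ∉ I.erase f := fun h => heI (mem_of_mem_erase h)
      have hJcard : (insert e (I.erase f)).card = k := by
        rw [card_insert_of_notMem hefI, card_erase_of_mem hfI]
        have := Finset.card_pos.2 ⟨f, hfI⟩
        omega
      have hGJ : Gd0 F E vt vc (insert e (I.erase f)) := by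
        refine ⟨insert_subset heE ((erase_subset _ _).trans hI.1), ?_, ?_⟩
        · intro b hb c hc hbc
          rw [mem_insert] at hb hc
          rcases hb with rfl | hb <;> rcases hc with rfl | hc
          · exact absurd rfl hbc
          · exact (hdI c (mem_of_mem_erase hc)).symm
          · exact hdI b (mem_of_mem_erase hb)
          · exact hI.2.1 b (mem_of_mem_erase hb) c (mem_of_mem_erase hc) hbc
        · rw [coe_insert]
          refine (hI.2.2.mono (by exact_mod_cast erase_subset f I)).insert ?_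
          intro hcon
          have h1 : vc f ∉ Submodule.span F (vc '' ((I.erase f : Finset ι) : Set ι)) := by
            have h2 : LinearIndepOn F vc (insert f ((I.erase f : Finset ι) : Set ι)) := by
              rw [← coe_insert, insert_erase hfI]
              exact hI.2.2
            exact h2.notMem_span_of_insert (by simp)
          apply h1
          have h2 : a f • vc f = vc e - ∑ g ∈ I.erase f, a g • vc g := by
            rw [← ha, ← Finset.add_sum_erase I _ hfI]
            abel
          have h3 : a f • vc f ∈ Submodule.span F (vc '' ((I.erase f : Finset ι) : Set ι)) := by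
            rw [h2]
            refine Submodule.sub_mem _ hcon (fun_span fun g hg _ => ?_)
            exact mem_coe.2 hg
          have h4 := Submodule.smul_mem _ (a f)⁻¹ h3
          rwa [smul_smul, inv_mul_cancel₀ haf, one_smul] at h4
      have hCJ : Ch F E vt vc (insert e (I.erase f)) (x' :: old) := by
        refine ⟨Ch.exch ha hCx.1 heold hold' hfold, hCx.2.1,
          span_exch ha heold hold' hfold hCx.2.2.1, hCx.2.2.2.1, ?_, ?_⟩
        · intro g hg
          rw [QQ_exch heold] at hg
          exact hCx.2.2.2.2.1 g (mem_of_mem_erase hg)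
        · intro y hy
          rw [QQ_exch (fun z hz => by
            rw [List.mem_singleton] at hz
            rw [hz]
            exact heold y hy)]
          have h1 : f ∉ QQ vt I [y] := by
            intro h2
            apply hfold
            obtain ⟨h3, z, hz, hd⟩ := mem_QQ.1 h2
            rw [List.mem_singleton] at hz
            rw [hz] at hd
            exact mem_QQ.2 ⟨h3, y, hy, hd⟩
          rw [erase_eq_of_notMem h1]
          exact hCx.2.2.2.2.2 y hy
      refine ⟨insert e (I.erase f), x' :: old, hGJ, hJcard, hCJ, ?_⟩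
      have hlen : (e :: p ++ x' :: old).length ≤ R := by
        have : Ch F E vt vc I (e :: (p ++ x' :: old)) := ⟨hC0, heE, hspan, hd1, hd2, hne⟩
        exact Ch.len (by omega) this
      have hg1 := gain_app vt R I (x' :: old) (e :: p) hlen
      have hg2 : gain vt R (insert e (I.erase f)) old = gain vt R I old := by
        apply gain_congr
        intro y hy
        rw [QQ_exch (fun z hz => by
          rw [List.mem_singleton] at hz
          rw [hz]
          exact heold y hy), erase_eq_of_notMem]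
        intro h2
        apply hfold
        obtain ⟨h3, z, hz, hd⟩ := mem_QQ.1 h2
        rw [List.mem_singleton] at hz
        rw [hz] at hd
        exact mem_QQ.2 ⟨h3, y, hy, hd⟩
      have hg3 : gain vt R (insert e (I.erase f)) (x' :: old) =
          gain vt R I (x' :: old) + (R + 2) ^ (R - old.length) := by
        change gain vt R (insert e (I.erase f)) old +
          (R + 1 - (QQ vt (insert e (I.erase f)) [x']).card) * (R + 2) ^ (R - old.length) =
          gain vt R I old + (R + 1 - (QQ vt I [x']).card) * (R + 2) ^ (R - old.length) +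
            (R + 2) ^ (R - old.length)
        rw [hg2, QQ_exch hex1, card_erase_of_mem hf]
        have h1 : (QQ vt I [x']).card ≤ I.card := card_le_card QQ_sub
        have h2 := Finset.card_pos.2 ⟨f, hf⟩
        have h3 : R + 1 - ((QQ vt I [x']).card - 1) = (R + 1 - (QQ vt I [x']).card) + 1 := by
          omega
        rw [h3]
        ring
      have hg4 : R - (x' :: old).length + 1 = R - old.length := by
        have h1 : (e :: p ++ x' :: old).length = p.length + old.length + 2 := by
          simp only [List.cons_append, List.length_cons, List.length_append]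
          omega
        rw [List.length_cons]
        omega
      rw [hg4] at hg1
      have hg5 : 0 < (R + 2) ^ (R - (e :: p ++ x' :: old).length + 1) := by positivity
      rw [hg3]
      have hg6 : e :: (p ++ x' :: old) = e :: p ++ x' :: old := rfl
      rw [hg6]
      omega

end hax

/-- Proof. Copy the private definitions and lemmas of Lib/MP_078aef_co_h/Hax.lean (QQ, Ch, Gd0, gain, gain_app, oldest,
QQ_exch, span_exch, Ch.exch, gain_congr and the exchange part of step).  Only the extension part of step changes.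
There all blockers `QQ I [x]`, `x ∈ es`, are nonempty; the members of `es` are pairwise disjoint and (as their `s` is
nonempty) different, `Es = es.toFinset`, `es.length = Es.card ≤ (QQ I es).card = (Bl s I Es).card` (Ch.card); `I` and `Es` are
disjoint (an `x ∈ es` which is in `I` is a member of `QQ I old` by the span condition, but it is disjoint from the members of
`QQ I old`).  Take `ρ`, `g` from `hyp`, `I' = I.image ρ`, `I0 = I \ Bl s I Es`, `S0 = span (v '' I0)`.
`ρ` is injective on `I` and on `Es` (different members are disjoint, so their images are disjoint and not empty); for every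
`A` with `I0 ⊆ A ⊆ I`: span (v '' (ρ '' A)) = span (v '' A) (`ρ = id` on `I0`, `v (ρ f) - v f ∈ S0`), and `I'` is independent
(a relation between the `v (ρ f)`, `f ∈ I`, gives one for the `v f` with the same coefficients outside `I0`).
For `x ∈ Es`: `QQ I' [ρ x] ⊆ (QQ I [x]).image ρ` (`disj`).
Case A: for some `x` in `es` the inclusion is strict; take the oldest such `x`, `es = p ++ x :: old`. Then for the members of `old`
the blockers of `ρ y` in `I'` are the images, `(ρ x) :: old.map ρ` is a chain for `I'` and `gain` is larger than for `(I, es)`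
(exactly as at the end of step: gain_app, and the blocker set of `ρ x` is smaller by at least one).
Case B: no such `x`: `g :: es.map ρ` is a chain for `I'` and its gain is larger. -/
theorem flex {W ι F M : Type*} [DecidableEq W] [DecidableEq ι] [Field F] [AddCommGroup M]
    [Module F M] (E : Finset ι) (s : ι → Finset W) (v : ι → M) (R : ℕ)
    (hne : ∀ e ∈ E, (s e).Nonempty)
    (hyp : ∀ I Es : Finset ι, I ⊆ E → Es ⊆ E → Disjoint I Es →
      (∀ e ∈ I, ∀ f ∈ I, e ≠ f → Disjoint (s e) (s f)) →
      (∀ e ∈ Es, ∀ f ∈ Es, e ≠ f → Disjoint (s e) (s f)) →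
      LinearIndepOn F v (I : Set ι) → I.card < R → Es.card ≤ (Bl s I Es).card →
      ∃ (ρ : ι → ι) (g : ι), Rer F E s v I Es ρ g) :
    ∃ I ⊆ E, (∀ e ∈ I, ∀ f ∈ I, e ≠ f → Disjoint (s e) (s f)) ∧
      LinearIndepOn F v (I : Set ι) ∧ I.card = R := by
  by_contra hcon
  have hlt : ∀ J, Gd0 F E s v J → J.card < R := by
    intro J hJ
    by_contra h
    obtain ⟨I, hIJ, hIc⟩ := Finset.exists_subset_card_eq (not_lt.1 h)
    exact hcon ⟨I, hIJ.trans hJ.1, fun e he f hf => hJ.2.1 e (hIJ he) f (hIJ hf),
      hJ.2.2.mono (by exact_mod_cast hIJ), hIc⟩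
  classical
  have h0 : Gd0 F E s v ∅ := by
    refine ⟨empty_subset _, fun e he => absurd he (notMem_empty _), ?_⟩
    rw [coe_empty]
    exact linearIndepOn_empty F v
  obtain ⟨I0, hI0, hI0max⟩ := Finset.exists_max_image (E.powerset.filter (Gd0 F E s v))
    Finset.card ⟨∅, mem_filter.2 ⟨mem_powerset.2 (empty_subset _), h0⟩⟩
  rw [mem_filter] at hI0
  have hmax : ∀ J, Gd0 F E s v J → J.card ≤ I0.card := fun J hJ =>
    hI0max J (mem_filter.2 ⟨mem_powerset.2 hJ.1, hJ⟩)
  have hk := hlt I0 hI0.2
  have main : ∀ n : ℕ, ∀ (I : Finset ι) (es : List ι), Gd0 F E s v I → I.card = I0.card →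
      Ch F E s v I es → (R + 2) ^ (R + 1) - gain s R I es = n → False := by
    intro n
    induction n using Nat.strong_induction_on with
    | _ n ih =>
      intro I es hI hIc hC hn
      obtain ⟨J, fs, hJ, hJc, hCJ, hlt'⟩ := step E s v R I0.card hne hyp hk hmax I es hI hIc hC
      refine ih ((R + 2) ^ (R + 1) - gain s R J fs) ?_ J fs hJ hJc hCJ rfl
      have h1 := gain_app s R J [] fs (by
        rw [List.append_nil]
        exact Ch.len (by omega) hCJ)
      rw [List.append_nil] at h1
      have h2 : gain s R J [] = 0 := rfl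
      have h3 : 0 < (R + 2) ^ (R - fs.length + 1) := by positivity
      have h4 : R - ([] : List ι).length + 1 = R + 1 := rfl
      rw [h2, h4] at h1
      omega
  exact main _ I0 [] hI0.2 rfl trivial rfl

end Pool.Agent.RamV
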