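import Pool.Agent.Lib.MP_078aef_co_v.Defs

/-! Symmetric exchange of bases. -/

namespace Pool.Agent.RamV

open Finset Pool.Agent.RamseyHam Pool.Agent.RamQ Pool.Agent.RamH

section swap

variable {ι F M : Type*} [DecidableEq ι] [Field F] [AddCommGroup M] [Module F M]

/-- `B` is a basis of the subspace `W` -/
structure BasOf (v : ι → M) (W : Submodule F M) (B : Finset ι) : Prop where
  ind : LinearIndepOn F v (B : Set ι)
  span : Submodule.span F (v '' (B : Set ι)) = W

private theorem exch_one {v : ι → M} {W : Submodule F M} {T : Finset ι} (hT : BasOf v W T)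
    {e f : ι} (he : e ∈ T) (hf : v f ∈ W)
    (hfe : v f ∉ Submodule.span F (v '' ((T.erase e : Finset ι) : Set ι))) :
    BasOf v W (insert f (T.erase e)) := by
  have hins : insert e ((T.erase e : Finset ι) : Set ι) = (T : Set ι) := by
    rw [← coe_insert, insert_erase he]
  refine ⟨?_, ?_⟩
  · rw [coe_insert]
    exact (hT.ind.mono (by exact_mod_cast erase_subset e T)).insert hfe
  · -- the span
    apply le_antisymm
    · rw [Submodule.span_le]
      rintro _ ⟨x, hx, rfl⟩
      rw [mem_coe, mem_insert, mem_erase] at hx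
      rcases hx with rfl | hx
      · exact hf
      · rw [← hT.span]
        exact Submodule.subset_span ⟨x, hx.2, rfl⟩
    · rw [← hT.span, Submodule.span_le]
      have hfT : v f ∈ Submodule.span F (insert (v e) (v '' ((T.erase e : Finset ι) : Set ι))) := by
        rw [← Set.image_insert_eq, hins, hT.span]
        exact hf
      have key : v e ∈ Submodule.span F (insert (v f) (v '' ((T.erase e : Finset ι) : Set ι))) :=
        mem_span_insert_exchange hfT hfe
      rintro _ ⟨x, hx, rfl⟩
      rw [SetLike.mem_coe, coe_insert, Set.image_insert_eq]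
      by_cases hxe : x = e
      · rw [hxe]
        exact key
      · refine Submodule.span_mono (Set.subset_insert _ _) (Submodule.subset_span ⟨x, ?_, rfl⟩)
        rw [mem_coe, mem_erase]
        exact ⟨hxe, hx⟩

/-- symmetric exchange.
Proof: `v e` is a combination of the `v f`, `f ∈ T'`; not all `v f` with nonzero coefficient are in
`span (v '' (T.erase e))` (else `v e` is); take such an `f`; `f ∉ T` (it is not in `T.erase e`, and `f ≠ e` as `e ∉ T'`). -/
theorem sym_exchange {v : ι → M} {W : Submodule F M} {T T' : Finset ι} (hT : BasOf v W T)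
    (hT' : BasOf v W T') {e : ι} (he : e ∈ T) (he' : e ∉ T') :
    ∃ f ∈ T', f ∉ T ∧ BasOf v W (insert f (T.erase e)) ∧ BasOf v W (insert e (T'.erase f)) := by
  have hins : insert e ((T.erase e : Finset ι) : Set ι) = (T : Set ι) := by
    rw [← coe_insert, insert_erase he]
  have hve : v e ∉ Submodule.span F (v '' ((T.erase e : Finset ι) : Set ι)) := by
    have h2 : LinearIndepOn F v (insert e ((T.erase e : Finset ι) : Set ι)) := by
      rw [hins]
      exact hT.ind
    exact h2.notMem_span_of_insert (by simp)
  have heW : v e ∈ W := by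
    rw [← hT.span]
    exact Submodule.subset_span ⟨e, he, rfl⟩
  have heT' : v e ∈ Submodule.span F (v '' (T' : Set ι)) := by
    rw [hT'.span]
    exact heW
  obtain ⟨c, hc⟩ := (Submodule.mem_span_image_finset_iff_exists_fun F).1 heT'
  -- a member of `T'` with nonzero coefficient outside the span
  obtain ⟨f, hcf, hfs⟩ : ∃ f : T', c f ≠ 0 ∧
      v f ∉ Submodule.span F (v '' ((T.erase e : Finset ι) : Set ι)) := by
    by_contra hcon
    push Not at hcon
    apply hve
    rw [← hc]
    refine Submodule.sum_mem _ fun f _ => ?_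
    by_cases h0 : c f = 0
    · rw [h0, zero_smul]
      exact Submodule.zero_mem _
    · exact Submodule.smul_mem _ _ (hcon f h0)
  have hfW : v f ∈ W := by
    rw [← hT'.span]
    exact Submodule.subset_span ⟨f, f.2, rfl⟩
  have hfT : (f : ι) ∉ T := by
    intro h
    apply hfs
    refine Submodule.subset_span ⟨f, ?_, rfl⟩
    rw [mem_coe, mem_erase]
    exact ⟨fun h1 => he' (h1 ▸ f.2), h⟩
  refine ⟨f, f.2, hfT, exch_one hT he hfW hfs, exch_one hT' f.2 heW ?_⟩
  -- `v e` is not in the span of `T' - f`
  intro hcon
  have h2 : LinearIndepOn F v (insert (f : ι) ((T'.erase f : Finset ι) : Set ι)) := by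
    rw [← coe_insert, insert_erase f.2]
    exact hT'.ind
  apply h2.notMem_span_of_insert (by simp)
  have h3 : c f • v f = v e - ∑ g ∈ (univ.erase f), c g • v g := by
    rw [← hc, ← Finset.add_sum_erase univ _ (mem_univ f)]
    abel
  have h4 : c f • v f ∈ Submodule.span F (v '' ((T'.erase f : Finset ι) : Set ι)) := by
    rw [h3]
    refine Submodule.sub_mem _ hcon (Submodule.sum_mem _ fun g hg => ?_)
    refine Submodule.smul_mem _ _ (Submodule.subset_span ⟨g, ?_, rfl⟩)
    rw [mem_coe, mem_erase]
    exact ⟨fun h5 => (mem_erase.1 hg).1 (Subtype.ext h5), g.2⟩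
  have h5 := Submodule.smul_mem _ (c f)⁻¹ h4
  rwa [smul_smul, inv_mul_cancel₀ hcf, one_smul] at h5

end swap

end Pool.Agent.RamV
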