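import Pool.Agent.Lib.MP_078aef_co_v.GoalB
import Pool.Agent.Lib.MP_078aef_co_v.FairA

/-! The two notions of bases. -/

namespace Pool.Agent.RamV

open Finset Pool.Agent.RamseyHam Pool.Agent.RamQ Pool.Agent.RamH

variable {V : Type*} [Fintype V] [DecidableEq V] {m : ℕ} {G : SimpleGraph V}
  {h : V → Option (Fin m)} {ch : V → Finset V} {lev : V → ℕ}

/-- the space of the even vectors. Proof: `Bas.span` and Ok.ve_eq. -/
theorem Bas.basOf (hc : Chd G h lev ch) {r : ℕ} {B : Finset (El V r)} (hB : Bas h B)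
    (hel : ∀ e ∈ B, IsEl G h ch e) : BasOf (ve h) (Submodule.span (ZMod 2)
      {x : Fin m → ZMod 2 | ∃ i i', x = Pi.single i 1 + Pi.single i' 1}) B := by
  refine ⟨hB.ind, le_antisymm ?_ ?_⟩
  · rw [Submodule.span_le]
    rintro _ ⟨e, he, rfl⟩
    obtain ⟨v, v', z, z', hok⟩ := hel e he
    obtain ⟨i, hi⟩ := Option.ne_none_iff_exists'.1 hok.p.hub_end
    obtain ⟨i', hi'⟩ := Option.ne_none_iff_exists'.1 hok.q.hub_end
    refine Submodule.subset_span ⟨i, i', ?_⟩
    rw [hok.ve_eq hc]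
    unfold ev
    rw [hi, hi']
  · rw [Submodule.span_le]
    rintro _ ⟨i, i', rfl⟩
    exact hB.span i i'

/-- Proof: the converse. -/
theorem BasOf.bas {r : ℕ} {B : Finset (El V r)} (hB : BasOf (ve h) (Submodule.span (ZMod 2)
      {x : Fin m → ZMod 2 | ∃ i i', x = Pi.single i 1 + Pi.single i' 1}) B) : Bas h B := by
  refine ⟨hB.ind, fun i i' => ?_⟩
  rw [hB.span]
  exact Submodule.subset_span ⟨i, i', rfl⟩

end Pool.Agent.RamV
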