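import Pool.Agent.Lib.MP_078aef_co_v.NumU

/-! The union bound. -/

namespace Pool.Agent.RamV

open Finset Pool.Agent.RamseyHam Pool.Agent.RamQ Pool.Agent.RamH

private theorem geo_scales {w L : ℕ} {a : ℕ → ℕ} (hw : 2 ≤ w) (wa : ∀ i ≤ L, w ≤ a i)
    (sq : ∀ i < L, a (i + 1) ^ 2 ≤ a i) (i : ℕ) (hi : i ≤ L) :
    ∑ j ∈ range (i + 1), (1 / 2 : ℝ) ^ a j ≤ 2 * (1 / 2 : ℝ) ^ a i := by
  induction i with
  | zero =>
    rw [zero_add, sum_range_one]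
    have h0 : (0 : ℝ) ≤ (1 / 2 : ℝ) ^ a 0 := by positivity
    linarith
  | succ i ih =>
    have h1 := ih (by omega)
    rw [sum_range_succ]
    have h2 : a (i + 1) + 1 ≤ a i := by
      have h3 := sq i (by omega)
      have h4 := wa (i + 1) hi
      nlinarith
    have h5 : (1 / 2 : ℝ) ^ a i ≤ (1 / 2 : ℝ) ^ (a (i + 1) + 1) :=
      pow_le_pow_of_le_one (by norm_num) (by norm_num) h2
    rw [pow_succ] at h5
    linarith

/-- Proof: group the hubs by their level; at most `a j` hubs of level `j`; num_test; the numbers `a j`, `j ≤ L`, are strictly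
decreasing and at least `w ≥ 2`: `∑ j ∈ range (i+1), (1/2) ^ (a j) ≤ 2 * (1/2) ^ (a i)` by induction. -/
theorem sum_tests {w L m : ℕ} {a : ℕ → ℕ} {hl : Fin m → ℕ} (hw : 2 ^ 28 ≤ w)
    (wa : ∀ i ≤ L, w ≤ a i) (sq : ∀ i < L, a (i + 1) ^ 2 ≤ a i) (hll : ∀ i, hl i ≤ L)
    (hubs : ∀ j, (univ.filter (fun i => hl i = j)).card ≤ a j) :
    ∑ i, 2 * (a (hl i) : ℝ) ^ (62 * a (hl i) ^ 2) * (1 / 4 : ℝ) ^ (a (hl i) ^ 10 / 8) < 1 := by
  have hw2 : 2 ≤ w := le_trans (by norm_num) hw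
  obtain ⟨g, hg⟩ : ∃ g : ℕ → ℝ, ∀ j, g j =
      2 * (a j : ℝ) ^ (62 * a j ^ 2) * (1 / 4 : ℝ) ^ (a j ^ 10 / 8) := ⟨_, fun _ => rfl⟩
  have e1 : ∑ i, 2 * (a (hl i) : ℝ) ^ (62 * a (hl i) ^ 2) * (1 / 4 : ℝ) ^ (a (hl i) ^ 10 / 8) =
      ∑ i, g (hl i) := sum_congr rfl fun i _ => (hg _).symm
  have e2 : ∑ i, g (hl i) = ∑ j ∈ range (L + 1), ∑ i ∈ univ.filter (fun i => hl i = j), g (hl i) :=
    (sum_fiberwise_of_maps_to (fun i _ => mem_range.2 (Nat.lt_succ_of_le (hll i))) _).symm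
  have e3 : ∀ j ∈ range (L + 1), ∑ i ∈ univ.filter (fun i => hl i = j), g (hl i) ≤
      (1 / 2 : ℝ) ^ a j := by
    intro j hj
    have hj' : j ≤ L := Nat.lt_succ_iff.1 (mem_range.1 hj)
    have h1 : ∑ i ∈ univ.filter (fun i => hl i = j), g (hl i) =
        ((univ.filter (fun i => hl i = j)).card : ℝ) * g j := by
      rw [← nsmul_eq_mul, ← sum_const]
      exact sum_congr rfl fun i hi => by rw [(mem_filter.1 hi).2]
    have hg0 : 0 ≤ g j := by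
      rw [hg]
      positivity
    rw [h1]
    calc ((univ.filter (fun i => hl i = j)).card : ℝ) * g j ≤ (a j : ℝ) * g j :=
          mul_le_mul_of_nonneg_right (by exact_mod_cast hubs j) hg0
      _ = (a j : ℝ) * (2 * (a j : ℝ) ^ (62 * a j ^ 2)) * (1 / 4 : ℝ) ^ (a j ^ 10 / 8) := by
          rw [hg]
          ring
      _ ≤ _ := num_test (le_trans hw (wa j hj'))
  rw [e1, e2]
  refine lt_of_le_of_lt (sum_le_sum e3) (lt_of_le_of_lt (geo_scales hw2 wa sq L le_rfl) ?_)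
  have h2 : (1 / 2 : ℝ) ^ a L ≤ (1 / 2 : ℝ) ^ 2 :=
    pow_le_pow_of_le_one (by norm_num) (by norm_num) (le_trans hw2 (wa L le_rfl))
  norm_num at h2 ⊢
  linarith

end Pool.Agent.RamV
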