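import Pool.Agent.Lib.MP_078aef_co_v.Pack
import Pool.Agent.Lib.MP_078aef_co_v.NumV
import Pool.Agent.Lib.MP_078aef_co_v.Chi

/-! The tests. -/

namespace Pool.Agent.RamV

open Finset Pool.Agent.RamseyHam Pool.Agent.RamQ Pool.Agent.RamH

variable {V : Type*} [Fintype V] [DecidableEq V] {m : ℕ} {G : SimpleGraph V}
  {h : V → Option (Fin m)} {ch : V → Finset V} {lev : V → ℕ}

omit [Fintype V] in
private theorem ftwB_single {B N : Finset V} (hN : N ⊆ B) :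
    Pk B (N.image (fun u => ({u} : Finset V))) := by
  refine ⟨fun S hS => ?_, fun S hS => ?_, fun S hS => ?_, fun S hS S' hS' hne => ?_⟩
  · obtain ⟨u, hu, rfl⟩ := mem_image.1 hS
    exact singleton_subset_iff.2 (hN hu)
  · obtain ⟨u, hu, rfl⟩ := mem_image.1 hS
    exact singleton_nonempty u
  · obtain ⟨u, hu, rfl⟩ := mem_image.1 hS
    rw [card_singleton]
    omega
  · obtain ⟨u, hu, rfl⟩ := mem_image.1 hS
    obtain ⟨u', hu', rfl⟩ := mem_image.1 hS'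
    rw [disjoint_singleton]
    rintro rfl
    exact hne rfl

omit [Fintype V] in
private theorem ftwB_card_single (N : Finset V) : (N.image (fun u => ({u} : Finset V))).card = N.card :=
  card_image_of_injective _ fun _ _ hab => singleton_injective hab

/-- the tests: for every hub the packings for all pairs of independent sets and the neighbourhoods.
Proof: choose a packing for every pair `(P, Q)` (pack_exists), `𝔐 i` = these packings and the packings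
`(nb G v ∩ Hb h i).image (fun u => {u})`, `v ∈ Hb h i`; `(𝔐 i).card ≤ (|B|+1)^(2 al B) + |B| ≤ 2 * (|B|+1)^(2a) ≤ 2 * a ^ (62 a^2)`
(ind_card, hub_size with `hG.big`), every `M ∈ 𝔐 i` has `a ^ 10 ≤ 2 |M|`, so `a ^ 10 / 8 ≤ (|M| + 3) / 4`; sum_tests. -/
theorem tests_exist {K k w : ℕ} {N : ℕ → ℕ} (hN : Nm K k w N) (hG : Hy G K w N)
    {hl : Fin m → ℕ} {L : ℕ} {a : ℕ → ℕ} (hL : Lv G w h lev hl L a) :
    ∃ 𝔐 : Fin m → Finset (Finset (Finset V)),
      (∀ i, ∀ M ∈ 𝔐 i, Pk (Hb h i) M ∧ a (hl i) ^ 10 ≤ 2 * M.card) ∧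
      (∀ i, ∀ P Q : Finset V, P ⊆ Hb h i → Q ⊆ Hb h i → P.Nonempty → Q.Nonempty → Ind G P →
        Ind G Q → ∃ M ∈ 𝔐 i, ∀ S ∈ M, Kd G P Q S) ∧
      (∀ i, ∀ v ∈ Hb h i, (nb G v ∩ Hb h i).image (fun u => ({u} : Finset V)) ∈ 𝔐 i) ∧
      ∑ i, ∑ M ∈ 𝔐 i, (1 / 4 : ℝ) ^ ((M.card + 3) / 4) < 1 := by
  classical
  have hdeg : ∀ i, ∀ v ∈ Hb h i, a (hl i) ^ 10 ≤ (nb G v ∩ Hb h i).card := fun i v hv =>
    hL.deg v i (mem_Hb.1 hv)
  have key : ∀ (i : Fin m) (P Q : Finset V), ∃ M : Finset (Finset V),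
      P ⊆ Hb h i → Q ⊆ Hb h i → P.Nonempty → Q.Nonempty →
        Pk (Hb h i) M ∧ a (hl i) ^ 10 ≤ 2 * M.card ∧ ∀ S ∈ M, Kd G P Q S := by
    intro i P Q
    by_cases hc : P ⊆ Hb h i ∧ Q ⊆ Hb h i ∧ P.Nonempty ∧ Q.Nonempty
    · obtain ⟨M, hM⟩ := pack_exists (hL.rob i) (hdeg i) hc.1 hc.2.1 hc.2.2.1 hc.2.2.2
      exact ⟨M, fun _ _ _ _ => hM⟩
    · exact ⟨∅, fun h1 h2 h3 h4 => absurd ⟨h1, h2, h3, h4⟩ hc⟩
  choose f hf using key
  obtain ⟨I, hI⟩ : ∃ I : Fin m → Finset (Finset V), ∀ i,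
      I i = univ.filter (fun P => (P ⊆ Hb h i ∧ Ind G P) ∧ P.Nonempty) := ⟨_, fun _ => rfl⟩
  obtain ⟨A, hA⟩ : ∃ A : Fin m → Finset (Finset (Finset V)), ∀ i,
      A i = (I i ×ˢ I i).image (fun p => f i p.1 p.2) := ⟨_, fun _ => rfl⟩
  obtain ⟨C, hC⟩ : ∃ C : Fin m → Finset (Finset (Finset V)), ∀ i,
      C i = (Hb h i).image (fun v => (nb G v ∩ Hb h i).image (fun u => ({u} : Finset V))) :=
    ⟨_, fun _ => rfl⟩
  have memI : ∀ i P, P ∈ I i ↔ (P ⊆ Hb h i ∧ Ind G P) ∧ P.Nonempty := by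
    intro i P
    rw [hI, mem_filter]
    exact ⟨fun h => h.2, fun h => ⟨mem_univ _, h⟩⟩
  have hall : ∀ i, ∀ M ∈ A i ∪ C i, Pk (Hb h i) M ∧ a (hl i) ^ 10 ≤ 2 * M.card := by
    intro i M hM
    rcases mem_union.1 hM with hM | hM
    · rw [hA, mem_image] at hM
      obtain ⟨p, hp, rfl⟩ := hM
      rw [mem_product, memI, memI] at hp
      have h1 := hf i p.1 p.2 hp.1.1.1 hp.2.1.1 hp.1.2 hp.2.2
      exact ⟨h1.1, h1.2.1⟩
    · rw [hC, mem_image] at hM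
      obtain ⟨v, hv, rfl⟩ := hM
      refine ⟨ftwB_single inter_subset_right, ?_⟩
      rw [ftwB_card_single]
      have := hdeg i v hv
      omega
  refine ⟨fun i => A i ∪ C i, hall, ?_, ?_, ?_⟩
  · intro i P Q hP hQ hP' hQ' hPi hQi
    refine ⟨f i P Q, mem_union_left _ ?_, (hf i P Q hP hQ hP' hQ').2.2⟩
    rw [hA, mem_image]
    exact ⟨(P, Q), mem_product.2 ⟨(memI i P).2 ⟨⟨hP, hPi⟩, hP'⟩, (memI i Q).2 ⟨⟨hQ, hQi⟩, hQ'⟩⟩, rfl⟩
  · intro i v hv
    refine mem_union_right _ ?_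
    rw [hC, mem_image]
    exact ⟨v, hv, rfl⟩
  · refine lt_of_le_of_lt (sum_le_sum fun i _ => ?_) (sum_tests hN.two hL.wa hL.sq hL.hl_le hL.hubs)
    have haw : w ≤ a (hl i) := hL.wa _ (hL.hl_le i)
    have ha1 : 1 ≤ a (hl i) := le_trans (le_trans (by norm_num) hN.two) haw
    have hsz := hub_size hN haw (hL.al_le i) (hG.big (Hb h i))
    have hIc : (I i).card ≤ a (hl i) ^ (31 * a (hl i) ^ 2) := by
      have h1 : (I i).card ≤ (univ.filter (fun P : Finset V => P ⊆ Hb h i ∧ Ind G P)).card := by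
        refine card_le_card fun P hP => ?_
        exact mem_filter.2 ⟨mem_univ _, ((memI i P).1 hP).1⟩
      have h2 := ind_card G (Hb h i)
      rw [Nat.card_eq_fintype_card, Fintype.card_subtype] at h2
      calc (I i).card ≤ _ := h1
        _ ≤ ((Hb h i).card + 1) ^ (al G (Hb h i)) := h2
        _ ≤ ((Hb h i).card + 1) ^ (a (hl i)) := Nat.pow_le_pow_right (by omega) (hL.al_le i)
        _ ≤ (a (hl i) ^ (31 * a (hl i))) ^ (a (hl i)) := Nat.pow_le_pow_left hsz _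
        _ = a (hl i) ^ (31 * a (hl i) ^ 2) := by rw [← pow_mul]; congr 1; ring
    have hBc : (Hb h i).card ≤ a (hl i) ^ (62 * a (hl i) ^ 2) := by
      have h3 : a (hl i) ^ (31 * a (hl i)) ≤ a (hl i) ^ (62 * a (hl i) ^ 2) :=
        Nat.pow_le_pow_right ha1 (by nlinarith)
      omega
    have hcard : (A i ∪ C i).card ≤ 2 * a (hl i) ^ (62 * a (hl i) ^ 2) := by
      have h1 : (A i).card ≤ a (hl i) ^ (62 * a (hl i) ^ 2) := by
        rw [hA]
        refine card_image_le.trans ?_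
        rw [card_product]
        calc (I i).card * (I i).card ≤ a (hl i) ^ (31 * a (hl i) ^ 2) * a (hl i) ^ (31 * a (hl i) ^ 2) :=
              Nat.mul_le_mul hIc hIc
          _ = a (hl i) ^ (62 * a (hl i) ^ 2) := by rw [← pow_add]; congr 1; ring
      have h2 : (C i).card ≤ a (hl i) ^ (62 * a (hl i) ^ 2) := by
        rw [hC]
        exact card_image_le.trans hBc
      exact (card_union_le _ _).trans (by omega)
    have hterm : ∀ M ∈ A i ∪ C i, (1 / 4 : ℝ) ^ ((M.card + 3) / 4) ≤ (1 / 4 : ℝ) ^ (a (hl i) ^ 10 / 8) := by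
      intro M hM
      refine pow_le_pow_of_le_one (by norm_num) (by norm_num) ?_
      have := (hall i M hM).2
      omega
    calc ∑ M ∈ A i ∪ C i, (1 / 4 : ℝ) ^ ((M.card + 3) / 4)
        ≤ ∑ M ∈ A i ∪ C i, (1 / 4 : ℝ) ^ (a (hl i) ^ 10 / 8) := sum_le_sum hterm
      _ = ((A i ∪ C i).card : ℝ) * (1 / 4 : ℝ) ^ (a (hl i) ^ 10 / 8) := by
          rw [sum_const, nsmul_eq_mul]
      _ ≤ 2 * (a (hl i) : ℝ) ^ (62 * a (hl i) ^ 2) * (1 / 4 : ℝ) ^ (a (hl i) ^ 10 / 8) := by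
          refine mul_le_mul_of_nonneg_right ?_ (by positivity)
          exact_mod_cast hcard

end Pool.Agent.RamV
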