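import Pool.Agent.Lib.MP_078aef_co_v.FTwA
import Pool.Agent.Lib.MP_078aef_co_v.FTwB

/-! Two fair bases. -/

namespace Pool.Agent.RamV

open Finset Pool.Agent.RamseyHam Pool.Agent.RamQ Pool.Agent.RamH

variable {V : Type*} [Fintype V] [DecidableEq V] {m : ℕ} {G : SimpleGraph V}
  {h : V → Option (Fin m)} {ch : V → Finset V} {lev : V → ℕ}

private theorem ftwo_cmp {r : ℕ} {I J : Finset (El V r)} (hJ : Cmp ch J) (hI : I ⊆ J) : Cmp ch I :=
  fun e he f hf hef => hJ e (hI he) f (hI hf) hef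

/-- the children in the hub `i` -/
private theorem ftwo_child {K k w : ℕ} {N : ℕ → ℕ} (hN : Nm K k w N)
    {hl : Fin m → ℕ} {L : ℕ} {a : ℕ → ℕ} (hL : Lv G w h lev hl L a) (hc : Chd G h lev ch)
    (i : Fin m) : 16 * ((univ.biUnion ch) ∩ Hb h i).card ≤ a (hl i) ^ 10 / 4 := by
  have hsub : (univ.biUnion ch) ∩ Hb h i ⊆ (univ.filter (fun y => hl i < lev y)).biUnion ch := by
    intro x hx
    rw [mem_inter, mem_biUnion] at hx
    obtain ⟨⟨y, -, hxy⟩, hxi⟩ := hx
    rw [mem_biUnion]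
    refine ⟨y, mem_filter.2 ⟨mem_univ _, ?_⟩, hxy⟩
    have h1 := hc.lt y x hxy
    have h2 := hL.hlev x i (mem_Hb.1 hxi)
    omega
  rcases Nat.lt_or_ge (hl i) L with hlt | hge
  · have h1 := (card_le_card hsub).trans (children_card hN hL hc (hl i) hlt)
    have h2 : 2 ^ 28 ≤ a (hl i) := hN.two.trans (hL.wa _ (hL.hl_le i))
    have h3 : 1 ≤ a (hl i + 1) :=
      le_trans (by norm_num) (hN.two.trans (hL.wa (hl i + 1) hlt))
    have h4 := num_child h2 (hL.sq _ hlt) h3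
    omega
  · have h1 : (univ.filter (fun y => hl i < lev y)).biUnion ch = ∅ := by
      rw [filter_false_of_mem, biUnion_empty]
      intro y _
      have := hL.lev_le y
      omega
    rw [h1, subset_empty] at hsub
    rw [hsub, card_empty]
    omega

/-- the count for one packing -/
private theorem ftwo_count {B p1 p2 c : Finset V} {M : Finset (Finset V)} {A : ℕ} (hM : Pk B M)
    (hA : A ≤ 2 * M.card) (h1 : 4 * (M.filter (fun S => ¬ Disjoint S p1)).card < M.card)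
    (h2 : 4 * (M.filter (fun S => ¬ Disjoint S p2)).card < M.card)
    (hcb : 16 * (c ∩ B).card ≤ A / 4) :
    A / 16 ≤ (M.filter (fun S => Disjoint S (p1 ∪ p2 ∪ c))).card := by
  have hM' : Pk B (M.filter (fun S => Disjoint S (p1 ∪ p2))) :=
    ⟨fun S hS => hM.sub S (mem_filter.1 hS).1, fun S hS => hM.ne S (mem_filter.1 hS).1,
      fun S hS => hM.two S (mem_filter.1 hS).1,
      fun S hS S' hS' hne => hM.dis S (mem_filter.1 hS).1 S' (mem_filter.1 hS').1 hne⟩
  have h3 := hM'.card_sdiff c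
  have h4 : (M.filter (fun S => Disjoint S (p1 ∪ p2))).filter (fun S => Disjoint S c) =
      M.filter (fun S => Disjoint S (p1 ∪ p2 ∪ c)) := by
    rw [filter_filter]
    refine filter_congr fun S _ => ?_
    rw [disjoint_union_right (s := S) (t := p1 ∪ p2) (u := c)]
  rw [h4] at h3
  have h5 : M ⊆ M.filter (fun S => Disjoint S (p1 ∪ p2)) ∪
      (M.filter (fun S => ¬ Disjoint S p1) ∪ M.filter (fun S => ¬ Disjoint S p2)) := by
    intro S hS
    rw [mem_union, mem_union, mem_filter, mem_filter, mem_filter]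
    by_cases h6 : Disjoint S p1
    · by_cases h7 : Disjoint S p2
      · exact Or.inl ⟨hS, disjoint_union_right.2 ⟨h6, h7⟩⟩
      · exact Or.inr (Or.inr ⟨hS, h7⟩)
    · exact Or.inr (Or.inl ⟨hS, h6⟩)
  have h6 := (card_le_card h5).trans ((card_union_le _ _).trans
    (Nat.add_le_add_left (card_union_le _ _) _))
  omega

/-- Proof: `T` from bases; fair_pack for the colours `0..99` and for the colours `100..199` with the tests of tests_exist: `Fm`, `Fo`.
`U` = ports of `Fm ∪ Fo` and all children.  For `M ∈ 𝔐 i`: fewer than `|M|/4` members meet a port of `Fm`, fewer than `|M|/4` a port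
of `Fo`; the children in the hub `i` have parents of level `> hl i`: at most `80 * a (hl i + 1) ^ 11` vertices (children_card; none if
`hl i = L`): so at least `|M|/2 - 80 a'^11 ≥ a^10/16` members are disjoint from `U` (Pk.card_sdiff, num_child). rob_of_pack;
for the neighbourhoods count the members of the image. -/
theorem fair_two {K k w : ℕ} {N : ℕ → ℕ} (hN : Nm K k w N) (hk : 1 ≤ k) (hG : Hy G K w N)
    {hl : Fin m → ℕ} {L : ℕ} {a : ℕ → ℕ} (hL : Lv G w h lev hl L a) (hc : Chd G h lev ch)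
    (hm : 1 ≤ m) : ∃ Fm Fo : Finset (El V 200),
      (∀ e ∈ Fm ∪ Fo, IsEl G h ch e) ∧ Cmp ch (Fm ∪ Fo) ∧ Disjoint Fm Fo ∧ Bas h Fm ∧ Bas h Fo ∧
      ∀ i, Rb G (Hb h i \ ((Fm ∪ Fo).biUnion pts ∪ univ.biUnion ch)) (a (hl i) ^ 10 / 16) ∧
        ∀ v ∈ Hb h i, a (hl i) ^ 10 / 16 ≤
          (nb G v ∩ (Hb h i \ ((Fm ∪ Fo).biUnion pts ∪ univ.biUnion ch))).card := by
  classical
  obtain ⟨T, hTel, hTd, hTc, hTb⟩ := bases hN hk hG hL hc hm
  obtain ⟨𝔐, hpk, hKd, hnb, hsum⟩ := tests_exist hN hG hL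
  have half : ∀ f : Fin 100 → Fin 200, Function.Injective f →
      ∃ B ⊆ univ.biUnion (fun j => T (f j)), Bas h B ∧ ∀ i, ∀ M ∈ 𝔐 i,
        4 * (M.filter (fun S => ¬ Disjoint S (B.biUnion pts))).card < M.card := by
    intro f hf
    have hsub : univ.biUnion (fun j => T (f j)) ⊆ univ.biUnion T := by
      intro e he
      obtain ⟨j, -, hj⟩ := mem_biUnion.1 he
      exact mem_biUnion.2 ⟨f j, mem_univ _, hj⟩
    obtain ⟨B, hB, hBb, hBM⟩ := fair_pack hc (fun j => T (f j)) (fun j e he => hTel _ e he)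
      (fun i j hij => hTd _ _ fun h => hij (hf h)) (ftwo_cmp hTc hsub)
      (fun j => (hTb (f j)).basOf hc (hTel (f j))) 𝔐 (fun i M hM => (hpk i M hM).1) hsum
    exact ⟨B, hB, hBb.bas, hBM⟩
  obtain ⟨Fm, hFm, hFmb, hFmM⟩ := half (fun j => ⟨j, by omega⟩) (fun i j hij => by
    have h0 := congrArg Fin.val hij
    exact Fin.ext h0)
  obtain ⟨Fo, hFo, hFob, hFoM⟩ := half (fun j => ⟨100 + j, by omega⟩) (fun i j hij => by
    have h0 : 100 + (i : ℕ) = 100 + j := congrArg Fin.val hij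
    exact Fin.ext (by omega))
  have hmT : ∀ e ∈ Fm ∪ Fo, e ∈ univ.biUnion T := by
    intro e he
    rcases mem_union.1 he with he | he
    · obtain ⟨j, -, hj⟩ := mem_biUnion.1 (hFm he)
      exact mem_biUnion.2 ⟨_, mem_univ _, hj⟩
    · obtain ⟨j, -, hj⟩ := mem_biUnion.1 (hFo he)
      exact mem_biUnion.2 ⟨_, mem_univ _, hj⟩
  refine ⟨Fm, Fo, ?_, ftwo_cmp hTc hmT, ?_, hFmb, hFob, fun i => ?_⟩
  · intro e he
    obtain ⟨j, -, hj⟩ := mem_biUnion.1 (hmT e he)
    exact hTel j e hj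
  · rw [disjoint_left]
    intro e he he'
    obtain ⟨j, -, hj⟩ := mem_biUnion.1 (hFm he)
    obtain ⟨j', -, hj'⟩ := mem_biUnion.1 (hFo he')
    refine disjoint_left.1 (hTd _ _ ?_) hj hj'
    intro h0
    have h1 : (j : ℕ) = 100 + j' := congrArg Fin.val h0
    omega
  have hcb := ftwo_child hN hL hc i
  have hpts : (Fm ∪ Fo).biUnion pts = Fm.biUnion pts ∪ Fo.biUnion pts := union_biUnion
  have key : ∀ M ∈ 𝔐 i, a (hl i) ^ 10 / 16 ≤ (M.filter (fun S => Disjoint S
      ((Fm ∪ Fo).biUnion pts ∪ univ.biUnion ch))).card := by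
    intro M hM
    rw [hpts]
    exact ftwo_count (hpk i M hM).1 (hpk i M hM).2 (hFmM i M hM) (hFoM i M hM) hcb
  refine ⟨rob_of_pack ?_ ?_, fun v hv => ?_⟩
  · rw [← card_pos]
    have h1 := (hL.rob i).1
    have h2 : 2 ^ 28 ≤ a (hl i) := hN.two.trans (hL.wa _ (hL.hl_le i))
    have h3 : 0 < a (hl i) ^ 10 := pow_pos (lt_of_lt_of_le (by norm_num) h2) 10
    omega
  · intro P Q hP hQ hP' hQ' hPi hQi
    obtain ⟨M, hM, hMk⟩ := hKd i P Q hP hQ hP' hQ' hPi hQi
    exact ⟨M, (hpk i M hM).1, hMk, key M hM⟩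
  · refine (key _ (hnb i v hv)).trans ?_
    have h1 : ((nb G v ∩ Hb h i).image (fun u => ({u} : Finset V))).filter (fun S => Disjoint S
        ((Fm ∪ Fo).biUnion pts ∪ univ.biUnion ch)) ⊆
        (nb G v ∩ (Hb h i \ ((Fm ∪ Fo).biUnion pts ∪ univ.biUnion ch))).image
          (fun u => ({u} : Finset V)) := by
      intro S hS
      rw [mem_filter, mem_image] at hS
      obtain ⟨⟨u, hu, rfl⟩, hd⟩ := hS
      rw [mem_inter] at hu
      refine mem_image.2 ⟨u, mem_inter.2 ⟨hu.1, mem_sdiff.2 ⟨hu.2, ?_⟩⟩, rfl⟩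
      exact disjoint_singleton_left.1 hd
    exact (card_le_card h1).trans card_image_le

end Pool.Agent.RamV
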