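import Pool.Agent.Lib.MP_078aef_co_v.FairC

/-! Fair bases by swap rounding. -/

namespace Pool.Agent.RamV

open Finset Pool.Agent.RamseyHam Pool.Agent.RamQ Pool.Agent.RamH

section swap

variable {ι F M : Type*} [DecidableEq ι] [Field F] [AddCommGroup M] [Module F M]

/-- the weight of an element in the average of disjoint sets -/
private theorem fair_avg (T : Fin 100 → Finset ι) (hd : ∀ i j, i ≠ j → Disjoint (T i) (T j)) (e : ι) :
    (∑ i, (1 / 100 : ℝ) * ind (T i) e) = if e ∈ univ.biUnion T then 1 / 100 else 0 := by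
  by_cases he : e ∈ univ.biUnion T
  · rw [if_pos he]
    obtain ⟨i, -, hi⟩ := Finset.mem_biUnion.1 he
    rw [Finset.sum_eq_single i]
    · unfold ind
      rw [if_pos hi, mul_one]
    · intro j _ hj
      have h1 : e ∉ T j := fun h => Finset.disjoint_left.1 (hd j i hj) h hi
      unfold ind
      rw [if_neg h1, mul_zero]
    · intro h
      exact absurd (Finset.mem_univ i) h
  · rw [if_neg he]
    refine Finset.sum_eq_zero fun i _ => ?_
    have h1 : e ∉ T i := fun h => he (Finset.mem_biUnion.2 ⟨i, Finset.mem_univ i, h⟩)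
    unfold ind
    rw [if_neg h1, mul_zero]

/-- the product for a multiple of the indicator of a set -/
private theorem fair_prod (S B : Finset ι) (c : ℝ) :
    ∏ e ∈ S, (1 + 7 * (if e ∈ B then c else 0)) = (1 + 7 * c) ^ (S ∩ B).card := by
  have h1 : ∀ e ∈ S, (1 + 7 * (if e ∈ B then c else 0)) = if e ∈ B then (1 + 7 * c) else 1 := by
    intro e _
    split_ifs <;> ring
  rw [Finset.prod_congr rfl h1, Finset.prod_ite_mem, Finset.prod_const]

/-- fair bases.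
Proof: merge_all with weights `1/100`, `y = 0`.  The bases are disjoint, so `∑ (1/100) 1_(T j) ≤ (1/100) 1_union` and the potential at
the start is at most `∑ (1/8)^t (1 + 7/100)^(8 t) ≤ ∑ (1/4)^t < 1` (`(107/100)^8 ≤ 2`).  At the end every term is less than 1:
`(1/8)^t * 8^|B ∩ S| < 1`. -/
theorem fair {v : ι → M} {W : Submodule F M} {κ : Type*} (Ω : Finset κ) (S : κ → Finset ι)
    (t : κ → ℕ) (T : Fin 100 → Finset ι) (hT : ∀ i, BasOf v W (T i))
    (hd : ∀ i j, i ≠ j → Disjoint (T i) (T j))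
    (hS : ∀ o ∈ Ω, (S o ∩ univ.biUnion T).card ≤ 8 * t o)
    (hsum : ∑ o ∈ Ω, (1 / 4 : ℝ) ^ (t o) < 1) :
    ∃ B ⊆ univ.biUnion T, BasOf v W B ∧ ∀ o ∈ Ω, (B ∩ S o).card < t o := by
  obtain ⟨B, hB, hBas, hpot⟩ := merge_all Ω S t 99 T (fun _ => (1 / 100 : ℝ)) (fun _ => by norm_num)
    hT (y := fun _ => 0) (fun _ => le_rfl)
  refine ⟨B, hB, hBas, fun o ho => ?_⟩
  -- the potential at the end
  have hend : ∀ o, (1 / 8 : ℝ) ^ (t o) * ∏ e ∈ S o,
      (1 + 7 * ((0 : ℝ) + (∑ _i : Fin (99 + 1), (1 / 100 : ℝ)) * ind B e)) =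
      (1 / 8 : ℝ) ^ (t o) * 8 ^ (S o ∩ B).card := by
    intro o
    have h1 : (∑ _i : Fin (99 + 1), (1 / 100 : ℝ)) = 1 := by
      rw [Finset.sum_const, Finset.card_univ, Fintype.card_fin]
      norm_num
    rw [h1]
    have h2 : ∏ e ∈ S o, (1 + 7 * ((0 : ℝ) + 1 * ind B e)) =
        ∏ e ∈ S o, (1 + 7 * (if e ∈ B then (1 : ℝ) else 0)) :=
      Finset.prod_congr rfl fun e _ => by
        unfold ind
        rw [zero_add, one_mul]
    rw [h2, fair_prod]
    norm_num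
  -- the potential at the start
  have hstart : ∀ o ∈ Ω, (1 / 8 : ℝ) ^ (t o) * ∏ e ∈ S o,
      (1 + 7 * ((0 : ℝ) + ∑ i : Fin (99 + 1), (1 / 100 : ℝ) * ind (T i) e)) ≤
      (1 / 4 : ℝ) ^ (t o) := by
    intro o ho
    have h2 : ∏ e ∈ S o, (1 + 7 * ((0 : ℝ) + ∑ i : Fin (99 + 1), (1 / 100 : ℝ) * ind (T i) e)) =
        ∏ e ∈ S o, (1 + 7 * (if e ∈ univ.biUnion T then (1 / 100 : ℝ) else 0)) :=
      Finset.prod_congr rfl fun e _ => by
        rw [zero_add]
        exact congrArg (fun x => 1 + 7 * x) (fair_avg T hd e)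
    rw [h2, fair_prod]
    have h3 : (1 + 7 * (1 / 100 : ℝ)) ^ (S o ∩ univ.biUnion T).card ≤
        (1 + 7 * (1 / 100 : ℝ)) ^ (8 * t o) :=
      pow_le_pow_right₀ (by norm_num) (hS o ho)
    have h4 : (1 + 7 * (1 / 100 : ℝ)) ^ (8 * t o) ≤ 2 ^ t o := by
      rw [pow_mul]
      exact pow_le_pow_left₀ (by positivity) (by norm_num) _
    calc (1 / 8 : ℝ) ^ (t o) * (1 + 7 * (1 / 100 : ℝ)) ^ (S o ∩ univ.biUnion T).card
        ≤ (1 / 8 : ℝ) ^ (t o) * 2 ^ t o :=
          mul_le_mul_of_nonneg_left (h3.trans h4) (by positivity)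
      _ = (1 / 4 : ℝ) ^ (t o) := by
          rw [← mul_pow]
          norm_num
  have h1 : (1 / 8 : ℝ) ^ (t o) * 8 ^ (S o ∩ B).card < 1 := by
    calc (1 / 8 : ℝ) ^ (t o) * 8 ^ (S o ∩ B).card
        ≤ ∑ o ∈ Ω, (1 / 8 : ℝ) ^ (t o) * 8 ^ (S o ∩ B).card :=
          Finset.single_le_sum (f := fun o => (1 / 8 : ℝ) ^ (t o) * 8 ^ (S o ∩ B).card)
            (fun o _ => by positivity) ho
      _ = Pot Ω S t (fun e => (0 : ℝ) + (∑ _i : Fin (99 + 1), (1 / 100 : ℝ)) * ind B e) := by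
          unfold Pot
          exact Finset.sum_congr rfl fun o _ => (hend o).symm
      _ ≤ Pot Ω S t (fun e => (0 : ℝ) + ∑ i : Fin (99 + 1), (1 / 100 : ℝ) * ind (T i) e) := hpot
      _ ≤ ∑ o ∈ Ω, (1 / 4 : ℝ) ^ (t o) := by
          unfold Pot
          exact Finset.sum_le_sum hstart
      _ < 1 := hsum
  have h2 : (8 : ℝ) ^ (S o ∩ B).card < 8 ^ (t o) := by
    have h3 : (1 / 8 : ℝ) ^ (t o) * 8 ^ (t o) = 1 := by
      rw [← mul_pow]
      norm_num
    have h4 : (1 / 8 : ℝ) ^ (t o) * 8 ^ (S o ∩ B).card < (1 / 8 : ℝ) ^ (t o) * 8 ^ (t o) :=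
      lt_of_lt_of_eq h1 h3.symm
    exact lt_of_mul_lt_mul_left h4 (by positivity)
  rw [Finset.inter_comm]
  exact (pow_lt_pow_iff_right₀ (by norm_num)).1 h2

end swap

end Pool.Agent.RamV
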