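import Pool.Agent.Lib.MP_078aef_co_v.FairA

/-! The potential. -/

namespace Pool.Agent.RamV

open Finset Pool.Agent.RamseyHam Pool.Agent.RamQ Pool.Agent.RamH

section swap

variable {ι F M : Type*} [DecidableEq ι] [Field F] [AddCommGroup M] [Module F M]

/-- the potential -/
noncomputable def Pot {κ : Type*} (Ω : Finset κ) (S : κ → Finset ι) (t : κ → ℕ) (x : ι → ℝ) :
    ℝ :=
  ∑ o ∈ Ω, (1 / 8 : ℝ) ^ (t o) * ∏ e ∈ S o, (1 + 7 * x e)

/-- the indicator function -/
noncomputable def ind (B : Finset ι) (e : ι) : ℝ := if e ∈ B then 1 else 0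

private theorem pe_split (P : Finset ι) (g : ι → ℝ) {e f : ι} (hef : e ≠ f) :
    ∏ i ∈ P, g i = (if e ∈ P then g e else 1) * ((if f ∈ P then g f else 1) *
      ∏ i ∈ (P.erase e).erase f, g i) := by
  have h1 : ∏ i ∈ P, g i = (if e ∈ P then g e else 1) * ∏ i ∈ P.erase e, g i := by
    by_cases h : e ∈ P
    · rw [if_pos h, mul_prod_erase P g h]
    · rw [if_neg h, one_mul, erase_eq_of_notMem h]
  have h2 : ∏ i ∈ P.erase e, g i = (if f ∈ P then g f else 1) *
      ∏ i ∈ (P.erase e).erase f, g i := by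
    by_cases h : f ∈ P
    · rw [if_pos h, mul_prod_erase (P.erase e) g (mem_erase.2 ⟨hef.symm, h⟩)]
    · rw [if_neg h, one_mul, erase_eq_of_notMem fun h' => h (mem_of_mem_erase h')]
  rw [h1, h2]

private theorem pe_shift (P : Finset ι) (x : ι → ℝ) {e f : ι} (hef : e ≠ f) (c : ℝ) :
    ∏ i ∈ P, (1 + 7 * (x i + c * (ind {f} i - ind {e} i))) =
      (if e ∈ P then 1 + 7 * (x e - c) else 1) * ((if f ∈ P then 1 + 7 * (x f + c) else 1) *
        ∏ i ∈ (P.erase e).erase f, (1 + 7 * x i)) := by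
  rw [pe_split P _ hef]
  have h1 : 1 + 7 * (x e + c * (ind {f} e - ind {e} e)) = 1 + 7 * (x e - c) := by
    unfold ind
    rw [if_neg (by rw [mem_singleton]; exact hef), if_pos (mem_singleton_self e)]
    ring
  have h2 : 1 + 7 * (x f + c * (ind {f} f - ind {e} f)) = 1 + 7 * (x f + c) := by
    unfold ind
    rw [if_pos (mem_singleton_self f), if_neg (by rw [mem_singleton]; exact hef.symm)]
    ring
  have h3 : ∏ i ∈ (P.erase e).erase f, (1 + 7 * (x i + c * (ind {f} i - ind {e} i))) =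
      ∏ i ∈ (P.erase e).erase f, (1 + 7 * x i) := by
    refine prod_congr rfl fun i hi => ?_
    obtain ⟨h4, h5⟩ := mem_erase.1 hi
    obtain ⟨h6, -⟩ := mem_erase.1 h5
    unfold ind
    rw [if_neg (by rw [mem_singleton]; exact h4), if_neg (by rw [mem_singleton]; exact h6)]
    ring
  rw [h1, h2, h3]

private theorem pe_term (P : Finset ι) {x : ι → ℝ} (hx : ∀ i, 0 ≤ x i) {e f : ι} (hef : e ≠ f)
    {b b' : ℝ} (hb : 0 < b) (hb' : 0 < b') :
    b * ∏ i ∈ P, (1 + 7 * (x i + b' * (ind {f} i - ind {e} i))) +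
      b' * ∏ i ∈ P, (1 + 7 * (x i + (-b) * (ind {f} i - ind {e} i))) ≤
      (b + b') * ∏ i ∈ P, (1 + 7 * x i) := by
  have h0 : ∏ i ∈ P, (1 + 7 * x i) = ∏ i ∈ P, (1 + 7 * (x i + 0 * (ind {f} i - ind {e} i))) :=
    prod_congr rfl fun i _ => by rw [zero_mul, add_zero]
  rw [h0, pe_shift P x hef, pe_shift P x hef, pe_shift P x hef]
  have hR : 0 ≤ ∏ i ∈ (P.erase e).erase f, (1 + 7 * x i) :=
    prod_nonneg fun i _ => by have := hx i; linarith
  obtain ⟨R, hRd⟩ : ∃ R, R = ∏ i ∈ (P.erase e).erase f, (1 + 7 * x i) := ⟨_, rfl⟩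
  rw [← hRd] at hR ⊢
  by_cases he : e ∈ P
  · by_cases hf : f ∈ P
    · simp only [if_pos he, if_pos hf]
      have h1 : 0 ≤ 49 * (R * (b * b' * (b + b'))) := by positivity
      nlinarith [h1]
    · simp only [if_pos he, if_neg hf]
      nlinarith [hR]
  · by_cases hf : f ∈ P
    · simp only [if_neg he, if_pos hf]
      nlinarith [hR]
    · simp only [if_neg he, if_neg hf]
      nlinarith [hR]

/-- Proof: as a function of the shift along `1_f - 1_e` every term of the potential is a quadratic polynomial with leading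
coefficient `≤ 0` (or affine): the factors for `e` and `f` are `1 + 7 (x e - s)`, `1 + 7 (x f + s)`, the other factors are `≥ 0`.
So `b * Pot (x + b' ..) + b' * Pot (x - b ..) ≤ (b + b') * Pot x`. -/
theorem Pot_exchange {κ : Type*} (Ω : Finset κ) (S : κ → Finset ι) (t : κ → ℕ) {x : ι → ℝ}
    (hx : ∀ e, 0 ≤ x e) {e f : ι} (hef : e ≠ f) {b b' : ℝ} (hb : 0 < b) (hb' : 0 < b')
    (he : b' ≤ x e) (hf : b ≤ x f) :
    Pot Ω S t (fun i => x i + b' * (ind {f} i - ind {e} i)) ≤ Pot Ω S t x ∨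
      Pot Ω S t (fun i => x i + b * (ind {e} i - ind {f} i)) ≤ Pot Ω S t x := by
  have key : b * Pot Ω S t (fun i => x i + b' * (ind {f} i - ind {e} i)) +
      b' * Pot Ω S t (fun i => x i + b * (ind {e} i - ind {f} i)) ≤ (b + b') * Pot Ω S t x := by
    unfold Pot
    rw [mul_sum, mul_sum, mul_sum, ← sum_add_distrib]
    refine sum_le_sum fun o _ => ?_
    have h1 := mul_le_mul_of_nonneg_left (pe_term (S o) hx hef hb hb')
      (by positivity : (0 : ℝ) ≤ (1 / 8 : ℝ) ^ (t o))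
    have h2 : ∏ i ∈ S o, (1 + 7 * (x i + b * (ind {e} i - ind {f} i))) =
        ∏ i ∈ S o, (1 + 7 * (x i + (-b) * (ind {f} i - ind {e} i))) :=
      prod_congr rfl fun i _ => by ring
    rw [h2]
    linarith
  by_contra hcon
  push Not at hcon
  obtain ⟨h1, h2⟩ := hcon
  have h3 := mul_lt_mul_of_pos_left h1 hb
  have h4 := mul_lt_mul_of_pos_left h2 hb'
  linarith

end swap

end Pool.Agent.RamV
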