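import Pool.Agent.Lib.MP_078aef_co_v.FairB

/-! Merging bases. -/

namespace Pool.Agent.RamV

open Finset Pool.Agent.RamseyHam Pool.Agent.RamQ Pool.Agent.RamH

section swap

variable {ι F M : Type*} [DecidableEq ι] [Field F] [AddCommGroup M] [Module F M]

omit [DecidableEq ι] [Field F] [AddCommGroup M] [Module F M] in
private theorem fairC_ind [DecidableEq ι] {T : Finset ι} {e f : ι} (he : e ∈ T) (hf : f ∉ T)
    (i : ι) : ind (insert f (T.erase e)) i = ind T i + (ind {f} i - ind {e} i) := by
  have hef : e ≠ f := fun h => hf (h ▸ he)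
  unfold ind
  by_cases h1 : i = e
  · subst h1
    simp [he, hef]
  · by_cases h2 : i = f
    · subst h2
      simp [hf, h1]
    · simp [h1, h2]

private theorem fairC_eq {v : ι → M} {W : Submodule F M} {T T' : Finset ι} (hT : BasOf v W T)
    (hT' : BasOf v W T') (h : T ⊆ T') : T = T' := by
  refine h.antisymm fun e he => ?_
  by_contra he'
  obtain ⟨f, hf, hf', _⟩ := sym_exchange hT' hT he he'
  exact hf' (h hf)

/-- merging two bases.
Proof: induction on `(T \ T').card`. If it is `0` then `T = T'` (bases have the same size).  Otherwise `e ∈ T \ T'`, `f` from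
sym_exchange, and Pot_exchange for `x = y + b 1_T + b' 1_T'`: either replace `T'` by `T' - f + e` (shift `b' (1_e - 1_f)`) or `T` by
`T - e + f` (shift `b (1_f - 1_e)`). -/
theorem merge_two {v : ι → M} {W : Submodule F M} {κ : Type*} (Ω : Finset κ) (S : κ → Finset ι)
    (t : κ → ℕ) {y : ι → ℝ} (hy : ∀ e, 0 ≤ y e) {b b' : ℝ} (hb : 0 < b) (hb' : 0 < b')
    {T T' : Finset ι} (hT : BasOf v W T) (hT' : BasOf v W T') :
    ∃ B ⊆ T ∪ T', BasOf v W B ∧ Pot Ω S t (fun e => y e + (b + b') * ind B e) ≤
      Pot Ω S t (fun e => y e + (b * ind T e + b' * ind T' e)) := by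
  obtain ⟨n, hn⟩ : ∃ n, (T \ T').card = n := ⟨_, rfl⟩
  induction n generalizing T T' with
  | zero =>
    have h1 : T = T' := fairC_eq hT hT' (sdiff_eq_empty_iff_subset.1 (card_eq_zero.1 hn))
    subst h1
    refine ⟨T, subset_union_left, hT, le_of_eq ?_⟩
    congr 1
    funext e
    ring
  | succ n ih =>
    obtain ⟨e, he⟩ : (T \ T').Nonempty := card_pos.1 (by omega)
    have heT : e ∈ T := (mem_sdiff.1 he).1
    have heT' : e ∉ T' := (mem_sdiff.1 he).2
    obtain ⟨f, hfT', hfT, hT1, hT1'⟩ := sym_exchange hT hT' heT heT'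
    have hef : e ≠ f := fun h => hfT (h ▸ heT)
    have hind0 : ∀ (B : Finset ι) (i : ι), 0 ≤ ind B i := fun B i => by
      unfold ind
      split_ifs
      · exact zero_le_one
      · exact le_rfl
    have hx : ∀ i, 0 ≤ y i + (b * ind T i + b' * ind T' i) := fun i =>
      add_nonneg (hy i) (add_nonneg (mul_nonneg hb.le (hind0 T i)) (mul_nonneg hb'.le (hind0 T' i)))
    have hxe : b ≤ y e + (b * ind T e + b' * ind T' e) := by
      have h1 : ind T e = 1 := if_pos heT
      have h2 : ind T' e = 0 := if_neg heT'
      rw [h1, h2]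
      linarith [hy e]
    have hxf : b' ≤ y f + (b * ind T f + b' * ind T' f) := by
      have h1 : ind T f = 0 := if_neg hfT
      have h2 : ind T' f = 1 := if_pos hfT'
      rw [h1, h2]
      linarith [hy f]
    rcases Pot_exchange Ω S t (x := fun i => y i + (b * ind T i + b' * ind T' i)) hx hef hb' hb hxe
      hxf with h | h
    · have hc : (insert f (T.erase e) \ T').card = n := by
        have h1 : insert f (T.erase e) \ T' = (T \ T').erase e := by
          ext i
          simp only [mem_sdiff, mem_insert, mem_erase]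
          constructor
          · rintro ⟨rfl | h1, h2⟩
            · exact absurd hfT' h2
            · exact ⟨h1.1, h1.2, h2⟩
          · rintro ⟨h1, h2, h3⟩
            exact ⟨Or.inr ⟨h1, h2⟩, h3⟩
        rw [h1, card_erase_of_mem he, hn, Nat.add_sub_cancel]
      obtain ⟨B, hB, hBW, hP⟩ := ih hT1 hT' hc
      refine ⟨B, fun i hi => ?_, hBW, hP.trans (le_trans (le_of_eq ?_) h)⟩
      · have h1 := hB hi
        rw [mem_union, mem_insert, mem_erase] at h1
        rw [mem_union]
        rcases h1 with (rfl | h1) | h1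
        · exact Or.inr hfT'
        · exact Or.inl h1.2
        · exact Or.inr h1
      · congr 1
        funext i
        rw [fairC_ind heT hfT i]
        ring
    · have hc : (T \ insert e (T'.erase f)).card = n := by
        have h1 : T \ insert e (T'.erase f) = (T \ T').erase e := by
          ext i
          simp only [mem_sdiff, mem_insert, mem_erase]
          constructor
          · rintro ⟨h1, h2⟩
            push Not at h2
            refine ⟨h2.1, h1, fun h3 => ?_⟩
            have h4 : i ≠ f := fun h5 => hfT (h5 ▸ h1)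
            exact h2.2 h4 h3
          · rintro ⟨h1, h2, h3⟩
            refine ⟨h2, ?_⟩
            push Not
            exact ⟨h1, fun _ => h3⟩
        rw [h1, card_erase_of_mem he, hn, Nat.add_sub_cancel]
      obtain ⟨B, hB, hBW, hP⟩ := ih hT hT1' hc
      refine ⟨B, fun i hi => ?_, hBW, hP.trans (le_trans (le_of_eq ?_) h)⟩
      · have h1 := hB hi
        rw [mem_union, mem_insert, mem_erase] at h1
        rw [mem_union]
        rcases h1 with h1 | (rfl | h1)
        · exact Or.inl h1
        · exact Or.inl heT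
        · exact Or.inr h1.2
      · congr 1
        funext i
        rw [fairC_ind hfT' heT' i]
        ring

/-- merging `n + 1` bases with equal weights. Proof: induction on `n` with general positive weights and a remainder `y ≥ 0`,
merge_two. -/
theorem merge_all {v : ι → M} {W : Submodule F M} {κ : Type*} (Ω : Finset κ) (S : κ → Finset ι)
    (t : κ → ℕ) (n : ℕ) (T : Fin (n + 1) → Finset ι) (b : Fin (n + 1) → ℝ) (hb : ∀ i, 0 < b i)
    (hT : ∀ i, BasOf v W (T i)) {y : ι → ℝ} (hy : ∀ e, 0 ≤ y e) :
    ∃ B ⊆ univ.biUnion T, BasOf v W B ∧ Pot Ω S t (fun e => y e + (∑ i, b i) * ind B e) ≤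
      Pot Ω S t (fun e => y e + ∑ i, b i * ind (T i) e) := by
  induction n generalizing y with
  | zero =>
    refine ⟨T 0, subset_biUnion_of_mem T (mem_univ 0), hT 0, le_of_eq ?_⟩
    congr 1
    funext e
    rw [Fin.sum_univ_one, Fin.sum_univ_one]
  | succ n ih =>
    have hy' : ∀ e, 0 ≤ y e + b 0 * ind (T 0) e := fun e => by
      refine add_nonneg (hy e) (mul_nonneg (hb 0).le ?_)
      unfold ind
      split_ifs
      · exact zero_le_one
      · exact le_rfl
    obtain ⟨B', hB', hBW', hP'⟩ := ih (fun i => T i.succ) (fun i => b i.succ)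
      (fun i => hb i.succ) (fun i => hT i.succ) hy'
    have hsum : 0 < ∑ i : Fin (n + 1), b i.succ := sum_pos (fun i _ => hb i.succ) univ_nonempty
    obtain ⟨B, hB, hBW, hP⟩ := merge_two Ω S t hy (hb 0) hsum (hT 0) hBW'
    refine ⟨B, fun i hi => ?_, hBW, ?_⟩
    · have h1 := hB hi
      rw [mem_union] at h1
      rcases h1 with h1 | h1
      · exact mem_biUnion.2 ⟨0, mem_univ _, h1⟩
      · obtain ⟨j, _, hj⟩ := mem_biUnion.1 (hB' h1)
        exact mem_biUnion.2 ⟨j.succ, mem_univ _, hj⟩
    · have e1 : (fun e => y e + (∑ i, b i) * ind B e) =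
          fun e => y e + (b 0 + ∑ i : Fin (n + 1), b i.succ) * ind B e := by
        funext e
        rw [Fin.sum_univ_succ]
      have e2 : (fun e => y e + (b 0 * ind (T 0) e + (∑ i : Fin (n + 1), b i.succ) * ind B' e)) =
          fun e => y e + b 0 * ind (T 0) e + (∑ i : Fin (n + 1), b i.succ) * ind B' e := by
        funext e
        ring
      have e3 : (fun e => y e + ∑ i, b i * ind (T i) e) =
          fun e => y e + b 0 * ind (T 0) e + ∑ i : Fin (n + 1), b i.succ * ind (T i.succ) e := by
        funext e
        rw [Fin.sum_univ_succ]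
        ring
      rw [e1, e3]
      rw [e2] at hP
      exact hP.trans hP'

end swap

end Pool.Agent.RamV
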