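import Pool.Agent.Lib.MP_078aef_co_v.YCA

/-! A connected even family of paths covering all vertices outside the hubs. -/

namespace Pool.Agent.RamV

open Finset Pool.Agent.RamseyHam Pool.Agent.RamQ Pool.Agent.RamH

variable {V : Type*} [Fintype V] [DecidableEq V] {m r : ℕ} {G : SimpleGraph V}
  {h : V → Option (Fin m)} {ch : V → Finset V} {lev : V → ℕ} {Fm Fo : Finset (El V r)}

/-- Proof. cho_exists, even_choice, `C = (Tp h ac (Fm ∪ J) st).image (jn h mc n)` with `n` a bound for the levels; `Sta`: jn_cn,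
jn_disj (tops), sum_paths.  `Sp`: for `e ∈ Fm` with ports `v`, `v'` the pair `(v, v')` is in `Tp` and `jn h mc n (v, v') = e.p.reverse ++ e.q`
(fol_eq, `mn`), with vector `ve h e` (vec_append, vec_reverse); `Bas.span`.  Coverage: covered.  A covered hub vertex is a vertex of some
`fol`: it is a top (a port, or an `ac`-child, or in `Y`) or an `mc`-child. -/
theorem cover (hc : Chd G h lev ch) (hel : ∀ e ∈ Fm ∪ Fo, IsEl G h ch e)
    (hcmp : Cmp ch (Fm ∪ Fo)) (hd : Disjoint Fm Fo) (hFm : Bas h Fm) (hFo : Bas h Fo) :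
    ∃ C : Finset (List V), Sta G h C ∧ Sp h C ∧ (∀ v, h v = none → On C v) ∧
      ∀ v, h v ≠ none → On C v → v ∈ (Fm ∪ Fo).biUnion pts ∪ univ.biUnion ch := by
  obtain ⟨mc, ac, hcho⟩ := cho_exists hc hel hcmp hd
  obtain ⟨J, st, hJ, hst, hpv⟩ := even_choice hc hcho hel hcmp hd hFo
  obtain ⟨n, hn⟩ : ∃ n, ∀ y, lev y ≤ n := ⟨univ.sup lev, fun y => le_sup (mem_univ y)⟩
  have hS : Fm ∪ J ⊆ Fm ∪ Fo := union_subset_union_right hJ
  have hT := tops hc hcho hel hcmp hS hst
  obtain ⟨T, hTd⟩ : ∃ T, T = Tp h ac (Fm ∪ J) st := ⟨_, rfl⟩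
  have hcov := covered hc hcho hst hS hel hn
  have hsum := sum_paths hc hcho hel hcmp hS hst hn
  rw [← hTd] at hT hcov hsum
  refine ⟨T.image (jn h mc n), ⟨?_, ?_, ?_⟩, ?_, ?_, ?_⟩
  · intro l hl
    obtain ⟨c, hcT, rfl⟩ := mem_image.1 hl
    exact jn_cn hc hcho.m1 hn hT hcT
  · intro l hl l' hl' hne
    obtain ⟨c, hcT, rfl⟩ := mem_image.1 hl
    obtain ⟨c', hcT', rfl⟩ := mem_image.1 hl'
    exact jn_disj hc hcho.m1 hn hT hcT hcT' fun h1 => hne (by rw [h1])
  · rw [hsum, hpv]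
  · intro i j
    refine Submodule.span_mono ?_ (hFm.span i j)
    rintro _ ⟨e, he, rfl⟩
    have he' : e ∈ Fm := he
    obtain ⟨v, v', z, z', hok⟩ := hel e (mem_union_left _ he')
    obtain ⟨t, ht⟩ := hok.p.head
    obtain ⟨t', ht'⟩ := hok.q.head
    have hpn := hok.p.nodup hc
    have hqn := hok.q.nodup hc
    have h1 : fol h mc n v = e.p := by
      refine fol_eq hc hok.p (fun x hx y hxy => ?_) (hn v)
      have hxp : x ∈ e.p := List.mem_of_mem_tail hx
      refine hcho.mn e he' x (mem_vs.2 (Or.inl hxp)) ?_ y hxy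
      rw [hok.mem_pts]
      rintro (rfl | rfl)
      · rw [ht] at hpn hx
        exact (List.nodup_cons.1 hpn).1 hx
      · exact hok.disj x hxp hok.q.mem_start
    have h2 : fol h mc n v' = e.q := by
      refine fol_eq hc hok.q (fun x hx y hxy => ?_) (hn v')
      have hxq : x ∈ e.q := List.mem_of_mem_tail hx
      refine hcho.mn e he' x (mem_vs.2 (Or.inr hxq)) ?_ y hxy
      rw [hok.mem_pts]
      rintro (rfl | rfl)
      · exact hok.disj x hok.p.mem_start hxq
      · rw [ht'] at hqn hx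
        exact (List.nodup_cons.1 hqn).1 hx
    have h3 : (v, v') ∈ T := by
      classical
      rw [hTd]
      unfold Tp
      rw [mem_filter]
      refine ⟨mem_univ _, Or.inl ⟨e, mem_union_left _ he', ?_, ?_⟩⟩
      · rw [ht]
        rfl
      · rw [ht']
        rfl
    refine ⟨jn h mc n (v, v'), mem_coe.2 (mem_image_of_mem _ h3), ?_⟩
    unfold jn ve
    rw [vec_append, vec_reverse]
    change vec h (fol h mc n v) + vec h (fol h mc n v') = _
    rw [h1, h2]
  · intro v hv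
    obtain ⟨c, hcT, hvc⟩ := (hcov v).2 (Or.inl hv)
    exact ⟨jn h mc n c, mem_image_of_mem _ hcT, hvc⟩
  · rintro v hv ⟨l, hl, hvl⟩
    obtain ⟨c, hcT, rfl⟩ := mem_image.1 hl
    have h1 : ¬ st v := ((hcov v).1 ⟨c, hcT, hvl⟩).resolve_left hv
    rw [hst v] at h1
    rw [mem_union]
    by_contra h2
    rw [not_or] at h2
    refine h1 ⟨fun h3 => ?_, fun y hy h3 => ?_, fun y hy h3 _ => ?_⟩
    · obtain ⟨e, he, hve⟩ := mem_biUnion.1 h3
      exact h2.1 (mem_biUnion.2 ⟨e, hS he, hve⟩)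
    · exact h2.2 (mem_biUnion.2 ⟨y, mem_univ _, by rw [h3]; exact hcho.m1 y hy⟩)
    · exact h2.2 (mem_biUnion.2 ⟨y, mem_univ _, by rw [h3]; exact hcho.a1 y hy⟩)

end Pool.Agent.RamV
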