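import Pool.Agent.Lib.MP_078aef_co_v.ZAA

/-! Tours with few non-adjacent joints. -/

namespace Pool.Agent.RamV

open Finset Pool.Agent.RamseyHam Pool.Agent.RamQ Pool.Agent.RamH

variable {V : Type*} {m : ℕ} {G : SimpleGraph V} {h : V → Option (Fin m)}
  {C : Finset (List V)} {t t1 t2 : List (List V)}

private theorem zab_fm {α β : Type*} (f : α → Option β) (t : List α)
    (h : ∀ l ∈ t, ∃ b, f l = some b) : (t.filterMap f).length = t.length := by
  induction t with
  | nil => rfl
  | cons l t ih =>
    obtain ⟨b, hb⟩ := h l List.mem_cons_self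
    rw [List.filterMap_cons_some hb, List.length_cons, List.length_cons,
      ih fun l' hl' => h l' (List.mem_cons_of_mem _ hl')]

private theorem zab_head {l : List V} (hl : l ≠ []) : ∃ b, l.head? = some b :=
  ⟨l.head hl, List.head?_eq_some_head hl⟩

private theorem zab_last {l : List V} (hl : l ≠ []) : ∃ b, l.getLast? = some b :=
  ⟨l.getLast hl, List.getLast?_eq_some_getLast hl⟩

private theorem zab_len {t : List (List V)} (ht : ∀ l ∈ t, l ≠ []) : (jt t).length = t.length := by
  unfold jt
  rw [List.length_zip, List.length_rotate, zab_fm _ _ fun l hl => zab_last (ht l hl),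
    zab_fm _ _ fun l hl => zab_head (ht l hl), min_self]

private theorem zab_flat {t : List (List V)} (ht : ∀ l ∈ t, l ≠ []) (h0 : t ≠ []) :
    t.flatten ≠ [] := by
  cases t with
  | nil => exact absurd rfl h0
  | cons l t =>
    intro h1
    rw [List.flatten_cons, List.append_eq_nil_iff] at h1
    exact ht l List.mem_cons_self h1.1

private theorem zab_rev (t : List (List V)) :
    (t.reverse.map List.reverse).flatten = t.flatten.reverse := by
  rw [List.reverse_flatten, List.map_reverse]

private theorem zab_ne {C : Finset (List V)} {h : V → Option (Fin m)} {t : List (List V)}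
    (ht : CT h C t) (hne : ∀ l ∈ C, l ≠ []) : ∀ l ∈ t, l ≠ [] := by
  intro l hl
  rcases ht.mem l hl with h1 | h1
  · exact hne l h1
  · intro h2
    rw [h2] at h1
    exact hne _ h1 rfl

private theorem zab_cnt (p : V × V → Bool) (hp : ∀ c, p c = true ↔ ¬ G.Adj c.1 c.2)
    (L1 L2 : List (V × V)) {a1 b1 a2 b2 : V} (n1 : ¬ G.Adj b1 a2) (n2 : ¬ G.Adj b2 a1)
    (hadj : G.Adj b1 b2) :
    (L1 ++ (b1, b2) :: ((L2.map Prod.swap).reverse ++ [(a2, a1)])).countP p <
      (L1 ++ (b1, a2) :: (L2 ++ [(b2, a1)])).countP p := by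
  have e1 : (p ∘ Prod.swap) = p := by
    funext c
    rw [Bool.eq_iff_iff, Function.comp, hp, hp]
    exact not_congr (G.adj_comm c.2 c.1)
  have e2 : p (b1, b2) = false := by
    rw [← Bool.not_eq_true, hp]
    exact fun h5 => h5 hadj
  have e3 : p (b1, a2) = true := (hp _).2 n1
  have e4 : p (b2, a1) = true := (hp _).2 n2
  simp only [List.countP_append, List.countP_cons, List.countP_nil, List.countP_reverse,
    List.countP_map, e1, e2, e3, e4, if_true]
  split_ifs <;> simp_all

private theorem zab_mem_rev {t : List (List V)} {l : List V} (hl : l ∈ t) :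
    l.reverse ∈ t.reverse.map List.reverse :=
  List.mem_map.2 ⟨l, List.mem_reverse.2 hl, rfl⟩

/-- the 2-opt move.  Proof: jt_append for `t1 ++ t2` and for `t1 ++ t2.reverse.map List.reverse` (whose second part starts with
`b2` and ends with `a2`), jt_reverse; `G.Adj` is symmetric. -/
theorem CT.two_opt (ht : CT h C (t1 ++ t2)) (hne : ∀ l ∈ C, l ≠ []) {a1 b1 a2 b2 : V}
    (h1 : t1.flatten.head? = some a1) (h2 : t1.flatten.getLast? = some b1)
    (h3 : t2.flatten.head? = some a2) (h4 : t2.flatten.getLast? = some b2)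
    (hh : h b1 = h b2) (n1 : ¬ G.Adj b1 a2) (n2 : ¬ G.Adj b2 a1) (hadj : G.Adj b1 b2) :
    CT h C (t1 ++ t2.reverse.map List.reverse) ∧
      bdc G (t1 ++ t2.reverse.map List.reverse) < bdc G (t1 ++ t2) := by
  have hN : ∀ l ∈ t1 ++ t2, l ≠ [] := zab_ne ht hne
  have hN1 : ∀ l ∈ t1, l ≠ [] := fun l hl => hN l (List.mem_append_left _ hl)
  have hN2 : ∀ l ∈ t2, l ≠ [] := fun l hl => hN l (List.mem_append_right _ hl)
  have hN' : ∀ l ∈ t1 ++ t2.reverse.map List.reverse, l ≠ [] := by
    intro l hl
    rcases List.mem_append.1 hl with h5 | h5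
    · exact hN1 l h5
    · obtain ⟨l', hl', rfl⟩ := List.mem_map.1 h5
      intro h6
      exact hN2 l' (List.mem_reverse.1 hl') (List.reverse_eq_nil_iff.1 h6)
  have hold := jt_append hN h1 h2 h3 h4
  have h3' : (t2.reverse.map List.reverse).flatten.head? = some b2 := by
    rw [zab_rev, List.head?_reverse, h4]
  have h4' : (t2.reverse.map List.reverse).flatten.getLast? = some a2 := by
    rw [zab_rev, List.getLast?_reverse, h3]
  have hnew := jt_append hN' h1 h2 h3' h4'
  rw [jt_reverse hN2] at hnew
  have j1 : h b1 = h a2 := ht.joint (b1, a2) (by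
    rw [hold]
    exact List.mem_append_right _ List.mem_cons_self)
  have j2 : h b2 = h a1 := ht.joint (b2, a1) (by
    rw [hold]
    exact List.mem_append_right _ (List.mem_cons_of_mem _
      (List.mem_append_right _ (List.mem_singleton.2 rfl))))
  constructor
  · refine ⟨?_, ?_, ?_, ?_, ?_⟩
    · intro h5
      rw [List.append_eq_nil_iff] at h5
      rw [h5.1] at h1
      exact absurd h1 (by simp)
    · intro l hl
      rcases List.mem_append.1 hl with h5 | h5
      · exact ht.mem l (List.mem_append_left _ h5)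
      · obtain ⟨l', hl', rfl⟩ := List.mem_map.1 h5
        rw [List.reverse_reverse]
        exact (ht.mem l' (List.mem_append_right _ (List.mem_reverse.1 hl'))).symm
    · intro l hl
      rcases ht.all l hl with h5 | h5
      · rcases List.mem_append.1 h5 with h6 | h6
        · exact Or.inl (List.mem_append_left _ h6)
        · exact Or.inr (List.mem_append_right _ (zab_mem_rev h6))
      · rcases List.mem_append.1 h5 with h6 | h6
        · exact Or.inr (List.mem_append_left _ h6)
        · left
          have h7 := zab_mem_rev h6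
          rw [List.reverse_reverse] at h7
          exact List.mem_append_right _ h7
    · have h5 := ht.nodup
      rw [List.flatten_append] at h5 ⊢
      rw [zab_rev]
      exact ((List.Perm.append_left _ (List.reverse_perm _)).nodup_iff).2 h5
    · intro c hc
      rw [hnew] at hc
      rcases List.mem_append.1 hc with h5 | h5
      · exact ht.joint c (by rw [hold]; exact List.mem_append_left _ h5)
      · rcases List.mem_cons.1 h5 with h6 | h6
        · rw [h6]
          exact hh
        · rcases List.mem_append.1 h6 with h7 | h7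
          · obtain ⟨c', hc', rfl⟩ := List.mem_map.1 (List.mem_reverse.1 h7)
            exact (ht.joint c' (by
              rw [hold]
              exact List.mem_append_right _ (List.mem_cons_of_mem _
                (List.mem_append_left _ hc')))).symm
          · rw [List.mem_singleton.1 h7]
            exact j1.symm.trans (hh.trans j2)
  · unfold bdc
    rw [hold, hnew]
    exact zab_cnt _ (fun c => by simp only [decide_eq_true_eq]) _ _ n1 n2 hadj

/-- Proof: a tour with the smallest `bdc`.  Two bad joints `c ≠ c'` in the same hub with `c.1 ~ c'.1`: rotate the tour such that `c'` is the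
closing joint (jt_rotate; `bdc` does not change under rotation) and let `t1` end with the list before the joint `c`: two_opt. -/
theorem best_tour [Fintype V] [DecidableEq V] (hC : Sta G h C) (hS : Sp h C)
    (hne : C.Nonempty) : ∃ t, CT h C t ∧ ∀ c ∈ jt t, ∀ c' ∈ jt t, c ≠ c' → ¬ G.Adj c.1 c.2 →
      ¬ G.Adj c'.1 c'.2 → h c.1 = h c'.1 → ¬ G.Adj c.1 c'.1 := by
  have hN : ∀ l ∈ C, l ≠ [] := by
    intro l hl
    obtain ⟨a, w, b, h1, -⟩ := (hC.cn l hl).shape
    rw [h1]
    exact List.cons_ne_nil _ _
  -- a tour with the smallest number of bad joints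
  obtain ⟨t, ht, hmin⟩ := (measure fun t : List (List V) => bdc G t).wf.has_min
    {t | CT h C t} (tour_exists hC hS hne)
  refine ⟨t, ht, ?_⟩
  intro c hc c' hc' hcc n1 n2 hh hadj
  have hNt := zab_ne ht hN
  obtain ⟨U, W, hUW⟩ := List.append_of_mem hc'
  have hUW' : jt t = (U ++ [c']) ++ W := by
    rw [hUW, List.append_assoc]
    rfl
  -- the rotated tour
  obtain ⟨s, hs⟩ : ∃ s, s = t.rotate (U ++ [c']).length := ⟨_, rfl⟩
  have hsT : CT h C s := hs ▸ ht.rotate hN _
  have hNs := zab_ne hsT hN
  have hjs : jt s = (W ++ U) ++ [c'] := by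
    rw [hs, jt_rotate hNt, hUW', List.rotate_append_length_eq, List.append_assoc]
  have hbs : bdc G s = bdc G t := by
    unfold bdc
    rw [hs, jt_rotate hNt]
    exact (List.rotate_perm _ _).countP_eq _
  have hcm : c ∈ W ++ U := by
    rw [hUW] at hc
    rcases List.mem_append.1 hc with h1 | h1
    · exact List.mem_append_right _ h1
    · rcases List.mem_cons.1 h1 with h2 | h2
      · exact absurd h2 hcc
      · exact List.mem_append_left _ h2
  obtain ⟨X, Y, hXY⟩ := List.append_of_mem hcm
  have hjs' : jt s = X ++ c :: (Y ++ [c']) := by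
    rw [hjs, hXY, List.append_assoc]
    rfl
  have hlen : s.length = X.length + (Y.length + 2) := by
    rw [← zab_len hNs, hjs', List.length_append, List.length_cons, List.length_append,
      List.length_singleton]
  -- the two parts
  obtain ⟨t1, ht1⟩ : ∃ t1, t1 = s.take (X.length + 1) := ⟨_, rfl⟩
  obtain ⟨t2, ht2⟩ : ∃ t2, t2 = s.drop (X.length + 1) := ⟨_, rfl⟩
  have h12 : s = t1 ++ t2 := by
    rw [ht1, ht2, List.take_append_drop]
  have hl1 : t1.length = X.length + 1 := by
    rw [ht1, List.length_take]
    omega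
  have hl2 : t2.length = Y.length + 1 := by
    rw [ht2, List.length_drop]
    omega
  have hN1 : ∀ l ∈ t1, l ≠ [] := fun l hl => hNs l (h12 ▸ List.mem_append_left _ hl)
  have hN2 : ∀ l ∈ t2, l ≠ [] := fun l hl => hNs l (h12 ▸ List.mem_append_right _ hl)
  have hf1 : t1.flatten ≠ [] := zab_flat hN1 (fun h0 => by rw [h0] at hl1; simp at hl1)
  have hf2 : t2.flatten ≠ [] := zab_flat hN2 (fun h0 => by rw [h0] at hl2; simp at hl2)
  obtain ⟨a1, ha1⟩ := zab_head hf1
  obtain ⟨b1, hb1⟩ := zab_last hf1
  obtain ⟨a2, ha2⟩ := zab_head hf2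
  obtain ⟨b2, hb2⟩ := zab_last hf2
  have hj := jt_append (h12 ▸ hNs) ha1 hb1 ha2 hb2
  rw [← h12, hjs'] at hj
  have hlX : X.length = (jt t1).dropLast.length := by
    rw [List.length_dropLast, zab_len hN1, hl1]
    rfl
  obtain ⟨-, hj2⟩ := List.append_inj hj hlX
  obtain ⟨hc1, hj3⟩ := List.cons.inj hj2
  have hc2 : c' = (b2, a1) := by
    have h5 := congrArg List.getLast? hj3
    rw [List.getLast?_append, List.getLast?_append] at h5
    simpa using h5
  subst hc1
  subst hc2
  have hct : CT h C (t1 ++ t2) := h12 ▸ hsT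
  obtain ⟨hnew, hlt⟩ := hct.two_opt hN ha1 hb1 ha2 hb2 hh n1 n2 hadj
  refine hmin _ hnew ?_
  change bdc G (t1 ++ t2.reverse.map List.reverse) < bdc G t
  rw [← hbs, h12]
  exact hlt

end Pool.Agent.RamV
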