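import Pool.Agent.Lib.MP_078aef_co_v.ZB

/-! Closing the tour. -/

namespace Pool.Agent.RamV

open Finset Pool.Agent.RamseyHam Pool.Agent.RamQ Pool.Agent.RamH

section lists

variable {V : Type*} {G : SimpleGraph V}

/-- cutting off the last vertex of a segment -/
private theorem zbb_cut {a x y : V} {S : List V} (hS : S ≠ []) (h : Seg G a (S ++ [x]) y) :
    ∃ c, Seg G a S c ∧ G.Adj c x := by
  rcases List.eq_nil_or_concat S with h0 | ⟨S', c, h0⟩
  · exact absurd h0 hS
  · have h1 := List.isChain_append.1 h.chain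
    have h2 : S.getLast? = some c := by
      rw [h0]
      simp
    refine ⟨c, ⟨h1.1, ?_, h2⟩, ?_⟩
    · have h3 := h.head
      rw [List.head?_append_of_ne_nil _ hS] at h3
      exact h3
    · exact h1.2.2 c (by rw [h2]; rfl) x (by simp)

private theorem zbb_range (n : ℕ) (a c : ℕ → V) (S : ℕ → List V)
    (hS : ∀ i < n, Seg G (a i) (S i) (c i)) (hadj : ∀ i, i + 1 < n → G.Adj (c i) (a (i + 1)))
    (hn : 0 < n) : Seg G (a 0) ((List.range n).flatMap S) (c (n - 1)) := by
  induction n with
  | zero => omega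
  | succ n ih =>
    rw [List.range_succ, List.flatMap_append]
    rcases Nat.eq_zero_or_pos n with h | h
    · subst h
      simpa using hS 0 (by omega)
    · have h1 := ih (fun i hi => hS i (by omega)) (fun i hi => hadj i (by omega)) h
      have h2 := hS n (by omega)
      have h3 := hadj (n - 1) (by omega)
      rw [show n - 1 + 1 = n by omega] at h3
      have h4 := h1.append h2 h3
      simpa using h4

/-- the closing cycle -/
private theorem zbb_cycle [Fintype V] [DecidableEq V] {m : ℕ} {h : V → Option (Fin m)} {n : ℕ}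
    (hn : 0 < n) (hV : 3 ≤ Fintype.card V) (nx : ℕ → ℕ) (hsur : ∀ j < n, ∃ i < n, nx i = j)
    (hnx1 : ∀ i, i + 1 < n → nx i = i + 1) (hnx2 : nx (n - 1) = 0)
    (ls w Q : ℕ → List V) (a b : ℕ → V) (hls : ∀ i < n, ls i = a i :: (w i ++ [b i]))
    (hch : ∀ i < n, (ls i).IsChain G.Adj) (hnd : ∀ i < n, (ls i).Nodup)
    (hdis : ∀ i < n, ∀ j < n, i ≠ j → ∀ v ∈ ls i, v ∉ ls j)
    (hw : ∀ i < n, ∀ v ∈ w i, h v = none)
    (hP : ∀ i < n, Seg G (b i) (b i :: (Q i ++ [a (nx i)])) (a (nx i)))
    (hPn : ∀ i < n, (b i :: (Q i ++ [a (nx i)])).Nodup)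
    (hPh : ∀ i < n, ∀ v ∈ Q i, h v ≠ none)
    (hPd : ∀ i < n, ∀ j < n, i ≠ j → ∀ v ∈ b i :: (Q i ++ [a (nx i)]),
      v ∉ b j :: (Q j ++ [a (nx j)]))
    (hcov : ∀ v, (∃ i < n, v ∈ ls i) ∨ ∃ i < n, v ∈ Q i) :
    ∃ l, Cyc G l ∧ l.length = Fintype.card V := by
  have hQm : ∀ i, ∀ v ∈ Q i, v ∈ b i :: (Q i ++ [a (nx i)]) := by
    intro i v hv
    simp [hv]
  have hQb : ∀ i < n, b i ∉ Q i := by
    intro i hi hb
    have h1 := hPn i hi
    rw [List.nodup_cons] at h1
    exact h1.1 (List.mem_append_left _ hb)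
  have hQa : ∀ i < n, a (nx i) ∉ Q i := by
    intro i hi hb
    have h1 := hPn i hi
    rw [List.nodup_cons, List.nodup_append] at h1
    exact h1.2.2.2 _ hb _ (List.mem_singleton_self _) rfl
  have hQn : ∀ i < n, (Q i).Nodup := by
    intro i hi
    have h1 := hPn i hi
    rw [List.nodup_cons, List.nodup_append] at h1
    exact h1.2.1
  have hQls : ∀ i < n, ∀ j < n, ∀ v ∈ Q i, v ∉ ls j := by
    intro i hi j hj v hv hvl
    rw [hls j hj] at hvl
    rcases List.mem_cons.1 hvl with h1 | h1
    · obtain ⟨i', hi', hij⟩ := hsur j hj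
      by_cases hii : i = i'
      · subst hii
        rw [← hij] at h1
        rw [h1] at hv
        exact hQa i hi hv
      · refine hPd i hi i' hi' hii v (hQm i v hv) ?_
        rw [h1, hij]
        simp
    · rcases List.mem_append.1 h1 with h1 | h1
      · exact hPh i hi v hv (hw j hj v h1)
      · rw [List.mem_singleton] at h1
        by_cases hij : i = j
        · subst hij
          rw [h1] at hv
          exact hQb i hi hv
        · refine hPd i hi j hj hij v (hQm i v hv) ?_
          rw [h1]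
          simp
  have hFn : ((List.range n).flatMap (fun i => ls i ++ Q i)).Nodup := by
    rw [List.nodup_flatMap]
    refine ⟨?_, ?_⟩
    · intro i hi
      rw [List.mem_range] at hi
      rw [List.nodup_append]
      refine ⟨hnd i hi, hQn i hi, ?_⟩
      intro x hx y hy hxy
      subst hxy
      exact hQls i hi i hi x hy hx
    · refine List.Pairwise.imp_of_mem ?_ (List.pairwise_lt_range (n := n))
      intro i j hi hj hij
      rw [List.mem_range] at hi hj
      intro v hv1 hv2
      have hne : i ≠ j := by omega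
      rcases List.mem_append.1 hv1 with h1 | h1 <;> rcases List.mem_append.1 hv2 with h2 | h2
      · exact hdis i hi j hj hne v h1 h2
      · exact hQls j hj i hi v h2 h1
      · exact hQls i hi j hj v h1 h2
      · exact hPd i hi j hj hne v (hQm i v h1) (hQm j v h2)
  have hFm : ∀ v, v ∈ (List.range n).flatMap (fun i => ls i ++ Q i) := by
    intro v
    rw [List.mem_flatMap]
    rcases hcov v with ⟨i, hi, h1⟩ | ⟨i, hi, h1⟩
    · exact ⟨i, List.mem_range.2 hi, List.mem_append_left _ h1⟩
    · exact ⟨i, List.mem_range.2 hi, List.mem_append_right _ h1⟩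
  have hlen : ((List.range n).flatMap (fun i => ls i ++ Q i)).length = Fintype.card V := by
    rw [← List.toFinset_card_of_nodup hFn, ← Finset.card_univ]
    congr 1
    ext v
    simp only [List.mem_toFinset, Finset.mem_univ, iff_true]
    exact hFm v
  have key : ∀ i, ∃ c, i < n → Seg G (a i) (ls i ++ Q i) c ∧ G.Adj c (a (nx i)) := by
    intro i
    by_cases hi : i < n
    · have h1 : Seg G (a i) ((ls i ++ Q i) ++ [a (nx i)]) (a (nx i)) := by
        have h2 : (ls i ++ Q i) ++ [a (nx i)] =
            (a i :: w i) ++ [b i] ++ (Q i ++ [a (nx i)]) := by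
          rw [hls i hi]
          simp
        refine ⟨?_, ?_, ?_⟩
        · rw [h2]
          apply List.IsChain.append_overlap
          · have h3 := hch i hi
            rw [hls i hi] at h3
            exact h3
          · exact (hP i hi).chain
          · exact List.cons_ne_nil _ _
        · rw [h2]
          rfl
        · simp
      obtain ⟨c, hc⟩ := zbb_cut (by rw [hls i hi]; simp) h1
      exact ⟨c, fun _ => hc⟩
    · exact ⟨a i, fun h1 => absurd h1 hi⟩
  choose c hc using key
  refine ⟨_, ⟨hFn, by rw [hlen]; exact hV, a 0, c (n - 1), ?_, ?_⟩, hlen⟩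
  · apply zbb_range n a c
    · intro i hi
      exact (hc i hi).1
    · intro i hi
      have h1 := (hc i (by omega)).2
      rw [hnx1 i hi] at h1
      exact h1
    · exact hn
  · have h1 := (hc (n - 1) (by omega)).2
    rw [hnx2] at h1
    exact h1

private theorem zbb_rev {m : ℕ} {h : V → Option (Fin m)} {l : List V}
    (hl : IsCn G h l.reverse) : IsCn G h l := by
  obtain ⟨h1, h2, a, w, b, e, ha, hb, hw⟩ := hl
  refine ⟨?_, List.nodup_reverse.1 h2, b, w.reverse, a, ?_, hb, ha, ?_⟩
  · rw [List.isChain_reverse] at h1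
    exact h1.imp (fun _ _ h => h.symm)
  · have h3 := congrArg List.reverse e
    rw [List.reverse_reverse] at h3
    rw [h3]
    simp
  · intro v hv
    exact hw v (List.mem_reverse.1 hv)

private theorem zbb_jt {t : List (List V)} {n : ℕ} (hn : t.length = n) {ls : ℕ → List V}
    (hls : ∀ i (hi : i < t.length), t[i] = ls i) {a b : ℕ → V}
    (hhd : ∀ i < n, (ls i).head? = some (a i)) (hgl : ∀ i < n, (ls i).getLast? = some (b i)) :
    (∀ i < n, (b i, a ((i + 1) % n)) ∈ jt t) ∧
      ∀ c ∈ jt t, ∃ i < n, c = (b i, a ((i + 1) % n)) := by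
  have ht : t = (List.range n).map ls := by
    apply List.ext_getElem
    · rw [hn, List.length_map, List.length_range]
    · intro i h1 h2
      rw [hls i h1, List.getElem_map, List.getElem_range]
  have e1 : t.filterMap List.getLast? = (List.range n).map b := by
    rw [ht, List.filterMap_map, ← List.filterMap_eq_map]
    refine List.filterMap_congr fun i hi => ?_
    exact hgl i (List.mem_range.1 hi)
  have e2 : t.filterMap List.head? = (List.range n).map a := by
    rw [ht, List.filterMap_map, ← List.filterMap_eq_map]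
    refine List.filterMap_congr fun i hi => ?_
    exact hhd i (List.mem_range.1 hi)
  have e3 : jt t = ((List.range n).map b).zip (((List.range n).map a).rotate 1) := by
    unfold jt
    rw [e1, e2]
  have hl : (jt t).length = n := by
    rw [e3, List.length_zip, List.length_rotate, List.length_map, List.length_map,
      List.length_range, min_self]
  have hg : ∀ i (hi : i < (jt t).length), (jt t)[i] = (b i, a ((i + 1) % n)) := by
    intro i hi
    simp only [e3, List.getElem_zip, List.getElem_map, List.getElem_range, List.getElem_rotate,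
      List.length_map, List.length_range]
  refine ⟨fun i hi => ?_, fun c hc => ?_⟩
  · rw [← hg i (by omega)]
    exact List.getElem_mem _
  · obtain ⟨i, hi, h1⟩ := List.mem_iff_getElem.1 hc
    exact ⟨i, by omega, by rw [← h1, hg i hi]⟩

end lists

variable {V : Type*} [Fintype V] [DecidableEq V] {m : ℕ} {G : SimpleGraph V}
  {h : V → Option (Fin m)} {C : Finset (List V)} {t : List (List V)}

/-- Proof: the list `t.flatMap (fun l => l ++ mid (last of l))`; every vertex is on a member of `C` (then in `t.flatten`) or in some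
`mid`. (Compare asm_cycle in Lib/MP_078aef_co_h/Asm.lean.) -/
theorem close_tour (hC : Sta G h C) (ht : CT h C t) (hW : ∀ v, h v = none → On C v)
    (hV : 3 ≤ Fintype.card V) {mid : V → List V}
    (h1 : ∀ c ∈ jt t, Seg G c.1 (c.1 :: (mid c.1 ++ [c.2])) c.2 ∧ (mid c.1).Nodup ∧
        ∀ x ∈ mid c.1, h x ≠ none ∧ ¬ On C x)
    (h2 : ∀ c ∈ jt t, ∀ c' ∈ jt t, c ≠ c' → ∀ x ∈ mid c.1, x ∉ mid c'.1)
    (h3 : ∀ x, h x ≠ none → ¬ On C x → ∃ c ∈ jt t, x ∈ mid c.1) :
    ∃ l, Cyc G l ∧ l.length = Fintype.card V := by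
  classical
  have hTc : ∀ l ∈ t, IsCn G h l := by
    intro l hl
    rcases ht.mem l hl with h1 | h1
    · exact hC.cn l h1
    · exact zbb_rev (hC.cn _ h1)
  obtain ⟨n, hn⟩ : ∃ n, t.length = n := ⟨_, rfl⟩
  have hn0 : 0 < n := by
    rw [← hn]
    exact List.length_pos_of_ne_nil ht.ne
  obtain ⟨x0⟩ : Nonempty V := Fintype.card_pos_iff.1 (by omega)
  obtain ⟨ls, hlsg⟩ : ∃ ls : ℕ → List V, ∀ i (hi : i < t.length), t[i] = ls i :=
    ⟨fun i => t.getD i [], fun i hi => (List.getD_eq_getElem _ _ hi).symm⟩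
  have hlsT : ∀ i < n, ls i ∈ t := by
    intro i hi
    rw [← hlsg i (by omega)]
    exact List.getElem_mem _
  have hTm : ∀ l ∈ t, ∃ i < n, ls i = l := by
    intro l hl
    obtain ⟨i, hi, h1⟩ := List.mem_iff_getElem.1 hl
    exact ⟨i, by omega, by rw [← hlsg i hi, h1]⟩
  have key : ∀ i, ∃ (a : V) (w : List V) (b : V), i < n →
      ls i = a :: (w ++ [b]) ∧ h a ≠ none ∧ h b ≠ none ∧ ∀ v ∈ w, h v = none := by
    intro i
    by_cases hi : i < n
    · obtain ⟨a, w, b, h1⟩ := (hTc _ (hlsT i hi)).shape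
      exact ⟨a, w, b, fun _ => h1⟩
    · exact ⟨x0, [], x0, fun h1 => absurd h1 hi⟩
  choose a w b hk using key
  have hnd : ∀ i < n, (ls i).Nodup := fun i hi => (hTc _ (hlsT i hi)).nodup
  have hdis : ∀ i < n, ∀ j < n, i ≠ j → ∀ v ∈ ls i, v ∉ ls j := by
    have h1 := (List.nodup_flatten.1 ht.nodup).2
    rw [List.pairwise_iff_getElem] at h1
    have h2 : ∀ i j, i < j → j < n → ∀ v ∈ ls i, v ∉ ls j := by
      intro i j hij hj v hv hv'
      have h3 := h1 i j (by omega) (by omega) hij
      rw [hlsg, hlsg] at h3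
      exact h3 hv hv'
    intro i hi j hj hij v hv hv'
    rcases Nat.lt_or_gt_of_ne hij with h3 | h3
    · exact h2 i j h3 hj v hv hv'
    · exact h2 j i h3 hi v hv' hv
  obtain ⟨nx, hnx⟩ : ∃ nx : ℕ → ℕ, ∀ i, nx i = (i + 1) % n := ⟨_, fun _ => rfl⟩
  have hnx1 : ∀ i, i + 1 < n → nx i = i + 1 := fun i hi => by
    rw [hnx, Nat.mod_eq_of_lt hi]
  have hnx2 : nx (n - 1) = 0 := by
    rw [hnx, Nat.sub_add_cancel hn0, Nat.mod_self]
  have hnxlt : ∀ i < n, nx i < n := by
    intro i hi
    rw [hnx]
    exact Nat.mod_lt _ hn0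
  have hsur : ∀ j < n, ∃ i < n, nx i = j := by
    intro j hj
    rcases Nat.eq_zero_or_pos j with h1 | h1
    · exact ⟨n - 1, by omega, by rw [hnx2, h1]⟩
    · exact ⟨j - 1, by omega, by rw [hnx1 (j - 1) (by omega)]; omega⟩
  have hnxi : ∀ i < n, ∀ j < n, nx i = nx j → i = j := by
    intro i hi j hj hij
    rcases Nat.lt_or_ge (i + 1) n with h1 | h1 <;> rcases Nat.lt_or_ge (j + 1) n with h2 | h2
    · rw [hnx1 i h1, hnx1 j h2] at hij
      omega
    · rw [hnx1 i h1, show j = n - 1 by omega, hnx2] at hij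
      omega
    · rw [hnx1 j h2, show i = n - 1 by omega, hnx2] at hij
      omega
    · omega
  have hla : ∀ i < n, a i ∈ ls i := by
    intro i hi
    rw [(hk i hi).1]
    simp
  have hlb : ∀ i < n, b i ∈ ls i := by
    intro i hi
    rw [(hk i hi).1]
    simp
  have hab' : ∀ i < n, a i ≠ b i := by
    intro i hi h1
    have h2 := hnd i hi
    rw [(hk i hi).1, List.nodup_cons] at h2
    apply h2.1
    rw [h1]
    simp
  have hab : ∀ i < n, ∀ j < n, a (nx i) ≠ b j := by
    intro i hi j hj h1
    by_cases h2 : nx i = j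
    · rw [h2] at h1
      exact hab' j hj h1
    · refine hdis (nx i) (hnxlt i hi) j hj h2 _ (hla _ (hnxlt i hi)) ?_
      rw [h1]
      exact hlb j hj
  have hbi : ∀ i < n, ∀ j < n, b i = b j → i = j := by
    intro i hi j hj h1
    by_contra h2
    refine hdis i hi j hj h2 _ (hlb i hi) ?_
    rw [h1]
    exact hlb j hj
  have hai : ∀ i < n, ∀ j < n, a (nx i) = a (nx j) → i = j := by
    intro i hi j hj h1
    apply hnxi i hi j hj
    by_contra h2
    refine hdis _ (hnxlt i hi) _ (hnxlt j hj) h2 _ (hla _ (hnxlt i hi)) ?_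
    rw [h1]
    exact hla _ (hnxlt j hj)
  have hgl : ∀ i < n, (ls i).getLast? = some (b i) := by
    intro i hi
    have h4 : ls i = (a i :: w i) ++ [b i] := by
      rw [(hk i hi).1]
      rfl
    rw [h4, List.getLast?_append]
    rfl
  have hhd : ∀ i < n, (ls i).head? = some (a i) := by
    intro i hi
    rw [(hk i hi).1]
    rfl
  obtain ⟨hjm, hjo⟩ := zbb_jt hn hlsg hhd hgl
  have hjm' : ∀ i < n, (b i, a (nx i)) ∈ jt t := by
    intro i hi
    rw [hnx]
    exact hjm i hi
  have hon : ∀ l ∈ C, ∀ v ∈ l, ∃ i < n, v ∈ ls i := by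
    intro l hl v hv
    rcases ht.all l hl with h1 | h1
    · obtain ⟨i, hi, h2⟩ := hTm _ h1
      exact ⟨i, hi, by rw [h2]; exact hv⟩
    · obtain ⟨i, hi, h2⟩ := hTm _ h1
      exact ⟨i, hi, by rw [h2]; exact List.mem_reverse.2 hv⟩
  have hon' : ∀ i < n, ∀ v ∈ ls i, On C v := by
    intro i hi v hv
    rcases ht.mem _ (hlsT i hi) with h1 | h1
    · exact ⟨_, h1, hv⟩
    · exact ⟨_, h1, List.mem_reverse.2 hv⟩
  have hmid : ∀ i < n, ∀ v ∈ mid (b i), ∀ j < n, v ∉ ls j := by
    intro i hi v hv j hj hvj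
    exact ((h1 _ (hjm' i hi)).2.2 v hv).2 (hon' j hj v hvj)
  refine zbb_cycle (h := h) hn0 hV nx hsur hnx1 hnx2 ls w (fun i => mid (b i)) a b
    (fun i hi => (hk i hi).1) (fun i hi => (hTc _ (hlsT i hi)).chain) hnd hdis
    (fun i hi => (hk i hi).2.2.2) ?_ ?_ ?_ ?_ ?_
  · intro i hi
    exact (h1 _ (hjm' i hi)).1
  · intro i hi
    have h4 := (h1 _ (hjm' i hi)).2.1
    rw [List.nodup_cons, List.nodup_append]
    refine ⟨?_, h4, List.nodup_singleton _, ?_⟩
    · intro hm
      rcases List.mem_append.1 hm with hm | hm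
      · exact hmid i hi _ hm i hi (hlb i hi)
      · rw [List.mem_singleton] at hm
        exact hab i hi i hi hm.symm
    · intro x hx y hy hxy
      rw [List.mem_singleton] at hy
      rw [hxy, hy] at hx
      exact hmid i hi _ hx (nx i) (hnxlt i hi) (hla _ (hnxlt i hi))
  · intro i hi v hv
    exact ((h1 _ (hjm' i hi)).2.2 v hv).1
  · intro i hi j hj hij v hv hv'
    have hne : (b i, a (nx i)) ≠ (b j, a (nx j)) := by
      intro h4
      exact hij (hbi i hi j hj (congrArg Prod.fst h4))
    rcases List.mem_cons.1 hv with rfl | hv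
    · rcases List.mem_cons.1 hv' with h4 | hv'
      · exact hij (hbi i hi j hj h4)
      · rcases List.mem_append.1 hv' with hv' | hv'
        · exact hmid j hj _ hv' i hi (hlb i hi)
        · rw [List.mem_singleton] at hv'
          exact hab j hj i hi hv'.symm
    · rcases List.mem_append.1 hv with hv | hv
      · rcases List.mem_cons.1 hv' with rfl | hv'
        · exact hmid i hi _ hv j hj (hlb j hj)
        · rcases List.mem_append.1 hv' with hv' | hv'
          · exact h2 _ (hjm' i hi) _ (hjm' j hj) hne v hv hv'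
          · rw [List.mem_singleton] at hv'
            rw [hv'] at hv
            exact hmid i hi _ hv _ (hnxlt j hj) (hla _ (hnxlt j hj))
      · rw [List.mem_singleton] at hv
        rw [hv] at hv'
        rcases List.mem_cons.1 hv' with h4 | hv'
        · exact hab i hi j hj h4
        · rcases List.mem_append.1 hv' with hv' | hv'
          · exact hmid j hj _ hv' _ (hnxlt i hi) (hla _ (hnxlt i hi))
          · rw [List.mem_singleton] at hv'
            exact hij (hai i hi j hj hv')
  · intro v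
    by_cases hv : On C v
    · obtain ⟨l, hl, hvl⟩ := hv
      exact Or.inl (hon l hl v hvl)
    · have hvn : h v ≠ none := fun h4 => hv (hW v h4)
      obtain ⟨c, hc, hvc⟩ := h3 v hvn hv
      obtain ⟨i, hi, rfl⟩ := hjo c hc
      exact Or.inr ⟨i, hi, hvc⟩

end Pool.Agent.RamV
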