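import Pool.Agent.Lib.MP_078aef_co_v.ZBA
import Pool.Agent.Lib.MP_078aef_co_v.ZBB
import Pool.Agent.Lib.MP_078aef_co_v.ZAB

/-! Assembling the Hamiltonian cycle. -/

namespace Pool.Agent.RamV

open Finset Pool.Agent.RamseyHam Pool.Agent.RamQ Pool.Agent.RamH

variable {V : Type*} [Fintype V] [DecidableEq V] {m : ℕ} {G : SimpleGraph V}
  {h : V → Option (Fin m)} {C : Finset (List V)} {t : List (List V)}

/-- the case without paths. Proof: asm_empty in Lib/MP_078aef_co_h/Asm.lean (private; copied): `m = 1`, the hub is everything. -/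
theorem no_paths (hm : 1 ≤ m) (hS : Sp h (∅ : Finset (List V)))
    (hW : ∀ v, h v = none → On (∅ : Finset (List V)) v) (b τ : Fin m → ℕ)
    (hb : ∀ i, al G (Hb h i) ≤ b i) (hτ : ∀ i, (b i + 1) * (2 * b i + 2) + b i + 1 ≤ τ i)
    (hrob : ∀ i, Rb G (Un h (∅ : Finset (List V)) i) (τ i)) (hV : 3 ≤ Fintype.card V) :
    ∃ l, Cyc G l ∧ l.length = Fintype.card V := by
  classical
  have hij : ∀ i j : Fin m, i = j := by
    intro i j
    by_contra hij
    have h1 := hS i j
    rw [coe_empty, Set.image_empty, Submodule.span_empty, Submodule.mem_bot] at h1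
    have h2 := congrFun h1 i
    rw [Pi.add_apply, Pi.single_eq_same, Pi.single_eq_of_ne hij, add_zero] at h2
    exact one_ne_zero h2
  have huniv : Hb h ⟨0, hm⟩ = univ := by
    rw [eq_univ_iff_forall]
    intro v
    rw [mem_Hb]
    cases hv : h v with
    | none =>
      obtain ⟨l, hl, -⟩ := hW v hv
      exact absurd hl (notMem_empty l)
    | some k => rw [hij k ⟨0, hm⟩]
  have hUn : Un h (∅ : Finset (List V)) ⟨0, hm⟩ = univ := by
    unfold Un
    rw [huniv, eq_univ_iff_forall]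
    intro v
    refine mem_filter.mpr ⟨mem_univ _, ?_⟩
    rintro ⟨l, hl, -⟩
    exact absurd hl (notMem_empty l)
  have hR := hrob ⟨0, hm⟩
  rw [hUn] at hR
  have hA := hb ⟨0, hm⟩
  rw [huniv] at hA
  have ht := hτ ⟨0, hm⟩
  obtain ⟨A, hAd⟩ : ∃ A, b ⟨0, hm⟩ = A := ⟨_, rfl⟩
  obtain ⟨s, hsd⟩ : ∃ s, τ ⟨0, hm⟩ = s := ⟨_, rfl⟩
  rw [hAd] at hA ht
  rw [hsd] at hR ht
  have ht' : 1 * (2 * A + 2) + A + 1 ≤ s := by
    have h1 := Nat.mul_le_mul_right (2 * A + 2) (show 1 ≤ A + 1 by omega)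
    omega
  obtain ⟨u, v, huv⟩ : ∃ u v, G.Adj u v := by
    by_contra hcon
    push Not at hcon
    have h1 : Ind G (univ : Finset V) := fun x _ y _ => hcon x y
    have h2 := h1.card_le_al (D := univ) (subset_univ _)
    have h3 := hR.1
    omega
  have hne := G.ne_of_adj huv
  obtain ⟨P, hP1, -, hP3⟩ := fill (U := {u}) hR hA (fun _ => v) ⟨u, mem_singleton_self u⟩
    (subset_univ _) (fun _ _ => mem_univ _) (fun _ _ h1 => hne (mem_singleton.1 h1).symm)
    (fun x hx y hy _ => (mem_singleton.1 hx).trans (mem_singleton.1 hy).symm)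
    (by rw [card_singleton]; exact ht')
  obtain ⟨h1, h2, -⟩ := hP1 u (mem_singleton_self u)
  have hlen : (P u).length = Fintype.card V := by
    rw [← List.toFinset_card_of_nodup h2, ← Finset.card_univ]
    congr 1
    ext x
    simp only [List.mem_toFinset, Finset.mem_univ, iff_true]
    obtain ⟨u', hu', hx⟩ := hP3 x (mem_univ x)
    rw [mem_singleton] at hu'
    rw [hu'] at hx
    exact hx
  exact ⟨P u, ⟨h2, by rw [hlen]; exact hV, u, v, h1, huv.symm⟩, hlen⟩

/-- Proof: best_tour, mids, close_tour, no_paths. -/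
theorem assembleV (hm : 1 ≤ m) (hC : Sta G h C) (hS : Sp h C)
    (hW : ∀ v, h v = none → On C v) (b τ : Fin m → ℕ)
    (hb : ∀ i, al G (Hb h i) ≤ b i) (hτ : ∀ i, (b i + 1) * (2 * b i + 2) + b i + 1 ≤ τ i)
    (hrob : ∀ i, Rb G (Un h C i) (τ i))
    (hnb : ∀ i, ∀ v ∈ Hb h i, τ i ≤ (nb G v ∩ Un h C i).card) (hV : 3 ≤ Fintype.card V) :
    ∃ l, Cyc G l ∧ l.length = Fintype.card V := by
  rcases C.eq_empty_or_nonempty with h3 | h3
  · subst h3
    exact no_paths hm hS hW b τ hb hτ hrob hV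
  · obtain ⟨t, ht, hbest⟩ := best_tour hC hS h3
    obtain ⟨mid, h1, h2, h4⟩ := mids hC hS h3 ht hbest b τ hb hτ hrob hnb
    exact close_tour hC ht hW hV h1 h2 h4

end Pool.Agent.RamV
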