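import Pool.Agent.Lib.MP_078aef_co_v.LevB
import Pool.Agent.Lib.MP_078aef_co_v.FTwo
import Pool.Agent.Lib.MP_078aef_co_v.YC
import Pool.Agent.Lib.MP_078aef_co_v.ZBC

/-! The graph theoretic theorem. -/

namespace Pool.Agent.RamV

open Finset Pool.Agent.RamseyHam Pool.Agent.RamQ Pool.Agent.RamH

private theorem fv_mem {V : Type*} [Fintype V] [DecidableEq V] {m : ℕ} {h : V → Option (Fin m)}
    {C : Finset (List V)} {i : Fin m} {v : V} : v ∈ Un h C i ↔ v ∈ Hb h i ∧ ¬ On C v := by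
  simp only [Un, mem_filter]

private theorem fv_num {a : ℕ} (ha : 2 ≤ a) :
    (a + 1) * (2 * a + 2) + a + 1 ≤ a ^ 10 / 16 := by
  rw [Nat.le_div_iff_mul_le (by norm_num)]
  have h1 : a ≤ a * a := Nat.le_mul_self a
  have h2 : (a + 1) * (2 * a + 2) + a + 1 ≤ 16 * a ^ 2 := by
    have h3 : (a + 1) * (2 * a + 2) + a + 1 = 2 * (a * a) + 5 * a + 3 := by ring
    rw [h3, pow_two]
    omega
  have h4 : 2 ^ 8 ≤ a ^ 8 := Nat.pow_le_pow_left ha 8
  calc ((a + 1) * (2 * a + 2) + a + 1) * 16 ≤ (16 * a ^ 2) * 16 := Nat.mul_le_mul_right 16 h2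
    _ = 2 ^ 8 * a ^ 2 := by ring
    _ ≤ a ^ 8 * a ^ 2 := Nat.mul_le_mul_right _ h4
    _ = a ^ 10 := by ring

/-- the graph theoretic theorem.
Proof: levels, children (`m ≥ 1`: a vertex of smallest level is in a hub, `down`; `V` is nonempty), fair_two, cover, assembleV with
`b i = a (hl i)`, `τ i = a (hl i) ^ 10 / 16`: `Un h C i` contains `Hb h i \ U` (last part of cover), Rb.extend. -/
theorem thmV {V : Type*} [Fintype V] [DecidableEq V] {G : SimpleGraph V} {K k w : ℕ}
    {N : ℕ → ℕ} (hN : Nm K k w N) (hk : 1 ≤ k) (hG : Hy G K w N) (hV : 3 ≤ Fintype.card V) :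
    ∃ l, Cyc G l ∧ l.length = Fintype.card V := by
  obtain ⟨m, h, lev, hl, L, a, hL⟩ := levels hN hG
  obtain ⟨ch, hc⟩ := children hN hL
  have hm : 1 ≤ m := by
    by_contra hcon
    have hne : (univ : Finset V).Nonempty := by
      rw [← card_pos, card_univ]
      omega
    obtain ⟨y, -, hy⟩ := exists_min_image univ lev hne
    have hyn : h y = none := by
      rcases hh : h y with _ | i
      · rfl
      · have := i.2
        omega
    have h1 := hc.card y hyn
    obtain ⟨x, hx⟩ : (ch y).Nonempty := by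
      rw [← card_pos]
      omega
    have h2 := hc.lt y x hx
    have h3 := hy x (mem_univ x)
    omega
  obtain ⟨Fm, Fo, hel, hcmp, hd, hFm, hFo, hU⟩ := fair_two hN hk hG hL hc hm
  obtain ⟨C, hS, hSp, hW, hOn⟩ := cover hc hel hcmp hd hFm hFo
  have hsub : ∀ i, Hb h i \ ((Fm ∪ Fo).biUnion pts ∪ univ.biUnion ch) ⊆ Un h C i := by
    intro i x hx
    rw [mem_sdiff] at hx
    refine fv_mem.2 ⟨hx.1, fun hon => hx.2 (hOn x ?_ hon)⟩
    rw [mem_Hb.1 hx.1]
    exact Option.some_ne_none i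
  refine assembleV hm hS hSp hW (fun i => a (hl i)) (fun i => a (hl i) ^ 10 / 16)
    (fun i => hL.al_le i) (fun i => fv_num ?_) (fun i => ?_) (fun i v hv => ?_) hV
  · exact le_trans (by norm_num) (hN.two.trans (hL.wa _ (hL.hl_le i)))
  · exact (hU i).1.extend (hsub i) fun v hv _ => (hU i).2 v (fv_mem.1 hv).1
  · exact ((hU i).2 v hv).trans (card_le_card (inter_subset_inter_left (hsub i)))

end Pool.Agent.RamV
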