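import Pool.Agent.Lib.MP_078aef_co_v.RamC

/-! Connectivity and low degrees in critical graphs. -/

namespace Pool.Agent.RamV

open Finset Pool.Agent.RamseyHam Pool.Agent.RamQ Pool.Agent.RamH

private theorem side_RamD {V : Type*} [Fintype V] [DecidableEq V] {G : SimpleGraph V} {k s : ℕ}
    {R : ℕ → ℕ} (h : Crit k s G R) (X P Q : Finset V)
    (hPQ : P ∪ Q = univ \ X) (hno : Non G P Q) (v : V) (hv : v ∈ P)
    (h1 : NN R X.card + X.card ≤ (nb G v).card) : X.card + 1 ≤ al G P := by
  by_contra hcon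
  have h2 : insert v (nb G v) ⊆ P ∪ X := by
    intro u hu
    rcases mem_insert.mp hu with rfl | hu
    · exact mem_union_left _ hv
    · by_cases hX : u ∈ X
      · exact mem_union_right _ hX
      · have h3 : u ∈ P ∪ Q := by
          rw [hPQ]
          exact mem_sdiff.mpr ⟨mem_univ _, hX⟩
        rcases mem_union.mp h3 with h4 | h4
        · exact mem_union_left _ h4
        · exact absurd (mem_nb.mp hu) (hno v hv u h4)
  have h3 := (card_le_card h2).trans (card_union_le _ _)
  have h4 : v ∉ nb G v := fun h5 => G.loopless.irrefl v (mem_nb.mp h5)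
  rw [card_insert_of_notMem h4] at h3
  have h5 := crit_big h P
  have h6 := NN_mono h.ram (show al G P ≤ X.card by omega)
  omega

private theorem conn_RamD {V : Type*} [Fintype V] [DecidableEq V] {G : SimpleGraph V} {k s : ℕ}
    {R : ℕ → ℕ} (h : Crit k s G R) (hk : 3 ≤ k) (hs : 2 ≤ s) (X P Q : Finset V)
    (hPQ : P ∪ Q = univ \ X) (hd : Disjoint P Q) (hno : Non G P Q)
    (hp : X.card + 1 ≤ al G P) (hpq : al G P ≤ al G Q) : False := by
  have h1 := crit_big h P
  have h2 := crit_big h Q
  have h3 : al G P + al G Q ≤ al G (univ : Finset V) :=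
    al_add_le (subset_univ _) (subset_univ _) hd hno
  have h4 : al G (univ : Finset V) ≤ s - 1 := al_le h.ind_le
  have h5 : Fintype.card V ≤ P.card + Q.card + X.card := by
    have h6 : (P ∪ Q).card = Fintype.card V - X.card := by
      rw [hPQ, card_sdiff_of_subset (subset_univ _), card_univ]
    have h7 := card_union_le P Q
    omega
  have h6 := glueI hk R h.ram (show 2 ≤ al G P + 1 by omega)
    (show al G P + 1 ≤ al G Q + 1 by omega)
  have h7 := NN_mono h.ram (show al G P + al G Q ≤ s - 1 by omega)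
  have h8 : al G P + 1 + (al G Q + 1) - 1 = al G P + al G Q + 1 := by omega
  have h9 : s - 1 + 1 = s := by omega
  have h10 := (h.ram (al G P + al G Q + 1) (by omega)).pos
  have h11 := (h.ram (al G P + 1) (by omega)).pos
  have h12 := (h.ram (al G Q + 1) (by omega)).pos
  have h13 := h.crit
  rw [h8] at h6
  unfold NN at h1 h2 h7
  rw [if_neg (by omega), if_neg (by omega), h9] at h7
  rw [if_neg (by omega)] at h1 h2
  omega

/-- Proof: `x = |X|`. `P` contains `v` and all neighbours of `v` outside `X`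
(a neighbour is not in `Q`, as `Non G P Q`), so `|P| ≥ 1 + NN R x`, so `al G P ≥ x + 1` (crit_big, NN_mono); the
same for `Q`.  Let `p = al P`, `q = al Q`, `x + 1 ≤ p`, `x + 1 ≤ q`, `p + q ≤ al G univ ≤ s - 1`.
`R s - 1 = |V| ≤ |P| + |Q| + x ≤ (R (p+1) - 1) + (R (q+1) - 1) + x` and glueI (for the pair
`p + 1, q + 1` or the reverse, the smaller one first) gives `R(p+1) + R(q+1) + (x + 1) ≤ R (p+q+1) + 1 ≤ R s + 1`
(monotone). Contradiction. -/
theorem crit_conn {V : Type*} [Fintype V] [DecidableEq V] {G : SimpleGraph V} {k s : ℕ}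
    {R : ℕ → ℕ} (h : Crit k s G R) (hk : 3 ≤ k) (hs : 2 ≤ s) (X P Q : Finset V)
    (hPQ : P ∪ Q = univ \ X) (hd : Disjoint P Q) (hno : Non G P Q) (v v' : V) (hv : v ∈ P)
    (hv' : v' ∈ Q) (h1 : NN R X.card + X.card ≤ (nb G v).card)
    (h2 : NN R X.card + X.card ≤ (nb G v').card) : False := by
  have hQP : Q ∪ P = univ \ X := by rw [union_comm, hPQ]
  have h3 := side_RamD h X P Q hPQ hno v hv h1
  have h4 := side_RamD h X Q P hQP hno.symm v' hv' h2
  rcases le_total (al G P) (al G Q) with h5 | h5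
  · exact conn_RamD h hk hs X P Q hPQ hd hno h3 h5
  · exact conn_RamD h hk hs X Q P hQP hd.symm hno.symm h4 h5

/-- Proof: as crit_window in Lib/MP_078aef_co_h/Ram.lean. `b = |I|`, `U = V \ N[I]` has at least
`|V| - b D` vertices and `al U + b ≤ s - 1`. If `U` is empty: `NN R b ≤ NN R (s-1) = |V| ≤ b D`
(`b ≤ s - 1`).  Otherwise `u = al U ≥ 1`, `|U| ≤ R (u+1) - 1`, and glueR gives
`R (b+1) + R (u+1) + (k-2) ≤ R (b+u+1) + 1 ≤ R s + 1`, so `R (b+1) - 1 ≤ b D`.
(`b = 0` is trivial.) -/
theorem crit_low {V : Type*} [Fintype V] [DecidableEq V] {G : SimpleGraph V} {k s : ℕ}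
    {R : ℕ → ℕ} (h : Crit k s G R) (hk : 3 ≤ k) (hs : 2 ≤ s) {D : ℕ} (I : Finset V)
    (hI : Ind G I) (hdeg : ∀ v ∈ I, (nb G v).card < D) : NN R I.card ≤ I.card * D := by
  rcases I.eq_empty_or_nonempty with rfl | hIne
  · simp [NN]
  have hb : 1 ≤ I.card := hIne.card_pos
  set N : Finset V := I.biUnion (fun v => insert v (nb G v)) with hN
  set U : Finset V := univ \ N with hU
  have hNcard : N.card ≤ I.card * D := by
    refine card_biUnion_le_card_mul _ _ _ fun v hv => ?_
    have h1 := hdeg v hv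
    have h2 := card_insert_le v (nb G v)
    omega
  have hUcard : Fintype.card V ≤ U.card + I.card * D := by
    have h1 : U.card = Fintype.card V - N.card := by
      rw [hU, card_sdiff_of_subset (subset_univ _), card_univ]
    omega
  have hfar : ∀ v ∈ I, ∀ x ∈ U, v ≠ x ∧ ¬ G.Adj v x := by
    intro v hv x hx
    have h1 : x ∉ N := (mem_sdiff.mp hx).2
    constructor
    · rintro rfl
      exact h1 (mem_biUnion.mpr ⟨v, hv, mem_insert_self _ _⟩)
    · intro h
      exact h1 (mem_biUnion.mpr ⟨v, hv, mem_insert_of_mem (mem_nb.mpr h)⟩)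
  have hal : al G U + I.card ≤ s - 1 := by
    obtain ⟨Q, hQU, hQ, hQc⟩ := exists_al G U
    have hdis : Disjoint I Q := by
      rw [disjoint_left]
      intro x hx hx'
      exact (hfar x hx x (hQU hx')).1 rfl
    have h1 := h.ind_le _ (hI.union hQ fun x hx y hy => (hfar x hx y (hQU hy)).2)
    rw [card_union_of_disjoint hdis, hQc] at h1
    omega
  have h9 : s - 1 + 1 = s := by omega
  have h13 := h.crit
  rcases U.eq_empty_or_nonempty with hUe | hUne
  · have h1 := NN_mono h.ram (show I.card ≤ s - 1 by omega)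
    have h2 : NN R (s - 1) = R s - 1 := by
      unfold NN
      rw [if_neg (by omega), h9]
    rw [hUe, card_empty] at hUcard
    omega
  · have h3 := al_pos (G := G) hUne
    have h4 := crit_big h U
    have h5 := glueR (show 2 ≤ k by omega) R h.ram (show 2 ≤ I.card + 1 by omega)
      (show 2 ≤ al G U + 1 by omega)
    have h6 := NN_mono h.ram (show I.card + al G U ≤ s - 1 by omega)
    have h8 : I.card + 1 + (al G U + 1) - 1 = I.card + al G U + 1 := by omega
    have h10 := (h.ram (I.card + al G U + 1) (by omega)).pos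
    have h11 := (h.ram (I.card + 1) (by omega)).pos
    have h12 := (h.ram (al G U + 1) (by omega)).pos
    rw [h8] at h5
    unfold NN at h4 h6 ⊢
    rw [if_neg (by omega), if_neg (by omega), h9] at h6
    rw [if_neg (by omega)] at h4 ⊢
    omega

end Pool.Agent.RamV
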