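import Pool.Agent.Lib.MP_078aef_co_v.RamL
import Pool.Agent.Lib.MP_078aef_co_v.RamD

/-! Critical graphs have the properties `Nm` and `Hy`. -/

namespace Pool.Agent.RamV

open Finset Pool.Agent.RamseyHam Pool.Agent.RamQ Pool.Agent.RamH

/-- the choice of `w`: the floor of the 28th root of `k - 2`.
Proof: Nat.findGreatest as in exists_w (Lib/MP_078aef_co_h/Num.lean): `w ^ 28 ≤ k - 2 < (w+1) ^ 28`,
`w ≥ 2 ^ 28`, and `k ≤ (w+1)^28 + 1 ≤ (2w)^28 ≤ w^29`. -/
theorem exists_w28 {k : ℕ} (hk : 2 ^ 800 ≤ k) :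
    ∃ w, 2 ^ 28 ≤ w ∧ w ^ 28 ≤ k - 2 ∧ k ≤ w ^ 29 := by
  have h784 : (2 ^ 28) ^ 28 ≤ k - 2 := by
    obtain ⟨t, ht⟩ : ∃ t : ℕ, t = 2 ^ 784 := ⟨_, rfl⟩
    have h1 : (2 : ℕ) ^ 800 = 2 ^ 16 * t := by
      rw [ht, ← pow_add]
    have h2 : ((2 : ℕ) ^ 28) ^ 28 = t := by
      rw [ht, ← pow_mul]
    have h3 : 1 ≤ t := by
      rw [ht]
      exact Nat.one_le_two_pow
    have h4 : (2 : ℕ) ^ 16 = 65536 := by norm_num
    rw [h1, h4] at hk
    rw [h2]
    omega
  have hk2 : 2 ^ 28 ≤ k := by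
    have h1 : (2 : ℕ) ^ 28 ≤ (2 ^ 28) ^ 28 := Nat.le_self_pow (by norm_num) _
    omega
  obtain ⟨w, hw⟩ : ∃ w, w = Nat.findGreatest (fun w => w ^ 28 ≤ k - 2) k := ⟨_, rfl⟩
  have h1 : w ^ 28 ≤ k - 2 := by
    rw [hw]
    exact Nat.findGreatest_spec (P := fun w => w ^ 28 ≤ k - 2) (m := 2 ^ 28) hk2 h784
  have h2 : 2 ^ 28 ≤ w := by
    rw [hw]
    exact Nat.le_findGreatest hk2 h784
  refine ⟨w, h2, h1, ?_⟩
  by_contra hc
  rw [not_le] at hc
  have h5 : (w + 1) ^ 28 < (2 * w) ^ 28 :=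
    Nat.pow_lt_pow_left (by omega) (by norm_num)
  have h6 : (2 * w) ^ 28 ≤ w ^ 29 := by
    rw [mul_pow, pow_succ' w 28]
    exact Nat.mul_le_mul_right _ h2
  have h3 : w + 1 ≤ k := by
    have h7 : w ≤ w ^ 28 := Nat.le_self_pow (by norm_num) _
    omega
  have h4 : ¬ (w + 1) ^ 28 ≤ k - 2 := by
    refine Nat.findGreatest_is_greatest (P := fun w => w ^ 28 ≤ k - 2) (n := k) ?_ h3
    rw [← hw]
    omega
  omega

/-- the minimal degree -/
private theorem hyp_deg {V : Type*} [Fintype V] [DecidableEq V] {G : SimpleGraph V} {k s : ℕ}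
    {R : ℕ → ℕ} (h : Crit k s G R) (hk : 3 ≤ k) (hs : k ≤ s) (v : V) :
    k - 2 ≤ (nb G v).card := by
  by_contra hc
  rw [not_le] at hc
  obtain ⟨Q, hQ⟩ : ∃ Q : Finset V, Q = univ \ (insert v (nb G v)) := ⟨_, rfl⟩
  rcases Q.eq_empty_or_nonempty with hQ0 | hQ0
  · have h1 : (univ : Finset V) ⊆ insert v (nb G v) := by
      rw [hQ] at hQ0
      exact sdiff_eq_empty_iff_subset.1 hQ0
    have h2 : Fintype.card V ≤ (nb G v).card + 1 := by
      rw [← card_univ]
      exact (card_le_card h1).trans (card_insert_le _ _)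
    have h3 : KS k 2 (⊤ : SimpleGraph (Fin (k - 1))) := by
      refine ⟨fun S hS => ?_, fun S hS => ?_⟩
      · have h4 := card_le_univ S
        rw [hS.card_eq, Fintype.card_fin] at h4
        omega
      · have h4 : 1 < S.card := by
          rw [hS.card_eq]
          norm_num
        obtain ⟨x, hx, y, hy, hxy⟩ := one_lt_card.1 h4
        have h5 := hS.isClique hx hy hxy
        rw [SimpleGraph.compl_adj] at h5
        exact h5.2 hxy
    have h4 := (h.ram s (by omega)).card_lt (h3.mono (by omega : 2 ≤ s))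
    rw [Fintype.card_fin] at h4
    have h5 := h.crit
    omega
  · have h1 := crit_tough h (by omega) (by omega) 1 (nb G v) ![{v}, Q] ?_ ?_ ?_ ?_
    · omega
    · intro i
      fin_cases i
      · exact singleton_nonempty v
      · exact hQ0
    · have hd : Disjoint {v} Q := by
        rw [disjoint_singleton_left, hQ]
        simp
      intro i j hij
      fin_cases i <;> fin_cases j
      · exact absurd rfl hij
      · exact hd
      · exact hd.symm
      · exact absurd rfl hij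
    · have hd : Non G {v} Q := by
        intro x hx y hy hxy
        rw [mem_singleton] at hx
        subst hx
        rw [hQ, mem_sdiff] at hy
        exact hy.2 (mem_insert_of_mem (mem_nb.2 hxy))
      intro i j hij
      fin_cases i <;> fin_cases j
      · exact absurd rfl hij
      · exact hd
      · exact hd.symm
      · exact absurd rfl hij
    · intro u
      by_cases hu : u ∈ nb G v
      · exact Or.inl hu
      · right
        by_cases huv : u = v
        · exact ⟨0, by rw [huv]; exact mem_singleton_self v⟩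
        · refine ⟨1, ?_⟩
          show u ∈ Q
          rw [hQ, mem_sdiff]
          refine ⟨mem_univ _, fun hm => ?_⟩
          rcases mem_insert.1 hm with h5 | h5
          · exact huv h5
          · exact hu h5

/-- Proof: tough = crit_tough; deg: if `nb G v` has fewer than `K` members then, with `X = nb G v`, either
`V \ X \ {v}` is nonempty (toughness with two parts) or `|V| ≤ |X| + 1 ≤ K`; but `|V| = R s - 1 ≥ R 2 - 1 ≥ k - 1 = K + 1`
(the complete graph on `k - 1` vertices is KS k 2).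
big = crit_big, conn = crit_conn; low: `q = |I|`; if `q ^ 2 > a` then `q > w` (as `a > w ^ 2`), `NN R q ≥ q ^ 29`
(NN_low) and `NN R q ≤ q * a ^ 14 < q * (q ^ 2) ^ 14 = q ^ 29` (crit_low). -/
theorem crit_hy {V : Type*} [Fintype V] [DecidableEq V] {G : SimpleGraph V} {k s : ℕ}
    {R : ℕ → ℕ} (h : Crit k s G R) (hk : 2 ^ 800 ≤ k) (hs : k ≤ s) :
    ∃ w, Nm (k - 2) k w (NN R) ∧ Hy G (k - 2) w (NN R) := by
  obtain ⟨w, hw1, hw2, hw3⟩ := exists_w28 hk
  have hk100 : 2 ^ 100 ≤ k := (Nat.pow_le_pow_right (by norm_num) (by norm_num)).trans hk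
  have hk3 : 3 ≤ k := le_trans (by norm_num) hk100
  refine ⟨w, ⟨hw1, hw2, hw3, NN_mono h.ram, fun x => (NN_up hk3 h.ram x).1,
    fun x => (NN_up hk3 h.ram x).2⟩, ⟨crit_tough h (by omega) (by omega),
    hyp_deg h hk3 hs, crit_big h, fun X P Q hPQ hd hno v hv v' hv' h1 h2 =>
      crit_conn h hk3 (by omega) X P Q hPQ hd hno v v' hv hv' h1 h2, ?_⟩⟩
  intro a ha I hI hdeg
  by_contra hc
  rw [not_le] at hc
  have h1 : w < I.card := by
    by_contra h2
    rw [not_lt] at h2
    have h3 : I.card ^ 2 ≤ w ^ 2 := Nat.pow_le_pow_left h2 2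
    omega
  have h2 := NN_low hk100 h.ram (hw1.trans h1.le)
  have h3 := crit_low h hk3 (by omega) I hI hdeg
  have h4 : a ^ 14 < (I.card ^ 2) ^ 14 := Nat.pow_lt_pow_left hc (by norm_num)
  have h5 : I.card * a ^ 14 < I.card * (I.card ^ 2) ^ 14 :=
    Nat.mul_lt_mul_of_pos_left h4 (by omega)
  have h6 : I.card * (I.card ^ 2) ^ 14 = I.card ^ 29 := by
    rw [← pow_mul, ← pow_succ']
  rw [h6] at h5
  exact absurd (h2.trans h3) (not_le.2 h5)

end Pool.Agent.RamV
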