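import Pool.Agent.Lib.MP_078aef_co_v.FinV
import Pool.Agent.Lib.MP_078aef_co_v.Hyp
import Pool.Agent.Lib.MP_078aef_co_h.Fin

/-! Every Ramsey-critical `(k,s)`-graph with `2^800 ≤ k ≤ s` is Hamiltonian. -/

namespace Pool.Agent.RamV

open Finset Pool.Agent.RamseyHam Pool.Agent.RamQ Pool.Agent.RamH

/-- Proof: as gd_final in Lib/MP_078aef_co_h/Fin.lean, with crit_hy and thmV. -/
theorem final_large {k s : ℕ} (hk : 2 ^ 800 ≤ k) (hks : k ≤ s) {V : Type*}
    [Fintype V] [DecidableEq V] {G : SimpleGraph V} (hG : IsCritical k s G) :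
    ∃ (a : V) (p : G.Walk a a), p.IsHamiltonianCycle := by
  have hk4 : 4 ≤ k := by
    refine le_trans ?_ hk
    calc 4 = 2 ^ 2 := by norm_num
      _ ≤ 2 ^ 800 := Nat.pow_le_pow_right (by norm_num) (by norm_num)
  have hs4 : 4 ≤ s := le_trans hk4 hks
  have hR : ∀ p, 2 ≤ p → IsRam k p (ramsey k p) := fun p hp =>
    isRam_ramsey (le_trans (by norm_num) hk4) (le_trans (by norm_num) hp)
  have hs2 : 2 ≤ s := le_trans (by norm_num) hs4
  have hcrit : Fintype.card V + 1 = ramsey k s := by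
    have h1 := hG.card
    have h2 := (hR s hs2).pos
    clear hk
    omega
  have hC : Crit k s G (fun p => ramsey k p) :=
    ⟨⟨hG.cliqueFree, (indep_iff G s).mp hG.indep⟩, hR, hcrit⟩
  have hcard : 3 ≤ Fintype.card V := by
    have h3 : KS k s (⊥ : SimpleGraph (Fin 3)) :=
      ⟨SimpleGraph.cliqueFree_of_card_lt (by rw [Fintype.card_fin]; exact hk4),
        SimpleGraph.cliqueFree_of_card_lt (by rw [Fintype.card_fin]; exact hs4)⟩
    have h4 := (hR s hs2).card_lt h3
    rw [Fintype.card_fin, ← hcrit] at h4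
    exact Nat.lt_succ_iff.mp h4
  obtain ⟨w, hN, hHy⟩ := crit_hy hC hk hks
  obtain ⟨l, hl, hlen⟩ := thmV hN (le_trans (by norm_num) hk4) hHy hcard
  exact hl.hamiltonian hlen

end Pool.Agent.RamV
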