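import Pool.Agent.Lib.MP_078aef_co_v.PthL

/-! Following a choice of children. -/

namespace Pool.Agent.RamV

open Finset Pool.Agent.RamseyHam Pool.Agent.RamQ Pool.Agent.RamH

variable {V : Type*} {m : ℕ}

/-- the chain from `x` which follows the children `c` (at most `n` steps) -/
def fol (h : V → Option (Fin m)) (c : V → V) : ℕ → V → List V
  | 0, x => [x]
  | n + 1, x => if h x = none then x :: fol h c n (c x) else [x]

private theorem fol_succ_none {h : V → Option (Fin m)} {c : V → V} (n : ℕ) {x : V}
    (hx : h x = none) : fol h c (n + 1) x = x :: fol h c n (c x) := by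
  simp only [fol]
  rw [if_pos hx]

private theorem fol_succ_hub {h : V → Option (Fin m)} {c : V → V} (n : ℕ) {x : V}
    (hx : h x ≠ none) : fol h c (n + 1) x = [x] := by
  simp only [fol]
  rw [if_neg hx]

private theorem fol_self {h : V → Option (Fin m)} {c : V → V} (n : ℕ) (x : V) :
    x ∈ fol h c n x := by
  cases n with
  | zero => exact List.mem_singleton_self x
  | succ n =>
    by_cases hx : h x = none
    · rw [fol_succ_none n hx]
      exact List.mem_cons_self
    · rw [fol_succ_hub n hx]
      exact List.mem_singleton_self x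

variable [Fintype V] [DecidableEq V] {G : SimpleGraph V} {h : V → Option (Fin m)}
  {ch : V → Finset V} {lev : V → ℕ} {c c0 c1 c2 : V → V}

theorem fol_pth (hc : Chd G h lev ch) (h1 : ∀ y, h y = none → c y ∈ ch y) (n : ℕ) (x : V)
    (hn : lev x ≤ n) : ∃ z, Pth h ch x (fol h c n x) z := by
  induction n generalizing x with
  | zero =>
    have hx : h x ≠ none := fun hx => by
      have := hc.lt x (c x) (h1 x hx)
      omega
    exact ⟨x, Pth.hub x hx⟩
  | succ n ih =>
    by_cases hx : h x = none
    · have h3 := hc.lt x (c x) (h1 x hx)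
      obtain ⟨z, hz⟩ := ih (c x) (by omega)
      refine ⟨z, ?_⟩
      rw [fol_succ_none n hx]
      exact Pth.cons x (c x) _ z (h1 x hx) hz
    · refine ⟨x, ?_⟩
      rw [fol_succ_hub n hx]
      exact Pth.hub x hx

/-- every vertex of `fol` except the first one is the child `c` of a vertex of `fol` outside the hubs -/
theorem fol_pred (n : ℕ) (x : V) : ∀ y ∈ fol h c n x, y = x ∨ ∃ u ∈ fol h c n x, h u = none ∧
    y = c u := by
  induction n generalizing x with
  | zero =>
    intro y hy
    exact Or.inl (List.mem_singleton.1 hy)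
  | succ n ih =>
    intro y hy
    by_cases hx : h x = none
    · rw [fol_succ_none n hx] at hy ⊢
      rcases List.mem_cons.1 hy with hy | hy
      · exact Or.inl hy
      · rcases ih (c x) y hy with hy | ⟨u, hu, hu1, hu2⟩
        · exact Or.inr ⟨x, List.mem_cons_self, hx, hy⟩
        · exact Or.inr ⟨u, List.mem_cons_of_mem _ hu, hu1, hu2⟩
    · rw [fol_succ_hub n hx] at hy
      exact Or.inl (List.mem_singleton.1 hy)

/-- a vertex of `fol` outside the hubs is followed by its child `c` -/
theorem fol_next (hc : Chd G h lev ch) (h1 : ∀ y, h y = none → c y ∈ ch y) (n : ℕ) (x : V)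
    (hn : lev x ≤ n) : ∀ u ∈ fol h c n x, h u = none → c u ∈ fol h c n x := by
  induction n generalizing x with
  | zero =>
    intro u hu hun
    rw [List.mem_singleton.1 hu] at hun
    have := hc.lt x (c x) (h1 x hun)
    omega
  | succ n ih =>
    intro u hu hun
    by_cases hx : h x = none
    · have h3 := hc.lt x (c x) (h1 x hx)
      rw [fol_succ_none n hx] at hu ⊢
      rcases List.mem_cons.1 hu with hu | hu
      · rw [hu]
        exact List.mem_cons_of_mem _ (fol_self n (c x))
      · exact List.mem_cons_of_mem _ (ih (c x) (by omega) u hu hun)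
    · rw [fol_succ_hub n hx] at hu
      rw [List.mem_singleton.1 hu] at hun
      exact absurd hun hx

/-- Proof: induction on `n`. -/
theorem fol_avoid {Z W : Finset V} (hWZ : W ⊆ Z) (h2 : ∀ y, h y = none → y ∉ W → c y ∉ Z) (n : ℕ)
    (x : V) (hx : x ∉ Z) : ∀ y ∈ fol h c n x, y ∉ Z := by
  induction n generalizing x with
  | zero =>
    intro y hy
    rw [List.mem_singleton.1 hy]
    exact hx
  | succ n ih =>
    intro y hy
    by_cases hxn : h x = none
    · rw [fol_succ_none n hxn] at hy
      rcases List.mem_cons.1 hy with hy | hy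
      · rw [hy]
        exact hx
      · exact ih (c x) (h2 x hxn (fun hW => hx (hWZ hW))) y hy
    · rw [fol_succ_hub n hxn] at hy
      rw [List.mem_singleton.1 hy]
      exact hx

end Pool.Agent.RamV
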