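import Pool.Agent.Lib.MP_078aef_co_v.Fol

/-! Rerouting a chain. -/

namespace Pool.Agent.RamV

open Finset Pool.Agent.RamseyHam Pool.Agent.RamQ Pool.Agent.RamH

variable {V : Type*} {m : ℕ}

/-- leave the chain before the first vertex of `W`: go to the child `c0`, then follow `c1` -/
def rr [DecidableEq V] (h : V → Option (Fin m)) (c0 c1 : V → V) (W : Finset V) (n : ℕ) :
    List V → List V
  | [] => []
  | [x] => [x]
  | x :: y :: l => if y ∈ W then x :: fol h c1 n (c0 x) else x :: rr h c0 c1 W n (y :: l)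

variable [Fintype V] [DecidableEq V] {G : SimpleGraph V} {h : V → Option (Fin m)}
  {ch : V → Finset V} {lev : V → ℕ} {c c0 c1 c2 : V → V}

/-- the properties of a rerouted chain.  Proof: induction on the chain. -/
theorem rr_spec (hc : Chd G h lev ch) (h0 : ∀ y, h y = none → c0 y ∈ ch y)
    (h1 : ∀ y, h y = none → c1 y ∈ ch y) {Z W : Finset V} (hWZ : W ⊆ Z)
    (g0 : ∀ y, h y = none → y ∉ W → c0 y ∉ Z) (g1 : ∀ y, h y = none → y ∉ W → c1 y ∉ Z)
    {n : ℕ} (hn : ∀ y, lev y ≤ n) {v z : V} {l : List V} (hp : Pth h ch v l z)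
    (hlZ : ∀ x ∈ l, x ∈ Z) (hv : v ∉ W) :
    ∃ z', Pth h ch v (rr h c0 c1 W n l) z' ∧ (∀ x ∈ rr h c0 c1 W n l, x ∉ W) ∧
      (∀ x ∈ rr h c0 c1 W n l, x ∈ l ∨ x ∉ Z) ∧
      (rr h c0 c1 W n l = l ∨
        ∃ u ∈ l, ∃ y ∈ l, y ∈ W ∧ y ∈ ch u ∧ lev z < lev u ∧ lev z' < lev u) ∧
      ∀ x ∈ rr h c0 c1 W n l, x ∉ l →
        (∃ y ∈ rr h c0 c1 W n l, y ∉ l ∧ x ∈ ch y) ∨ ∃ u ∈ l, u ∉ W ∧ x ∈ ch u ∧ x = c0 u := by
  induction hp with
  | hub v hh =>
    refine ⟨v, ?_⟩
    have e : rr h c0 c1 W n [v] = [v] := rfl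
    rw [e]
    refine ⟨Pth.hub v hh, ?_, fun x hx => Or.inl hx, Or.inl rfl, fun x hx hx' => absurd hx hx'⟩
    intro x hx
    rw [List.mem_singleton] at hx
    rw [hx]
    exact hv
  | cons v x l z hx hq ih =>
    have hvn : h v = none := by
      by_contra hcon
      rw [hc.hub v hcon] at hx
      exact absurd hx (notMem_empty _)
    obtain ⟨t, ht⟩ := hq.head
    have hvZ : v ∈ Z := hlZ v List.mem_cons_self
    have hzx : lev z ≤ lev x := hq.lev_le hc z hq.mem_end
    have hxv : lev x < lev v := hc.lt v x hx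
    by_cases hxW : x ∈ W
    · have e : rr h c0 c1 W n (v :: l) = v :: fol h c1 n (c0 v) := by
        rw [ht]
        change (if x ∈ W then v :: fol h c1 n (c0 v) else v :: rr h c0 c1 W n (x :: t)) = _
        rw [if_pos hxW]
      rw [e]
      obtain ⟨z', hz'⟩ := fol_pth hc h1 n (c0 v) (hn _)
      have hav := fol_avoid hWZ g1 n (c0 v) (g0 v hvn hv)
      have hz2 : lev z' ≤ lev (c0 v) := hz'.lev_le hc z' hz'.mem_end
      have hz3 : lev (c0 v) < lev v := hc.lt v _ (h0 v hvn)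
      refine ⟨z', Pth.cons v (c0 v) _ z' (h0 v hvn) hz', ?_, ?_, Or.inr ?_, ?_⟩
      · intro y hy
        rcases List.mem_cons.1 hy with rfl | hy
        · exact hv
        · exact fun hyW => hav y hy (hWZ hyW)
      · intro y hy
        rcases List.mem_cons.1 hy with rfl | hy
        · exact Or.inl List.mem_cons_self
        · exact Or.inr (hav y hy)
      · exact ⟨v, List.mem_cons_self, x, List.mem_cons_of_mem _ hq.mem_start, hxW, hx, by omega,
          by omega⟩
      · intro y hy hyl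
        rcases List.mem_cons.1 hy with rfl | hy
        · exact absurd List.mem_cons_self hyl
        · rcases fol_pred n (c0 v) y hy with h3 | ⟨u, hu, hun, h3⟩
          · exact Or.inr ⟨v, List.mem_cons_self, hv, by rw [h3]; exact h0 v hvn, h3⟩
          · exact Or.inl ⟨u, List.mem_cons_of_mem _ hu, fun hul => hav u hu (hlZ u hul),
              by rw [h3]; exact h1 u hun⟩
    · have e : rr h c0 c1 W n (v :: l) = v :: rr h c0 c1 W n l := by
        rw [ht]
        change (if x ∈ W then v :: fol h c1 n (c0 v) else v :: rr h c0 c1 W n (x :: t)) = _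
        rw [if_neg hxW]
      rw [e]
      obtain ⟨z', a1, a2, a3, a4, a5⟩ := ih (fun y hy => hlZ y (List.mem_cons_of_mem _ hy)) hxW
      refine ⟨z', Pth.cons v x _ z' hx a1, ?_, ?_, ?_, ?_⟩
      · intro y hy
        rcases List.mem_cons.1 hy with rfl | hy
        · exact hv
        · exact a2 y hy
      · intro y hy
        rcases List.mem_cons.1 hy with rfl | hy
        · exact Or.inl List.mem_cons_self
        · exact (a3 y hy).imp (fun h => List.mem_cons_of_mem _ h) id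
      · rcases a4 with h4 | ⟨u, hu, y, hy, b1, b2, b3, b4⟩
        · exact Or.inl (by rw [h4])
        · exact Or.inr ⟨u, List.mem_cons_of_mem _ hu, y, List.mem_cons_of_mem _ hy, b1, b2, b3, b4⟩
      · intro y hy hyl
        rcases List.mem_cons.1 hy with rfl | hy
        · exact absurd List.mem_cons_self hyl
        · rcases a5 y hy (fun h => hyl (List.mem_cons_of_mem _ h)) with ⟨u, hu, hul, h3⟩ |
              ⟨u, hu, h3⟩
          · refine Or.inl ⟨u, List.mem_cons_of_mem _ hu, ?_, h3⟩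
            intro hu2
            rcases List.mem_cons.1 hu2 with rfl | hu2
            · have := a1.lev_le hc _ hu
              omega
            · exact hul hu2
          · exact Or.inr ⟨u, List.mem_cons_of_mem _ hu, h3⟩

/-- the new parts of two rerouted chains are disjoint, if the chains are disjoint or the choices of the first
child are different.  Proof: a common new vertex `x` of largest level. By the last part of rr_spec its parent is a new vertex
(outside `Z`) for both chains, which contradicts the choice of `x`, or `x = c0 u` with `u ∈ l`, `u ∉ W`; the parent of `x` is unique and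
members of `l`, `l'` are in `Z`, so also `x = c0' u`, `u ∈ l'`. -/
theorem rr_disj (hc : Chd G h lev ch) {c0' : V → V} {Z W : Finset V} {n : ℕ} {l l' : List V}
    (hlZ : ∀ x ∈ l, x ∈ Z) (hlZ' : ∀ x ∈ l', x ∈ Z)
    (s3 : ∀ x ∈ rr h c0 c1 W n l, x ∈ l ∨ x ∉ Z) (s3' : ∀ x ∈ rr h c0' c1 W n l', x ∈ l' ∨ x ∉ Z)
    (s5 : ∀ x ∈ rr h c0 c1 W n l, x ∉ l →
      (∃ y ∈ rr h c0 c1 W n l, y ∉ l ∧ x ∈ ch y) ∨ ∃ u ∈ l, u ∉ W ∧ x ∈ ch u ∧ x = c0 u)
    (s5' : ∀ x ∈ rr h c0' c1 W n l', x ∉ l' →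
      (∃ y ∈ rr h c0' c1 W n l', y ∉ l' ∧ x ∈ ch y) ∨ ∃ u ∈ l', u ∉ W ∧ x ∈ ch u ∧ x = c0' u)
    (hd : (∀ x ∈ l, x ∉ l') ∨ ∀ u, h u = none → u ∉ W → c0 u ≠ c0' u) :
    ∀ x ∈ rr h c0 c1 W n l, x ∉ l → x ∉ rr h c0' c1 W n l' := by
  by_contra hcon
  push Not at hcon
  obtain ⟨x0, hx0, hx0l, hx0'⟩ := hcon
  let S : Finset V := univ.filter fun x => x ∈ rr h c0 c1 W n l ∧ x ∉ l ∧ x ∈ rr h c0' c1 W n l'
  have hS : S.Nonempty := ⟨x0, mem_filter.2 ⟨mem_univ _, hx0, hx0l, hx0'⟩⟩
  obtain ⟨x, hxS, hmax⟩ := exists_max_image S lev hS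
  obtain ⟨-, hx, hxl, hx'⟩ := mem_filter.1 hxS
  have hxZ : x ∉ Z := (s3 x hx).resolve_left hxl
  have hxl' : x ∉ l' := fun h => hxZ (hlZ' x h)
  rcases s5 x hx hxl with ⟨y, hy, hyl, hxy⟩ | ⟨u, hu, huW, hxu, hxe⟩
  · have hyZ : y ∉ Z := (s3 y hy).resolve_left hyl
    rcases s5' x hx' hxl' with ⟨y', hy', hyl', hxy'⟩ | ⟨u', hu', huW', hxu', hxe'⟩
    · obtain rfl := hc.uniq y y' x hxy hxy'
      have h1 := hmax y (mem_filter.2 ⟨mem_univ _, hy, hyl, hy'⟩)
      have h2 := hc.lt y x hxy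
      omega
    · obtain rfl := hc.uniq y u' x hxy hxu'
      exact hyZ (hlZ' y hu')
  · have huZ : u ∈ Z := hlZ u hu
    rcases s5' x hx' hxl' with ⟨y', hy', hyl', hxy'⟩ | ⟨u', hu', huW', hxu', hxe'⟩
    · obtain rfl := hc.uniq u y' x hxu hxy'
      exact (s3' u hy').resolve_left hyl' huZ
    · obtain rfl := hc.uniq u u' x hxu hxu'
      rcases hd with hd | hd
      · exact hd u hu hu'
      · refine hd u ?_ huW (hxe.symm.trans hxe')
        by_contra hcon
        rw [hc.hub u hcon] at hxu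
        exact absurd hxu (notMem_empty _)

end Pool.Agent.RamV
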