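import Pool.Agent.Lib.MP_078aef_co_v.Defs
import Pool.Agent.Lib.MP_078aef_co_q.Low

/-! Gluing two critical graphs along an independent set. -/

namespace Pool.Agent.RamV

open Finset Pool.Agent.RamseyHam Pool.Agent.RamQ Pool.Agent.RamH

variable {α β : Type*}

/-- the gluing of two graphs along `j` independent twin vertices -/
private def glueJ {j : ℕ} (HA : SimpleGraph α) (HB : SimpleGraph β) (a : Fin j → α)
    (b : Fin j → β) : SimpleGraph (α ⊕ (β ⊕ Fin j)) where
  Adj u v := match u, v with
    | .inl x, .inl y => HA.Adj x y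
    | .inl x, .inr (.inl y) => ∃ i, x = a i ∧ y = b i
    | .inl x, .inr (.inr i) => HA.Adj x (a i)
    | .inr (.inl y), .inl x => ∃ i, x = a i ∧ y = b i
    | .inr (.inl y), .inr (.inl z) => HB.Adj y z
    | .inr (.inl y), .inr (.inr i) => HB.Adj y (b i)
    | .inr (.inr i), .inl x => HA.Adj x (a i)
    | .inr (.inr i), .inr (.inl y) => HB.Adj y (b i)
    | .inr (.inr _), .inr (.inr _) => False
  symm := ⟨by
    rintro (x | x | x) (y | y | y) h
    · exact SimpleGraph.Adj.symm (G := HA) h
    · exact h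
    · exact h
    · exact h
    · exact SimpleGraph.Adj.symm (G := HB) h
    · exact h
    · exact h
    · exact h
    · exact h⟩
  loopless := ⟨by
    rintro (x | x | x) h
    · exact HA.loopless.irrefl x h
    · exact HB.loopless.irrefl x h
    · exact h⟩

section
variable {j k p q : ℕ} {HA : SimpleGraph α} {HB : SimpleGraph β} {a : Fin j → α} {b : Fin j → β}

private theorem glueJ_cliqueFree (hA : HA.CliqueFree k) (hB : HB.CliqueFree k)
    (ainj : Function.Injective a) (binj : Function.Injective b)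
    (ha : ∀ i i', ¬ HA.Adj (a i) (a i')) (hk : 3 ≤ k) : (glueJ HA HB a b).CliqueFree k := by
  classical
  intro Q hQ
  set QA := Q.toLeft with hQA
  set QB := Q.toRight.toLeft with hQB
  set QW := Q.toRight.toRight with hQW
  have hc1 := card_toLeft_add_card_toRight (u := Q)
  have hc2 := card_toLeft_add_card_toRight (u := Q.toRight)
  rw [← hQA] at hc1
  rw [← hQB, ← hQW] at hc2
  have hcard := hQ.card_eq
  have mA : ∀ x, x ∈ QA ↔ Sum.inl x ∈ Q := fun x => by simp [hQA]
  have mB : ∀ x, x ∈ QB ↔ Sum.inr (Sum.inl x) ∈ Q := fun x => by simp [hQB]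
  have mW : ∀ x, x ∈ QW ↔ Sum.inr (Sum.inr x) ∈ Q := fun x => by simp [hQW]
  have uW : ∀ i ∈ QW, ∀ i' ∈ QW, i = i' := by
    intro i hi i' hi'
    by_contra hne
    exact (hQ.isClique ((mW i).mp hi) ((mW i').mp hi') (by simpa using hne) : False)
  rcases QB.eq_empty_or_nonempty with hBe | hBne
  · have hcl : HA.IsClique ((QA ∪ QW.image a : Finset α) : Set α) := by
      intro x hx y hy hxy
      simp only [coe_union, coe_image, Set.mem_union, Set.mem_image, mem_coe] at hx hy
      rcases hx with hx | ⟨i, hi, rfl⟩ <;> rcases hy with hy | ⟨i', hi', rfl⟩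
      · exact hQ.isClique ((mA x).mp hx) ((mA y).mp hy) (by simpa using hxy)
      · exact hQ.isClique ((mA x).mp hx) ((mW i').mp hi') (by simp)
      · have h : HA.Adj y (a i) := hQ.isClique ((mA y).mp hy) ((mW i).mp hi) (by simp)
        exact SimpleGraph.Adj.symm (G := HA) h
      · exact absurd (congrArg a (uW i hi i' hi')) hxy
    have hdis : Disjoint QA (QW.image a) := by
      rw [disjoint_left]
      intro x hx hx'
      obtain ⟨i, hi, rfl⟩ := mem_image.mp hx'
      exact HA.loopless.irrefl _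
        (hQ.isClique ((mA _).mp hx) ((mW i).mp hi) (by simp) : HA.Adj (a i) (a i))
    have := clique_card_lt hA hcl
    rw [card_union_of_disjoint hdis, card_image_of_injective _ ainj] at this
    rw [hBe] at hc2
    simp at hc2
    omega
  rcases QA.eq_empty_or_nonempty with hAe | hAne
  · have hcl : HB.IsClique ((QB ∪ QW.image b : Finset β) : Set β) := by
      intro x hx y hy hxy
      simp only [coe_union, coe_image, Set.mem_union, Set.mem_image, mem_coe] at hx hy
      rcases hx with hx | ⟨i, hi, rfl⟩ <;> rcases hy with hy | ⟨i', hi', rfl⟩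
      · exact hQ.isClique ((mB x).mp hx) ((mB y).mp hy) (by simpa using hxy)
      · exact hQ.isClique ((mB x).mp hx) ((mW i').mp hi') (by simp)
      · have h : HB.Adj y (b i) := hQ.isClique ((mB y).mp hy) ((mW i).mp hi) (by simp)
        exact SimpleGraph.Adj.symm (G := HB) h
      · exact absurd (congrArg b (uW i hi i' hi')) hxy
    have hdis : Disjoint QB (QW.image b) := by
      rw [disjoint_left]
      intro x hx hx'
      obtain ⟨i, hi, rfl⟩ := mem_image.mp hx'
      exact HB.loopless.irrefl _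
        (hQ.isClique ((mB _).mp hx) ((mW i).mp hi) (by simp) : HB.Adj (b i) (b i))
    have := clique_card_lt hB hcl
    rw [card_union_of_disjoint hdis, card_image_of_injective _ binj] at this
    rw [hAe] at hc1
    simp at hc1
    omega
  obtain ⟨x, hx⟩ := hAne
  obtain ⟨y, hy⟩ := hBne
  obtain ⟨i, rfl, rfl⟩ : ∃ i, x = a i ∧ y = b i :=
    hQ.isClique ((mA x).mp hx) ((mB y).mp hy) (by simp)
  have hA1 : QA.card ≤ 1 := by
    rw [card_le_one]
    intro u hu v hv
    obtain ⟨i1, rfl, h1⟩ : ∃ i', u = a i' ∧ b i = b i' :=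
      hQ.isClique ((mA u).mp hu) ((mB _).mp hy) (by simp)
    obtain ⟨i2, rfl, h2⟩ : ∃ i', v = a i' ∧ b i = b i' :=
      hQ.isClique ((mA v).mp hv) ((mB _).mp hy) (by simp)
    rw [← binj h1, ← binj h2]
  have hB1 : QB.card ≤ 1 := by
    rw [card_le_one]
    intro u hu v hv
    obtain ⟨i1, h1, rfl⟩ : ∃ i', a i = a i' ∧ u = b i' :=
      hQ.isClique ((mA _).mp hx) ((mB u).mp hu) (by simp)
    obtain ⟨i2, h2, rfl⟩ : ∃ i', a i = a i' ∧ v = b i' :=
      hQ.isClique ((mA _).mp hx) ((mB v).mp hv) (by simp)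
    rw [← ainj h1, ← ainj h2]
  have hW0 : QW = ∅ := by
    rw [eq_empty_iff_forall_notMem]
    intro i' hi'
    exact ha i i'
      (hQ.isClique ((mA _).mp hx) ((mW i').mp hi') (by simp) : HA.Adj (a i) (a i'))
  rw [hW0] at hc2
  simp at hc2
  omega

private theorem glueJ_compl (hA : HAᶜ.CliqueFree p) (hB : HBᶜ.CliqueFree q)
    (ainj : Function.Injective a) (binj : Function.Injective b)
    (ha : ∀ i i', ¬ HA.Adj (a i) (a i')) (hb : ∀ i i', ¬ HB.Adj (b i) (b i')) :
    (glueJ HA HB a b)ᶜ.CliqueFree (p + q - 1) := by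
  classical
  intro Q hQ
  set QA := Q.toLeft with hQA
  set QB := Q.toRight.toLeft with hQB
  set QW := Q.toRight.toRight with hQW
  have hc1 := card_toLeft_add_card_toRight (u := Q)
  have hc2 := card_toLeft_add_card_toRight (u := Q.toRight)
  rw [← hQA] at hc1
  rw [← hQB, ← hQW] at hc2
  have hcard := hQ.card_eq
  have mA : ∀ x, x ∈ QA ↔ Sum.inl x ∈ Q := fun x => by simp [hQA]
  have mB : ∀ x, x ∈ QB ↔ Sum.inr (Sum.inl x) ∈ Q := fun x => by simp [hQB]
  have mW : ∀ x, x ∈ QW ↔ Sum.inr (Sum.inr x) ∈ Q := fun x => by simp [hQW]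
  have nadj : ∀ u ∈ Q, ∀ v ∈ Q, u ≠ v → ¬ (glueJ HA HB a b).Adj u v := by
    intro u hu v hv huv
    have := hQ.isClique hu hv huv
    rw [SimpleGraph.compl_adj] at this
    exact this.2
  set W1 := QW.filter (fun i => a i ∉ QA) with hW1
  set W2 := QW.filter (fun i => ¬ a i ∉ QA) with hW2
  have hW : W1.card + W2.card = QW.card := card_filter_add_card_filter_not _
  have cA : HAᶜ.IsClique ((QA ∪ W1.image a : Finset α) : Set α) := by
    intro x hx y hy hxy
    rw [SimpleGraph.compl_adj]
    refine ⟨hxy, ?_⟩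
    simp only [coe_union, coe_image, Set.mem_union, Set.mem_image, mem_coe] at hx hy
    rcases hx with hx | ⟨i, hi, rfl⟩ <;> rcases hy with hy | ⟨i', hi', rfl⟩
    · exact nadj _ ((mA x).mp hx) _ ((mA y).mp hy) (by simpa using hxy)
    · exact nadj _ ((mA x).mp hx) _ ((mW i').mp (mem_filter.mp hi').1) (by simp)
    · exact fun h => nadj _ ((mA y).mp hy) _ ((mW i).mp (mem_filter.mp hi).1) (by simp) h.symm
    · exact ha i i'
  have cB : HBᶜ.IsClique ((QB ∪ W2.image b : Finset β) : Set β) := by
    intro x hx y hy hxy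
    rw [SimpleGraph.compl_adj]
    refine ⟨hxy, ?_⟩
    simp only [coe_union, coe_image, Set.mem_union, Set.mem_image, mem_coe] at hx hy
    rcases hx with hx | ⟨i, hi, rfl⟩ <;> rcases hy with hy | ⟨i', hi', rfl⟩
    · exact nadj _ ((mB x).mp hx) _ ((mB y).mp hy) (by simpa using hxy)
    · exact nadj _ ((mB x).mp hx) _ ((mW i').mp (mem_filter.mp hi').1) (by simp)
    · exact fun h => nadj _ ((mB y).mp hy) _ ((mW i).mp (mem_filter.mp hi).1) (by simp) h.symm
    · exact hb i i'
  have dA : Disjoint QA (W1.image a) := by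
    rw [disjoint_left]
    intro x hx hx'
    obtain ⟨i, hi, rfl⟩ := mem_image.mp hx'
    exact (mem_filter.mp hi).2 hx
  have dB : Disjoint QB (W2.image b) := by
    rw [disjoint_left]
    intro x hx hx'
    obtain ⟨i, hi, rfl⟩ := mem_image.mp hx'
    have h1 := not_not.mp (mem_filter.mp hi).2
    exact nadj _ ((mA _).mp h1) _ ((mB _).mp hx) (by simp) ⟨i, rfl, rfl⟩
  have lA := clique_card_lt hA cA
  have lB := clique_card_lt hB cB
  rw [card_union_of_disjoint dA, card_image_of_injective _ ainj] at lA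
  rw [card_union_of_disjoint dB, card_image_of_injective _ binj] at lB
  omega

end

private theorem exists_indJ {k p : ℕ} (hk : 3 ≤ k) (R : ℕ → ℕ)
    (hR : ∀ p, 2 ≤ p → IsRam k p (R p)) (hp : 2 ≤ p) :
    ∃ (HA : SimpleGraph (Fin (R p - 1))) (a : Fin (p - 1) → Fin (R p - 1)), KS k p HA ∧
      Function.Injective a ∧ ∀ i i', ¬ HA.Adj (a i) (a i') := by
  classical
  obtain ⟨H, hH⟩ := (hR p hp).lower
  have h2 : 2 ≤ R 2 := by
    have h1 : KS k 2 (⊥ : SimpleGraph (Fin 1)) := by
      constructor
      · intro S hS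
        have h3 := card_le_univ S
        rw [hS.card_eq, Fintype.card_fin] at h3
        omega
      · intro S hS
        have h3 := card_le_univ S
        rw [hS.card_eq, Fintype.card_fin] at h3
        omega
    have h3 := (hR 2 le_rfl).card_lt h1
    rw [Fintype.card_fin] at h3
    omega
  have hex : ∃ S, Hᶜ.IsNClique (p - 1) S := by
    by_contra hcon
    have hcf : Hᶜ.CliqueFree (p - 1) := fun S hS => hcon ⟨S, hS⟩
    rcases hp.eq_or_lt with h | h
    · subst h
      have h0 : 0 < R 2 - 1 := by omega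
      exact hcf {⟨0, h0⟩} (by simp [SimpleGraph.isNClique_iff])
    · have h4 := (hR (p - 1) (by omega)).card_lt (⟨hH.1, hcf⟩ : KS k (p - 1) H)
      rw [Fintype.card_fin] at h4
      have h5 := glueR (by omega : 2 ≤ k) R hR (by omega : 2 ≤ p - 1) (le_refl 2)
      rw [show p - 1 + 2 - 1 = p by omega] at h5
      omega
  obtain ⟨S, hS⟩ := hex
  refine ⟨H, fun i => S.orderEmbOfFin hS.card_eq i, hH, ?_, ?_⟩
  · exact (S.orderEmbOfFin hS.card_eq).injective
  · intro i i'
    show ¬ H.Adj (S.orderEmbOfFin hS.card_eq i) (S.orderEmbOfFin hS.card_eq i')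
    by_cases hii : S.orderEmbOfFin hS.card_eq i = S.orderEmbOfFin hS.card_eq i'
    · rw [hii]
      exact H.loopless.irrefl _
    · have h1 := hS.isClique (S.orderEmbOfFin_mem hS.card_eq i)
        (S.orderEmbOfFin_mem hS.card_eq i') hii
      rw [SimpleGraph.compl_adj] at h1
      exact h1.2

/-- Proof. (Compare glue, glue_cliqueFree, glue_compl, exists_big and glueR in
Lib/MP_078aef_co/Cut.lean and Lib/MP_078aef_co_q/Low.lean.)  Let `HA`, `HB` be graphs on
`R p - 1` and `R q - 1` vertices with `KS k p HA`, `KS k q HB` (`IsRam.lower`).  `HA` has an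
independent set `a : Fin (p-1) → _` (injective) of size `p-1`: otherwise `KS k (p-1) HA`; for
`p ≥ 3` this contradicts `R (p-1) < R p` (glueR with `(p-1, 2)`), for `p = 2` take any vertex
(`R 2 ≥ 2` since the one vertex graph is KS k 2). The same for `HB`: an independent set of size
`q - 1 ≥ p - 1`, take `p-1` members `b i`.  New graph on `α ⊕ β ⊕ Fin (p-1)`: the edges of `HA`, `HB`, the edges
`a i - b i`, and the third part is independent, its vertex `i` is joined to the neighbours of `a i` in `HA`
and to the neighbours of `b i` in `HB` (so neither to a vertex `a j` nor to a vertex `b j`).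
Clique free: a clique with a vertex `u` of `HA` and a vertex `v` of `HB` has `u = a i`, `v = b i` and no
third vertex (size 2 < k); a clique with a new vertex `i` contains only one new vertex, and
replacing it by `a i` (if it lives on the `HA` side) or `b i` gives a clique of `HA` or `HB` of the same size.
Independent sets have at most `(p-1) + (q-1)` members: for a new vertex `i` in `I` one of `a i`, `b i` is not in
`I` (they are adjacent): replace the new vertices `i` with `a i ∉ I` by `a i`, the other ones by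
`b i`. -/
theorem glueI {k p q : ℕ} (hk : 3 ≤ k) (R : ℕ → ℕ) (hR : ∀ p, 2 ≤ p → IsRam k p (R p))
    (hp : 2 ≤ p) (hpq : p ≤ q) : R p + R q + (p - 1) ≤ R (p + q - 1) + 1 := by
  obtain ⟨HA, a, hHA, ainj, ha⟩ := exists_indJ hk R hR hp
  obtain ⟨HB, b, hHB, binj, hb⟩ := exists_indJ hk R hR (hp.trans hpq)
  have hle : p - 1 ≤ q - 1 := by omega
  have hF : KS k (p + q - 1) (glueJ HA HB a (fun i => b (Fin.castLE hle i))) :=
    ⟨glueJ_cliqueFree hHA.1 hHB.1 ainj (binj.comp (Fin.castLE_injective hle)) ha hk,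
      glueJ_compl hHA.2 hHB.2 ainj (binj.comp (Fin.castLE_injective hle)) ha
        (fun i i' => hb _ _)⟩
  have h1 := (hR (p + q - 1) (by omega)).card_lt hF
  have h2 := (hR p hp).pos
  have h3 := (hR q (hp.trans hpq)).pos
  simp at h1
  omega

end Pool.Agent.RamV
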