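import Pool.Agent.Lib.MP_078aef_co_v.RerE
import Pool.Agent.Lib.MP_078aef_co_v.FHax

/-! A complete compatible family. -/

namespace Pool.Agent.RamV

open Finset Pool.Agent.RamseyHam Pool.Agent.RamQ Pool.Agent.RamH

variable {V : Type*} [Fintype V] [DecidableEq V] {m : ℕ} {G : SimpleGraph V}
  {h : V → Option (Fin m)} {ch : V → Finset V} {lev : V → ℕ}

/-- Proof: flex with `E` from exists_E, `s = vt ch`, `v = vc h`, `R = 200 * (m - 1)` and rer_exists. -/
theorem goal_all {K k w : ℕ} {N : ℕ → ℕ} (hN : Nm K k w N) (hk : 1 ≤ k) (hG : Hy G K w N)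
    {hl : Fin m → ℕ} {L : ℕ} {a : ℕ → ℕ} (hL : Lv G w h lev hl L a) (hc : Chd G h lev ch)
    (hm : 1 ≤ m) : ∃ I : Finset (El V 200), (∀ e ∈ I, IsEl G h ch e) ∧ Cmp ch I ∧
      LinearIndepOn (ZMod 2) (vc h) (I : Set (El V 200)) ∧ I.card = 200 * (m - 1) := by
  obtain ⟨E, hE⟩ := exists_E hc 200
  have hne : ∀ e ∈ E, (vt ch e).Nonempty := by
    intro e he
    obtain ⟨v, v', z, z', hok⟩ := (hE e).1 he
    have h1 : v ∈ e.p := by
      have h2 := hok.p
      generalize e.p = l at h2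
      cases h2 with
      | hub _ => exact List.mem_singleton.2 rfl
      | cons x l _ _ _ => exact List.mem_cons_self
    refine ⟨Sum.inl v, ?_⟩
    unfold vt
    rw [Finset.inl_mem_disjSum]
    unfold vs
    rw [Finset.mem_union, List.mem_toFinset]
    exact Or.inl h1
  obtain ⟨I, hIE, hI1, hI2, hI3⟩ := flex (F := ZMod 2) E (vt ch) (vc h) (200 * (m - 1)) hne
    (fun I Es hI hEs hdis hcI hcE _ hcard hle =>
      rer_exists hN hk hG hL hc hm ⟨fun e he => (hE e).1 (hI he), fun e he => (hE e).1 (hEs he),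
        hdis, hcI, hcE⟩ hE hcard hle)
  exact ⟨I, fun e he => (hE e).1 (hIE he), hI1, hI2, hI3⟩

end Pool.Agent.RamV
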