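import Pool.Agent.Lib.MP_078aef_co_v.Goal

/-! 200 compatible families, each spanning the hubs. -/

namespace Pool.Agent.RamV

open Finset Pool.Agent.RamseyHam Pool.Agent.RamQ Pool.Agent.RamH

variable {V : Type*} [Fintype V] [DecidableEq V] {m : ℕ} {G : SimpleGraph V}
  {h : V → Option (Fin m)} {ch : V → Finset V} {lev : V → ℕ}

/-- `B` is a basis of the even vectors -/
structure Bas (h : V → Option (Fin m)) {r : ℕ} (B : Finset (El V r)) : Prop where
  ind : LinearIndepOn (ZMod 2) (ve h) (B : Set (El V r))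
  span : ∀ i i' : Fin m, (Pi.single i 1 + Pi.single i' 1 : Fin m → ZMod 2) ∈
    Submodule.span (ZMod 2) (ve h '' (B : Set (El V r)))

/-- the sum of the coordinates -/
private noncomputable def gb_sum (m : ℕ) : (Fin m → ZMod 2) →ₗ[ZMod 2] ZMod 2 :=
  ∑ i, LinearMap.proj i

private theorem gb_sum_apply (x : Fin m → ZMod 2) : gb_sum m x = ∑ i, x i := by
  unfold gb_sum
  rw [LinearMap.sum_apply]
  rfl

private theorem gb_sum_single (i : Fin m) : gb_sum m (Pi.single i 1) = 1 := by
  rw [gb_sum_apply, Finset.sum_pi_single']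
  simp

private theorem gb_rank (hm : 1 ≤ m) :
    Module.finrank (ZMod 2) (LinearMap.ker (gb_sum m)) = m - 1 := by
  have h1 := LinearMap.finrank_range_add_finrank_ker (gb_sum m)
  have h2 : LinearMap.range (gb_sum m) = ⊤ := by
    rw [LinearMap.range_eq_top]
    intro c
    refine ⟨c • Pi.single ⟨0, hm⟩ 1, ?_⟩
    rw [map_smul, gb_sum_single, smul_eq_mul, mul_one]
  rw [h2, finrank_top, Module.finrank_self, Module.finrank_fin_fun] at h1
  omega

private theorem gb_ve (hc : Chd G h lev ch) {e : El V 200} (he : IsEl G h ch e) :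
    gb_sum m (ve h e) = 0 := by
  obtain ⟨v, v', z, z', ho⟩ := he
  have key : ∀ z, h z ≠ none → gb_sum m (ev h z) = 1 := by
    intro z hz
    obtain ⟨i, hi⟩ := Option.ne_none_iff_exists'.1 hz
    have h1 : ev h z = Pi.single i 1 := by
      unfold ev
      rw [hi]
    rw [h1, gb_sum_single]
  rw [ho.ve_eq hc, map_add, key z ho.p.hub_end, key z' ho.q.hub_end]
  decide

/-- Proof: `T j` = the members of `I` (goal_all) of colour `j`. The vectors `ve h e`, `e ∈ T j`, are independent (`vc h e` is
`Pi.single j (ve h e)`), and they are in the space of the vectors with sum of coordinates `0` (Ok.ve_eq), of dimension `m - 1`; so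
`(T j).card ≤ m - 1`, and the sum over `j` is `200 * (m - 1)`: equality, so they span it. -/
theorem bases {K k w : ℕ} {N : ℕ → ℕ} (hN : Nm K k w N) (hk : 1 ≤ k) (hG : Hy G K w N)
    {hl : Fin m → ℕ} {L : ℕ} {a : ℕ → ℕ} (hL : Lv G w h lev hl L a) (hc : Chd G h lev ch)
    (hm : 1 ≤ m) : ∃ T : Fin 200 → Finset (El V 200), (∀ j, ∀ e ∈ T j, IsEl G h ch e) ∧
      (∀ i j, i ≠ j → Disjoint (T i) (T j)) ∧ Cmp ch (univ.biUnion T) ∧ ∀ j, Bas h (T j) := by
  classical
  obtain ⟨I, hel, hcmp, hind, hcard⟩ := goal_all hN hk hG hL hc hm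
  let T : Fin 200 → Finset (El V 200) := fun j => I.filter fun e => e.j = j
  have hT : ∀ j e, e ∈ T j ↔ e ∈ I ∧ e.j = j := fun j e => Finset.mem_filter
  have hsub : ∀ j, T j ⊆ I := fun j => Finset.filter_subset _ _
  have hi : ∀ j, LinearIndepOn (ZMod 2) (ve h) (T j : Set (El V 200)) := by
    intro j
    have h1 : LinearIndepOn (ZMod 2) (vc h) (T j : Set (El V 200)) :=
      hind.mono (Finset.coe_subset.2 (hsub j))
    refine LinearIndependent.of_comp
      (LinearMap.single (ZMod 2) (fun _ : Fin 200 => Fin m → ZMod 2) j) ?_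
    have h2 : (LinearMap.single (ZMod 2) (fun _ : Fin 200 => Fin m → ZMod 2) j) ∘
        (fun x : (T j : Set (El V 200)) => ve h (x : El V 200)) =
          fun x : (T j : Set (El V 200)) => vc h (x : El V 200) := by
      funext x
      have h3 : (x : El V 200).j = j := ((hT j x).1 (Finset.mem_coe.1 x.2)).2
      change (Pi.single j (ve h (x : El V 200)) : Fin 200 → Fin m → ZMod 2) = vc h (x : El V 200)
      unfold vc
      rw [h3]
    rw [h2]
    exact h1
  have hle : ∀ j, Submodule.span (ZMod 2) (ve h '' (T j : Set (El V 200))) ≤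
      LinearMap.ker (gb_sum m) := by
    intro j
    rw [Submodule.span_le]
    rintro x ⟨e, he, rfl⟩
    exact gb_ve hc (hel e (hsub j (Finset.mem_coe.1 he)))
  have hfr : ∀ j, Module.finrank (ZMod 2) (Submodule.span (ZMod 2)
      (ve h '' (T j : Set (El V 200)))) = (T j).card := by
    intro j
    have h0 : LinearIndependent (ZMod 2) fun x : T j => ve h (x : El V 200) := hi j
    have h1 := finrank_span_eq_card h0
    rw [Fintype.card_coe] at h1
    rw [← h1]
    have h2 : ve h '' (T j : Set (El V 200)) = Set.range fun x : T j => ve h (x : El V 200) :=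
      Set.image_eq_range _ _
    rw [h2]
  have hc1 : ∀ j, (T j).card ≤ m - 1 := by
    intro j
    rw [← hfr j, ← gb_rank hm]
    exact Submodule.finrank_mono (hle j)
  have hsum : ∑ j, (T j).card = 200 * (m - 1) := by
    rw [← hcard]
    exact (Finset.card_eq_sum_card_fiberwise fun e _ => Finset.mem_coe.2 (Finset.mem_univ e.j)).symm
  have hc2 : ∀ j, (T j).card = m - 1 := by
    have h1 : ∑ j : Fin 200, (T j).card = ∑ _j : Fin 200, (m - 1) := by
      rw [hsum, Finset.sum_const, Finset.card_univ, Fintype.card_fin, smul_eq_mul]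
    intro j
    exact (Finset.sum_eq_sum_iff_of_le fun i _ => hc1 i).1 h1 j (Finset.mem_univ j)
  refine ⟨T, fun j e he => hel e (hsub j he), fun i j hij => ?_, ?_, fun j => ⟨hi j, ?_⟩⟩
  · rw [Finset.disjoint_left]
    intro e he he'
    exact hij (((hT i e).1 he).2.symm.trans ((hT j e).1 he').2)
  · intro e he f hf hef
    obtain ⟨i, -, hei⟩ := Finset.mem_biUnion.1 he
    obtain ⟨j, -, hfj⟩ := Finset.mem_biUnion.1 hf
    exact hcmp e (hsub i hei) f (hsub j hfj) hef
  · intro i i'
    have h1 : Submodule.span (ZMod 2) (ve h '' (T j : Set (El V 200))) =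
        LinearMap.ker (gb_sum m) := by
      refine Submodule.eq_of_le_of_finrank_eq (hle j) ?_
      rw [hfr, hc2, gb_rank hm]
    rw [h1, LinearMap.mem_ker, map_add, gb_sum_single, gb_sum_single]
    decide

end Pool.Agent.RamV
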