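import Pool.Agent.Lib.MP_078aef_co_v.Defs
import Pool.Agent.Lib.MP_078aef_co_h.Dec

/-! One level of the decomposition. -/

namespace Pool.Agent.RamV

open Finset Pool.Agent.RamseyHam Pool.Agent.RamQ Pool.Agent.RamH

variable {V : Type*} [Fintype V] [DecidableEq V]

/-- a vertex of a core has many neighbours in the core -/
private theorem lev_core {G : SimpleGraph V} {D : Finset V} {t : ℕ} (h : Rb G D t)
    (hc : t + 1 ≤ D.card) {v : V} (hv : v ∈ D) : t ≤ (nb G v ∩ D).card := by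
  by_contra hlt
  push Not at hlt
  have hvX : v ∉ nb G v ∩ D := fun hvX => (G.loopless.irrefl v) (mem_nb.mp (mem_inter.mp hvX).1)
  have h1 : {v} ∪ (D \ (nb G v ∩ D)) \ {v} = D \ (nb G v ∩ D) := by
    ext x
    simp only [mem_union, mem_sdiff, mem_singleton]
    constructor
    · rintro (rfl | h2)
      · exact ⟨hv, hvX⟩
      · exact h2.1
    · intro h2
      by_cases hx : x = v
      · exact Or.inl hx
      · exact Or.inr ⟨h2, hx⟩
  have h2 : Disjoint {v} ((D \ (nb G v ∩ D)) \ {v}) := disjoint_sdiff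
  have h3 : Non G {v} ((D \ (nb G v ∩ D)) \ {v}) := by
    intro x hx y hy hxy
    rw [mem_singleton] at hx
    subst hx
    have h4 := mem_sdiff.mp (mem_sdiff.mp hy).1
    exact h4.2 (mem_inter.mpr ⟨mem_nb.mpr hxy, h4.1⟩)
  rcases h.2 (nb G v ∩ D) hlt _ _ h1 h2 h3 with h4 | h4
  · exact absurd h4 (singleton_ne_empty v)
  · have h5 : D ⊆ (nb G v ∩ D) ∪ {v} := by
      intro x hx
      by_contra hcon
      rw [mem_union, not_or] at hcon
      have : x ∈ (D \ (nb G v ∩ D)) \ {v} := mem_sdiff.mpr ⟨mem_sdiff.mpr ⟨hx, hcon.1⟩, hcon.2⟩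
      rw [h4] at this
      simp at this
    have h6 := (card_le_card h5).trans (card_union_le _ _)
    rw [card_singleton] at h6
    omega

/-- Proof: decomp (Lib/MP_078aef_co_h/Dec.lean) with `τ = a ^ 10`, `g = a ^ 10 + 1` for `U`: cores `D ∈ Ds` (at most
`al G U ≤ a`), `S1`, `S2`.  A vertex of `S1 ∪ S2` (outside all cores) with at least `a ^ 10` neighbours in some core is put to
one such core: these are the sets `B` (robust by Rb.extend); `W` = the remaining vertices of `S1 ∪ S2`.  A vertex of a core has at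
least `a ^ 10` neighbours in the core: otherwise its neighbours in the core separate it from the rest of the core, which has more
than `a ^ 10` vertices.  `|W| ≤ |S1| + |S2| ≤ (a-1)(a^10-1) + a * a^10 ≤ 2 a^11`.  A vertex of `W` has at most
`a (a^10 - 1)` neighbours in the cores and at most `|S1| + |S2|` neighbours in `S1 ∪ S2`: fewer than `3 a^11`. -/
theorem lev_one (G : SimpleGraph V) {a : ℕ} (ha : 1 ≤ a) (U : Finset V) (hU : al G U ≤ a) :
    ∃ (Bs : Finset (Finset V)) (W : Finset V),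
      (∀ B ∈ Bs, B ⊆ U ∧ B.Nonempty ∧ Rb G B (a ^ 10) ∧ al G B ≤ a ∧
        ∀ v ∈ B, a ^ 10 ≤ (nb G v ∩ B).card) ∧
      (∀ B ∈ Bs, ∀ B' ∈ Bs, B ≠ B' → Disjoint B B') ∧ Bs.card ≤ a ∧
      W ⊆ U ∧ (∀ B ∈ Bs, Disjoint B W) ∧ (∀ v ∈ U, v ∈ W ∨ ∃ B ∈ Bs, v ∈ B) ∧
      W.card ≤ 2 * a ^ 11 ∧ ∀ v ∈ W, (nb G v ∩ U).card < 3 * a ^ 11 := by
  classical
  have e11 : a ^ 11 = a * a ^ 10 := by ring
  have ht : 1 ≤ a ^ 10 := Nat.one_le_pow _ _ ha
  rw [e11]
  generalize a ^ 10 = t at ht
  obtain ⟨Ds, S1, S2, a1, a2, a3, a4, a5, a6, a7, a8, a9⟩ := decomp G ht (Nat.le_succ t) U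
  have c1 : S1.card ≤ (a - 1) * (t - 1) := a8.trans (Nat.mul_le_mul_right _ (by omega))
  have c2 : S2.card ≤ a * t := by
    have := a9.trans (Nat.mul_le_mul_right _ hU)
    rwa [Nat.succ_sub_one] at this
  obtain ⟨t', rfl⟩ : ∃ t', t = t' + 1 := ⟨t - 1, by omega⟩
  obtain ⟨a', rfl⟩ : ∃ a', a = a' + 1 := ⟨a - 1, by omega⟩
  simp only [Nat.add_sub_cancel] at c1
  obtain ⟨h, hh⟩ : ∃ h : V → Option (Finset V), ∀ v,
      (∀ D ∈ Ds, v ∈ D → h v = some D) ∧
      (∀ D, h v = some D → D ∈ Ds ∧ (v ∉ D → t' + 1 ≤ (nb G v ∩ D).card)) ∧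
      (h v = none → ∀ D ∈ Ds, v ∉ D ∧ (nb G v ∩ D).card < t' + 1) := by
    have : ∀ v : V, ∃ o : Option (Finset V),
        (∀ D ∈ Ds, v ∈ D → o = some D) ∧
        (∀ D, o = some D → D ∈ Ds ∧ (v ∉ D → t' + 1 ≤ (nb G v ∩ D).card)) ∧
        (o = none → ∀ D ∈ Ds, v ∉ D ∧ (nb G v ∩ D).card < t' + 1) := by
      intro v
      by_cases h1 : ∃ D ∈ Ds, v ∈ D
      · obtain ⟨D, hD, hv⟩ := h1
        refine ⟨some D, fun D' hD' hv' => ?_, fun D' hD' => ?_, fun h => ?_⟩
        · rw [Option.some_inj]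
          by_contra hne
          exact disjoint_left.mp (a2 D hD D' hD' hne).1 hv hv'
        · rw [Option.some_inj] at hD'
          subst hD'
          exact ⟨hD, fun hn => absurd hv hn⟩
        · simp at h
      · by_cases h2 : ∃ D ∈ Ds, t' + 1 ≤ (nb G v ∩ D).card
        · obtain ⟨D, hD, hDc⟩ := h2
          refine ⟨some D, fun D' hD' hv' => absurd ⟨D', hD', hv'⟩ h1, fun D' hD' => ?_, fun h => ?_⟩
          · rw [Option.some_inj] at hD'
            subst hD'
            exact ⟨hD, fun _ => hDc⟩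
          · simp at h
        · push Not at h1 h2
          refine ⟨none, fun D hD hv => absurd hv (h1 D hD), fun D hD => ?_,
            fun _ D hD => ⟨h1 D hD, h2 D hD⟩⟩
          simp at hD
    choose h hh using this
    exact ⟨h, hh⟩
  set Bf : Finset V → Finset V := fun D => U.filter (fun v => h v = some D) with hBf
  have memB : ∀ D v, v ∈ Bf D ↔ v ∈ U ∧ h v = some D := fun D v => by
    simp [hBf]
  have subB : ∀ D ∈ Ds, D ⊆ Bf D := fun D hD v hv =>
    (memB D v).mpr ⟨(a1 D hD).1 hv, (hh v).1 D hD hv⟩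
  refine ⟨Ds.image Bf, U.filter (fun v => h v = none), ?_, ?_, ?_, filter_subset _ _, ?_, ?_, ?_, ?_⟩
  · intro B hB
    obtain ⟨D, hD, rfl⟩ := mem_image.mp hB
    refine ⟨filter_subset _ _, ?_, ?_, ?_, ?_⟩
    · have : D.Nonempty := by
        rw [← card_pos]
        have := (a1 D hD).2.1
        omega
      exact this.mono (subB D hD)
    · refine (a1 D hD).2.2.extend (subB D hD) ?_
      intro v hv hvD
      exact ((hh v).2.1 D ((memB D v).mp hv).2).2 hvD
    · exact (al_mono (filter_subset _ _)).trans hU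
    · intro v hv
      by_cases hvD : v ∈ D
      · exact (lev_core (a1 D hD).2.2 (a1 D hD).2.1 hvD).trans
          (card_le_card (inter_subset_inter_left (subB D hD)))
      · exact (((hh v).2.1 D ((memB D v).mp hv).2).2 hvD).trans
          (card_le_card (inter_subset_inter_left (subB D hD)))
  · intro B hB B' hB' hne
    obtain ⟨D, hD, rfl⟩ := mem_image.mp hB
    obtain ⟨D', hD', rfl⟩ := mem_image.mp hB'
    rw [disjoint_left]
    intro v hv hv'
    have h1 := ((memB D v).mp hv).2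
    have h2 := ((memB D' v).mp hv').2
    rw [h1, Option.some_inj] at h2
    exact hne (by rw [h2])
  · exact card_image_le.trans (a7.trans hU)
  · intro B hB
    obtain ⟨D, hD, rfl⟩ := mem_image.mp hB
    rw [disjoint_left]
    intro v hv hv'
    have h1 := ((memB D v).mp hv).2
    rw [(mem_filter.mp hv').2] at h1
    simp at h1
  · intro v hv
    rcases hv' : h v with _ | D
    · exact Or.inl (mem_filter.mpr ⟨hv, hv'⟩)
    · exact Or.inr ⟨Bf D, mem_image_of_mem _ ((hh v).2.1 D hv').1, (memB D v).mpr ⟨hv, hv'⟩⟩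
  · have h1 : U.filter (fun v => h v = none) ⊆ S1 ∪ S2 := by
      intro v hv
      obtain ⟨hvU, hvn⟩ := mem_filter.mp hv
      rcases a6 v hvU with h1 | h1 | ⟨D, hD, h1⟩
      · exact mem_union_left _ h1
      · exact mem_union_right _ h1
      · exact absurd h1 ((hh v).2.2 hvn D hD).1
    have h2 := (card_le_card h1).trans (card_union_le _ _)
    nlinarith
  · intro v hv
    obtain ⟨hvU, hvn⟩ := mem_filter.mp hv
    have h3 := (hh v).2.2 hvn
    have h4 : nb G v ∩ U ⊆ (S1 ∪ S2) ∪ Ds.biUnion (fun D => nb G v ∩ D) := by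
      intro x hx
      obtain ⟨hx1, hx2⟩ := mem_inter.mp hx
      rcases a6 x hx2 with h5 | h5 | ⟨D, hD, h5⟩
      · exact mem_union_left _ (mem_union_left _ h5)
      · exact mem_union_left _ (mem_union_right _ h5)
      · exact mem_union_right _ (mem_biUnion.mpr ⟨D, hD, mem_inter.mpr ⟨hx1, h5⟩⟩)
    have h5 : (Ds.biUnion (fun D => nb G v ∩ D)).card ≤ Ds.card * t' := by
      refine card_biUnion_le.trans ?_
      refine (sum_le_card_nsmul _ _ t' fun D hD => Nat.lt_succ_iff.mp (h3 D hD).2).trans ?_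
      rw [smul_eq_mul]
    have h6 := (card_le_card h4).trans (card_union_le _ _)
    have h7 := card_union_le S1 S2
    have h8 : Ds.card * t' ≤ (a' + 1) * t' := Nat.mul_le_mul_right _ (a7.trans hU)
    nlinarith

end Pool.Agent.RamV
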