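import Pool.Agent.Lib.MP_078aef_co_v.Lev

/-! The recursion for the levels. -/

namespace Pool.Agent.RamV

open Finset Pool.Agent.RamseyHam Pool.Agent.RamQ Pool.Agent.RamH

variable {V : Type*} [Fintype V] [DecidableEq V]

/-- levels inside a set `U`, with a set `Bs` of hubs; vertices outside `U` count as lower -/
structure LvR (G : SimpleGraph V) (w : ℕ) (U : Finset V) (Bs : Finset (Finset V)) (lev : V → ℕ)
    (hl : Finset V → ℕ) (L : ℕ) (a : ℕ → ℕ) : Prop where
  wa : ∀ i ≤ L, w ≤ a i
  sq : ∀ i < L, a (i + 1) ^ 2 ≤ a i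
  lev_le : ∀ v ∈ U, lev v ≤ L
  sub : ∀ B ∈ Bs, B ⊆ U ∧ B.Nonempty
  dis : ∀ B ∈ Bs, ∀ B' ∈ Bs, B ≠ B' → Disjoint B B'
  hlev : ∀ B ∈ Bs, ∀ v ∈ B, lev v = hl B
  rob : ∀ B ∈ Bs, Rb G B (a (hl B) ^ 10)
  al_le : ∀ B ∈ Bs, al G B ≤ a (hl B)
  deg : ∀ B ∈ Bs, ∀ v ∈ B, a (hl B) ^ 10 ≤ (nb G v ∩ B).card
  hubs : ∀ j, (Bs.filter (fun B => hl B = j)).card ≤ a j
  ys : ∀ j, (U.filter (fun v => (∀ B ∈ Bs, v ∉ B) ∧ lev v = j)).card ≤ 2 * a j ^ 11
  down : ∀ y ∈ U, (∀ B ∈ Bs, y ∉ B) →
    80 * a (lev y) ^ 11 ≤ ((nb G y).filter (fun x => x ∉ U ∨ lev x < lev y)).card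

private theorem levA_down {G : SimpleGraph V} {w a0 : ℕ} (h2 : 2 ^ 28 ≤ w) (hw : w ≤ a0)
    {U : Finset V} {y : V} (hd : a0 ^ 14 ≤ (nb G y).card)
    (hU : (nb G y ∩ U).card < 3 * a0 ^ 11) (lev : V → ℕ) :
    80 * a0 ^ 11 ≤ ((nb G y).filter (fun x => x ∉ U ∨ lev x < lev y)).card := by
  have h1 : (nb G y \ U).card + (nb G y ∩ U).card = (nb G y).card :=
    card_sdiff_add_card_inter _ _
  have h5 : 5 ≤ a0 := le_trans (by norm_num) (h2.trans hw)
  have h3 : 83 * a0 ^ 11 ≤ a0 ^ 14 := by
    have h6 : 83 ≤ a0 ^ 3 := le_trans (by norm_num) (Nat.pow_le_pow_left h5 3)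
    calc 83 * a0 ^ 11 ≤ a0 ^ 3 * a0 ^ 11 := Nat.mul_le_mul_right _ h6
      _ = a0 ^ 14 := by ring
  have h4 : (nb G y \ U) ⊆ (nb G y).filter (fun x => x ∉ U ∨ lev x < lev y) := by
    intro x hx
    rw [mem_sdiff] at hx
    exact mem_filter.2 ⟨hx.1, Or.inl hx.2⟩
  have h7 := card_le_card h4
  omega

/-- Proof by strong induction on `a0`. lev_one for `U`, `a0`: hubs `Bs0` (level 0) and `W`.
If `a0 ≤ w ^ 2`: `L = 0`, `a = fun _ => a0`, `lev = 0`, the vertices of `W` have degree `≥ K ≥ w ^ 28 ≥ a0 ^ 14` and fewer than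
`3 a0^11` neighbours in `U`, so at least `80 a0^11` outside `U` (`a0 ≥ w ≥ 2^28`).
Otherwise let `Y = {v ∈ W : a0 ^ 14 ≤ deg v}`, `U' = W \ Y`, `a1 = max w (al G U')`: `(al G U') ^ 2 ≤ a0` by `hG.low`,
`w ^ 2 ≤ a0`, so `a1 ^ 2 ≤ a0`, `a1 < a0`; induction for `U'`, `a1`; put `lev = 0` on `U \ U'`, `lev = lev' + 1` on `U'`,
`hl B = 0` for `B ∈ Bs0` and `hl' B + 1` for `B ∈ Bs'`, `a 0 = a0`, `a (i+1) = a' i`, `L = L' + 1`.  The vertices of `Y` have
level 0 and at least `a0 ^ 14 - 3 a0^11 ≥ 80 a0^11` neighbours outside `U`.  For `y ∈ U'` not in a hub: a vertex outside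
`U'` is outside `U` or of level `0 < lev y`. -/
theorem lev_rec {G : SimpleGraph V} {K k w : ℕ} {N : ℕ → ℕ} (hN : Nm K k w N) (hG : Hy G K w N)
    (a0 : ℕ) : ∀ U : Finset V, w ≤ a0 → al G U ≤ a0 →
    ∃ (Bs : Finset (Finset V)) (lev : V → ℕ) (hl : Finset V → ℕ) (L : ℕ) (a : ℕ → ℕ),
      LvR G w U Bs lev hl L a ∧ a 0 = a0 := by
  induction a0 using Nat.strong_induction_on with
  | _ a0 ih =>
    intro U hw hU
    have h2 := hN.two
    have ha1 : 1 ≤ a0 := le_trans Nat.one_le_two_pow (h2.trans hw)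
    obtain ⟨Bs0, W, hB, hdis, hcard, hWU, hBW, hcov, hWc, hWd⟩ := lev_one G ha1 U hU
    have hcovW : ∀ v ∈ U, (∀ B ∈ Bs0, v ∉ B) → v ∈ W := fun v hv h =>
      (hcov v hv).resolve_right (by
        rintro ⟨B, hB1, hB2⟩
        exact h B hB1 hB2)
    by_cases hc : a0 ≤ w ^ 2
    · refine ⟨Bs0, fun _ => 0, fun _ => 0, 0, fun _ => a0,
        ⟨fun _ _ => hw, fun i hi => absurd hi (Nat.not_lt_zero i), fun _ _ => le_rfl,
          fun B h => ⟨(hB B h).1, (hB B h).2.1⟩, hdis, fun _ _ _ _ => rfl,
          fun B h => (hB B h).2.2.1, fun B h => (hB B h).2.2.2.1,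
          fun B h => (hB B h).2.2.2.2, fun j => ?_, fun j => ?_, fun y hy hyB => ?_⟩, rfl⟩
      · exact (card_le_card (filter_subset _ _)).trans hcard
      · refine (card_le_card ?_).trans hWc
        intro v hv
        rw [mem_filter] at hv
        exact hcovW v hv.1 hv.2.1
      · refine levA_down h2 hw ?_ (hWd y (hcovW y hy hyB)) (fun _ => 0)
        have h3 : a0 ^ 14 ≤ w ^ 28 := by
          calc a0 ^ 14 ≤ (w ^ 2) ^ 14 := Nat.pow_le_pow_left hc 14
            _ = w ^ 28 := by rw [← pow_mul]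
        exact h3.trans (hN.wK.trans (hG.deg y))
    · rw [not_le] at hc
      obtain ⟨U', hU'⟩ : ∃ U', U' = W.filter (fun v => (nb G v).card < a0 ^ 14) := ⟨_, rfl⟩
      have hU'W : U' ⊆ W := by
        rw [hU']
        exact filter_subset _ _
      have hal : al G U' ^ 2 ≤ a0 := by
        obtain ⟨I, hIU, hI, hIc⟩ := exists_al G U'
        rw [← hIc]
        refine hG.low a0 hc I hI fun v hv => ?_
        have h3 := hIU hv
        rw [hU', mem_filter] at h3
        exact h3.2
      obtain ⟨a1, h11⟩ : ∃ a1, a1 = max w (al G U') := ⟨_, rfl⟩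
      have hwa1 : w ≤ a1 := by
        rw [h11]
        exact le_max_left _ _
      have hsq : a1 ^ 2 ≤ a0 := by
        rcases le_total w (al G U') with h | h
        · rw [h11, max_eq_right h]
          exact hal
        · rw [h11, max_eq_left h]
          exact hc.le
      have hlt : a1 < a0 := by
        have h3 : 2 ≤ a1 := le_trans (by norm_num) (h2.trans hwa1)
        have h4 : 2 * a1 ≤ a1 ^ 2 := by
          rw [pow_two]
          exact Nat.mul_le_mul_right _ h3
        omega
      obtain ⟨Bs', lev', hl', L', a', hR, ha'⟩ := ih a1 hlt U' hwa1 (by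
        rw [h11]
        exact le_max_right _ _)
      have hne : ∀ B ∈ Bs0, B ∉ Bs' := by
        intro B h h'
        obtain ⟨v, hv⟩ := (hB B h).2.1
        exact disjoint_left.1 (hBW B h) hv (hU'W ((hR.sub B h').1 hv))
      obtain ⟨a, ha0, haS⟩ : ∃ a : ℕ → ℕ, a 0 = a0 ∧ ∀ i, a (i + 1) = a' i :=
        ⟨fun j => Nat.casesOn j a0 a', rfl, fun _ => rfl⟩
      obtain ⟨lev, hlev1, hlev0⟩ : ∃ lev : V → ℕ, (∀ v ∈ U', lev v = lev' v + 1) ∧
          ∀ v, v ∉ U' → lev v = 0 :=
        ⟨fun v => if v ∈ U' then lev' v + 1 else 0, fun v hv => if_pos hv,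
          fun v hv => if_neg hv⟩
      obtain ⟨hl, hhl1, hhl0⟩ : ∃ hl : Finset V → ℕ, (∀ B ∈ Bs', hl B = hl' B + 1) ∧
          ∀ B, B ∉ Bs' → hl B = 0 :=
        ⟨fun B => if B ∈ Bs' then hl' B + 1 else 0, fun B hB => if_pos hB,
          fun B hB => if_neg hB⟩
      have hmix : ∀ B ∈ Bs0, ∀ B' ∈ Bs', Disjoint B B' := fun B h B' h' =>
        disjoint_of_subset_right ((hR.sub B' h').1.trans hU'W) (hBW B h)
      refine ⟨Bs0 ∪ Bs', lev, hl, L' + 1, a, ⟨fun i hi => ?_, fun i hi => ?_, fun v hv => ?_,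
        fun B h => ?_, fun B h B' h' hBB => ?_, fun B h v hv => ?_, fun B h => ?_, fun B h => ?_,
        fun B h v hv => ?_, fun j => ?_, fun j => ?_, fun y hy hyB => ?_⟩, ha0⟩
      · rcases i with _ | i
        · rw [ha0]
          exact hw
        · rw [haS]
          exact hR.wa i (by omega)
      · rcases i with _ | i
        · rw [haS, ha0, ha']
          exact hsq
        · rw [haS, haS]
          exact hR.sq i (by omega)
      · by_cases hvU : v ∈ U'
        · rw [hlev1 v hvU]
          exact Nat.succ_le_succ (hR.lev_le v hvU)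
        · rw [hlev0 v hvU]
          exact Nat.zero_le _
      · rcases mem_union.1 h with h | h
        · exact ⟨(hB B h).1, (hB B h).2.1⟩
        · exact ⟨(hR.sub B h).1.trans (hU'W.trans hWU), (hR.sub B h).2⟩
      · rcases mem_union.1 h with h | h <;> rcases mem_union.1 h' with h' | h'
        · exact hdis B h B' h' hBB
        · exact hmix B h B' h'
        · exact (hmix B' h' B h).symm
        · exact hR.dis B h B' h' hBB
      · rcases mem_union.1 h with h | h
        · rw [hhl0 B (hne B h), hlev0 v fun h3 => disjoint_left.1 (hBW B h) hv (hU'W h3)]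
        · rw [hhl1 B h, hlev1 v ((hR.sub B h).1 hv), hR.hlev B h v hv]
      · rcases mem_union.1 h with h | h
        · rw [hhl0 B (hne B h), ha0]
          exact (hB B h).2.2.1
        · rw [hhl1 B h, haS]
          exact hR.rob B h
      · rcases mem_union.1 h with h | h
        · rw [hhl0 B (hne B h), ha0]
          exact (hB B h).2.2.2.1
        · rw [hhl1 B h, haS]
          exact hR.al_le B h
      · rcases mem_union.1 h with h | h
        · rw [hhl0 B (hne B h), ha0]
          exact (hB B h).2.2.2.2 v hv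
        · rw [hhl1 B h, haS]
          exact hR.deg B h v hv
      · rcases j with _ | j
        · rw [ha0]
          refine (card_le_card ?_).trans hcard
          intro B h
          rw [mem_filter, mem_union] at h
          rcases h.1 with h3 | h3
          · exact h3
          · have h4 := h.2
            rw [hhl1 B h3] at h4
            omega
        · rw [haS]
          refine (card_le_card ?_).trans (hR.hubs j)
          intro B h
          rw [mem_filter, mem_union] at h
          rcases h.1 with h3 | h3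
          · have h4 := h.2
            rw [hhl0 B (hne B h3)] at h4
            omega
          · have h4 := h.2
            rw [hhl1 B h3] at h4
            exact mem_filter.2 ⟨h3, by omega⟩
      · rcases j with _ | j
        · rw [ha0]
          refine (card_le_card ?_).trans hWc
          intro v hv
          rw [mem_filter] at hv
          exact hcovW v hv.1 fun B h => hv.2.1 B (mem_union_left _ h)
        · rw [haS]
          refine (card_le_card ?_).trans (hR.ys j)
          intro v hv
          rw [mem_filter] at hv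
          by_cases hvU : v ∈ U'
          · have h4 := hv.2.2
            rw [hlev1 v hvU] at h4
            exact mem_filter.2 ⟨hvU, fun B h => hv.2.1 B (mem_union_right _ h), by omega⟩
          · have h4 := hv.2.2
            rw [hlev0 v hvU] at h4
            omega
      · have hyW : y ∈ W := hcovW y hy fun B h => hyB B (mem_union_left _ h)
        by_cases hyU : y ∈ U'
        · rw [hlev1 y hyU, haS]
          refine (hR.down y hyU fun B h => hyB B (mem_union_right _ h)).trans
            (card_le_card ?_)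
          intro x hx
          rw [mem_filter] at hx ⊢
          refine ⟨hx.1, Or.inr ?_⟩
          by_cases hxU : x ∈ U'
          · rw [hlev1 x hxU]
            rcases hx.2 with h3 | h3
            · exact absurd hxU h3
            · omega
          · rw [hlev0 x hxU]
            exact Nat.succ_pos _
        · have h3 : a0 ^ 14 ≤ (nb G y).card := by
            by_contra h4
            refine hyU ?_
            rw [hU', mem_filter]
            exact ⟨hyW, not_le.1 h4⟩
          have h5 := levA_down h2 hw h3 (hWd y hyW) lev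
          rw [hlev0 y hyU, ha0]
          rw [hlev0 y hyU] at h5
          exact h5

end Pool.Agent.RamV
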