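import Pool.Agent.Lib.MP_078aef_co_v.LevA

/-! The levels. -/

namespace Pool.Agent.RamV

open Finset Pool.Agent.RamseyHam Pool.Agent.RamQ Pool.Agent.RamH

variable {V : Type*} [Fintype V] [DecidableEq V]

/-- Proof: lev_rec with `U = univ`, `a0 = max (w ^ 2 + 1) (al G univ)`; `m = |Bs|`, an equivalence `Fin m ≃ Bs`,
`h v = some i` iff `v` is in the hub number `i` (the hubs are disjoint), `hl_le` from a vertex of the hub.  `down`: all
vertices are in `univ`. -/
theorem levels {G : SimpleGraph V} {K k w : ℕ} {N : ℕ → ℕ} (hN : Nm K k w N) (hG : Hy G K w N) :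
    ∃ (m : ℕ) (h : V → Option (Fin m)) (lev : V → ℕ) (hl : Fin m → ℕ) (L : ℕ) (a : ℕ → ℕ),
      Lv G w h lev hl L a := by
  classical
  obtain ⟨Bs, lev, hl', L, a, hR, -⟩ := lev_rec hN hG (max w (al G univ)) univ
    (le_max_left _ _) (le_max_right _ _)
  obtain ⟨e⟩ : Nonempty (Fin Bs.card ≃ Bs) := ⟨Bs.equivFin.symm⟩
  obtain ⟨h, hsome, hnone⟩ : ∃ h : V → Option (Fin Bs.card),
      (∀ v i, h v = some i ↔ v ∈ (e i).1) ∧ (∀ v, h v = none → ∀ B ∈ Bs, v ∉ B) := by
    have key : ∀ v : V, ∃ o : Option (Fin Bs.card),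
        (∀ i, o = some i ↔ v ∈ (e i).1) ∧ (o = none → ∀ B ∈ Bs, v ∉ B) := by
      intro v
      by_cases hv : ∃ i, v ∈ (e i).1
      · obtain ⟨i, hi⟩ := hv
        refine ⟨some i, fun j => ⟨fun hj => ?_, fun hj => ?_⟩, fun h0 => ?_⟩
        · rw [Option.some_inj] at hj
          rw [← hj]
          exact hi
        · rw [Option.some_inj]
          by_contra hne
          refine disjoint_left.1 (hR.dis (e i).1 (e i).2 (e j).1 (e j).2 fun hh => hne ?_) hi hj
          exact e.injective (Subtype.ext hh)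
        · simp at h0
      · refine ⟨none, fun j => ⟨fun hj => ?_, fun hj => absurd ⟨j, hj⟩ hv⟩, fun _ B hB hvB => ?_⟩
        · simp at hj
        · refine hv ⟨e.symm ⟨B, hB⟩, ?_⟩
          rw [Equiv.apply_symm_apply]
          exact hvB
    choose h hh using key
    exact ⟨h, fun v => (hh v).1, fun v => (hh v).2⟩
  have hHb : ∀ i, Hb h i = (e i).1 := fun i => by
    ext v
    rw [mem_Hb, hsome]
  refine ⟨Bs.card, h, lev, fun i => hl' (e i).1, L, a,
    ⟨hR.wa, hR.sq, fun v => hR.lev_le v (mem_univ v), fun i => ?_, fun v i hv => ?_, fun i => ?_,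
      fun i => ?_, fun v i hv => ?_, fun j => ?_, fun j => ?_, fun y hy => ?_⟩⟩
  · obtain ⟨v, hv⟩ := (hR.sub (e i).1 (e i).2).2
    have h1 := hR.hlev (e i).1 (e i).2 v hv
    rw [← h1]
    exact hR.lev_le v (mem_univ v)
  · exact hR.hlev (e i).1 (e i).2 v ((hsome v i).1 hv)
  · rw [hHb]
    exact hR.rob (e i).1 (e i).2
  · rw [hHb]
    exact hR.al_le (e i).1 (e i).2
  · rw [hHb]
    exact hR.deg (e i).1 (e i).2 v ((hsome v i).1 hv)
  · refine le_trans ?_ (hR.hubs j)
    refine card_le_card_of_injOn (fun i => (e i).1) (fun i hi => ?_) (fun i _ i' _ hh => ?_)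
    · rw [mem_coe, mem_filter] at hi
      rw [mem_coe, mem_filter]
      exact ⟨(e i).2, hi.2⟩
    · exact e.injective (Subtype.ext hh)
  · refine (card_le_card fun v hv => ?_).trans (hR.ys j)
    rw [mem_filter] at hv ⊢
    exact ⟨mem_univ v, hnone v hv.2.1, hv.2.2⟩
  · refine (hR.down y (mem_univ y) (hnone y hy)).trans (card_le_card fun x hx => ?_)
    rw [mem_filter] at hx ⊢
    exact ⟨hx.1, hx.2.resolve_left fun hh => hh (mem_univ x)⟩

end Pool.Agent.RamV
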