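import Pool.Agent.Lib.MP_078aef_co_v.SumA

/-! Numbers. -/

namespace Pool.Agent.RamV

open Finset Pool.Agent.RamseyHam Pool.Agent.RamQ Pool.Agent.RamH

private theorem log_lin_numT (l : ℕ) : 31 * (28 + l + 1) ≤ 2 ^ (28 + l) := by
  induction l with
  | zero => norm_num
  | succ l ih =>
    have h : 2 ^ (28 + (l + 1)) = 2 * 2 ^ (28 + l) := by rw [← add_assoc, pow_succ, mul_comm]
    omega

/-- Proof: by induction on `n` from `2 ^ 28`, or with `n < 2 ^ (log n + 1)`. -/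
theorem two_pow_ge {n : ℕ} (hn : 2 ^ 28 ≤ n) : n ^ 31 ≤ 2 ^ n := by
  have hn0 : n ≠ 0 := by
    intro h
    rw [h] at hn
    norm_num at hn
  have h1 : 28 ≤ Nat.log 2 n := Nat.le_log_of_pow_le (by norm_num) hn
  obtain ⟨l, hl⟩ := Nat.exists_eq_add_of_le h1
  have h2 : n < 2 ^ (28 + l + 1) := by
    rw [← hl]
    exact Nat.lt_pow_succ_log_self (by norm_num) n
  have h3 : 2 ^ (28 + l) ≤ n := by
    rw [← hl]
    exact Nat.pow_log_le_self 2 hn0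
  calc n ^ 31 ≤ (2 ^ (28 + l + 1)) ^ 31 := Nat.pow_le_pow_left h2.le 31
    _ = 2 ^ (31 * (28 + l + 1)) := by rw [← pow_mul, mul_comm]
    _ ≤ 2 ^ n := Nat.pow_le_pow_right (by norm_num) ((log_lin_numT l).trans h3)

/-- Proof: `d = w + e`: `(32 + d) * w ^ 29 ≤ 2 ^ d`, by two_pow_ge for `e = 0` and induction on `e`. -/
theorem two_pow_lin {w d : ℕ} (hw : 2 ^ 28 ≤ w) (hd : w ≤ d) : (32 + d) * w ^ 29 ≤ 2 ^ d := by
  have hw' : 268435456 ≤ w := by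
    have h : (2 : ℕ) ^ 28 = 268435456 := by norm_num
    omega
  induction d, hd using Nat.le_induction with
  | base =>
    have h1 := two_pow_ge hw
    have h2 : (32 + w) ≤ w ^ 2 := by nlinarith
    calc (32 + w) * w ^ 29 ≤ w ^ 2 * w ^ 29 := Nat.mul_le_mul_right _ h2
      _ = w ^ 31 := by rw [← pow_add]
      _ ≤ 2 ^ w := h1
  | succ d hd ih =>
    calc (32 + (d + 1)) * w ^ 29 ≤ (2 * (32 + d)) * w ^ 29 := Nat.mul_le_mul_right _ (by omega)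
      _ = 2 * ((32 + d) * w ^ 29) := by ring
      _ ≤ 2 * 2 ^ d := Nat.mul_le_mul_left _ ih
      _ = 2 ^ (d + 1) := by rw [pow_succ, mul_comm]

private theorem size_numT {k n d b : ℕ} (hb : 268435456 ≤ b) (hk : k ≤ b ^ 29)
    (hn : n < 80 * b ^ 11) : k + (17 * n + 2 * n * d) ≤ b ^ (30 + d) := by
  have h1 : d < 2 ^ d := Nat.lt_two_pow_self
  have h2 : 17 * n + 2 * n * d ≤ 80 * b ^ 11 * (17 * 2 ^ d) := by
    calc 17 * n + 2 * n * d = n * (17 + 2 * d) := by ring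
      _ ≤ 80 * b ^ 11 * (17 * 2 ^ d) := Nat.mul_le_mul hn.le (by omega)
  have h3 : 80 * b ^ 11 * (17 * 2 ^ d) ≤ b ^ 29 * 2 ^ d := by
    have h4 : 1360 * b ^ 11 ≤ b ^ 29 := by
      calc 1360 * b ^ 11 ≤ b * b ^ 11 := Nat.mul_le_mul_right _ (by omega)
        _ = b ^ 12 := by rw [pow_succ b 11, mul_comm]
        _ ≤ b ^ 29 := Nat.pow_le_pow_right (by omega) (by norm_num)
    calc 80 * b ^ 11 * (17 * 2 ^ d) = (1360 * b ^ 11) * 2 ^ d := by ring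
      _ ≤ b ^ 29 * 2 ^ d := Nat.mul_le_mul_right _ h4
  have h5 : b ^ 29 ≤ b ^ 29 * 2 ^ d := Nat.le_mul_of_pos_right _ (by positivity)
  calc k + (17 * n + 2 * n * d) ≤ b ^ 29 * 2 ^ d + b ^ 29 * 2 ^ d := by omega
    _ = 2 * b ^ 29 * 2 ^ d := by ring
    _ ≤ (b * b ^ 29) * b ^ d := Nat.mul_le_mul (Nat.mul_le_mul_right _ (by omega))
        (Nat.pow_le_pow_left (by omega) d)
    _ = b ^ (30 + d) := by ring

/-- Proof. Suppose `w ≤ d`, `b = a (θ + d)`, so `n < 80 * b ^ 11`, `x = 17 n + 2 n d ≤ 80 b ^ 11 (17 + 2 d)`,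
`k + x ≤ b ^ 29 + 80 b ^ 11 (17 + 2 d) ≤ b ^ 30 * 2 ^ d ≤ b ^ (30 + d)`, and
`b ^ (10 * 2 ^ d) ≤ a θ ^ 10 < N x + x ≤ 2 * (k + x) ^ k ≤ b ^ ((31 + d) * k)` (scales_pow, `Nm.Nk`, `k ≥ 1`), so
`10 * 2 ^ d < (31 + d) * k ≤ (31 + d) * w ^ 29`, against two_pow_lin. -/
theorem num_theta {K k w L n θ d : ℕ} {N a : ℕ → ℕ} (hN : Nm K k w N) (hk : 1 ≤ k)
    (wa : ∀ i ≤ L, w ≤ a i) (sq : ∀ i < L, a (i + 1) ^ 2 ≤ a i) (hd : θ + d ≤ L)
    (hn : n < 80 * a (θ + d) ^ 11)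
    (hbad : a θ ^ 10 < N (17 * n + 2 * n * d) + (17 * n + 2 * n * d)) : d < w := by
  by_contra hcon
  have hwd : w ≤ d := not_lt.1 hcon
  have hw := hN.two
  have hw' : 268435456 ≤ w := by
    have h : (2 : ℕ) ^ 28 = 268435456 := by norm_num
    omega
  have hb : w ≤ a (θ + d) := wa _ hd
  have h1 : a (θ + d) ^ (2 ^ d) ≤ a θ := scales_pow (by omega) wa sq hd
  have hk' : k ≤ a (θ + d) ^ 29 := hN.kw.trans (Nat.pow_le_pow_left hb 29)
  have h2 := size_numT (d := d) (hw'.trans hb) hk' hn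
  have h3 := hN.Nk (17 * n + 2 * n * d)
  generalize hx : 17 * n + 2 * n * d = x at *
  generalize a (θ + d) = b at *
  have h4 : x ≤ (k + x) ^ k := by
    calc x ≤ (k + x) ^ 1 := by rw [pow_one]; omega
      _ ≤ (k + x) ^ k := Nat.pow_le_pow_right (by omega) hk
  have h5 : (k + x) ^ k ≤ b ^ ((30 + d) * k) := by
    rw [pow_mul]
    exact Nat.pow_le_pow_left h2 k
  have h6 : 2 * b ^ ((30 + d) * k) ≤ b ^ ((31 + d) * k) := by
    calc 2 * b ^ ((30 + d) * k) ≤ b * b ^ ((30 + d) * k) := Nat.mul_le_mul_right _ (by omega)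
      _ = b ^ ((30 + d) * k + 1) := by rw [pow_succ, mul_comm]
      _ ≤ b ^ ((31 + d) * k) := Nat.pow_le_pow_right (by omega) (by
          have : (31 + d) * k = (30 + d) * k + k := by ring
          omega)
  have h7 : b ^ (2 ^ d * 10) ≤ a θ ^ 10 := by
    rw [pow_mul]
    exact Nat.pow_le_pow_left h1 10
  have h8 : b ^ (2 ^ d * 10) < b ^ ((31 + d) * k) := by omega
  have h9 : 2 ^ d * 10 < (31 + d) * k := (Nat.pow_lt_pow_iff_right (by omega)).1 h8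
  have h10 : (31 + d) * k ≤ (32 + d) * w ^ 29 := Nat.mul_le_mul (by omega) hN.kw
  have h11 := two_pow_lin hw hwd
  omega

/-- Proof: `x ≤ 400 c (17 + 2 w) ≤ c w ^ 2`, so `vac * w ^ 8 ≤ c`, `2 vac ≤ c`, `c ≤ 2 (c - vac)`,
`w ^ 28 * c ≤ 2 K (c - vac) ≤ 2 c w ^ 2`: false. -/
theorem num_fin {K w c n x vac : ℕ} (hw : 2 ^ 28 ≤ w) (hK : w ^ 28 ≤ K) (hc : 1 ≤ c)
    (hn : n ≤ 400 * c) (hx : x ≤ 17 * n + 2 * n * w) (hv : w ^ 10 * vac ≤ x)
    (hT : K * (c - vac) ≤ x) : False := by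
  have hw' : 268435456 ≤ w := by
    have h : (2 : ℕ) ^ 28 = 268435456 := by norm_num
    omega
  have h1 : 400 * (17 + 2 * w) ≤ w ^ 2 := by nlinarith
  have h2 : x ≤ c * w ^ 2 := by
    have h0 : 17 * n + 2 * n * w = n * (17 + 2 * w) := by ring
    calc x ≤ n * (17 + 2 * w) := hx.trans h0.le
      _ ≤ (400 * c) * (17 + 2 * w) := Nat.mul_le_mul_right _ hn
      _ = c * (400 * (17 + 2 * w)) := by ring
      _ ≤ c * w ^ 2 := Nat.mul_le_mul_left _ h1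
  have h3 : w ^ 8 * vac ≤ c := by
    have h4 : w ^ 2 * (w ^ 8 * vac) ≤ w ^ 2 * c := by
      calc w ^ 2 * (w ^ 8 * vac) = w ^ 10 * vac := by ring
        _ ≤ c * w ^ 2 := hv.trans h2
        _ = w ^ 2 * c := by ring
    exact Nat.le_of_mul_le_mul_left h4 (by positivity)
  have h5 : 2 * vac ≤ c := by
    have h6 : 2 ≤ w ^ 8 := by
      calc 2 ≤ w ^ 1 := by rw [pow_one]; omega
        _ ≤ w ^ 8 := Nat.pow_le_pow_right (by omega) (by norm_num)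
    exact (Nat.mul_le_mul_right vac h6).trans h3
  have h7 : c ≤ 2 * (c - vac) := by omega
  have h8 : w ^ 28 * c ≤ 2 * (c * w ^ 2) := by
    calc w ^ 28 * c ≤ K * (2 * (c - vac)) := Nat.mul_le_mul hK h7
      _ = 2 * (K * (c - vac)) := by ring
      _ ≤ 2 * (c * w ^ 2) := Nat.mul_le_mul_left _ (hT.trans h2)
  have h9 : 3 * w ^ 2 ≤ w ^ 28 := by
    calc 3 * w ^ 2 ≤ w * w ^ 2 := Nat.mul_le_mul_right _ (by omega)
      _ = w ^ 3 := by ring
      _ ≤ w ^ 28 := Nat.pow_le_pow_right (by omega) (by norm_num)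
  have h10 : 3 * w ^ 2 * c ≤ 2 * (c * w ^ 2) := (Nat.mul_le_mul_right c h9).trans h8
  have h11 : 0 < c * w ^ 2 := by positivity
  nlinarith

end Pool.Agent.RamV
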