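import Pool.Agent.Lib.MP_078aef_co_v.NumT

/-! Numbers for the union bound. -/

namespace Pool.Agent.RamV

open Finset Pool.Agent.RamseyHam Pool.Agent.RamQ Pool.Agent.RamH

/-- Proof: `N b ≤ N a ≤ (k + a) ^ a ≤ (2 a ^ 29) ^ a ≤ a ^ (30 a)` and `x ≤ N b`. So `x + 1 ≤ a ^ (31 a)`. -/
theorem hub_size {K k w a b x : ℕ} {N : ℕ → ℕ} (hN : Nm K k w N) (ha : w ≤ a) (hb : b ≤ a)
    (hx : x ≤ N b) : x + 1 ≤ a ^ (31 * a) := by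
  have h28 : 2 ^ 28 ≤ a := hN.two.trans ha
  have h2 : 2 ≤ a := le_trans (by norm_num) h28
  have h1 : 1 ≤ a := le_trans (by norm_num) h2
  have hk : k ≤ a ^ 29 := hN.kw.trans (Nat.pow_le_pow_left ha 29)
  have ha29 : a ≤ a ^ 29 := Nat.le_self_pow (by norm_num) a
  have h3 : k + a ≤ a ^ 30 := by
    calc k + a ≤ a ^ 29 + a ^ 29 := Nat.add_le_add hk ha29
      _ = 2 * a ^ 29 := by ring
      _ ≤ a * a ^ 29 := Nat.mul_le_mul_right _ h2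
      _ = a ^ 30 := by ring
  have h4 : x ≤ a ^ (30 * a) := by
    calc x ≤ N b := hx
      _ ≤ N a := hN.mono hb
      _ ≤ (k + a) ^ a := hN.Nx a
      _ ≤ (a ^ 30) ^ a := Nat.pow_le_pow_left h3 a
      _ = a ^ (30 * a) := by rw [← pow_mul]
  have h5 : 1 ≤ a ^ (30 * a) := Nat.one_le_pow _ _ h1
  calc x + 1 ≤ a ^ (30 * a) + a ^ (30 * a) := Nat.add_le_add h4 h5
    _ = 2 * a ^ (30 * a) := by ring
    _ ≤ a * a ^ (30 * a) := Nat.mul_le_mul_right _ h2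
    _ = a ^ (30 * a + 1) := by ring
    _ ≤ a ^ (31 * a) := Nat.pow_le_pow_right h1 (by omega)

/-- Proof: `a ≤ 2 ^ a`, so `a * (2 * a ^ (62 * a ^ 2)) ≤ 2 ^ (62 a ^ 3 + a + 1) ≤ 2 ^ (a ^ 4)`, and
`a ^ 4 + a ≤ 2 * (a ^ 10 / 8)`. -/
theorem num_test {a : ℕ} (ha : 2 ^ 28 ≤ a) :
    (a : ℝ) * (2 * (a : ℝ) ^ (62 * a ^ 2)) * (1 / 4 : ℝ) ^ (a ^ 10 / 8) ≤ (1 / 2 : ℝ) ^ a := by
  have h65 : 65 ≤ a := le_trans (by norm_num) ha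
  have h1 : 1 ≤ a := le_trans (by norm_num) h65
  have h8 : 8 ≤ a := le_trans (by norm_num) h65
  obtain ⟨m, hm⟩ : ∃ m, m = a ^ 10 / 8 := ⟨_, rfl⟩
  rw [← hm]
  have h2 : a ^ 9 ≤ m := by
    rw [hm, Nat.le_div_iff_mul_le (by norm_num)]
    calc a ^ 9 * 8 ≤ a ^ 9 * a := Nat.mul_le_mul_left _ h8
      _ = a ^ 10 := by ring
  have h3 : 62 * a ^ 3 + 2 * a + 1 ≤ m := by
    have h4 : a ≤ a ^ 3 := Nat.le_self_pow (by norm_num) a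
    have h5 : 1 ≤ a ^ 3 := Nat.one_le_pow _ _ h1
    calc 62 * a ^ 3 + 2 * a + 1 ≤ 65 * a ^ 3 := by omega
      _ ≤ a * a ^ 3 := Nat.mul_le_mul_right _ h65
      _ = a ^ 4 := by ring
      _ ≤ a ^ 9 := Nat.pow_le_pow_right h1 (by norm_num)
      _ ≤ m := h2
  have h4 : a * (2 * a ^ (62 * a ^ 2)) * 2 ^ a ≤ 4 ^ m := by
    have h5 : a ≤ 2 ^ a := Nat.lt_two_pow_self.le
    calc a * (2 * a ^ (62 * a ^ 2)) * 2 ^ a
        ≤ 2 ^ a * (2 * (2 ^ a) ^ (62 * a ^ 2)) * 2 ^ a := by gcongr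
      _ = 2 ^ (62 * a ^ 3 + 2 * a + 1) := by
        rw [← pow_mul]
        have : a * (62 * a ^ 2) = 62 * a ^ 3 := by ring
        rw [this]
        ring
      _ ≤ 2 ^ m := Nat.pow_le_pow_right (by norm_num) h3
      _ ≤ 4 ^ m := Nat.pow_le_pow_left (by norm_num) m
  have h5 : (a : ℝ) * (2 * (a : ℝ) ^ (62 * a ^ 2)) * 2 ^ a ≤ 4 ^ m := by exact_mod_cast h4
  rw [one_div_pow, one_div_pow, mul_one_div, div_le_div_iff₀ (by positivity) (by positivity),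
    one_mul]
  exact h5

/-- Proof: `80 a' ^ 11 ≤ 80 a' ^ 12 ≤ 80 a ^ 6 ≤ a ^ 7`, and `a ^ 10 ≥ 2 ^ 84 a ^ 7`. -/
theorem num_child {a a' : ℕ} (ha : 2 ^ 28 ≤ a) (h : a' ^ 2 ≤ a) (h' : 1 ≤ a') :
    16 * (80 * a' ^ 11) ≤ a ^ 10 / 4 := by
  have h1 : 1 ≤ a := le_trans (by norm_num) ha
  have h2 : 5120 ≤ a := le_trans (by norm_num) ha
  have h3 : a' ^ 11 ≤ a ^ 6 := by
    calc a' ^ 11 ≤ a' ^ 12 := Nat.pow_le_pow_right h' (by norm_num)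
      _ = (a' ^ 2) ^ 6 := by ring
      _ ≤ a ^ 6 := Nat.pow_le_pow_left h 6
  rw [Nat.le_div_iff_mul_le (by norm_num)]
  calc 16 * (80 * a' ^ 11) * 4 = 5120 * a' ^ 11 := by ring
    _ ≤ a * a ^ 6 := Nat.mul_le_mul h2 h3
    _ = a ^ 7 := by ring
    _ ≤ a ^ 10 := Nat.pow_le_pow_right h1 (by norm_num)

end Pool.Agent.RamV
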