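import Pool.Agent.Lib.MP_078aef_co_v.PackB
import Pool.Agent.Lib.MP_078aef_co_v.ElM
import Pool.Agent.Lib.MP_078aef_co_v.Fair

/-! Fair bases for packings. -/

namespace Pool.Agent.RamV

open Finset Pool.Agent.RamseyHam Pool.Agent.RamQ Pool.Agent.RamH

variable {V : Type*} [Fintype V] [DecidableEq V] {m r : ℕ} {G : SimpleGraph V}
  {h : V → Option (Fin m)} {ch : V → Finset V} {lev : V → ℕ}

/-- the elements of `U` with a port in a member of `M` -/
private noncomputable def pkS (U : Finset (El V r)) (M : Finset (Finset V)) : Finset (El V r) := by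
  classical exact U.filter (fun e => ∃ x ∈ pts e, ∃ S ∈ M, x ∈ S)

omit [Fintype V] in
private theorem mem_pkS {U : Finset (El V r)} {M : Finset (Finset V)} {e : El V r} :
    e ∈ pkS U M ↔ e ∈ U ∧ ∃ x ∈ pts e, ∃ S ∈ M, x ∈ S := by
  unfold pkS
  rw [Finset.mem_filter]

private theorem pk_hub_end (hc : Chd G h lev ch) {v z : V} {l : List V} (hp : Pth h ch v l z)
    (hv : h v ≠ none) : z = v := by
  cases hp with
  | hub _ _ => rfl
  | cons _ x l _ hx _ =>
    rw [hc.hub v hv] at hx
    exact absurd hx (Finset.notMem_empty x)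

private theorem pk_card {U : Finset (El V r)} (hel : ∀ e ∈ U, IsEl G h ch e) (hcmp : Cmp ch U)
    {B : Finset V} {M : Finset (Finset V)} (hM : Pk B M) :
    (pkS U M).card ≤ 2 * M.card := by
  have h1 : (M.biUnion id).card ≤ M.card * 2 :=
    Finset.card_biUnion_le_card_mul _ _ _ fun S hS => hM.two S hS
  have h2 : (pkS U M).card ≤ (M.biUnion id).card := by
    rcases (pkS U M).eq_empty_or_nonempty with h0 | ⟨e0, he0⟩
    · rw [h0, Finset.card_empty]
      exact Nat.zero_le _
    have : Nonempty V := by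
      obtain ⟨_, x0, _⟩ := mem_pkS.1 he0
      exact ⟨x0⟩
    have hex : ∀ e ∈ pkS U M, ∃ x ∈ pts e, x ∈ M.biUnion id := by
      intro e he
      obtain ⟨_, x, hx, S, hS, hxS⟩ := mem_pkS.1 he
      exact ⟨x, hx, Finset.mem_biUnion.2 ⟨S, hS, hxS⟩⟩
    choose! f hf1 hf2 using hex
    refine Finset.card_le_card_of_injOn f (fun e he => hf2 e he) ?_
    intro e he e' he' hee
    by_contra hne
    have he1 := (mem_pkS.1 (Finset.mem_coe.1 he)).1
    have he2 := (mem_pkS.1 (Finset.mem_coe.1 he')).1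
    have h3 := (disj_vt.1 (hcmp e he1 e' he2 hne)).1
    obtain ⟨_, _, _, _, ho⟩ := hel e he1
    obtain ⟨_, _, _, _, ho'⟩ := hel e' he2
    have h4 := ho.pts_sub (hf1 e (Finset.mem_coe.1 he))
    have h5 := ho'.pts_sub (hf1 e' (Finset.mem_coe.1 he'))
    rw [← hee] at h5
    exact Finset.disjoint_left.1 h3 h4 h5
  omega

/-- Proof: fair with the index set of all pairs `(i, M)`, `M ∈ 𝔐 i`, `t = (M.card + 3) / 4`, and `S (i, M)` = the elements of
`univ.biUnion T` with a port in a member of `M`. There are at most `2 |M| ≤ 8 t` of them (different elements have different ports, `Cmp`).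
`Bas` and `BasOf`: `hW`.  A member of `B` (the fair basis) has at most one port in the hub `i` (two ports in the same hub:
the chains are single vertices, `ve = 0`, Ok.ve_zero, against independence), so the number of the members of `M` meeting a port of `B` is
at most `|B ∩ S| < t`, that is `4 * number < |M|`. -/
theorem fair_pack (hc : Chd G h lev ch) (T : Fin 100 → Finset (El V r))
    (hel : ∀ j, ∀ e ∈ T j, IsEl G h ch e) (hdis : ∀ i j, i ≠ j → Disjoint (T i) (T j))
    (hcmp : Cmp ch (univ.biUnion T)) {W : Submodule (ZMod 2) (Fin m → ZMod 2)}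
    (hW : ∀ j, BasOf (ve h) W (T j)) (𝔐 : Fin m → Finset (Finset (Finset V)))
    (h𝔐 : ∀ i, ∀ M ∈ 𝔐 i, Pk (Hb h i) M)
    (hsum : ∑ i, ∑ M ∈ 𝔐 i, (1 / 4 : ℝ) ^ ((M.card + 3) / 4) < 1) :
    ∃ B ⊆ univ.biUnion T, BasOf (ve h) W B ∧ ∀ i, ∀ M ∈ 𝔐 i,
      4 * (M.filter (fun S => ¬ Disjoint S (B.biUnion pts))).card < M.card := by
  have hel' : ∀ e ∈ univ.biUnion T, IsEl G h ch e := by
    intro e he
    obtain ⟨j, _, hj⟩ := Finset.mem_biUnion.1 he
    exact hel j e hj
  obtain ⟨B, hB, hBas, hBS⟩ := fair (F := ZMod 2) (v := ve h) (W := W)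
    (κ := Σ _ : Fin m, Finset (Finset V)) (univ.sigma 𝔐)
    (fun o => pkS (univ.biUnion T) o.2) (fun o => (o.2.card + 3) / 4) T hW hdis
    (by
      rintro ⟨i, M⟩ ho
      have hM := h𝔐 i M (Finset.mem_sigma.1 ho).2
      have h1 := pk_card hel' hcmp hM
      have h2 : (pkS (univ.biUnion T) M ∩ univ.biUnion T).card ≤ (pkS (univ.biUnion T) M).card :=
        Finset.card_le_card Finset.inter_subset_left
      change (pkS (univ.biUnion T) M ∩ univ.biUnion T).card ≤ 8 * ((M.card + 3) / 4)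
      omega)
    (by
      rw [Finset.sum_sigma]
      exact hsum)
  refine ⟨B, hB, hBas, fun i M hM => ?_⟩
  have h1 : (B ∩ pkS (univ.biUnion T) M).card < (M.card + 3) / 4 :=
    hBS ⟨i, M⟩ (Finset.mem_sigma.2 ⟨Finset.mem_univ _, hM⟩)
  have hpk := h𝔐 i M hM
  have h2 : (M.filter (fun S => ¬ Disjoint S (B.biUnion pts))).card ≤
      (B ∩ pkS (univ.biUnion T) M).card := by
    rcases (M.filter (fun S => ¬ Disjoint S (B.biUnion pts))).eq_empty_or_nonempty with
      h0 | ⟨S0, hS0⟩
    · rw [h0, Finset.card_empty]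
      exact Nat.zero_le _
    obtain ⟨x0, _, hx0⟩ := Finset.not_disjoint_iff.1 (Finset.mem_filter.1 hS0).2
    obtain ⟨e0, _, _⟩ := Finset.mem_biUnion.1 hx0
    have : Nonempty V := ⟨x0⟩
    have : Nonempty (El V r) := ⟨e0⟩
    have hex : ∀ S ∈ M.filter (fun S => ¬ Disjoint S (B.biUnion pts)),
        ∃ e ∈ B, ∃ x ∈ pts e, x ∈ S := by
      intro S hS
      obtain ⟨x, hx1, hx2⟩ := Finset.not_disjoint_iff.1 (Finset.mem_filter.1 hS).2
      obtain ⟨e, he, hxe⟩ := Finset.mem_biUnion.1 hx2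
      exact ⟨e, he, x, hxe, hx1⟩
    choose! f hf1 x hx1 hx2 using hex
    refine Finset.card_le_card_of_injOn f ?_ ?_
    · intro S hS
      have hS' := Finset.mem_coe.1 hS
      refine Finset.mem_coe.2 (Finset.mem_inter.2 ⟨hf1 S hS', ?_⟩)
      exact mem_pkS.2 ⟨hB (hf1 S hS'), x S, hx1 S hS', S, (Finset.mem_filter.1 hS').1, hx2 S hS'⟩
    · intro S hS S' hS' hff
      by_contra hne
      have hS1 := Finset.mem_coe.1 hS
      have hS2 := Finset.mem_coe.1 hS'
      have hM1 := (Finset.mem_filter.1 hS1).1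
      have hM2 := (Finset.mem_filter.1 hS2).1
      have hd := hpk.dis S hM1 S' hM2 hne
      have hxne : x S ≠ x S' := by
        intro h3
        have h4 := hx2 S' hS2
        rw [← h3] at h4
        exact Finset.disjoint_left.1 hd (hx2 S hS1) h4
      have hh1 := mem_Hb.1 (hpk.sub S hM1 (hx2 S hS1))
      have hh2 := mem_Hb.1 (hpk.sub S' hM2 (hx2 S' hS2))
      have heB := hf1 S hS1
      obtain ⟨v, v', z, z', ho⟩ := hel' (f S) (hB heB)
      have hp1 := ho.mem_pts.1 (hx1 S hS1)
      have hp2 := hx1 S' hS2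
      rw [← hff] at hp2
      have hp2' := ho.mem_pts.1 hp2
      have hvv : h v = some i ∧ h v' = some i := by
        rcases hp1 with h3 | h3 <;> rcases hp2' with h4 | h4
        · exact absurd (h3.trans h4.symm) hxne
        · exact ⟨by rw [← h3]; exact hh1, by rw [← h4]; exact hh2⟩
        · exact ⟨by rw [← h4]; exact hh2, by rw [← h3]; exact hh1⟩
        · exact absurd (h3.trans h4.symm) hxne
      have hz1 := pk_hub_end hc ho.p (by rw [hvv.1]; exact Option.some_ne_none i)
      have hz2 := pk_hub_end hc ho.q (by rw [hvv.2]; exact Option.some_ne_none i)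
      have h0 := ho.ve_zero hc (by rw [hz1, hz2, hvv.1, hvv.2])
      exact (hBas.ind.ne_zero (Finset.mem_coe.2 heB)) h0
  omega

end Pool.Agent.RamV
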