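import Pool.Agent.Lib.MP_078aef_co_v.Defs
import Pool.Agent.Lib.MP_078aef_co_h.Fill

/-! Packings of a hub. -/

namespace Pool.Agent.RamV

open Finset Pool.Agent.RamseyHam Pool.Agent.RamQ Pool.Agent.RamH

section pk

variable {V : Type*} [DecidableEq V]

/-- pairwise disjoint nonempty subsets of `B` with at most two members -/
structure Pk (B : Finset V) (M : Finset (Finset V)) : Prop where
  sub : ∀ S ∈ M, S ⊆ B
  ne : ∀ S ∈ M, S.Nonempty
  two : ∀ S ∈ M, S.card ≤ 2
  dis : ∀ S ∈ M, ∀ S' ∈ M, S ≠ S' → Disjoint S S'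

/-- `z` is in `P` or adjacent to a member of `P` -/
def Nh (G : SimpleGraph V) (P : Finset V) (z : V) : Prop := z ∈ P ∨ ∃ p ∈ P, G.Adj p z

/-- the sets which separate or connect the neighbourhoods of `P` and `Q` -/
def Kd (G : SimpleGraph V) (P Q S : Finset V) : Prop :=
  (∃ z, S = {z} ∧ ¬ Nh G P z ∧ ¬ Nh G Q z) ∨ (∃ z, S = {z} ∧ Nh G P z ∧ Nh G Q z) ∨
    ∃ u v, S = {u, v} ∧ G.Adj u v ∧ Nh G P u ∧ Nh G Q v

/-- the number of members of `M` which do not meet `U` is at least `|M|` minus the number of vertices of `U`.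
Proof: map a member meeting `U` to a common vertex. -/
theorem Pk.card_sdiff {B : Finset V} {M : Finset (Finset V)} (hM : Pk B M) (U : Finset V) :
    M.card ≤ (M.filter (fun S => Disjoint S U)).card + (U ∩ B).card := by
  rw [← card_filter_add_card_filter_not (s := M) (fun S => Disjoint S U)]
  refine Nat.add_le_add_left ?_ _
  refine card_le_card_of_forall_subsingleton (fun S x => x ∈ S) ?_ ?_
  · intro S hS
    obtain ⟨hS1, hS2⟩ := mem_filter.1 hS
    obtain ⟨x, h1, h2⟩ := not_disjoint_iff.1 hS2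
    exact ⟨x, mem_inter.2 ⟨h2, hM.sub S hS1 h1⟩, h1⟩
  · rintro x _ S ⟨hS, hxS⟩ S' ⟨hS', hxS'⟩
    by_contra hne
    exact disjoint_left.1 (hM.dis S (mem_filter.1 hS).1 S' (mem_filter.1 hS').1 hne) hxS hxS'

variable [Fintype V]

/-- Proof: a packing `M` of `B` by sets of the kinds `Kd` with the largest number of members.  Suppose `2 |M| < τ`; `X` = union of
`M`, `|X| < τ`. `P' = {z ∈ B \ X | Nh P z}`, `Q' = (B \ X) \ P'`: a vertex of `Q'` has `Nh Q` (else it could be added, first kind), a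
vertex of `P'` has not `Nh Q` (second kind), `P'`, `Q'` are not adjacent (third kind). Robustness: one is empty; but `p ∈ P` has at
least `τ` neighbours in `B`, one is outside `X` and in `P'`; the same for `q ∈ Q`. -/
theorem pack_exists {G : SimpleGraph V} {B : Finset V} {τ : ℕ} (hB : Rb G B τ)
    (hdeg : ∀ v ∈ B, τ ≤ (nb G v ∩ B).card) {P Q : Finset V} (hP : P ⊆ B) (hQ : Q ⊆ B)
    (hP' : P.Nonempty) (hQ' : Q.Nonempty) :
    ∃ M : Finset (Finset V), Pk B M ∧ τ ≤ 2 * M.card ∧ ∀ S ∈ M, Kd G P Q S := by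
  classical
  obtain ⟨M, hM, hmax⟩ := exists_max_image
    (B.powerset.powerset.filter (fun M => Pk B M ∧ ∀ S ∈ M, Kd G P Q S)) card
    ⟨∅, mem_filter.2 ⟨mem_powerset.2 (empty_subset _),
      ⟨⟨by simp, by simp, by simp, by simp⟩, by simp⟩⟩⟩
  obtain ⟨-, hMp, hMk⟩ := mem_filter.1 hM
  refine ⟨M, hMp, ?_, hMk⟩
  by_contra hlt
  obtain ⟨X, hX⟩ : ∃ X : Finset V, X = M.biUnion id := ⟨_, rfl⟩
  have hmX : ∀ z, z ∈ X ↔ ∃ S ∈ M, z ∈ S := by
    intro z
    rw [hX, mem_biUnion]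
    rfl
  have hXc : X.card < τ := by
    have h1 : X.card ≤ M.card * 2 := by
      rw [hX]
      exact card_biUnion_le_card_mul M id 2 hMp.two
    omega
  -- nothing can be added
  have hadd : ∀ S : Finset V, S ⊆ B → S.Nonempty → S.card ≤ 2 → (∀ z ∈ S, z ∉ X) →
      ¬ Kd G P Q S := by
    intro S hSB hSn hS2 hSX hSk
    have hnot : S ∉ M := by
      intro h
      obtain ⟨z, hz⟩ := hSn
      exact hSX z hz ((hmX z).2 ⟨S, h, hz⟩)
    have hd : ∀ S' ∈ M, Disjoint S S' := by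
      intro S' hS'
      rw [disjoint_left]
      intro z hz hz'
      exact hSX z hz ((hmX z).2 ⟨S', hS', hz'⟩)
    have hnew : insert S M ∈ B.powerset.powerset.filter
        (fun M => Pk B M ∧ ∀ S ∈ M, Kd G P Q S) := by
      refine mem_filter.2 ⟨mem_powerset.2 ?_, ⟨?_, ?_, ?_, ?_⟩, ?_⟩
      · intro S' hS'
        rw [mem_powerset]
        rcases mem_insert.1 hS' with rfl | h
        · exact hSB
        · exact hMp.sub _ h
      · intro S' hS'
        rcases mem_insert.1 hS' with rfl | h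
        · exact hSB
        · exact hMp.sub _ h
      · intro S' hS'
        rcases mem_insert.1 hS' with rfl | h
        · exact hSn
        · exact hMp.ne _ h
      · intro S' hS'
        rcases mem_insert.1 hS' with rfl | h
        · exact hS2
        · exact hMp.two _ h
      · intro S' hS' S'' hS'' hne
        rcases mem_insert.1 hS' with rfl | h
        · rcases mem_insert.1 hS'' with rfl | h'
          · exact absurd rfl hne
          · exact hd _ h'
        · rcases mem_insert.1 hS'' with rfl | h'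
          · exact (hd _ h).symm
          · exact hMp.dis _ h _ h' hne
      · intro S' hS'
        rcases mem_insert.1 hS' with rfl | h
        · exact hSk
        · exact hMk _ h
    have h1 := hmax _ hnew
    rw [card_insert_of_notMem hnot] at h1
    omega
  have hone : ∀ z ∈ B, z ∉ X → ¬ Kd G P Q {z} := by
    intro z hz hzX
    refine hadd {z} (singleton_subset_iff.2 hz) (singleton_nonempty z) (by simp) ?_
    intro y hy
    rw [mem_singleton.1 hy]
    exact hzX
  obtain ⟨Pt, hPt⟩ : ∃ Pt : Finset V, Pt = (B \ X).filter (fun z => Nh G P z) := ⟨_, rfl⟩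
  have hmP : ∀ z, z ∈ Pt ↔ (z ∈ B ∧ z ∉ X) ∧ Nh G P z := by
    intro z
    rw [hPt, mem_filter, mem_sdiff]
  have hmQ : ∀ z, z ∈ (B \ X) \ Pt ↔ (z ∈ B ∧ z ∉ X) ∧ ¬ Nh G P z := by
    intro z
    rw [mem_sdiff, mem_sdiff, hmP]
    tauto
  have hPQ : ∀ z ∈ Pt, ¬ Nh G Q z := by
    intro z hz hQz
    obtain ⟨⟨h1, h2⟩, h3⟩ := (hmP z).1 hz
    exact hone z h1 h2 (Or.inr (Or.inl ⟨z, rfl, h3, hQz⟩))
  have hQQ : ∀ z ∈ (B \ X) \ Pt, Nh G Q z := by
    intro z hz
    by_contra hQz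
    obtain ⟨⟨h1, h2⟩, h3⟩ := (hmQ z).1 hz
    exact hone z h1 h2 (Or.inl ⟨z, rfl, h3, hQz⟩)
  have hnon : Non G Pt ((B \ X) \ Pt) := by
    intro x hx y hy hxy
    obtain ⟨⟨h1, h2⟩, h3⟩ := (hmP x).1 hx
    obtain ⟨⟨h1', h2'⟩, -⟩ := (hmQ y).1 hy
    refine hadd {x, y} ?_ (insert_nonempty _ _) card_le_two ?_
      (Or.inr (Or.inr ⟨x, y, rfl, hxy, h3, hQQ y hy⟩))
    · intro z hz
      rcases mem_insert.1 hz with rfl | h
      · exact h1
      · rw [mem_singleton.1 h]
        exact h1'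
    · intro z hz
      rcases mem_insert.1 hz with rfl | h
      · exact h2
      · rw [mem_singleton.1 h]
        exact h2'
  have hnbr : ∀ v ∈ B, ∃ z, G.Adj v z ∧ z ∈ B ∧ z ∉ X := by
    intro v hv
    have h1 := hdeg v hv
    have h2 : ¬ nb G v ∩ B ⊆ X := fun h => by
      have := card_le_card h
      omega
    obtain ⟨z, hz, hzX⟩ := not_subset.1 h2
    obtain ⟨h3, h4⟩ := mem_inter.1 hz
    exact ⟨z, mem_nb.1 h3, h4, hzX⟩
  have hsub : Pt ⊆ B \ X := by
    rw [hPt]
    exact filter_subset _ _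
  rcases hB.2 X hXc Pt ((B \ X) \ Pt) (union_sdiff_of_subset hsub) disjoint_sdiff hnon
    with h0 | h0
  · obtain ⟨q, hq⟩ := hP'
    obtain ⟨z, h1, h2, h3⟩ := hnbr q (hP hq)
    have h4 : z ∈ Pt := (hmP z).2 ⟨⟨h2, h3⟩, Or.inr ⟨q, hq, h1⟩⟩
    rw [h0] at h4
    simp at h4
  · obtain ⟨q, hq⟩ := hQ'
    obtain ⟨z, h1, h2, h3⟩ := hnbr q (hQ hq)
    have h4 : Nh G Q z := Or.inr ⟨q, hq, h1⟩
    have h5 : z ∈ (B \ X) \ Pt :=
      mem_sdiff.2 ⟨mem_sdiff.2 ⟨h2, h3⟩, fun h => hPQ z h h4⟩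
    rw [h0] at h5
    simp at h5

end pk

end Pool.Agent.RamV
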