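import Pool.Agent.Lib.MP_078aef_co_v.PackA

/-! Robustness from packings. -/

namespace Pool.Agent.RamV

open Finset Pool.Agent.RamseyHam Pool.Agent.RamQ Pool.Agent.RamH

variable {V : Type*} [Fintype V] [DecidableEq V]

omit [Fintype V] in
private theorem packB_max {G : SimpleGraph V} {P₁ : Finset V} (h : P₁.Nonempty) :
    ∃ P ⊆ P₁, P.Nonempty ∧ Ind G P ∧ ∀ z ∈ P₁, Nh G P z := by
  classical
  obtain ⟨x, hx⟩ := h
  obtain ⟨P, hP, hmax⟩ := exists_max_image (P₁.powerset.filter (fun I => Ind G I)) card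
    ⟨∅, mem_filter.2 ⟨mem_powerset.2 (empty_subset _), fun y hy => absurd hy (notMem_empty y)⟩⟩
  rw [mem_filter, mem_powerset] at hP
  have hN : ∀ z ∈ P₁, Nh G P z := by
    intro z hz
    by_contra hcon
    have h1 : z ∉ P := fun h2 => hcon (Or.inl h2)
    have h2 : ∀ p ∈ P, ¬ G.Adj p z := fun p hp h3 => hcon (Or.inr ⟨p, hp, h3⟩)
    have h3 : insert z P ∈ P₁.powerset.filter (fun I => Ind G I) := by
      rw [mem_filter, mem_powerset]
      refine ⟨insert_subset hz hP.1, ?_⟩
      intro a ha b hb hab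
      rw [mem_insert] at ha hb
      rcases ha with rfl | ha
      · rcases hb with rfl | hb
        · exact G.loopless.irrefl _ hab
        · exact h2 b hb hab.symm
      · rcases hb with rfl | hb
        · exact h2 a ha hab
        · exact hP.2 a ha b hb hab
    have h4 := hmax _ h3
    rw [card_insert_of_notMem h1] at h4
    omega
  refine ⟨P, hP.1, ?_, hP.2, hN⟩
  rcases hN x hx with h1 | ⟨p, hp, -⟩
  · exact ⟨x, h1⟩
  · exact ⟨p, hp⟩

/-- Proof. Size: `P = Q = {b}`.  Let `X`, `P1 ∪ Q1 = (B \ U) \ X` with `|X| < q`, `P1`, `Q1` non-adjacent and nonempty; `P`, `Q` maximal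
independent subsets of `P1`, `Q1`, so all vertices of `P1` have `Nh P`, all vertices of `Q1` have `Nh Q`, and (non-adjacency) no
vertex of `P1` has `Nh Q`, no vertex of `Q1` has `Nh P`. A member of `M` disjoint from `U` and from `X` is a subset of `P1 ∪ Q1`:
a contradiction for each of the three kinds. -/
theorem rob_of_pack {G : SimpleGraph V} {B U : Finset V} {q : ℕ} (hB : B.Nonempty)
    (hpk : ∀ P Q : Finset V, P ⊆ B → Q ⊆ B → P.Nonempty → Q.Nonempty → Ind G P → Ind G Q →
      ∃ M : Finset (Finset V), Pk B M ∧ (∀ S ∈ M, Kd G P Q S) ∧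
        q ≤ (M.filter (fun S => Disjoint S U)).card) : Rb G (B \ U) q := by
  refine ⟨?_, ?_⟩
  · obtain ⟨b, hb⟩ := hB
    have hI : Ind G {b} := by
      intro x hx y hy hxy
      rw [mem_singleton] at hx hy
      rw [hx, hy] at hxy
      exact G.loopless.irrefl _ hxy
    obtain ⟨M, hM, -, hq⟩ := hpk {b} {b} (singleton_subset_iff.2 hb) (singleton_subset_iff.2 hb)
      (singleton_nonempty b) (singleton_nonempty b) hI hI
    refine hq.trans ?_
    have h1 : ((M.filter (fun S => Disjoint S U)).biUnion id).card =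
        ∑ S ∈ M.filter (fun S => Disjoint S U), S.card := by
      refine card_biUnion ?_
      intro S hS S' hS' hne
      exact hM.dis S (mem_filter.1 hS).1 S' (mem_filter.1 hS').1 hne
    have h2 : (M.filter (fun S => Disjoint S U)).biUnion id ⊆ B \ U := by
      intro x hx
      rw [mem_biUnion] at hx
      obtain ⟨S, hS, hxS⟩ := hx
      rw [mem_filter] at hS
      rw [mem_sdiff]
      exact ⟨hM.sub S hS.1 hxS, fun hxU => disjoint_left.1 hS.2 hxS hxU⟩
    have h3 : (M.filter (fun S => Disjoint S U)).card ≤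
        ∑ S ∈ M.filter (fun S => Disjoint S U), S.card := by
      rw [card_eq_sum_ones]
      refine sum_le_sum fun S hS => ?_
      exact card_pos.2 (hM.ne S (mem_filter.1 hS).1)
    calc _ ≤ _ := h3
      _ = _ := h1.symm
      _ ≤ _ := card_le_card h2
  · intro X hX P₁ Q₁ hPQ hdis hnon
    by_contra hcon
    push Not at hcon
    obtain ⟨hP₁, hQ₁⟩ := hcon
    obtain ⟨P, hPs, hP0, hPI, hPN⟩ := packB_max (G := G) hP₁
    obtain ⟨Q, hQs, hQ0, hQI, hQN⟩ := packB_max (G := G) hQ₁
    have hsub : P₁ ∪ Q₁ ⊆ B := by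
      rw [hPQ]
      exact sdiff_subset.trans sdiff_subset
    obtain ⟨M, hM, hK, hq⟩ := hpk P Q (hPs.trans (subset_union_left.trans hsub))
      (hQs.trans (subset_union_right.trans hsub)) hP0 hQ0 hPI hQI
    -- no neighbours on the other side
    have hPQ1 : ∀ z ∈ P₁, ¬ Nh G Q z := by
      rintro z hz (h1 | ⟨p, hp, h1⟩)
      · exact disjoint_left.1 hdis hz (hQs h1)
      · exact hnon z hz p (hQs hp) h1.symm
    have hQP1 : ∀ z ∈ Q₁, ¬ Nh G P z := by
      rintro z hz (h1 | ⟨p, hp, h1⟩)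
      · exact disjoint_left.1 hdis (hPs h1) hz
      · exact hnon p (hPs hp) z hz h1
    have hM' : Pk B (M.filter (fun S => Disjoint S U)) :=
      ⟨fun S hS => hM.sub S (mem_filter.1 hS).1, fun S hS => hM.ne S (mem_filter.1 hS).1,
        fun S hS => hM.two S (mem_filter.1 hS).1,
        fun S hS S' hS' => hM.dis S (mem_filter.1 hS).1 S' (mem_filter.1 hS').1⟩
    have h1 := hM'.card_sdiff X
    have h2 : (X ∩ B).card ≤ X.card := card_le_card inter_subset_left
    have h3 : 0 < ((M.filter (fun S => Disjoint S U)).filter (fun S => Disjoint S X)).card := by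
      omega
    obtain ⟨S, hS⟩ := card_pos.1 h3
    rw [mem_filter, mem_filter] at hS
    obtain ⟨⟨hSM, hSU⟩, hSX⟩ := hS
    have h4 : ∀ z ∈ S, z ∈ P₁ ∨ z ∈ Q₁ := by
      intro z hz
      rw [← mem_union, hPQ, mem_sdiff, mem_sdiff]
      exact ⟨⟨hM.sub S hSM hz, fun h => disjoint_left.1 hSU hz h⟩,
        fun h => disjoint_left.1 hSX hz h⟩
    rcases hK S hSM with ⟨z, rfl, hz1, hz2⟩ | ⟨z, rfl, hz1, hz2⟩ | ⟨u, v, rfl, huv, hu, hv⟩
    · rcases h4 z (mem_singleton_self z) with h5 | h5
      · exact hz1 (hPN z h5)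
      · exact hz2 (hQN z h5)
    · rcases h4 z (mem_singleton_self z) with h5 | h5
      · exact hPQ1 z h5 hz2
      · exact hQP1 z h5 hz1
    · have hu' : u ∈ P₁ := (h4 u (mem_insert_self u _)).resolve_right fun h5 => hQP1 u h5 hu
      have hv' : v ∈ Q₁ := (h4 v (mem_insert_of_mem (mem_singleton_self v))).resolve_left
        fun h5 => hPQ1 v h5 hv
      exact hnon u hu' v hv' huv

/-- the number of independent subsets. Proof: subsets with at most `al G B` members. -/
theorem ind_card (G : SimpleGraph V) (B : Finset V) :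
    Nat.card {P : Finset V // P ⊆ B ∧ Ind G P} ≤ (B.card + 1) ^ (al G B) := by
  classical
  have h1 : ∀ P : {P : Finset V // P ⊆ B ∧ Ind G P}, ∃ f : Fin (al G B) → Option B,
      ∀ x, x ∈ P.1 ↔ ∃ i, ∃ y : B, f i = some y ∧ (y : V) = x := by
    rintro ⟨P, hP, hI⟩
    have hc : P.card ≤ al G B := hI.card_le_al hP
    obtain ⟨f, hf1, hf2⟩ : ∃ f : Fin (al G B) → Option B,
        (∀ (i : Fin (al G B)) (h : (i : ℕ) < P.card), f i =
          some ⟨(P.equivFin.symm ⟨i, h⟩ : V), hP (P.equivFin.symm ⟨i, h⟩).2⟩) ∧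
        ∀ i : Fin (al G B), ¬ (i : ℕ) < P.card → f i = none :=
      ⟨fun i => if h : (i : ℕ) < P.card then
        some ⟨(P.equivFin.symm ⟨i, h⟩ : V), hP (P.equivFin.symm ⟨i, h⟩).2⟩ else none,
        fun i h => dif_pos h, fun i h => dif_neg h⟩
    refine ⟨f, fun x => ?_⟩
    constructor
    · intro hx
      have hx' : x ∈ P := hx
      have h2 := (P.equivFin ⟨x, hx'⟩).2
      refine ⟨⟨(P.equivFin ⟨x, hx'⟩ : ℕ), lt_of_lt_of_le h2 hc⟩, ⟨x, hP hx'⟩, ?_, rfl⟩
      rw [hf1 _ h2]
      congr 1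
      apply Subtype.ext
      change ((P.equivFin.symm (P.equivFin ⟨x, hx'⟩) : P) : V) = x
      rw [Equiv.symm_apply_apply]
    · rintro ⟨i, y, h2, rfl⟩
      by_cases h3 : (i : ℕ) < P.card
      · rw [hf1 i h3] at h2
        rw [← Option.some.inj h2]
        exact (P.equivFin.symm ⟨i, h3⟩).2
      · rw [hf2 i h3] at h2
        exact absurd h2 (by simp)
  choose f hf using h1
  have hinj : Function.Injective f := by
    intro P Q hPQ
    apply Subtype.ext
    ext x
    rw [hf P, hf Q, hPQ]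
  have h2 := Nat.card_le_card_of_injective f hinj
  have h3 : Nat.card (Fin (al G B) → Option B) = (B.card + 1) ^ (al G B) := by
    rw [Nat.card_eq_fintype_card, Fintype.card_fun, Fintype.card_fin, Fintype.card_option,
      Fintype.card_coe]
  rwa [h3] at h2

end Pool.Agent.RamV
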