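import Pool.Agent.Lib.MP_078aef_co_v.Defs

/-! Chains of children. -/

namespace Pool.Agent.RamV

open Finset Pool.Agent.RamseyHam Pool.Agent.RamQ Pool.Agent.RamH

variable {V : Type*} {m : ℕ} {h : V → Option (Fin m)} {ch : V → Finset V} {v v' z z' : V}
  {l l' : List V}

theorem Pth.head (hp : Pth h ch v l z) : ∃ t, l = v :: t := by
  cases hp with
  | hub _ => exact ⟨[], rfl⟩
  | cons _ x l z _ _ => exact ⟨l, rfl⟩

theorem Pth.mem_start (hp : Pth h ch v l z) : v ∈ l := by
  obtain ⟨t, rfl⟩ := hp.head
  exact List.mem_cons_self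

theorem Pth.last (hp : Pth h ch v l z) : l.getLast? = some z := by
  induction hp with
  | hub v _ => rfl
  | cons v x l z _ hp ih =>
    obtain ⟨t, rfl⟩ := hp.head
    rw [List.getLast?_cons_cons]
    exact ih

theorem Pth.mem_end (hp : Pth h ch v l z) : z ∈ l := by
  exact List.mem_of_getLast? hp.last

theorem Pth.hub_end (hp : Pth h ch v l z) : h z ≠ none := by
  induction hp with
  | hub v hv => exact hv
  | cons v x l z _ _ ih => exact ih

/-- every vertex except the first one is a child of a vertex of the chain -/
theorem Pth.par (hp : Pth h ch v l z) : ∀ x ∈ l.tail, ∃ y ∈ l, x ∈ ch y := by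
  induction hp with
  | hub v _ =>
    intro x hx
    simp at hx
  | cons v x l z hx hp ih =>
    intro a ha
    rw [List.tail_cons] at ha
    obtain ⟨t, rfl⟩ := hp.head
    rcases List.mem_cons.1 ha with rfl | ha
    · exact ⟨v, List.mem_cons_self, hx⟩
    · obtain ⟨y, hy, hy2⟩ := ih a ha
      exact ⟨y, List.mem_cons_of_mem _ hy, hy2⟩

/-- the rest of a chain from one of its vertices is a chain -/
theorem Pth.sub (hp : Pth h ch v l z) : ∀ x ∈ l, ∃ l1 l2, l = l1 ++ l2 ∧ Pth h ch x l2 z := by
  induction hp with
  | hub v hv =>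
    intro x hx
    rw [List.mem_singleton] at hx
    subst hx
    exact ⟨[], [x], rfl, Pth.hub x hv⟩
  | cons v x l z hx hp ih =>
    intro a ha
    rcases List.mem_cons.1 ha with rfl | ha
    · exact ⟨[], a :: l, rfl, Pth.cons a x l z hx hp⟩
    · obtain ⟨l1, l2, h1, h2⟩ := ih a ha
      exact ⟨v :: l1, l2, by rw [h1]; rfl, h2⟩

/-- the beginning of a chain continued by another one. Proof: induction. -/
theorem Pth.glue (hp : Pth h ch v l z) {l1 l2 l3 : List V} {x y : V} (hl : l = l1 ++ x :: l2)
    (hy : y ∈ ch x) (hq : Pth h ch y l3 z') : Pth h ch v (l1 ++ x :: l3) z' := by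
  induction l1 generalizing v l with
  | nil =>
    obtain ⟨t, ht⟩ := hp.head
    rw [hl, List.nil_append] at ht
    have hv : x = v := (List.cons.inj ht).1
    subst hv
    exact Pth.cons x y l3 z' hy hq
  | cons a t ih =>
    cases hp with
    | hub _ =>
      rw [List.cons_append] at hl
      have h1 := (List.cons.inj hl).2
      simp at h1
    | cons _ x0 l0 _ hx0 hp0 =>
      rw [List.cons_append] at hl
      obtain ⟨h1, h2⟩ := List.cons.inj hl
      subst h1
      exact Pth.cons _ x0 _ z' hx0 (ih hp0 h2)

section fin

variable [Fintype V] [DecidableEq V] {G : SimpleGraph V} {lev : V → ℕ}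

/-- the inner vertices are outside the hubs -/
theorem Pth.mid (hc : Chd G h lev ch) (hp : Pth h ch v l z) : ∀ x ∈ l, x ≠ z → h x = none := by
  induction hp with
  | hub v _ =>
    intro x hx hxz
    exact absurd (List.mem_singleton.1 hx) hxz
  | cons v x l z hx hp ih =>
    intro a ha haz
    rcases List.mem_cons.1 ha with rfl | ha
    · by_contra hne
      rw [hc.hub a hne] at hx
      exact absurd hx (Finset.notMem_empty _)
    · exact ih a ha haz

theorem Pth.lev_tail (hc : Chd G h lev ch) (hp : Pth h ch v l z) :
    ∀ x ∈ l.tail, lev x < lev v := by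
  induction hp with
  | hub v _ =>
    intro x hx
    simp at hx
  | cons v x l z hx hp ih =>
    intro a ha
    rw [List.tail_cons] at ha
    have h1 := hc.lt v x hx
    obtain ⟨t, rfl⟩ := hp.head
    rcases List.mem_cons.1 ha with rfl | ha
    · exact h1
    · exact (ih a ha).trans h1

theorem Pth.lev_le (hc : Chd G h lev ch) (hp : Pth h ch v l z) : ∀ x ∈ l, lev x ≤ lev v := by
  intro x hx
  have h1 := hp.lev_tail hc
  obtain ⟨t, rfl⟩ := hp.head
  rcases List.mem_cons.1 hx with rfl | hx
  · exact le_rfl
  · exact (h1 x hx).le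

/-- the levels decrease strictly: different vertices have different levels -/
theorem Pth.lev_inj (hc : Chd G h lev ch) (hp : Pth h ch v l z) :
    ∀ x ∈ l, ∀ y ∈ l, lev x = lev y → x = y := by
  induction hp with
  | hub v _ =>
    intro x hx y hy _
    rw [List.mem_singleton.1 hx, List.mem_singleton.1 hy]
  | cons v x l z hx hp ih =>
    have h1 : ∀ a ∈ l, lev a < lev v := fun a ha =>
      (hp.lev_le hc a ha).trans_lt (hc.lt v x hx)
    intro a ha b hb hab
    rcases List.mem_cons.1 ha with ha' | ha'
    · rcases List.mem_cons.1 hb with hb' | hb'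
      · rw [ha', hb']
      · have := h1 b hb'
        rw [ha'] at hab
        omega
    · rcases List.mem_cons.1 hb with hb' | hb'
      · have := h1 a ha'
        rw [hb'] at hab
        omega
      · exact ih a ha' b hb' hab

theorem Pth.nodup (hc : Chd G h lev ch) (hp : Pth h ch v l z) : l.Nodup := by
  induction hp with
  | hub v _ => exact List.nodup_singleton v
  | cons v x l z hx hp ih =>
    rw [List.nodup_cons]
    refine ⟨fun hv => ?_, ih⟩
    have h1 := hp.lev_le hc v hv
    have h2 := hc.lt v x hx
    omega

theorem Pth.chain (hc : Chd G h lev ch) (hp : Pth h ch v l z) : l.IsChain G.Adj := by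
  induction hp with
  | hub v _ => exact List.isChain_singleton v
  | cons v x l z hx hp ih =>
    obtain ⟨t, rfl⟩ := hp.head
    rw [List.isChain_cons_cons]
    exact ⟨hc.adj v x hx, ih⟩

/-- Proof: `vec_cons`, `ev` vanishes outside the hubs. -/
theorem Pth.vec_eq (hc : Chd G h lev ch) (hp : Pth h ch v l z) : vec h l = ev h z := by
  induction hp with
  | hub v _ =>
    unfold vec
    rw [List.map_singleton, List.sum_singleton]
  | cons v x l z hx hp ih =>
    have hv : h v = none := by
      by_contra hne
      rw [hc.hub v hne] at hx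
      exact absurd hx (Finset.notMem_empty _)
    have h1 : ev h v = 0 := by
      unfold ev
      rw [hv]
    have h2 : vec h (v :: l) = ev h v + vec h l := by
      unfold vec
      rw [List.map_cons, List.sum_cons]
    rw [h2, h1, zero_add, ih]

/-- a vertex of the chain whose child is on the chain: the child is the next vertex.
Proof: two children `x`, `x'` of `y` on the chain are not the first vertex (their level is smaller than that of `y`); by `Pth.par` the
chain is determined: by induction on the chain. -/
theorem Pth.next (hc : Chd G h lev ch) (hp : Pth h ch v l z) {x x' y : V} (hx : x ∈ l)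
    (hx' : x' ∈ l) (hy : y ∈ l) (h1 : x ∈ ch y) (h2 : x' ∈ ch y) : x = x' := by
  induction hp with
  | hub v _ => rw [List.mem_singleton.1 hx, List.mem_singleton.1 hx']
  | cons v x0 l z hx0 hp ih =>
    have hlt : ∀ a ∈ l, lev a < lev v := fun a ha =>
      (hp.lev_le hc a ha).trans_lt (hc.lt v x0 hx0)
    have hin : ∀ a ∈ v :: l, a ∈ ch y → a ∈ l := by
      intro a ha hay
      rcases List.mem_cons.1 ha with rfl | ha
      · exfalso
        have h3 := hc.lt y a hay
        rcases List.mem_cons.1 hy with rfl | hy
        · exact lt_irrefl _ h3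
        · have := hlt y hy
          omega
      · exact ha
    have hxl := hin x hx h1
    have hxl' := hin x' hx' h2
    rcases List.mem_cons.1 hy with rfl | hy
    · have hfst : ∀ a ∈ l, a ∈ ch y → a = x0 := by
        intro a ha hay
        by_contra hne
        have hat : a ∈ l.tail := by
          obtain ⟨t, rfl⟩ := hp.head
          rcases List.mem_cons.1 ha with h3 | h3
          · exact absurd h3 hne
          · exact h3
        obtain ⟨y', hy', hy2⟩ := hp.par a hat
        have h3 := hc.uniq y y' a hay hy2
        subst h3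
        exact lt_irrefl _ (hlt y hy')
      rw [hfst x hxl h1, hfst x' hxl' h2]
    · exact ih hxl hxl' hy

/-- the predecessor of a vertex of the chain which is not the first one -/
theorem Pth.pred (hc : Chd G h lev ch) (hp : Pth h ch v l z) {x y : V} (hx : x ∈ l) (hxv : x ≠ v)
    (hy : x ∈ ch y) : y ∈ l := by
  have hxt : x ∈ l.tail := by
    obtain ⟨t, rfl⟩ := hp.head
    rcases List.mem_cons.1 hx with h1 | h1
    · exact absurd h1 hxv
    · exact h1
  obtain ⟨y', hy', hy2⟩ := hp.par x hxt
  rwa [hc.uniq y y' x hy hy2]

/-- Proof: a common vertex; go up by the unique parents (`Pth.pred`): take a common vertex `x` of largest level;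
it is `v` or `v'` since otherwise its parent is on both chains. -/
theorem Pth.disj (hc : Chd G h lev ch) (hp : Pth h ch v l z) (hq : Pth h ch v' l' z')
    (h1 : v' ∉ l) (h2 : v ∉ l') : ∀ x ∈ l, x ∉ l' := by
  have key : ∀ (n : ℕ) (x : V), lev v - lev x ≤ n → x ∈ l → x ∉ l' := by
    intro n
    induction n with
    | zero =>
      intro x hn hx hx'
      have hxv : x ≠ v := fun h0 => h2 (h0 ▸ hx')
      have h3 : lev x = lev v := by
        have := hp.lev_le hc x hx
        omega
      exact hxv (hp.lev_inj hc x hx v hp.mem_start h3)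
    | succ n ih =>
      intro x hn hx hx'
      have hxv : x ≠ v := fun h0 => h2 (h0 ▸ hx')
      have hxv' : x ≠ v' := fun h0 => h1 (h0 ▸ hx)
      have hxt : x ∈ l.tail := by
        obtain ⟨t, rfl⟩ := hp.head
        rcases List.mem_cons.1 hx with h3 | h3
        · exact absurd h3 hxv
        · exact h3
      obtain ⟨y, hy, hy2⟩ := hp.par x hxt
      have h3 := hc.lt y x hy2
      have h4 := hp.lev_le hc y hy
      exact ih y (by omega) hy (hq.pred hc hx' hxv' hy2)
  exact fun x hx => key _ x le_rfl hx

/-- Proof: strong induction on the level of `v`: a vertex outside the hubs has a child outside `Z`. -/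
theorem Pth.exists_avoid (hc : Chd G h lev ch) (Z : Finset V)
    (hZ : ∀ y, y ∉ Z → (ch y ∩ Z).card < 20) (v : V) (hv : v ∉ Z) :
    ∃ l z, Pth h ch v l z ∧ ∀ x ∈ l, x ∉ Z := by
  obtain ⟨n, hn⟩ : ∃ n, lev v ≤ n := ⟨_, le_rfl⟩
  induction n using Nat.strong_induction_on generalizing v with
  | _ n ih =>
    by_cases hh : h v = none
    · have h1 : ∃ x ∈ ch v, x ∉ Z := by
        by_contra hcon
        push Not at hcon
        have h2 : ch v ∩ Z = ch v := Finset.inter_eq_left.2 hcon
        have h3 := hZ v hv
        rw [h2, hc.card v hh] at h3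
        exact lt_irrefl _ h3
      obtain ⟨x, hx, hxZ⟩ := h1
      have h2 := hc.lt v x hx
      obtain ⟨l, z, hp, hl⟩ := ih (lev x) (by omega) x hxZ le_rfl
      refine ⟨v :: l, z, Pth.cons v x l z hx hp, ?_⟩
      intro a ha
      rcases List.mem_cons.1 ha with rfl | ha
      · exact hv
      · exact hl a ha
    · refine ⟨[v], v, Pth.hub v hh, ?_⟩
      intro a ha
      rw [List.mem_singleton.1 ha]
      exact hv

end fin

end Pool.Agent.RamV
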