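import Pool.Agent.Lib.MP_078aef_co_v.GlI
import Pool.Agent.Lib.MP_078aef_co_h.Ram

/-! Sizes in critical graphs. -/

namespace Pool.Agent.RamV

open Finset Pool.Agent.RamseyHam Pool.Agent.RamQ Pool.Agent.RamH

/-- the largest order of a graph without `K_k` and with independence number at most `a` -/
def NN (R : ℕ → ℕ) (a : ℕ) : ℕ := if a = 0 then 0 else R (a + 1) - 1

private theorem ramC_mono {k p q : ℕ} {R : ℕ → ℕ} (hR : ∀ p, 2 ≤ p → IsRam k p (R p))
    (hp : 2 ≤ p) (hpq : p ≤ q) : R p ≤ R q := by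
  obtain ⟨H, hH⟩ := (hR p hp).lower
  have h1 := (hR q (hp.trans hpq)).card_lt (hH.mono hpq)
  have h2 := (hR p hp).pos
  rw [Fintype.card_fin] at h1
  omega

/-- Proof: `R` increases (private lemma ram_mono in Lib/MP_078aef_co_h/Ram.lean). -/
theorem NN_mono {k : ℕ} {R : ℕ → ℕ} (hR : ∀ p, 2 ≤ p → IsRam k p (R p)) : Monotone (NN R) := by
  intro a b hab
  unfold NN
  rcases Nat.eq_zero_or_pos a with ha | ha
  · rw [if_pos ha]
    exact Nat.zero_le _
  · rw [if_neg (by omega), if_neg (by omega)]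
    have := ramC_mono hR (show 2 ≤ a + 1 by omega) (show a + 1 ≤ b + 1 by omega)
    omega

/-- a set of vertices with independence number `a` has fewer than `R(k, a+1)` vertices -/
private theorem ramC_card {V : Type*} [Fintype V] [DecidableEq V] {G : SimpleGraph V} {k s : ℕ}
    {R : ℕ → ℕ} (h : Crit k s G R) {D : Finset V} (hD : D.Nonempty) :
    D.card + 1 ≤ R (al G D + 1) := by
  have hKS : KS k (al G D + 1) (SimpleGraph.comap (Subtype.val : {x // x ∈ D} → V) G) := by
    refine ⟨h.ks.1.comap (SimpleGraph.Embedding.comap ⟨_, Subtype.val_injective⟩ G).isContained,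
      ?_⟩
    intro Q hQ
    have hQD : Q.map ⟨Subtype.val, Subtype.val_injective⟩ ⊆ D := by
      intro x hx
      obtain ⟨y, hy, rfl⟩ := mem_map.mp hx
      exact y.2
    have hind : Ind G (Q.map ⟨Subtype.val, Subtype.val_injective⟩) := by
      apply ind_of_clique
      intro x hx y hy hxy
      simp only [coe_map, Function.Embedding.coeFn_mk, Set.mem_image, mem_coe] at hx hy
      obtain ⟨x', hx', rfl⟩ := hx
      obtain ⟨y', hy', rfl⟩ := hy
      have h1 := hQ.isClique hx' hy' (fun h => hxy (by rw [h]))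
      rw [SimpleGraph.compl_adj] at h1 ⊢
      exact ⟨hxy, fun h => h1.2 h⟩
    have h1 := hind.card_le_al hQD
    rw [card_map, hQ.card_eq] at h1
    omega
  have h1 := al_pos (G := G) hD
  have h2 := (h.ram (al G D + 1) (by omega)).card_lt hKS
  simp only [Fintype.card_coe] at h2
  omega

/-- Proof: private lemma card_lt_ram in Lib/MP_078aef_co_h/Ram.lean. -/
theorem crit_big {V : Type*} [Fintype V] [DecidableEq V] {G : SimpleGraph V} {k s : ℕ}
    {R : ℕ → ℕ} (h : Crit k s G R) (U : Finset V) : U.card ≤ NN R (al G U) := by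
  rcases U.eq_empty_or_nonempty with hU | hU
  · rw [hU, card_empty]
    exact Nat.zero_le _
  · have h1 := ramC_card h hU
    have h2 := al_pos (G := G) hU
    unfold NN
    rw [if_neg (by omega)]
    omega

/-- Proof: the theorem upper in Lib/MP_078aef_co/Upper.lean with `l = x + 1`: a `KS k (x+1)` graph
has fewer than `C(k + x - 1, k - 1)` vertices; `C(n, j) ≤ n ^ j` (Nat.choose_le_pow or similar) and
`C(k+x-1,k-1) = C(k+x-1,x)`. -/
theorem NN_up {k : ℕ} (hk : 3 ≤ k) {R : ℕ → ℕ} (hR : ∀ p, 2 ≤ p → IsRam k p (R p)) (x : ℕ) :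
    NN R x ≤ (k + x) ^ k ∧ NN R x ≤ (k + x) ^ x := by
  rcases Nat.eq_zero_or_pos x with hx | hx
  · unfold NN
    rw [if_pos hx]
    exact ⟨Nat.zero_le _, Nat.zero_le _⟩
  obtain ⟨H, hH⟩ := (hR (x + 1) (by omega)).lower
  have h1 : R (x + 1) - 1 < (k + (x + 1) - 2).choose (k - 1) := by
    by_contra hcon
    have h2 : (k + (x + 1) - 2).choose (k - 1) ≤
        (univ : Finset (Fin (R (x + 1) - 1))).card := by
      rw [card_univ, Fintype.card_fin]
      exact not_lt.1 hcon
    rcases upper H (show 1 ≤ k by omega) (show 1 ≤ x + 1 by omega) univ h2 with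
      ⟨Q, -, hQ⟩ | ⟨Q, -, hQ⟩
    · exact hH.1 Q hQ
    · exact hH.2 Q hQ
  have h3 : NN R x = R (x + 1) - 1 := if_neg (by omega)
  have h4 : (k + (x + 1) - 2).choose (k - 1) = (k + (x + 1) - 2).choose x := by
    rw [← Nat.choose_symm (show k - 1 ≤ k + (x + 1) - 2 by omega)]
    congr 1
    omega
  have h5 : (k + (x + 1) - 2).choose (k - 1) ≤ (k + x) ^ k := by
    calc (k + (x + 1) - 2).choose (k - 1) ≤ (k + (x + 1) - 2) ^ (k - 1) :=
          Nat.choose_le_pow _ _
      _ ≤ (k + x) ^ (k - 1) := Nat.pow_le_pow_left (by omega) _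
      _ ≤ (k + x) ^ k := Nat.pow_le_pow_right (by omega) (by omega)
  have h6 : (k + (x + 1) - 2).choose x ≤ (k + x) ^ x := by
    calc (k + (x + 1) - 2).choose x ≤ (k + (x + 1) - 2) ^ x := Nat.choose_le_pow _ _
      _ ≤ (k + x) ^ x := Nat.pow_le_pow_left (by omega) _
  rw [h3]
  refine ⟨by omega, ?_⟩
  rw [h4] at h1
  omega

end Pool.Agent.RamV
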