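import Pool.Agent.Lib.MP_078aef_co_v.RamC

/-! The lower bound for the Ramsey numbers. -/

namespace Pool.Agent.RamV

open Finset Pool.Agent.RamseyHam Pool.Agent.RamQ Pool.Agent.RamH

private theorem raml_log (l : ℕ) : 174 + 58 * (28 + l + 1) ≤ 2 ^ (28 + l) := by
  induction l with
  | zero => norm_num
  | succ l ih =>
    have h : 2 ^ (28 + (l + 1)) = 2 * 2 ^ (28 + l) := by rw [← add_assoc, pow_succ, mul_comm]
    omega

private theorem raml_pow {n : ℕ} (hn : 2 ^ 28 ≤ n) : 2 ^ 174 * n ^ 58 ≤ 2 ^ n := by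
  have hn0 : n ≠ 0 := by
    intro h
    rw [h] at hn
    norm_num at hn
  have h1 : 28 ≤ Nat.log 2 n := Nat.le_log_of_pow_le (by norm_num) hn
  obtain ⟨l, hl⟩ := Nat.exists_eq_add_of_le h1
  have h2 : n < 2 ^ (28 + l + 1) := by
    rw [← hl]
    exact Nat.lt_pow_succ_log_self (by norm_num) n
  have h3 : 2 ^ (28 + l) ≤ n := by
    rw [← hl]
    exact Nat.pow_log_le_self 2 hn0
  calc 2 ^ 174 * n ^ 58 ≤ 2 ^ 174 * (2 ^ (28 + l + 1)) ^ 58 :=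
        Nat.mul_le_mul_left _ (Nat.pow_le_pow_left h2.le 58)
    _ = 2 ^ (174 + 58 * (28 + l + 1)) := by rw [← pow_mul, ← pow_add, mul_comm 58]
    _ ≤ 2 ^ n := Nat.pow_le_pow_right (by norm_num) ((raml_log l).trans h3)

/-- the choice of `m` -/
private theorem raml_m {n q : ℕ} (hn : 1 ≤ n) (hq : 2 * n ≤ q) : ∃ m, 1 ≤ m ∧
    2 ^ m * (m * n) ≤ q ∧ q < 2 ^ (m + 1) * ((m + 1) * n) := by
  obtain ⟨m, hm⟩ : ∃ m, m = Nat.findGreatest (fun m => 2 ^ m * (m * n) ≤ q) q := ⟨_, rfl⟩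
  have h1 : 1 ≤ m := by
    rw [hm]
    refine Nat.le_findGreatest (by omega) ?_
    rw [pow_one, one_mul]
    exact hq
  have h2 : 2 ^ m * (m * n) ≤ q := by
    have h3 := Nat.findGreatest_spec (P := fun m => 2 ^ m * (m * n) ≤ q) (m := 0) (n := q)
      (Nat.zero_le _) (by simp)
    rw [← hm] at h3
    exact h3
  refine ⟨m, h1, h2, ?_⟩
  by_contra hcon
  rw [not_lt] at hcon
  have h4 : m + 1 ≤ 2 ^ (m + 1) * ((m + 1) * n) := by
    calc m + 1 = 1 * ((m + 1) * 1) := by ring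
      _ ≤ 2 ^ (m + 1) * ((m + 1) * n) :=
        Nat.mul_le_mul Nat.one_le_two_pow (Nat.mul_le_mul_left _ hn)
  have h5 := Nat.findGreatest_is_greatest (P := fun m => 2 ^ m * (m * n) ≤ q) (n := q)
    (k := m + 1) (by rw [← hm]; exact Nat.lt_succ_self m) (h4.trans hcon)
  exact h5 hcon

private theorem raml_num {n m q : ℕ} (hn : 2 ^ 28 ≤ n) (hm : 1 ≤ m)
    (hq : q < 2 ^ (m + 1) * ((m + 1) * n)) : (q ^ 29) ^ 2 ≤ 2 ^ (m * n) := by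
  have hn1 : 1 ≤ n := le_trans Nat.one_le_two_pow hn
  have h1 : m + 1 ≤ 2 ^ m := Nat.lt_two_pow_self
  have h2 : q ≤ 2 ^ (3 * m) * n := by
    calc q ≤ 2 ^ (m + 1) * ((m + 1) * n) := hq.le
      _ ≤ 2 ^ (m + 1) * (2 ^ m * n) := Nat.mul_le_mul_left _ (Nat.mul_le_mul_right _ h1)
      _ = 2 ^ (2 * m + 1) * n := by
        rw [← mul_assoc, ← pow_add]
        congr 2
        ring
      _ ≤ 2 ^ (3 * m) * n :=
        Nat.mul_le_mul_right _ (Nat.pow_le_pow_right (by norm_num) (by omega))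
  have h3 : n ^ 58 ≤ (n ^ 58) ^ m := by
    calc n ^ 58 = (n ^ 58) ^ 1 := (pow_one _).symm
      _ ≤ (n ^ 58) ^ m := Nat.pow_le_pow_right (Nat.pow_pos hn1) hm
  calc (q ^ 29) ^ 2 = q ^ 58 := by rw [← pow_mul]
    _ ≤ (2 ^ (3 * m) * n) ^ 58 := Nat.pow_le_pow_left h2 58
    _ = (2 ^ 174) ^ m * n ^ 58 := by
      rw [mul_pow, ← pow_mul, ← pow_mul]
      congr 2
      ring
    _ ≤ (2 ^ 174) ^ m * (n ^ 58) ^ m := Nat.mul_le_mul_left _ h3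
    _ = (2 ^ 174 * n ^ 58) ^ m := (mul_pow _ _ _).symm
    _ ≤ (2 ^ n) ^ m := Nat.pow_le_pow_left (raml_pow hn) m
    _ = 2 ^ (m * n) := by rw [← pow_mul, mul_comm]

private theorem raml_exists {k q : ℕ} (hk : 2 ^ 100 ≤ k) (hq : 2 ^ 28 ≤ q) :
    ∃ H : SimpleGraph (Fin (q ^ 29)), KS k (q + 1) H := by
  have hq3 : 3 ≤ q := le_trans (by norm_num) hq
  have hk1 : 2 ^ 28 + 1 ≤ k := le_trans (by norm_num) hk
  have hk3 : 3 ≤ k := le_trans (by norm_num) hk1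
  by_cases h1 : q + 1 ≤ k
  · have h2 : (q ^ 29) ^ 2 ≤ 2 ^ (q + 1) := by
      calc (q ^ 29) ^ 2 = 1 * q ^ 58 := by rw [← pow_mul, one_mul]
        _ ≤ 2 ^ 174 * q ^ 58 := Nat.mul_le_mul_right _ Nat.one_le_two_pow
        _ ≤ 2 ^ q := raml_pow hq
        _ ≤ 2 ^ (q + 1) := Nat.pow_le_pow_right (by norm_num) (Nat.le_succ q)
    obtain ⟨H, h3, h4⟩ := erdos (q + 1) (q ^ 29) (by omega) h2
    exact ⟨H, h3.mono h1, h4⟩
  · have hn : 2 ^ 28 ≤ k - 1 := by omega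
    by_cases h2 : 2 * (k - 1) ≤ q
    · obtain ⟨m, hm, h3, h4⟩ := raml_m (n := k - 1) (by omega) h2
      obtain ⟨H, h5, h6⟩ := rand (k := k) (m := m) (N := q ^ 29) hk3 hm (raml_num hn hm h4)
      exact ⟨H, h5, h6.mono (Nat.succ_le_succ h3)⟩
    · have h3 : (q ^ 29) ^ 2 ≤ 2 ^ k := by
        calc (q ^ 29) ^ 2 = q ^ 58 := by rw [← pow_mul]
          _ ≤ (2 * (k - 1)) ^ 58 := Nat.pow_le_pow_left (by omega) 58
          _ = 2 ^ 58 * (k - 1) ^ 58 := mul_pow _ _ _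
          _ ≤ 2 ^ 174 * (k - 1) ^ 58 :=
            Nat.mul_le_mul_right _ (Nat.pow_le_pow_right (by norm_num) (by norm_num))
          _ ≤ 2 ^ (k - 1) := raml_pow hn
          _ ≤ 2 ^ k := Nat.pow_le_pow_right (by norm_num) (Nat.sub_le k 1)
      obtain ⟨H, h4, h5⟩ := erdos k (q ^ 29) hk3 h3
      exact ⟨H, h4, h5.mono (by omega)⟩

/-- Proof.  (1) `q ≤ k - 1`: the theorem erdos (Lib/MP_078aef_co/Lower.lean) for `q + 1`: a graph on `M` vertices,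
`M ^ 2 ≤ 2 ^ (q+1)`, without clique and independent set of size `q + 1`; so `KS k (q+1)`. Take `M = 2 ^ ((q+1)/2)`
(floor), and `2 ^ ((q+1)/2) ≥ q ^ 29` for `q ≥ 2 ^ 28` (for example `2 ^ (n/2) ≥ n ^ 30` for `n ≥ 2 ^ 10` by
induction in steps, or `q < 2 ^ (log + 1)`).
(2) `q ≥ k`: let `m ≥ 1` be maximal with `2 ^ m * (m * (k-1)) ≤ q` if `2 * (k - 1) ≤ q`, then `q < 2 ^ (m+1) * ((m+1) * (k-1))`
and rand (Lib/MP_078aef_co_q/Rand.lean) with `M = 2 ^ (m * (k-1) / 2)` gives a `KS k (q+1)` graph;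
`q ^ 29 ≤ (2 ^ (m+1) * (m+1) * (k-1)) ^ 29 ≤ 2 ^ (29 * (2 * m + 2 + log k)) ≤ 2 ^ (m * (k-1)/2)` as `k ≥ 2 ^ 100`.
If `k ≤ q < 2 (k-1)`: (1) for `q' = k - 1` and `q ^ 29 ≤ (2 k) ^ 29 ≤ 2 ^ (k/2)`.
In all cases a graph `H : SimpleGraph (Fin M)` with `KS k (q+1) H`, `q ^ 29 ≤ M`, so `M < R (q+1)`. -/
theorem NN_low {k q : ℕ} (hk : 2 ^ 100 ≤ k) {R : ℕ → ℕ} (hR : ∀ p, 2 ≤ p → IsRam k p (R p))
    (hq : 2 ^ 28 ≤ q) : q ^ 29 ≤ NN R q := by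
  have hq0 : q ≠ 0 := by
    intro h
    rw [h] at hq
    norm_num at hq
  obtain ⟨H, hH⟩ := raml_exists hk hq
  have h1 := (hR (q + 1) (by omega)).card_lt hH
  rw [Fintype.card_fin] at h1
  unfold NN
  rw [if_neg hq0]
  omega

end Pool.Agent.RamV
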