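import Pool.Agent.Lib.MP_078aef_co_v.Spa
import Pool.Agent.Lib.MP_078aef_co_v.FolB

/-! The rerouting lemma. -/

namespace Pool.Agent.RamV

open Finset Pool.Agent.RamseyHam Pool.Agent.RamQ Pool.Agent.RamH

variable {V : Type*} [Fintype V] [DecidableEq V] {m r : ℕ} {G : SimpleGraph V}
  {h : V → Option (Fin m)} {ch : V → Finset V} {lev : V → ℕ} {I Es : Finset (El V r)}

omit [Fintype V] [DecidableEq V] in
private theorem mem_head_tail {v z x : V} {l : List V} (hp : Pth h ch v l z) (hx : x ∈ l) :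
    x = v ∨ x ∈ l.tail := by
  obtain ⟨t, ht⟩ := hp.head
  subst ht
  simpa using hx

/-- a vertex of the new element on an occupant is a port of the new element -/
private theorem port_of_mem {D : Finset V} {v v' z z' x : V} {p q : List V}
    (hp : Gc h ch (Aa ch I Es D) v p z) (hq : Gc h ch (Aa ch I Es D) v' q z')
    (hx : x ∈ Aa ch I Es D) (hW : x ∈ p.toFinset ∪ q.toFinset) : x = v ∨ x = v' := by
  rcases mem_union.mp hW with h1 | h1
  · rcases mem_head_tail hp.1 (List.mem_toFinset.mp h1) with h2 | h2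
    · exact Or.inl h2
    · exact absurd hx (hp.2 x h2)
  · rcases mem_head_tail hq.1 (List.mem_toFinset.mp h1) with h2 | h2
    · exact Or.inr h2
    · exact absurd hx (hq.2 x h2)

/-- the end of a rerouted chain is equivalent to the end of the chain -/
private theorem rr_end {c : V → V} {W : Finset V} {n θ : ℕ} (hlow : Low h lev ch I Es θ)
    {x w w1 : V} {l : List V} (hp : Pth h ch x l w) (hp1 : Pth h ch x (rr h c c W n l) w1)
    (hW : ∀ y ∈ l, y ∈ W → ∀ u, y ∈ ch u → lev u ≤ θ)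
    (h4 : rr h c c W n l = l ∨
        ∃ u ∈ l, ∃ y ∈ l, y ∈ W ∧ y ∈ ch u ∧ lev w < lev u ∧ lev w1 < lev u) (j : Fin r) :
    Eqv h ch I Es j w1 w := by
  rcases h4 with h4 | ⟨u, -, y, hy, hyW, hyu, h5, h6⟩
  · rw [h4] at hp1
    have h7 := hp.last
    rw [hp1.last] at h7
    have h8 : w1 = w := Option.some.inj h7
    rw [h8]
    exact Eqv.refl _
  · have h7 := hW y hy hyW u hyu
    exact hlow w1 w hp1.hub_end hp.hub_end (by omega) (by omega) j

private theorem zmod_aux : ∀ a b c d : ZMod 2, (a + b) - (c + d) = (a + c) + (b + d) := by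
  decide

/-- the rerouting -/
private noncomputable def rho (h : V → Option (Fin m)) (ch : V → Finset V) (c : V → V)
    (W : Finset V) (n : ℕ) (I Es : Finset (El V r)) (f : El V r) : El V r := by
  classical exact if f ∈ Oc ch I Es then
    ⟨rr h c c W n f.p, rr h c c W n f.q, f.t, f.u, f.j⟩ else f

private theorem rho_pos {c : V → V} {W : Finset V} {n : ℕ} {f : El V r} (hf : f ∈ Oc ch I Es) :
    rho h ch c W n I Es f = ⟨rr h c c W n f.p, rr h c c W n f.q, f.t, f.u, f.j⟩ := by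
  unfold rho
  rw [if_pos hf]

private theorem rho_neg {c : V → V} {W : Finset V} {n : ℕ} {f : El V r} (hf : f ∉ Oc ch I Es) :
    rho h ch c W n I Es f = f := by
  unfold rho
  rw [if_neg hf]

/-- what is known about a rerouted occupant -/
private structure RF (h : V → Option (Fin m)) (ch : V → Finset V) (c : V → V)
    (W Z : Finset V) (n : ℕ) (I Es : Finset (El V r)) (l : List V) (x w w1 : V) : Prop where
  p : Pth h ch x (rr h c c W n l) w1
  av : ∀ a ∈ rr h c c W n l, a ∉ W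
  s3 : ∀ a ∈ rr h c c W n l, a ∈ l ∨ a ∉ Z
  eqv : ∀ j : Fin r, Eqv h ch I Es j w1 w
  s5 : ∀ a ∈ rr h c c W n l, a ∉ l →
        (∃ y ∈ rr h c c W n l, y ∉ l ∧ a ∈ ch y) ∨ ∃ u ∈ l, u ∉ W ∧ a ∈ ch u ∧ a = c u

private theorem tk_congr {f f' : El V r} {x x' w w' w1 w1' : V} (h1 : Ok G h ch f x x' w w')
    (h2 : Ok G h ch f' x x' w1 w1') (ht : f'.t = f.t) (hu : f'.u = f.u) : tk ch f' = tk ch f := by
  ext c
  rw [h1.mem_tk, h2.mem_tk, ht, hu]

/-- Proof. tokens_exist gives `t`, `u`; `g = ⟨p, q, t, u, j⟩`, `W = p.toFinset ∪ q.toFinset = vs g`, `Z = Ov (I ∪ Es) ∪ W`, spare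
gives `c`; `n` = a bound for the levels.  `ρ f = f` for `f` outside `Oc ch I Es`, and for `f ∈ Oc ch I Es`:
`ρ f = {f with p := rr h c c W n f.p, q := rr h c c W n f.q}`.
A member of `W` in `Ov (Oc ch I Es)` is `v` or `v'` (the other ones are outside `Aa`), and `v`, `v'` are not in `D`, so no port of an
occupant is in `W`; if `y ∈ W` is on an occupant and `y ∈ ch u` then `lev u ≤ θ` (`y ∉ Xt`).
rr_spec for both chains of `f`; rr_disj for the two chains of `f` (they are disjoint) and for the chains of two disjoint members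
of `I ∪ Es`.
fix: a member of `I \ Bl` is not in `Es`. occ: the ends of a changed chain have levels `< lev u ≤ θ`, so by `Low` the vector changes by
a member of `S0`; the heads and so the tokens (`tk`) do not change; `vs (ρ f)` is disjoint from `W`. disj: new vertices are
outside `Z`. new: `vc h g = Pi.single j (ev h z + ev h z')` (Pth.vec_eq). -/
theorem reroute (hc : Chd G h lev ch) (hS : Sit G h ch I Es) {E : Finset (El V r)}
    (hE : ∀ e, e ∈ E ↔ IsEl G h ch e) {D : Finset V} (hD : Cld ch (Oc ch I Es) D) {θ : ℕ}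
    (hlow : Low h lev ch I Es θ) {v v' z z' : V} {p q : List V}
    (hp : Gc h ch (Aa ch I Es D) v p z) (hq : Gc h ch (Aa ch I Es D) v' q z')
    (hv : v ∉ Xt ch lev (Oc ch I Es) D θ) (hv' : v' ∉ Xt ch lev (Oc ch I Es) D θ)
    (hadj : G.Adj v v') (hd : ∀ x ∈ p, x ∉ q) {j : Fin r} (hnew : ¬ Eqv h ch I Es j z z') :
    ∃ (ρ : El V r → El V r) (g : El V r), Rer (ZMod 2) E (vt ch) (vc h) I Es ρ g := by
  classical
  have hXt : ∀ x, x ∉ Xt ch lev (Oc ch I Es) D θ → x ∉ D ∧
      (x ∈ Ov (Oc ch I Es) → ∀ u, x ∈ ch u → lev u ≤ θ) := by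
    intro x hx
    unfold Xt at hx
    rw [mem_union, mem_filter, not_or] at hx
    refine ⟨hx.1, fun h1 u hu => ?_⟩
    by_contra hlt
    exact hx.2 ⟨h1, u, hu, by omega⟩
  have hvD := (hXt v hv).1
  have hvD' := (hXt v' hv').1
  obtain ⟨t, u, htu, ht, hu⟩ := tokens_exist hc hD hvD hvD'
  obtain ⟨c, c2, hcc, hcs⟩ := spare hc hS hp.1 hq.1
  set W : Finset V := p.toFinset ∪ q.toFinset with hWdef
  set Z : Finset V := Ov (I ∪ Es) ∪ W with hZdef
  have h1 : ∀ y, h y = none → c y ∈ ch y := fun y hy => (hcc y hy).1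
  have g1 : ∀ y, h y = none → y ∉ W → c y ∉ Z := fun y hy hyW => (hcs y hy hyW).2.1
  have hWZ : W ⊆ Z := subset_union_right
  obtain ⟨n, hn⟩ : ∃ n, ∀ y, lev y ≤ n := ⟨univ.sup lev, fun y => le_sup (mem_univ y)⟩
  have hOcT : Oc ch I Es ⊆ I ∪ Es := by
    intro f hf
    unfold Oc at hf
    rcases mem_union.mp hf with h2 | h2
    · unfold Bl at h2
      exact mem_union_left _ (mem_filter.mp h2).1
    · exact mem_union_right _ h2
  have hg : Ok G h ch (⟨p, q, t, u, j⟩ : El V r) v v' z z' := ⟨hp.1, hq.1, hadj, hd, htu⟩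
  have hgW : vs (⟨p, q, t, u, j⟩ : El V r) = W := rfl
  -- vertices of members of `I ∪ Es` are in `Z`
  have hfZ : ∀ f ∈ I ∪ Es, ∀ x ∈ vs f, x ∈ Z := fun f hf x hx =>
    mem_union_left _ (mem_biUnion.mpr ⟨f, hf, hx⟩)
  have hAa : ∀ f ∈ Oc ch I Es, ∀ x ∈ vs f, x ∈ Aa ch I Es D := fun f hf x hx =>
    mem_union_right _ (mem_biUnion.mpr ⟨f, hf, hx⟩)
  -- ports of occupants are not in `W`
  have hport : ∀ x ∈ D, x ∉ W := by
    intro x hx hxW
    rcases port_of_mem hp hq (mem_union_left _ hx) hxW with h2 | h2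
    · exact hvD (h2 ▸ hx)
    · exact hvD' (h2 ▸ hx)
  have hlevW : ∀ f ∈ Oc ch I Es, ∀ x ∈ vs f, x ∈ W → ∀ a, x ∈ ch a → lev a ≤ θ := by
    intro f hf x hx hxW a ha
    have h3 : x ∈ Ov (Oc ch I Es) := mem_biUnion.mpr ⟨f, hf, hx⟩
    rcases port_of_mem hp hq (hAa f hf x hx) hxW with h2 | h2
    · exact (hXt x (h2 ▸ hv)).2 h3 a ha
    · exact (hXt x (h2 ▸ hv')).2 h3 a ha
  -- the chains of occupants
  have key : ∀ (l : List V) (x w : V), Pth h ch x l w → x ∈ D → (∀ a ∈ l, a ∈ Z) →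
      (∀ a ∈ l, a ∈ W → ∀ b, a ∈ ch b → lev b ≤ θ) →
      ∃ w1, RF h ch c W Z n I Es l x w w1 := by
    intro l x w hl hx hlZ hlev
    obtain ⟨w1, e1, e2, e3, e4, e5⟩ := rr_spec hc h1 h1 hWZ g1 g1 hn hl hlZ (hport x hx)
    exact ⟨w1, e1, e2, e3, fun j' => rr_end hlow hl e1 hlev e4 j', e5⟩
  have keyf : ∀ f ∈ Oc ch I Es, ∃ x x' w w' w1 w1', Ok G h ch f x x' w w' ∧
      RF h ch c W Z n I Es f.p x w w1 ∧ RF h ch c W Z n I Es f.q x' w' w1' := by
    intro f hf
    obtain ⟨x, x', w, w', hok⟩ := hS.okO f hf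
    have hxD : x ∈ D := hD.pts f hf (hok.mem_pts.mpr (Or.inl rfl))
    have hxD' : x' ∈ D := hD.pts f hf (hok.mem_pts.mpr (Or.inr rfl))
    obtain ⟨w1, h3⟩ := key f.p x w hok.p hxD
      (fun a ha => hfZ f (hOcT hf) a (mem_vs.mpr (Or.inl ha)))
      (fun a ha => hlevW f hf a (mem_vs.mpr (Or.inl ha)))
    obtain ⟨w1', h4⟩ := key f.q x' w' hok.q hxD'
      (fun a ha => hfZ f (hOcT hf) a (mem_vs.mpr (Or.inr ha)))
      (fun a ha => hlevW f hf a (mem_vs.mpr (Or.inr ha)))
    exact ⟨x, x', w, w', w1, w1', hok, h3, h4⟩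
  -- new vertices of two disjoint chains
  have dis2 : ∀ (l l' : List V) (x w w1 x' w' w1' : V), (∀ a ∈ l, a ∈ Z) → (∀ a ∈ l', a ∈ Z) →
      RF h ch c W Z n I Es l x w w1 → RF h ch c W Z n I Es l' x' w' w1' →
      (∀ a ∈ l, a ∉ l') → ∀ a ∈ rr h c c W n l, a ∉ rr h c c W n l' := by
    intro l l' x w w1 x' w' w1' hl hl' e1 e2 hdd a ha ha'
    by_cases hal : a ∈ l
    · rcases e2.s3 a ha' with h3 | h3
      · exact hdd a hal h3
      · exact h3 (hl a hal)
    · exact rr_disj hc hl hl' e1.s3 e2.s3 e1.s5 e2.s5 (Or.inl hdd) a ha hal ha'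
  have okrho : ∀ f ∈ Oc ch I Es, ∀ x x' w w' w1 w1', Ok G h ch f x x' w w' →
      RF h ch c W Z n I Es f.p x w w1 → RF h ch c W Z n I Es f.q x' w' w1' →
      Ok G h ch (rho h ch c W n I Es f) x x' w1 w1' := by
    intro f hf x x' w w' w1 w1' hok e1 e2
    rw [rho_pos hf]
    exact ⟨e1.p, e2.p, hok.adj, dis2 f.p f.q x w w1 x' w' w1'
      (fun a ha => hfZ f (hOcT hf) a (mem_vs.mpr (Or.inl ha)))
      (fun a ha => hfZ f (hOcT hf) a (mem_vs.mpr (Or.inr ha))) e1 e2 hok.disj, hok.tok⟩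
  have tkrho : ∀ f, tk ch (rho h ch c W n I Es f) = tk ch f := by
    intro f
    by_cases hf : f ∈ Oc ch I Es
    · obtain ⟨x, x', w, w', w1, w1', hok, e1, e2⟩ := keyf f hf
      have h3 := okrho f hf x x' w w' w1 w1' hok e1 e2
      exact tk_congr hok h3 (by rw [rho_pos hf]) (by rw [rho_pos hf])
    · rw [rho_neg hf]
  refine ⟨rho h ch c W n I Es, ⟨p, q, t, u, j⟩, ⟨?_, ?_, ?_, ?_, ?_⟩⟩
  · exact (hE _).mpr ⟨v, v', z, z', hg⟩
  · have h3 : vc h (⟨p, q, t, u, j⟩ : El V r) = Pi.single j (ev h z + ev h z') := by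
      unfold vc
      rw [hg.ve_eq hc]
    rw [h3]
    exact hnew
  · intro f hf
    obtain ⟨h3, h4⟩ := mem_sdiff.mp hf
    apply rho_neg
    unfold Oc
    rw [mem_union, not_or]
    exact ⟨h4, fun h5 => disjoint_left.mp hS.dis h3 h5⟩
  · intro f hf
    have hfO : f ∈ Oc ch I Es := hf
    obtain ⟨x, x', w, w', w1, w1', hok, e1, e2⟩ := keyf f hfO
    have h3 := okrho f hfO x x' w w' w1 w1' hok e1 e2
    refine ⟨(hE _).mpr ⟨x, x', w1, w1', h3⟩, ?_, ?_⟩
    · have h4 : vc h (rho h ch c W n I Es f) = Pi.single f.j (ev h w1 + ev h w1') := by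
        unfold vc
        rw [h3.ve_eq hc, rho_pos hfO]
      have h5 : vc h f = Pi.single f.j (ev h w + ev h w') := by
        unfold vc
        rw [hok.ve_eq hc]
      have h6 : vc h (rho h ch c W n I Es f) - vc h f =
          Pi.single f.j (ev h w1 + ev h w) + Pi.single f.j (ev h w1' + ev h w') := by
        rw [h4, h5, ← Pi.single_sub, ← Pi.single_add]
        refine congrArg _ ?_
        funext i
        exact zmod_aux _ _ _ _
      rw [h6]
      exact Submodule.add_mem _ (e1.eqv f.j) (e2.eqv f.j)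
    · rw [disj_vt]
      constructor
      · rw [hgW, disjoint_left]
        intro a haW ha
        rcases mem_vs.mp ha with h4 | h4
        · rw [rho_pos hfO] at h4
          exact e1.av a h4 haW
        · rw [rho_pos hfO] at h4
          exact e2.av a h4 haW
      · rw [tkrho, disjoint_left]
        rintro ⟨y, s⟩ ha hb
        rcases hg.mem_tk.mp ha with ⟨h4, h5⟩ | ⟨h4, h5⟩
        · simp only at h4 h5
          subst h5
          exact ht y h4 f hfO hb
        · simp only at h4 h5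
          subst h5
          exact hu y h4 f hfO hb
  · intro x hx y hy hxy
    rw [disj_vt] at hxy ⊢
    rw [tkrho, tkrho]
    refine ⟨?_, hxy.2⟩
    rw [disjoint_left]
    intro a hax hay
    -- a vertex of a rerouted element is old or outside `Z`
    have old : ∀ f ∈ I ∪ Es, a ∈ vs (rho h ch c W n I Es f) → a ∈ vs f ∨ a ∉ Z := by
      intro f hf haf
      by_cases hfO : f ∈ Oc ch I Es
      · obtain ⟨x, x', w, w', w1, w1', hok, e1, e2⟩ := keyf f hfO
        rw [rho_pos hfO, mem_vs] at haf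
        rcases haf with h4 | h4
        · rcases e1.s3 a h4 with h5 | h5
          · exact Or.inl (mem_vs.mpr (Or.inl h5))
          · exact Or.inr h5
        · rcases e2.s3 a h4 with h5 | h5
          · exact Or.inl (mem_vs.mpr (Or.inr h5))
          · exact Or.inr h5
      · rw [rho_neg hfO] at haf
        exact Or.inl haf
    by_cases haZ : a ∈ Z
    · rcases old x hx hax with h3 | h3
      · rcases old y hy hay with h4 | h4
        · exact disjoint_left.mp hxy.1 h3 h4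
        · exact h4 haZ
      · exact h3 haZ
    · have hxO : x ∈ Oc ch I Es := by
        by_contra hxO
        rw [rho_neg hxO] at hax
        exact haZ (hfZ x hx a hax)
      have hyO : y ∈ Oc ch I Es := by
        by_contra hyO
        rw [rho_neg hyO] at hay
        exact haZ (hfZ y hy a hay)
      obtain ⟨x1, x1', w, w', w1, w1', hok, e1, e2⟩ := keyf x hxO
      obtain ⟨y1, y1', b, b', b1, b1', hok', e1', e2'⟩ := keyf y hyO
      have hd2 : ∀ a ∈ vs x, a ∉ vs y := fun a h3 h4 => disjoint_left.mp hxy.1 h3 h4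
      rw [rho_pos hxO, mem_vs] at hax
      rw [rho_pos hyO, mem_vs] at hay
      have zxp : ∀ a ∈ x.p, a ∈ Z := fun a ha => hfZ x hx a (mem_vs.mpr (Or.inl ha))
      have zxq : ∀ a ∈ x.q, a ∈ Z := fun a ha => hfZ x hx a (mem_vs.mpr (Or.inr ha))
      have zyp : ∀ a ∈ y.p, a ∈ Z := fun a ha => hfZ y hy a (mem_vs.mpr (Or.inl ha))
      have zyq : ∀ a ∈ y.q, a ∈ Z := fun a ha => hfZ y hy a (mem_vs.mpr (Or.inr ha))
      rcases hax with hax | hax <;> rcases hay with hay | hay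
      · exact dis2 x.p y.p _ _ _ _ _ _ zxp zyp e1 e1'
          (fun a h3 h4 => hd2 a (mem_vs.mpr (Or.inl h3)) (mem_vs.mpr (Or.inl h4))) a hax hay
      · exact dis2 x.p y.q _ _ _ _ _ _ zxp zyq e1 e2'
          (fun a h3 h4 => hd2 a (mem_vs.mpr (Or.inl h3)) (mem_vs.mpr (Or.inr h4))) a hax hay
      · exact dis2 x.q y.p _ _ _ _ _ _ zxq zyp e2 e1'
          (fun a h3 h4 => hd2 a (mem_vs.mpr (Or.inr h3)) (mem_vs.mpr (Or.inl h4))) a hax hay
      · exact dis2 x.q y.q _ _ _ _ _ _ zxq zyq e2 e2'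
          (fun a h3 h4 => hd2 a (mem_vs.mpr (Or.inr h3)) (mem_vs.mpr (Or.inr h4))) a hax hay

end Pool.Agent.RamV
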