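import Pool.Agent.Lib.MP_078aef_co_v.SitD
import Pool.Agent.Lib.MP_078aef_co_v.Chi

/-! The size of the deleted set. -/

namespace Pool.Agent.RamV

open Finset Pool.Agent.RamseyHam Pool.Agent.RamQ Pool.Agent.RamH

variable {V : Type*} [Fintype V] [DecidableEq V] {m r : ℕ} {G : SimpleGraph V}
  {h : V → Option (Fin m)} {ch : V → Finset V} {lev : V → ℕ}

/-- the vertices of one chain whose parent has a level in `(θ, θ']`.
Proof: the level of the parent (which is on the chain) determines the parent (Pth.lev_inj) and then the vertex (Pth.next). -/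
theorem chain_levels (hc : Chd G h lev ch) {v z : V} {l : List V} (hp : Pth h ch v l z)
    (θ θ' : ℕ) :
    (l.tail.toFinset.filter (fun x => ∃ y, x ∈ ch y ∧ θ < lev y ∧ lev y ≤ θ')).card ≤ θ' - θ := by
  classical
  have hex : ∀ x, ∃ n : ℕ, ∀ y, x ∈ ch y → lev y = n := by
    intro x
    by_cases hx : ∃ y, x ∈ ch y
    · obtain ⟨y, hy⟩ := hx
      exact ⟨lev y, fun y' hy' => by rw [hc.uniq y' y x hy' hy]⟩
    · exact ⟨0, fun y hy => absurd ⟨y, hy⟩ hx⟩
  choose f hf using hex
  rw [← Nat.card_Ioc θ θ']
  refine Finset.card_le_card_of_injOn f ?_ ?_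
  · intro x hx
    rw [Finset.mem_coe, Finset.mem_filter] at hx
    obtain ⟨-, y, hy, h1, h2⟩ := hx
    rw [Finset.mem_coe, Finset.mem_Ioc, ← hf x y hy]
    exact ⟨h1, h2⟩
  · intro x hx x' hx' he
    rw [Finset.mem_coe, Finset.mem_filter, List.mem_toFinset] at hx hx'
    obtain ⟨y, hyl, hy⟩ := hp.par x hx.1
    obtain ⟨y', hyl', hy'⟩ := hp.par x' hx'.1
    have h1 : y = y' := by
      apply hp.lev_inj hc y hyl y' hyl'
      rw [hf x y hy, hf x' y' hy', he]
    subst h1
    exact hp.next hc (List.mem_of_mem_tail hx.1) (List.mem_of_mem_tail hx'.1) hyl hy hy'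

/-- Proof: a member of `Xt` outside `D` is a vertex of a chain of a member of `O`, not the first one (`Cld.pts`), with a parent
of level `> θ`. Parents of level `> θ'`: children_card and `hθ'` (none if `θ' = L`): at most `n` vertices; parents of level in
`(θ, θ']`: chain_levels for the `2 n` chains; `D.card ≤ 15 n`. -/
theorem Xt_card {K k w : ℕ} {N : ℕ → ℕ} (hN : Nm K k w N) {hl : Fin m → ℕ} {L : ℕ} {a : ℕ → ℕ}
    (hL : Lv G w h lev hl L a) (hc : Chd G h lev ch) {O : Finset (El V r)}
    (hO : ∀ e ∈ O, IsEl G h ch e) {D : Finset V} (hD : Cld ch O D) {θ' : ℕ}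
    (hθ' : θ' = L ∨ 80 * a (θ' + 1) ^ 11 ≤ O.card) (hL' : θ' ≤ L) (θ : ℕ) :
    (Xt ch lev O D θ).card ≤ 17 * O.card + 2 * O.card * (θ' - θ) := by
  classical
  have h1 : Xt ch lev O D θ ⊆ D ∪ ((univ.filter (fun y => θ' < lev y)).biUnion ch ∪
      O.biUnion (fun e =>
        (e.p.tail.toFinset.filter (fun x => ∃ y, x ∈ ch y ∧ θ < lev y ∧ lev y ≤ θ')) ∪
        (e.q.tail.toFinset.filter (fun x => ∃ y, x ∈ ch y ∧ θ < lev y ∧ lev y ≤ θ')))) := by
    intro x hx
    unfold Xt at hx
    rw [Finset.mem_union, Finset.mem_filter] at hx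
    rw [Finset.mem_union, Finset.mem_union]
    by_cases hxD : x ∈ D
    · exact Or.inl hxD
    rcases hx with hx | ⟨hx, y, hy, hθ⟩
    · exact Or.inl hx
    right
    by_cases hlev : θ' < lev y
    · left
      exact Finset.mem_biUnion.2 ⟨y, Finset.mem_filter.2 ⟨Finset.mem_univ _, hlev⟩, hy⟩
    · right
      obtain ⟨e, he, hxe⟩ := Finset.mem_biUnion.1 hx
      refine Finset.mem_biUnion.2 ⟨e, he, ?_⟩
      have hpts := hD.pts e he
      obtain ⟨v, v', z, z', hok⟩ := hO e he
      unfold vs at hxe
      rw [Finset.mem_union, List.mem_toFinset, List.mem_toFinset] at hxe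
      rw [Finset.mem_union, Finset.mem_filter, Finset.mem_filter, List.mem_toFinset,
        List.mem_toFinset]
      rcases hxe with hxe | hxe
      · left
        refine ⟨?_, y, hy, hθ, by omega⟩
        obtain ⟨t, ht⟩ := hok.p.head
        rw [ht] at hxe ⊢
        rcases List.mem_cons.1 hxe with hxv | hxt
        · exfalso
          apply hxD
          apply hpts
          unfold pts
          rw [Finset.mem_union, List.mem_toFinset, ht]
          left
          simp [hxv]
        · exact hxt
      · right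
        refine ⟨?_, y, hy, hθ, by omega⟩
        obtain ⟨t, ht⟩ := hok.q.head
        rw [ht] at hxe ⊢
        rcases List.mem_cons.1 hxe with hxv | hxt
        · exfalso
          apply hxD
          apply hpts
          unfold pts
          rw [Finset.mem_union, List.mem_toFinset, List.mem_toFinset, ht]
          right
          simp [hxv]
        · exact hxt
  have h2 : ((univ.filter (fun y => θ' < lev y)).biUnion ch).card ≤ O.card := by
    rcases Nat.eq_or_lt_of_le hL' with he | hlt
    · have h3 : (univ.filter (fun y => θ' < lev y)) = ∅ := by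
        rw [Finset.filter_eq_empty_iff]
        intro y _ hy
        have := hL.lev_le y
        omega
      rw [h3, Finset.biUnion_empty, Finset.card_empty]
      exact Nat.zero_le _
    · rcases hθ' with he | hle
      · omega
      · exact (children_card hN hL hc θ' hlt).trans hle
  have h3 : (O.biUnion (fun e =>
        (e.p.tail.toFinset.filter (fun x => ∃ y, x ∈ ch y ∧ θ < lev y ∧ lev y ≤ θ')) ∪
        (e.q.tail.toFinset.filter (fun x => ∃ y, x ∈ ch y ∧ θ < lev y ∧ lev y ≤ θ')))).card ≤
      O.card * (2 * (θ' - θ)) := by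
    refine Finset.card_biUnion_le_card_mul _ _ _ fun e he => ?_
    obtain ⟨v, v', z, z', hok⟩ := hO e he
    refine (Finset.card_union_le _ _).trans ?_
    have h4 := chain_levels hc hok.p θ θ'
    have h5 := chain_levels hc hok.q θ θ'
    omega
  have h4 := (Finset.card_le_card h1).trans (Finset.card_union_le _ _)
  have h5 := Finset.card_union_le ((univ.filter (fun y => θ' < lev y)).biUnion ch) (O.biUnion (fun e =>
        (e.p.tail.toFinset.filter (fun x => ∃ y, x ∈ ch y ∧ θ < lev y ∧ lev y ≤ θ')) ∪
        (e.q.tail.toFinset.filter (fun x => ∃ y, x ∈ ch y ∧ θ < lev y ∧ lev y ≤ θ'))))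
  have h6 := hD.card
  have h7 : O.card * (2 * (θ' - θ)) = 2 * O.card * (θ' - θ) := by ring
  rw [h7] at h3
  omega

end Pool.Agent.RamV
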