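import Pool.Agent.Lib.MP_078aef_co_v.Cls

/-! Toughness and the classes. -/

namespace Pool.Agent.RamV

open Finset Pool.Agent.RamseyHam Pool.Agent.RamQ Pool.Agent.RamH

variable {V : Type*} [Fintype V] [DecidableEq V] {m r : ℕ} {G : SimpleGraph V}
  {h : V → Option (Fin m)} {ch : V → Finset V} {lev : V → ℕ} {I Es : Finset (El V r)}

/-- Proof. `X = Xt ..`. For `κ : Fin (c+1)` let `P κ` be the set of the `v ∉ X` which have a good chain to some `z`, `h z = some i`,
`cl i = κ`.  By good_exists they cover the complement of `X`; by cls_one they are pairwise disjoint and by cls_two pairwise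
non-adjacent.  `vac` = the number of the `κ` with `P κ = ∅`: then the hub `rep κ` is contained in `X` (chain `[b]` for a vertex `b` of
the hub); these hubs are disjoint and have at least `w ^ 10` vertices (`Lv.rob`, `wa`). Toughness for the nonempty `P κ` (at least `c + 1 - vac`;
if there is none then `c - vac = 0`). -/
theorem tough_classes {K w : ℕ} (hT : Tough G K) {hl : Fin m → ℕ} {L : ℕ} {a : ℕ → ℕ}
    (hL : Lv G w h lev hl L a) (hc : Chd G h lev ch)
    (hS : Sit G h ch I Es) {E : Finset (El V r)} (hE : ∀ e, e ∈ E ↔ IsEl G h ch e)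
    {D : Finset V} (hD : Cld ch (Oc ch I Es) D) {θ : ℕ}
    (hlow : Low h lev ch I Es θ)
    (hno : ¬ ∃ (ρ : El V r → El V r) (g : El V r), Rer (ZMod 2) E (vt ch) (vc h) I Es ρ g)
    (j : Fin r) (c : ℕ) (rep : Fin (c + 1) → Fin m) (cl : Fin m → Fin (c + 1))
    (h1 : ∀ i, cl (rep i) = i)
    (h2 : ∀ z z' i i', h z = some i → h z' = some i' → Eqv h ch I Es j z z' → cl i = cl i') :
    ∃ vac : ℕ, w ^ 10 * vac ≤ (Xt ch lev (Oc ch I Es) D θ).card ∧
      K * (c - vac) ≤ (Xt ch lev (Oc ch I Es) D θ).card := by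
  classical
  obtain ⟨X, hX⟩ : ∃ X : Finset V, X = Xt ch lev (Oc ch I Es) D θ := ⟨_, rfl⟩
  have hDX : ∀ v, v ∉ X → v ∉ D := by
    intro v hv hvD
    apply hv
    rw [hX, Xt]
    exact Finset.mem_union_left _ hvD
  have c1 := cls_one hc hS hE hD hlow hno j
  have c2 : ∀ {v v' : V}, v ∉ X → v' ∉ X → G.Adj v v' → ∀ {p q : List V} {z z' : V},
      Gc h ch (Aa ch I Es D) v p z → Gc h ch (Aa ch I Es D) v' q z' → Eqv h ch I Es j z z' := by
    intro v v' hv hv' hadj p q z z' hp hq
    rw [hX] at hv hv'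
    exact cls_two hc hS hE hD hlow hno j hv hv' hadj hp hq
  rw [← hX] at c1 ⊢
  obtain ⟨P, hP⟩ : ∃ P : Fin (c + 1) → Finset V, ∀ κ v, v ∈ P κ ↔ v ∉ X ∧ ∃ l z i,
      Gc h ch (Aa ch I Es D) v l z ∧ h z = some i ∧ cl i = κ :=
    ⟨fun κ => univ.filter (fun v => v ∉ X ∧ ∃ l z i,
      Gc h ch (Aa ch I Es D) v l z ∧ h z = some i ∧ cl i = κ), fun κ v => by
        rw [Finset.mem_filter]
        exact ⟨fun h => h.2, fun h => ⟨Finset.mem_univ _, h⟩⟩⟩
  obtain ⟨V0, hV0⟩ : ∃ V0 : Finset (Fin (c + 1)), ∀ κ, κ ∈ V0 ↔ P κ = ∅ :=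
    ⟨univ.filter (fun κ => P κ = ∅), fun κ => by
      rw [Finset.mem_filter]
      exact ⟨fun h => h.2, fun h => ⟨Finset.mem_univ _, h⟩⟩⟩
  refine ⟨V0.card, ?_, ?_⟩
  · have hsub : V0.biUnion (fun κ => Hb h (rep κ)) ⊆ X := by
      intro b hb
      obtain ⟨κ, hκ, hb⟩ := Finset.mem_biUnion.1 hb
      by_contra hbX
      rw [mem_Hb] at hb
      have h3 : b ∈ P κ := (hP κ b).2 ⟨hbX, [b], b, rep κ,
        ⟨Pth.hub b (by rw [hb]; exact Option.some_ne_none _), fun x hx => absurd hx List.not_mem_nil⟩,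
        hb, h1 κ⟩
      rw [(hV0 κ).1 hκ] at h3
      exact absurd h3 (Finset.notMem_empty b)
    have hcard : (V0.biUnion (fun κ => Hb h (rep κ))).card = ∑ κ ∈ V0, (Hb h (rep κ)).card := by
      refine Finset.card_biUnion fun κ _ κ' _ hne => Finset.disjoint_left.2 fun b hb hb' => hne ?_
      rw [mem_Hb] at hb hb'
      rw [hb] at hb'
      rw [← h1 κ, ← h1 κ', Option.some.inj hb']
    have hbig : ∀ κ ∈ V0, w ^ 10 ≤ (Hb h (rep κ)).card := fun κ _ =>
      (Nat.pow_le_pow_left (hL.wa _ (hL.hl_le _)) 10).trans (hL.rob (rep κ)).1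
    calc w ^ 10 * V0.card = ∑ κ ∈ V0, w ^ 10 := by rw [Finset.sum_const, smul_eq_mul, mul_comm]
      _ ≤ ∑ κ ∈ V0, (Hb h (rep κ)).card := Finset.sum_le_sum hbig
      _ = (V0.biUnion (fun κ => Hb h (rep κ))).card := hcard.symm
      _ ≤ X.card := Finset.card_le_card hsub
  · by_cases hlt : V0.card ≤ c
    · have hNc : (univ \ V0 : Finset (Fin (c + 1))).card = (c - V0.card) + 1 := by
        rw [Finset.card_sdiff_of_subset (Finset.subset_univ _), Finset.card_univ, Fintype.card_fin]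
        omega
      have hmem : ∀ i, (P ((univ \ V0).orderEmbOfFin hNc i)).Nonempty := by
        intro i
        have h3 := Finset.orderEmbOfFin_mem (univ \ V0) hNc i
        rw [Finset.mem_sdiff, hV0] at h3
        exact Finset.nonempty_iff_ne_empty.2 h3.2
      have hinj : ∀ i i', i ≠ i' → (univ \ V0).orderEmbOfFin hNc i ≠
          (univ \ V0).orderEmbOfFin hNc i' := fun i i' hne heq =>
        hne (((univ \ V0).orderEmbOfFin hNc).injective heq)
      refine hT (c - V0.card) X (fun i => P ((univ \ V0).orderEmbOfFin hNc i)) hmem ?_ ?_ ?_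
      · intro i i' hne
        refine Finset.disjoint_left.2 fun v hv hv' => hinj i i' hne ?_
        obtain ⟨hvX, l, z, i1, hg, hz, hcl⟩ := (hP _ v).1 hv
        obtain ⟨-, l', z', i2, hg', hz', hcl'⟩ := (hP _ v).1 hv'
        rw [← hcl, ← hcl']
        exact h2 z z' i1 i2 hz hz' (c1 (lev v) v rfl hvX l z l' z' hg hg')
      · intro i i' hne x hx y hy hadj
        refine hinj i i' hne ?_
        obtain ⟨hxX, l, z, i1, hg, hz, hcl⟩ := (hP _ x).1 hx
        obtain ⟨hyX, l', z', i2, hg', hz', hcl'⟩ := (hP _ y).1 hy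
        rw [← hcl, ← hcl']
        exact h2 z z' i1 i2 hz hz' (c2 hxX hyX hadj hg hg')
      · intro v
        by_cases hvX : v ∈ X
        · exact Or.inl hvX
        right
        obtain ⟨l, z, hg⟩ := good_exists hc hS hD v (hDX v hvX)
        obtain ⟨i, hi⟩ := Option.ne_none_iff_exists'.1 hg.1.hub_end
        have h3 : v ∈ P (cl i) := (hP _ v).2 ⟨hvX, l, z, i, hg, hi, rfl⟩
        have h4 : cl i ∈ (univ \ V0 : Finset (Fin (c + 1))) := by
          rw [Finset.mem_sdiff, hV0]
          refine ⟨Finset.mem_univ _, fun h5 => ?_⟩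
          rw [h5] at h3
          exact absurd h3 (Finset.notMem_empty v)
        have h5 : cl i ∈ Set.range ((univ \ V0).orderEmbOfFin hNc) := by
          rw [Finset.range_orderEmbOfFin]
          exact h4
        obtain ⟨i', hi'⟩ := h5
        exact ⟨i', by rw [hi']; exact h3⟩
    · rw [Nat.sub_eq_zero_of_le (by omega), mul_zero]
      exact Nat.zero_le _

end Pool.Agent.RamV
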