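import Pool.Agent.Lib.MP_078aef_co_v.Step
import Pool.Agent.Lib.MP_078aef_co_v.Size
import Pool.Agent.Lib.MP_078aef_co_v.NumT
import Pool.Agent.Lib.MP_078aef_co_v.Cnt
import Pool.Agent.Lib.MP_078aef_co_v.TouV

/-! A rerouting exists as long as the family is not complete. -/

namespace Pool.Agent.RamV

open Finset Pool.Agent.RamseyHam Pool.Agent.RamQ Pool.Agent.RamH

variable {V : Type*} [Fintype V] [DecidableEq V] {m : ℕ} {G : SimpleGraph V}
  {h : V → Option (Fin m)} {ch : V → Finset V} {lev : V → ℕ} {I Es : Finset (El V 200)}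

/-- Proof by contradiction. `n = (Oc ch I Es).card`, `D` from cld_exists, count_classes: `j`, `c ≥ 1`, `n ≤ 400 c`.
`θ'` = the least `t ≤ L` such that `t = L` or `80 * a (t + 1) ^ 11 ≤ n`; if `θ' > 0` then `n < 80 * a θ' ^ 11`.
`x θ = 17 n + 2 n (θ' - θ) ≥ |Xt θ|` (Xt_card).  Induction on `θ ≤ L + 1`: either `Low θ` holds or there is `θ1 < θ`, `θ1 ≤ L`, with
`Low θ1` and `a θ1 ^ 10 < N (x θ1) + x θ1` (low_step, `N` monotone; `Low 0` is trivial).
If `Low (L + 1)`: all hub vertices are equivalent, but the hubs `rep 0`, `rep 1` (`c ≥ 1`) contain vertices (`Lv.rob`) with different `cl`.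
Otherwise `θ1`: `θ' - θ1 < w` or `θ' - θ1 = 0` (num_theta with `d = θ' - θ1 > 0`), so `|Xt θ1| ≤ 17 n + 2 n w`; tough_classes and num_fin. -/
theorem rer_exists {K k w : ℕ} {N : ℕ → ℕ} (hN : Nm K k w N) (hk : 1 ≤ k) (hG : Hy G K w N)
    {hl : Fin m → ℕ} {L : ℕ} {a : ℕ → ℕ} (hL : Lv G w h lev hl L a) (hc : Chd G h lev ch)
    (hm : 1 ≤ m) (hS : Sit G h ch I Es) {E : Finset (El V 200)}
    (hE : ∀ e, e ∈ E ↔ IsEl G h ch e) (hcard : I.card < 200 * (m - 1))
    (hle : Es.card ≤ (Bl (vt ch) I Es).card) :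
    ∃ (ρ : El V 200 → El V 200) (g : El V 200), Rer (ZMod 2) E (vt ch) (vc h) I Es ρ g := by
  by_contra hno
  obtain ⟨D, hD⟩ := cld_exists hc hS.okO
  obtain ⟨j, c, rep, cl, hrep, hcl, hc1, hn⟩ :=
    count_classes (h := h) (ch := ch) hm hcard hle
  obtain ⟨n, hnO⟩ : ∃ n : ℕ, n = (Oc ch I Es).card := ⟨_, rfl⟩
  obtain ⟨θ', hp, hmin⟩ : ∃ t : ℕ, (t = L ∨ 80 * a (t + 1) ^ 11 ≤ n) ∧
      ∀ s, s < t → ¬ (s = L ∨ 80 * a (s + 1) ^ 11 ≤ n) := by
    classical
    have hex : ∃ t : ℕ, t = L ∨ 80 * a (t + 1) ^ 11 ≤ n := ⟨L, Or.inl rfl⟩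
    exact ⟨Nat.find hex, Nat.find_spec hex, fun s hs => Nat.find_min hex hs⟩
  have hθL : θ' ≤ L := by
    by_contra hcon
    exact hmin L (not_le.1 hcon) (Or.inl rfl)
  have hpos : 0 < θ' → n < 80 * a θ' ^ 11 := by
    intro h0
    have h1 := hmin (θ' - 1) (by omega)
    rw [not_or, not_le, Nat.sub_add_cancel h0] at h1
    exact h1.2
  have hX : ∀ θ, (Xt ch lev (Oc ch I Es) D θ).card ≤ 17 * n + 2 * n * (θ' - θ) := by
    intro θ
    rw [hnO] at hp ⊢
    exact Xt_card hN hL hc hS.okO hD hp hθL θ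
  obtain ⟨θ1, hθ1, hlow, hbad⟩ : ∃ θ1, θ1 ≤ L ∧ Low h lev ch I Es θ1 ∧
      a θ1 ^ 10 < N (17 * n + 2 * n * (θ' - θ1)) + (17 * n + 2 * n * (θ' - θ1)) := by
    by_contra hcon
    push Not at hcon
    have hall : ∀ θ, θ ≤ L + 1 → Low h lev ch I Es θ := by
      intro θ
      induction θ with
      | zero => exact fun _ z z' _ _ h0 => absurd h0 (Nat.not_lt_zero _)
      | succ θ ih =>
        intro hθ
        have hθ2 : θ ≤ L := by omega
        have hl1 := ih (by omega)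
        have h1 := hcon θ hθ2 hl1
        exact low_step hN hG hL hc hS hE hD hθ2 hl1 hno
          ((Nat.add_le_add (hN.mono (hX θ)) (hX θ)).trans h1)
    have hne : ∀ i, ∃ z, h z = some i := by
      intro i
      have h1 := (hL.rob i).1
      have h2 : 1 ≤ a (hl i) := (Nat.one_le_two_pow.trans hN.two).trans (hL.wa _ (hL.hl_le i))
      have h3 : (Hb h i).Nonempty := by
        rw [← Finset.card_pos]
        exact (Nat.one_le_pow 10 _ h2).trans h1
      obtain ⟨z, hz⟩ := h3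
      exact ⟨z, mem_Hb.1 hz⟩
    obtain ⟨z, hz⟩ := hne (rep 0)
    obtain ⟨z', hz'⟩ := hne (rep ⟨1, by omega⟩)
    have h1 := hall (L + 1) le_rfl z z' (by rw [hz]; exact Option.some_ne_none _)
      (by rw [hz']; exact Option.some_ne_none _) (Nat.lt_succ_of_le (hL.lev_le z))
      (Nat.lt_succ_of_le (hL.lev_le z')) j
    have h2 := hcl z z' _ _ hz hz' h1
    rw [hrep, hrep] at h2
    have h3 := congrArg Fin.val h2
    simp at h3
  obtain ⟨vac, hv, hT⟩ := tough_classes hG.tough hL hc hS hE hD hlow hno j c rep cl hrep hcl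
  have hd : θ' - θ1 < w := by
    rcases Nat.eq_zero_or_pos (θ' - θ1) with h0 | h0
    · rw [h0]
      exact lt_of_lt_of_le (by norm_num) hN.two
    · have h1 : θ1 + (θ' - θ1) = θ' := by omega
      refine num_theta (θ := θ1) (n := n) hN hk hL.wa hL.sq (by omega) ?_ hbad
      rw [h1]
      exact hpos (by omega)
  refine num_fin (n := n) hN.two hN.wK hc1 ?_ ((hX θ1).trans ?_) hv hT
  · rw [hnO]
    omega
  · exact Nat.add_le_add_left (Nat.mul_le_mul_left _ hd.le) _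

end Pool.Agent.RamV
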