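import Pool.Agent.Lib.MP_078aef_co_v.DelA

/-! The situation in Haxell's argument. -/

namespace Pool.Agent.RamV

open Finset Pool.Agent.RamseyHam Pool.Agent.RamQ Pool.Agent.RamH

variable {V : Type*} [Fintype V] [DecidableEq V] {m r : ℕ}

/-- two families of elements, each pairwise compatible -/
structure Sit (G : SimpleGraph V) (h : V → Option (Fin m)) (ch : V → Finset V)
    (I Es : Finset (El V r)) : Prop where
  okI : ∀ e ∈ I, IsEl G h ch e
  okE : ∀ e ∈ Es, IsEl G h ch e
  dis : Disjoint I Es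
  cI : Cmp ch I
  cE : Cmp ch Es

/-- the occupants -/
noncomputable def Oc (ch : V → Finset V) (I Es : Finset (El V r)) : Finset (El V r) :=
  Bl (vt ch) I Es ∪ Es

/-- the occupied vertices together with the closure `D` -/
noncomputable def Aa (ch : V → Finset V) (I Es : Finset (El V r)) (D : Finset V) : Finset V :=
  D ∪ Ov (Oc ch I Es)

/-- the span of the members of `I` which are not blocked -/
noncomputable def S0 (h : V → Option (Fin m)) (ch : V → Finset V) (I Es : Finset (El V r)) :
    Submodule (ZMod 2) (Fin r → Fin m → ZMod 2) :=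
  Submodule.span (ZMod 2) (vc h '' ((I \ Bl (vt ch) I Es : Finset (El V r)) : Set (El V r)))

/-- the hub vertices `z`, `z'` are equivalent in colour `j` -/
def Eqv (h : V → Option (Fin m)) (ch : V → Finset V) (I Es : Finset (El V r)) (j : Fin r)
    (z z' : V) : Prop :=
  (Pi.single j (ev h z + ev h z') : Fin r → Fin m → ZMod 2) ∈ S0 h ch I Es

/-- all hub vertices of level less than `θ` are equivalent in all colours -/
def Low (h : V → Option (Fin m)) (lev : V → ℕ) (ch : V → Finset V) (I Es : Finset (El V r))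
    (θ : ℕ) : Prop :=
  ∀ z z', h z ≠ none → h z' ≠ none → lev z < θ → lev z' < θ → ∀ j : Fin r, Eqv h ch I Es j z z'

variable {G : SimpleGraph V} {h : V → Option (Fin m)} {ch : V → Finset V} {lev : V → ℕ}
  {I Es : Finset (El V r)} {j : Fin r} {x y z : V}

private theorem self_add (a : Fin m → ZMod 2) : a + a = 0 := by
  funext i
  exact CharTwo.add_self_eq_zero (a i)

theorem Eqv.refl (x : V) : Eqv h ch I Es j x x := by
  unfold Eqv
  rw [self_add, Pi.single_zero]
  exact Submodule.zero_mem _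

theorem Eqv.symm (hxy : Eqv h ch I Es j x y) : Eqv h ch I Es j y x := by
  unfold Eqv at *
  rw [add_comm]
  exact hxy

/-- Proof: the sum of the two vectors, characteristic 2. -/
theorem Eqv.trans (hxy : Eqv h ch I Es j x y) (hyz : Eqv h ch I Es j y z) :
    Eqv h ch I Es j x z := by
  unfold Eqv at *
  have e : (Pi.single j (ev h x + ev h z) : Fin r → Fin m → ZMod 2) =
      Pi.single j (ev h x + ev h y) + Pi.single j (ev h y + ev h z) := by
    rw [← Pi.single_add]
    congr 1
    calc ev h x + ev h z = ev h x + (ev h y + ev h y) + ev h z := by rw [self_add, add_zero]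
      _ = ev h x + ev h y + (ev h y + ev h z) := by abel
  rw [e]
  exact Submodule.add_mem _ hxy hyz

private theorem Bl_sub : Bl (vt ch) I Es ⊆ I := by
  classical
  unfold Bl
  exact Finset.filter_subset _ _

theorem Sit.okO (hS : Sit G h ch I Es) : ∀ e ∈ Oc ch I Es, IsEl G h ch e := by
  intro e he
  unfold Oc at he
  rcases Finset.mem_union.1 he with he | he
  · exact hS.okI e (Bl_sub he)
  · exact hS.okE e he

theorem Sit.okT (hS : Sit G h ch I Es) : ∀ e ∈ I ∪ Es, IsEl G h ch e := by
  intro e he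
  rcases Finset.mem_union.1 he with he | he
  · exact hS.okI e he
  · exact hS.okE e he

/-- Proof: `Bl` is a subset of `I`, `nonports_card` for `Bl (vt ch) I Es` and for `Es`. -/
theorem Sit.nonports (hc : Chd G h lev ch) (hS : Sit G h ch I Es) (y : V) :
    (ch y ∩ (Ov (Oc ch I Es) \ (Oc ch I Es).biUnion pts)).card ≤ 2 := by
  have h1 := nonports_card hc (I := Bl (vt ch) I Es) (fun e he => hS.okI e (Bl_sub he))
    (fun e he f hf hef => hS.cI e (Bl_sub he) f (Bl_sub hf) hef) y
  have h2 := nonports_card hc (I := Es) hS.okE hS.cE y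
  have h3 : ch y ∩ (Ov (Oc ch I Es) \ (Oc ch I Es).biUnion pts) ⊆
      (ch y ∩ (Ov (Bl (vt ch) I Es) \ (Bl (vt ch) I Es).biUnion pts)) ∪
        (ch y ∩ (Ov Es \ Es.biUnion pts)) := by
    intro x hx
    obtain ⟨hx1, hx2⟩ := Finset.mem_inter.1 hx
    obtain ⟨hx3, hx4⟩ := Finset.mem_sdiff.1 hx2
    unfold Ov at hx3
    obtain ⟨e, he, hxe⟩ := Finset.mem_biUnion.1 hx3
    unfold Oc at he
    rcases Finset.mem_union.1 he with he' | he'
    · refine Finset.mem_union_left _ (Finset.mem_inter.2 ⟨hx1, Finset.mem_sdiff.2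
        ⟨Finset.mem_biUnion.2 ⟨e, he', hxe⟩, fun hx5 => hx4 ?_⟩⟩)
      obtain ⟨f, hf, hxf⟩ := Finset.mem_biUnion.1 hx5
      exact Finset.mem_biUnion.2 ⟨f, Finset.mem_union_left _ hf, hxf⟩
    · refine Finset.mem_union_right _ (Finset.mem_inter.2 ⟨hx1, Finset.mem_sdiff.2
        ⟨Finset.mem_biUnion.2 ⟨e, he', hxe⟩, fun hx5 => hx4 ?_⟩⟩)
      obtain ⟨f, hf, hxf⟩ := Finset.mem_biUnion.1 hx5
      exact Finset.mem_biUnion.2 ⟨f, Finset.mem_union_right _ hf, hxf⟩
  have h4 := (Finset.card_le_card h3).trans (Finset.card_union_le _ _)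
  omega

/-- Proof: at most 4 children of `y` are in `D` (otherwise `y ∈ D`), at most 2 more are occupied (the ports are in `D`). -/
theorem Sit.children (hc : Chd G h lev ch) (hS : Sit G h ch I Es) {D : Finset V}
    (hD : Cld ch (Oc ch I Es) D) (hy : y ∉ D) : (ch y ∩ Aa ch I Es D).card ≤ 6 := by
  have h1 : (ch y ∩ D).card ≤ 4 := by
    by_contra hh
    exact hy (hD.clo y (by omega))
  have h2 := hS.nonports hc y
  have h3 : ch y ∩ Aa ch I Es D ⊆
      (ch y ∩ D) ∪ (ch y ∩ (Ov (Oc ch I Es) \ (Oc ch I Es).biUnion pts)) := by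
    intro x hx
    obtain ⟨hx1, hx2⟩ := Finset.mem_inter.1 hx
    by_cases hxD : x ∈ D
    · exact Finset.mem_union_left _ (Finset.mem_inter.2 ⟨hx1, hxD⟩)
    · unfold Aa at hx2
      rcases Finset.mem_union.1 hx2 with hx3 | hx3
      · exact absurd hx3 hxD
      · refine Finset.mem_union_right _ (Finset.mem_inter.2 ⟨hx1, Finset.mem_sdiff.2
          ⟨hx3, fun hx4 => hxD ?_⟩⟩)
        obtain ⟨f, hf, hxf⟩ := Finset.mem_biUnion.1 hx4
        exact hD.pts f hf hxf
  have h4 := (Finset.card_le_card h3).trans (Finset.card_union_le _ _)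
  omega

end Pool.Agent.RamV
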