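import Pool.Agent.Lib.MP_078aef_co_v.SitD

/-! Good chains and free tokens. -/

namespace Pool.Agent.RamV

open Finset Pool.Agent.RamseyHam Pool.Agent.RamQ Pool.Agent.RamH

variable {V : Type*} [Fintype V] [DecidableEq V] {m r : ℕ}

variable {G : SimpleGraph V} {h : V → Option (Fin m)} {ch : V → Finset V} {lev : V → ℕ}
  {I Es : Finset (El V r)} {j : Fin r} {x y z : V}

/-- Proof: `h v ≠ none`: the chain `[v]`.  Otherwise a child `x` of `v` outside `Aa` (20 children, Sit.children), and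
Pth.exists_avoid for `Z = Aa` (Sit.children). -/
theorem good_exists (hc : Chd G h lev ch) (hS : Sit G h ch I Es) {D : Finset V}
    (hD : Cld ch (Oc ch I Es) D) (v : V) (hv : v ∉ D) : ∃ l z, Gc h ch (Aa ch I Es D) v l z := by
  by_cases hn : h v = none
  · have h1 := hS.children hc hD hv
    have h2 := hc.card v hn
    obtain ⟨x, hx, hxA⟩ : ∃ x ∈ ch v, x ∉ Aa ch I Es D := by
      by_contra hcon
      push Not at hcon
      have h3 : ch v ∩ Aa ch I Es D = ch v := Finset.inter_eq_left.2 fun x hx => hcon x hx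
      rw [h3] at h1
      omega
    obtain ⟨l, z, hl, hz⟩ := Pth.exists_avoid hc (Aa ch I Es D) (fun y hy => by
      have h4 : y ∉ D := fun hyD => hy (Finset.mem_union_left _ hyD)
      have h5 := hS.children hc hD h4
      omega) x hxA
    exact ⟨v :: l, z, Pth.cons v x l z hx hl, fun a ha => hz a ha⟩
  · exact ⟨[v], v, Pth.hub v hn, fun a ha => absurd ha List.not_mem_nil⟩

private theorem se_one (hc : Chd G h lev ch) {O : Finset (El V r)} {D : Finset V}
    (hD : Cld ch O D) {v : V} (hv : v ∉ D) :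
    ∃ t t' : Fin 5, t ≠ t' ∧ ∀ y, v ∈ ch y → ∀ f ∈ O, (y, t) ∉ tk ch f ∧ (y, t') ∉ tk ch f := by
  by_cases hy : ∃ y, v ∈ ch y
  · obtain ⟨y, hy⟩ := hy
    have h1 : cnt ch O y ≤ 3 := by
      by_contra hcon
      exact hv (hD.exh y (by omega) hy)
    obtain ⟨t, t', ht, hf⟩ := free_tokens O y h1
    refine ⟨t, t', ht, fun y' hy' => ?_⟩
    rw [hc.uniq y' y v hy' hy]
    exact hf
  · exact ⟨0, 1, by decide, fun y hy' => absurd ⟨y, hy'⟩ hy⟩

/-- Proof: the parent `y` of `v` (if any) has `cnt ≤ 3` since `v ∉ D` (`Cld.exh`), free_tokens; the same for `v'`. If they have the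
same parent use the two different free tokens. -/
theorem tokens_exist (hc : Chd G h lev ch) {O : Finset (El V r)} {D : Finset V}
    (hD : Cld ch O D) {v v' : V} (hv : v ∉ D) (hv' : v' ∉ D) :
    ∃ t u : Fin 5, (∀ y, v ∈ ch y → v' ∈ ch y → t ≠ u) ∧
      (∀ y, v ∈ ch y → ∀ f ∈ O, (y, t) ∉ tk ch f) ∧ ∀ y, v' ∈ ch y → ∀ f ∈ O, (y, u) ∉ tk ch f := by
  obtain ⟨t, _, _, h1⟩ := se_one hc hD hv
  obtain ⟨u, u', hu, h2⟩ := se_one hc hD hv'
  by_cases htu : t = u
  · refine ⟨t, u', fun _ _ _ => ?_, fun y hy f hf => (h1 y hy f hf).1,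
      fun y hy f hf => (h2 y hy f hf).2⟩
    rw [htu]
    exact hu
  · exact ⟨t, u, fun _ _ _ => htu, fun y hy f hf => (h1 y hy f hf).1,
      fun y hy f hf => (h2 y hy f hf).1⟩

end Pool.Agent.RamV
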