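import Pool.Agent.Lib.MP_078aef_co_v.SitE

/-! Spare children. -/

namespace Pool.Agent.RamV

open Finset Pool.Agent.RamseyHam Pool.Agent.RamQ Pool.Agent.RamH

variable {V : Type*} [Fintype V] [DecidableEq V] {m r : ℕ} {G : SimpleGraph V}
  {h : V → Option (Fin m)} {ch : V → Finset V} {lev : V → ℕ} {I Es : Finset (El V r)}

/-- Proof: `W = p.toFinset ∪ q.toFinset`, `Z = Ov (I ∪ Es) ∪ W`. For `y ∉ W` at most 14 children are in `Z`: ports of members of `I`
(at most 5, ports_card), of `Es` (at most 5), other vertices of members of `I` (at most 1, nonports_card), of `Es` (at most 1), and members of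
`W`: only `v`, `v'` (another vertex of `p` or `q` has its parent in `W`, Pth.pred).  So two different children
outside `Z`. For `y ∈ W` any child. -/
theorem spare (hc : Chd G h lev ch) (hS : Sit G h ch I Es) {v v' z z' : V} {p q : List V}
    (hp : Pth h ch v p z) (hq : Pth h ch v' q z') :
    ∃ c1 c2 : V → V, (∀ y, h y = none → c1 y ∈ ch y ∧ c2 y ∈ ch y) ∧
      ∀ y, h y = none → y ∉ p.toFinset ∪ q.toFinset →
        c1 y ≠ c2 y ∧ c1 y ∉ Ov (I ∪ Es) ∪ (p.toFinset ∪ q.toFinset) ∧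
          c2 y ∉ Ov (I ∪ Es) ∪ (p.toFinset ∪ q.toFinset) := by
  classical
  obtain ⟨W, hW⟩ : ∃ W, W = p.toFinset ∪ q.toFinset := ⟨_, rfl⟩
  obtain ⟨Z, hZ⟩ : ∃ Z, Z = Ov (I ∪ Es) ∪ W := ⟨_, rfl⟩
  rw [← hW, ← hZ]
  have hcard : ∀ y, y ∉ W → (ch y ∩ Z).card ≤ 14 := by
    intro y hy
    have hsub : ch y ∩ Z ⊆ ((ch y ∩ I.biUnion pts) ∪ (ch y ∩ (Ov I \ I.biUnion pts))) ∪
        ((ch y ∩ Es.biUnion pts) ∪ (ch y ∩ (Ov Es \ Es.biUnion pts))) ∪ {v, v'} := by
      intro x hx
      rw [mem_inter, hZ, mem_union] at hx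
      obtain ⟨hx1, hx2⟩ := hx
      rcases hx2 with hx2 | hx2
      · have hx3 : x ∈ Ov I ∨ x ∈ Ov Es := by
          unfold Ov at hx2 ⊢
          rw [mem_biUnion] at hx2
          obtain ⟨e, he, hxe⟩ := hx2
          rw [mem_union] at he
          rcases he with he | he
          · exact Or.inl (mem_biUnion.2 ⟨e, he, hxe⟩)
          · exact Or.inr (mem_biUnion.2 ⟨e, he, hxe⟩)
        rw [mem_union]
        left
        rw [mem_union]
        rcases hx3 with hx3 | hx3
        · left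
          rw [mem_union]
          by_cases h1 : x ∈ I.biUnion pts
          · exact Or.inl (mem_inter.2 ⟨hx1, h1⟩)
          · exact Or.inr (mem_inter.2 ⟨hx1, mem_sdiff.2 ⟨hx3, h1⟩⟩)
        · right
          rw [mem_union]
          by_cases h1 : x ∈ Es.biUnion pts
          · exact Or.inl (mem_inter.2 ⟨hx1, h1⟩)
          · exact Or.inr (mem_inter.2 ⟨hx1, mem_sdiff.2 ⟨hx3, h1⟩⟩)
      · rw [mem_union]
        right
        rw [mem_insert, mem_singleton]
        by_contra hcon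
        rw [not_or] at hcon
        apply hy
        rw [hW, mem_union, List.mem_toFinset, List.mem_toFinset] at hx2 ⊢
        rcases hx2 with hx2 | hx2
        · exact Or.inl (hp.pred hc hx2 hcon.1 hx1)
        · exact Or.inr (hq.pred hc hx2 hcon.2 hx1)
    refine (card_le_card hsub).trans ?_
    have a1 := ports_card hS.okI hS.cI y
    have a2 := nonports_card hc hS.okI hS.cI y
    have a3 := ports_card hS.okE hS.cE y
    have a4 := nonports_card hc hS.okE hS.cE y
    have a5 : ({v, v'} : Finset V).card ≤ 2 := card_le_two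
    have b1 := card_union_le (ch y ∩ I.biUnion pts) (ch y ∩ (Ov I \ I.biUnion pts))
    have b2 := card_union_le (ch y ∩ Es.biUnion pts) (ch y ∩ (Ov Es \ Es.biUnion pts))
    have b3 := card_union_le ((ch y ∩ I.biUnion pts) ∪ (ch y ∩ (Ov I \ I.biUnion pts)))
      ((ch y ∩ Es.biUnion pts) ∪ (ch y ∩ (Ov Es \ Es.biUnion pts)))
    have b4 := card_union_le (((ch y ∩ I.biUnion pts) ∪ (ch y ∩ (Ov I \ I.biUnion pts))) ∪
      ((ch y ∩ Es.biUnion pts) ∪ (ch y ∩ (Ov Es \ Es.biUnion pts)))) {v, v'}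
    omega
  have key : ∀ y, ∃ c : V × V, h y = none → (c.1 ∈ ch y ∧ c.2 ∈ ch y) ∧
      (y ∉ W → c.1 ≠ c.2 ∧ c.1 ∉ Z ∧ c.2 ∉ Z) := by
    intro y
    by_cases hy : h y = none
    · have h20 := hc.card y hy
      by_cases hyW : y ∈ W
      · obtain ⟨c, hcc⟩ : (ch y).Nonempty := by
          rw [← card_pos]
          omega
        exact ⟨(c, c), fun _ => ⟨⟨hcc, hcc⟩, fun h1 => absurd hyW h1⟩⟩
      · have h1 := hcard y hyW
        have h2 := card_sdiff_add_card_inter (ch y) Z
        have h3 : 1 < (ch y \ Z).card := by omega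
        obtain ⟨a, ha, b, hb, hab⟩ := one_lt_card.1 h3
        rw [mem_sdiff] at ha hb
        exact ⟨(a, b), fun _ => ⟨⟨ha.1, hb.1⟩, fun _ => ⟨hab, ha.2, hb.2⟩⟩⟩
    · exact ⟨(y, y), fun h1 => absurd h1 hy⟩
  choose c hcc using key
  exact ⟨fun y => (c y).1, fun y => (c y).2, fun y hy => (hcc y hy).1, fun y hy hyW => (hcc y hy).2 hyW⟩

end Pool.Agent.RamV
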