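import Pool.Agent.Lib.MP_078aef_co_v.Defs

/-! Sums over the scales. -/

namespace Pool.Agent.RamV

open Finset Pool.Agent.RamseyHam Pool.Agent.RamQ Pool.Agent.RamH

private theorem sumA_step {w L : ℕ} {a : ℕ → ℕ} (hw : 2 ≤ w) (wa : ∀ i ≤ L, w ≤ a i)
    (sq : ∀ i < L, a (i + 1) ^ 2 ≤ a i) (i : ℕ) (hi : i < L) :
    2 * a (i + 1) ^ 11 ≤ a i ^ 11 := by
  have h1 : 2 ≤ a (i + 1) := hw.trans (wa (i + 1) hi)
  have h2 : 2 ≤ a (i + 1) ^ 11 := h1.trans (Nat.le_self_pow (by norm_num) _)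
  calc 2 * a (i + 1) ^ 11 ≤ a (i + 1) ^ 11 * a (i + 1) ^ 11 := Nat.mul_le_mul_right _ h2
    _ = (a (i + 1) ^ 2) ^ 11 := by ring
    _ ≤ a i ^ 11 := Nat.pow_le_pow_left (sq i hi) 11

/-- Proof: `a (j+1) ^ 2 ≤ a j`, `a j ≥ 2`, so `2 * a (j+1) ^ 11 ≤ a j ^ 11` (as `a (j+1) ^ 11 * 2 ≤ a (j+1) ^ 22 ≤ a j ^ 11`);
downward induction on `i`. -/
theorem sum_scales {w L : ℕ} {a : ℕ → ℕ} (hw : 2 ≤ w) (wa : ∀ i ≤ L, w ≤ a i)
    (sq : ∀ i < L, a (i + 1) ^ 2 ≤ a i) (i : ℕ) (hi : i ≤ L) :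
    ∑ j ∈ Icc i L, a j ^ 11 ≤ 2 * a i ^ 11 := by
  obtain ⟨d, hd⟩ : ∃ d, d = L - i := ⟨_, rfl⟩
  induction d generalizing i with
  | zero =>
    have : i = L := by omega
    subst this
    rw [Finset.Icc_self, Finset.sum_singleton]
    omega
  | succ d ih =>
    have h1 : Icc i L = insert i (Icc (i + 1) L) := by
      ext x
      rw [Finset.mem_insert, Finset.mem_Icc, Finset.mem_Icc]
      omega
    rw [h1, Finset.sum_insert (by rw [Finset.mem_Icc]; omega)]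
    have h2 := ih (i + 1) (by omega) (by omega)
    have h3 := sumA_step hw wa sq i (by omega)
    omega

theorem scales_anti {w L : ℕ} {a : ℕ → ℕ} (hw : 2 ≤ w) (wa : ∀ i ≤ L, w ≤ a i)
    (sq : ∀ i < L, a (i + 1) ^ 2 ≤ a i) {i j : ℕ} (hij : i ≤ j) (hj : j ≤ L) : a j ≤ a i := by
  induction j, hij using Nat.le_induction with
  | base => exact le_rfl
  | succ j hij ih =>
    have h1 := ih (by omega)
    have h2 := sq j (by omega)
    exact (Nat.le_self_pow (by norm_num) _).trans (h2.trans h1)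

/-- iterated squares -/
theorem scales_pow {w L : ℕ} {a : ℕ → ℕ} (hw : 2 ≤ w) (wa : ∀ i ≤ L, w ≤ a i)
    (sq : ∀ i < L, a (i + 1) ^ 2 ≤ a i) {i d : ℕ} (hj : i + d ≤ L) : a (i + d) ^ (2 ^ d) ≤ a i := by
  induction d with
  | zero => simp
  | succ d ih =>
    have h1 := ih (by omega)
    have h2 := sq (i + d) (by omega)
    calc a (i + (d + 1)) ^ 2 ^ (d + 1) = (a (i + d + 1) ^ 2) ^ 2 ^ d := by
          rw [← pow_mul, pow_succ 2 d, mul_comm 2, add_assoc]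
      _ ≤ a (i + d) ^ 2 ^ d := Nat.pow_le_pow_left h2 _
      _ ≤ a i := h1

end Pool.Agent.RamV
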