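import Pool.Agent.Lib.MP_078aef_co_v.Cls
import Pool.Agent.Lib.MP_078aef_co_v.SumA

/-! One step up in the levels. -/

namespace Pool.Agent.RamV

open Finset Pool.Agent.RamseyHam Pool.Agent.RamQ Pool.Agent.RamH

variable {V : Type*} [Fintype V] [DecidableEq V] {m r : ℕ} {G : SimpleGraph V}
  {h : V → Option (Fin m)} {ch : V → Finset V} {lev : V → ℕ} {I Es : Finset (El V r)}

/-- Proof. Let `z`, `z'` be hub vertices of level `≤ θ`, in hubs `B`, `B'`, not equivalent in colour `j`; `X = Xt ..`.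
`|B| > a (hl B) ^ 10 ≥ a θ ^ 10 ≥ |X|` (`hL.deg`, scales_anti), so there is `b ∈ B \ X`, and `b' ∈ B' \ X`; `ev h b = ev h z`.
`P` = the `v ∉ X` with a good chain to some `z1` with `Eqv j b z1`, `Q = univ \ X \ P`: non-adjacent by good_exists
(`v ∉ X` is not in `D`) and cls_two, Eqv.trans; `b ∈ P` (chain `[b]`), `b' ∈ Q` (the only chain from `b'` is `[b']`).
`hG.conn` gives the contradiction: the degrees of `b`, `b'` are at least `a θ ^ 10`. -/
theorem low_step {K k w : ℕ} {N : ℕ → ℕ} (hN : Nm K k w N) (hG : Hy G K w N) {hl : Fin m → ℕ}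
    {L : ℕ} {a : ℕ → ℕ} (hL : Lv G w h lev hl L a) (hc : Chd G h lev ch)
    (hS : Sit G h ch I Es) {E : Finset (El V r)} (hE : ∀ e, e ∈ E ↔ IsEl G h ch e)
    {D : Finset V} (hD : Cld ch (Oc ch I Es) D) {θ : ℕ} (hθ : θ ≤ L)
    (hlow : Low h lev ch I Es θ)
    (hno : ¬ ∃ (ρ : El V r → El V r) (g : El V r), Rer (ZMod 2) E (vt ch) (vc h) I Es ρ g)
    (hgood : N (Xt ch lev (Oc ch I Es) D θ).card + (Xt ch lev (Oc ch I Es) D θ).card ≤
      a θ ^ 10) : Low h lev ch I Es (θ + 1) := by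
  classical
  intro z z' hz hz' hlz hlz' j
  by_contra hne
  have hw : 2 ≤ w := le_trans (by norm_num) hN.two
  have key : ∀ z0, h z0 ≠ none → lev z0 < θ + 1 → ∃ b, b ∉ Xt ch lev (Oc ch I Es) D θ ∧
      h b ≠ none ∧ ev h b = ev h z0 ∧
      N (Xt ch lev (Oc ch I Es) D θ).card + (Xt ch lev (Oc ch I Es) D θ).card ≤
        (nb G b).card := by
    intro z0 hz0 hl0
    obtain ⟨i, hi⟩ := Option.ne_none_iff_exists'.1 hz0
    have h1 : hl i ≤ θ := by
      rw [← hL.hlev z0 i hi]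
      omega
    have h2 : a θ ^ 10 ≤ a (hl i) ^ 10 :=
      Nat.pow_le_pow_left (scales_anti hw hL.wa hL.sq h1 hθ) 10
    have h3 : (nb G z0 ∩ Hb h i).card < (Hb h i).card := by
      refine Finset.card_lt_card ⟨Finset.inter_subset_right, fun hsub => ?_⟩
      have h4 := Finset.mem_of_mem_inter_left (hsub (mem_Hb.2 hi))
      rw [mem_nb] at h4
      exact G.loopless.irrefl z0 h4
    have h4 := hL.deg z0 i hi
    have h5 : (Xt ch lev (Oc ch I Es) D θ).card < (Hb h i).card := by omega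
    obtain ⟨b, hb, hbX⟩ := Finset.exists_mem_notMem_of_card_lt_card h5
    have hb' := mem_Hb.1 hb
    refine ⟨b, hbX, by rw [hb']; exact Option.some_ne_none i, ?_, ?_⟩
    · unfold ev
      rw [hb', hi]
    · have h6 := hL.deg b i hb'
      have h7 : (nb G b ∩ Hb h i).card ≤ (nb G b).card :=
        Finset.card_le_card Finset.inter_subset_left
      omega
  obtain ⟨b, hbX, hbh, hbe, hbd⟩ := key z hz hlz
  obtain ⟨b', hbX', hbh', hbe', hbd'⟩ := key z' hz' hlz'
  have hDX : D ⊆ Xt ch lev (Oc ch I Es) D θ := by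
    intro x hx
    unfold Xt
    exact Finset.mem_union_left _ hx
  set P : Finset V := (univ \ Xt ch lev (Oc ch I Es) D θ).filter fun v =>
    ∃ l z1, Gc h ch (Aa ch I Es D) v l z1 ∧ Eqv h ch I Es j b z1 with hP
  refine hG.conn (Xt ch lev (Oc ch I Es) D θ) P ((univ \ Xt ch lev (Oc ch I Es) D θ) \ P) ?_ ?_ ?_
    b ?_ b' ?_ hbd hbd'
  · exact Finset.union_sdiff_of_subset (Finset.filter_subset _ _)
  · exact Finset.disjoint_sdiff
  · intro v hv v' hv' hadj
    rw [hP, Finset.mem_filter, Finset.mem_sdiff] at hv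
    rw [Finset.mem_sdiff, Finset.mem_sdiff] at hv'
    obtain ⟨⟨-, hvX⟩, l, z1, hl1, hz1⟩ := hv
    obtain ⟨⟨-, hvX'⟩, hvP'⟩ := hv'
    obtain ⟨l', z2, hl2⟩ := good_exists hc hS hD v' fun h1 => hvX' (hDX h1)
    apply hvP'
    rw [hP, Finset.mem_filter, Finset.mem_sdiff]
    exact ⟨⟨Finset.mem_univ _, hvX'⟩, l', z2, hl2,
      hz1.trans (cls_two hc hS hE hD hlow hno j hvX hvX' hadj hl1 hl2)⟩
  · rw [hP, Finset.mem_filter, Finset.mem_sdiff]
    refine ⟨⟨Finset.mem_univ _, hbX⟩, [b], b, ⟨Pth.hub b hbh, ?_⟩, Eqv.refl b⟩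
    intro x hx
    simp at hx
  · rw [Finset.mem_sdiff, Finset.mem_sdiff]
    refine ⟨⟨Finset.mem_univ _, hbX'⟩, fun h1 => ?_⟩
    rw [hP, Finset.mem_filter] at h1
    obtain ⟨-, l, z1, ⟨h2, -⟩, h3⟩ := h1
    cases h2 with
    | hub _ _ =>
      apply hne
      unfold Eqv at h3 ⊢
      rwa [hbe, hbe'] at h3
    | cons _ x l1 _ hx _ =>
      rw [hc.hub b' hbh'] at hx
      exact absurd hx (Finset.notMem_empty _)

end Pool.Agent.RamV
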