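import Pool.Agent.Lib.MP_078aef_co_v.Fol

/-! Chains of first choices. -/

namespace Pool.Agent.RamV

open Finset Pool.Agent.RamseyHam Pool.Agent.RamQ Pool.Agent.RamH

variable {V : Type*} [Fintype V] [DecidableEq V] {m r : ℕ} {G : SimpleGraph V}
  {h : V → Option (Fin m)} {ch : V → Finset V} {lev : V → ℕ} {mc : V → V} {n : ℕ}

omit [Fintype V] [DecidableEq V] in
private theorem YA_start (n : ℕ) (x : V) : x ∈ fol h mc n x := by
  cases n with
  | zero => exact List.mem_singleton.2 rfl
  | succ n =>
    unfold fol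
    split_ifs
    · exact List.mem_cons_self
    · exact List.mem_singleton.2 rfl

/-- Proof: induction on the chain. -/
theorem fol_eq (hc : Chd G h lev ch) {v z : V} {l : List V} (hp : Pth h ch v l z)
    (hnext : ∀ x ∈ l.tail, ∀ y, x ∈ ch y → x = mc y) (hn : lev v ≤ n) : fol h mc n v = l := by
  induction hp generalizing n with
  | hub v hv =>
    cases n with
    | zero => rfl
    | succ n =>
      unfold fol
      rw [if_neg hv]
  | cons v x l z hx hp ih =>
    have hv : h v = none := by
      by_contra hne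
      rw [hc.hub v hne] at hx
      exact absurd hx (Finset.notMem_empty x)
    have hlt := hc.lt v x hx
    obtain ⟨k, rfl⟩ : ∃ k, n = k + 1 := ⟨n - 1, by omega⟩
    have hxm : x = mc v := hnext x hp.mem_start v hx
    have h1 : fol h mc k x = l := ih (fun y hy => hnext y (List.mem_of_mem_tail hy)) (by omega)
    unfold fol
    rw [if_pos hv, ← hxm, h1]

/-- Proof: a common vertex `x` of largest level: `x = u` is impossible (`u ∈ fol w`, `u ≠ w`, so `u` is some `mc y`), so is
`x = w`; otherwise (fol_pred) `x = mc y = mc y'` with `y ∈ fol u`, `y' ∈ fol w` and `y = y'` (`Chd.uniq`), of larger level. -/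
theorem fol_disj (hc : Chd G h lev ch) (h1 : ∀ y, h y = none → mc y ∈ ch y) {u w : V}
    (huw : u ≠ w) (hu : ∀ y, h y = none → u ≠ mc y) (hw : ∀ y, h y = none → w ≠ mc y) :
    ∀ x ∈ fol h mc n u, x ∉ fol h mc n w := by
  classical
  intro x hx hx'
  have hne : (univ.filter (fun y => y ∈ fol h mc n u ∧ y ∈ fol h mc n w)).Nonempty :=
    ⟨x, mem_filter.2 ⟨mem_univ x, hx, hx'⟩⟩
  obtain ⟨y, hy, hmax⟩ := Finset.exists_max_image _ lev hne
  obtain ⟨-, hyu, hyw⟩ := mem_filter.1 hy
  rcases fol_pred n u y hyu with h2 | ⟨a, ha, ha', h2⟩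
  · rcases fol_pred n w y hyw with h3 | ⟨b, -, hb', h3⟩
    · exact huw (h2.symm.trans h3)
    · exact hu b hb' (h2.symm.trans h3)
  · rcases fol_pred n w y hyw with h3 | ⟨b, hb, hb', h3⟩
    · exact hw a ha' (h3.symm.trans h2)
    · have hya : y ∈ ch a := by
        rw [h2]
        exact h1 a ha'
      have hyb : y ∈ ch b := by
        rw [h3]
        exact h1 b hb'
      have hab := hc.uniq a b y hya hyb
      subst hab
      have h4 := hc.lt a y hya
      have h5 := hmax a (mem_filter.2 ⟨mem_univ a, ha, hb⟩)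
      omega

/-- Proof: go up: if `x` is not an `mc`-child take `z = x`, otherwise `x = mc y`, induction on `n - lev`; append fol_next. -/
theorem exists_top (hc : Chd G h lev ch) (h1 : ∀ y, h y = none → mc y ∈ ch y)
    (hn : ∀ y, lev y ≤ n) (x : V) :
    ∃ z, x ∈ fol h mc n z ∧ (∀ y, h y = none → z ≠ mc y) ∧ (z = x ∨ h z = none) := by
  induction hk : n - lev x using Nat.strong_induction_on generalizing x with
  | _ k ih =>
    by_cases hx : ∃ y, h y = none ∧ x = mc y
    · obtain ⟨y, hy, rfl⟩ := hx
      have hlt := hc.lt y (mc y) (h1 y hy)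
      have hle := hn y
      obtain ⟨z, hz, hz', hz''⟩ := ih (n - lev y) (by omega) y rfl
      have hzn : h z = none := by
        rcases hz'' with rfl | h3
        · exact hy
        · exact h3
      exact ⟨z, fol_next hc h1 n z (hn z) y hz hy, hz', Or.inr hzn⟩
    · push Not at hx
      exact ⟨x, YA_start n x, hx, Or.inl rfl⟩

end Pool.Agent.RamV
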