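import Pool.Agent.Lib.MP_078aef_co_v.YA
import Pool.Agent.Lib.MP_078aef_co_h.Euler

/-! Paths made of two chains. -/

namespace Pool.Agent.RamV

open Finset Pool.Agent.RamseyHam Pool.Agent.RamQ Pool.Agent.RamH

variable {V : Type*} [Fintype V] [DecidableEq V] {m r : ℕ} {G : SimpleGraph V}
  {h : V → Option (Fin m)} {ch : V → Finset V} {lev : V → ℕ} {mc : V → V} {n : ℕ}

/-- the path through the adjacent tops `u`, `w` -/
def jn (h : V → Option (Fin m)) (mc : V → V) (n : ℕ) (c : V × V) : List V :=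
  (fol h mc n c.1).reverse ++ fol h mc n c.2

/-- a set of pairs of adjacent tops, all different -/
structure Tops (G : SimpleGraph V) (h : V → Option (Fin m)) (mc : V → V)
    (P : Finset (V × V)) : Prop where
  adj : ∀ c ∈ P, G.Adj c.1 c.2
  top1 : ∀ c ∈ P, ∀ y, h y = none → c.1 ≠ mc y
  top2 : ∀ c ∈ P, ∀ y, h y = none → c.2 ≠ mc y
  d11 : ∀ c ∈ P, ∀ c' ∈ P, c ≠ c' → c.1 ≠ c'.1
  d22 : ∀ c ∈ P, ∀ c' ∈ P, c ≠ c' → c.2 ≠ c'.2
  d12 : ∀ c ∈ P, ∀ c' ∈ P, c.1 ≠ c'.2

/-- Proof: fol_pth, Pth.chain, Pth.nodup, Pth.mid, fol_disj; the first and the last vertex of the list are the ends of the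
two chains. -/
theorem jn_cn (hc : Chd G h lev ch) (h1 : ∀ y, h y = none → mc y ∈ ch y)
    (hn : ∀ y, lev y ≤ n) {P : Finset (V × V)} (hP : Tops G h mc P) {c : V × V} (hcP : c ∈ P) :
    IsCn G h (jn h mc n c) := by
  obtain ⟨z1, hz1⟩ := fol_pth hc h1 n c.1 (hn _)
  obtain ⟨z2, hz2⟩ := fol_pth hc h1 n c.2 (hn _)
  have hadj := hP.adj c hcP
  have hdis := fol_disj (n := n) hc h1 hadj.ne (hP.top1 c hcP) (hP.top2 c hcP)
  unfold jn
  generalize fol h mc n c.1 = l1 at hz1 hdis ⊢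
  generalize fol h mc n c.2 = l2 at hz2 hdis ⊢
  have n1 := hz1.nodup hc
  have n2 := hz2.nodup hc
  refine ⟨?_, ?_, ?_⟩
  · rw [List.isChain_append]
    refine ⟨?_, hz2.chain hc, ?_⟩
    · rw [List.isChain_reverse]
      exact (hz1.chain hc).imp fun a b hab => SimpleGraph.Adj.symm hab
    · obtain ⟨t1, ht1⟩ := hz1.head
      obtain ⟨t2, ht2⟩ := hz2.head
      intro x hx y hy
      rw [List.getLast?_reverse, ht1, List.head?_cons, Option.mem_some_iff] at hx
      rw [ht2, List.head?_cons, Option.mem_some_iff] at hy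
      rw [← hx, ← hy]
      exact hadj
  · rw [List.nodup_append']
    refine ⟨List.nodup_reverse.2 n1, n2, ?_⟩
    intro x hx hx'
    exact hdis x (List.mem_reverse.1 hx) hx'
  · obtain ⟨a1, ha1⟩ : ∃ a1, l1 = a1 ++ [z1] := by
      obtain ⟨a1, ha1⟩ := List.getLast?_eq_some_iff.1 hz1.last
      exact ⟨a1, ha1⟩
    obtain ⟨a2, ha2⟩ : ∃ a2, l2 = a2 ++ [z2] := by
      obtain ⟨a2, ha2⟩ := List.getLast?_eq_some_iff.1 hz2.last
      exact ⟨a2, ha2⟩
    have m1 : ∀ v ∈ a1, h v = none := by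
      intro v hv
      refine hz1.mid hc v (by rw [ha1]; exact List.mem_append_left _ hv) ?_
      rintro rfl
      rw [ha1, List.nodup_append'] at n1
      exact n1.2.2 hv (List.mem_singleton_self _)
    have m2 : ∀ v ∈ a2, h v = none := by
      intro v hv
      refine hz2.mid hc v (by rw [ha2]; exact List.mem_append_left _ hv) ?_
      rintro rfl
      rw [ha2, List.nodup_append'] at n2
      exact n2.2.2 hv (List.mem_singleton_self _)
    refine ⟨z1, a1.reverse ++ a2, z2, ?_, hz1.hub_end, hz2.hub_end, ?_⟩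
    · rw [ha1, ha2, List.reverse_append]
      simp
    · intro v hv
      rcases List.mem_append.1 hv with hv | hv
      · exact m1 v (List.mem_reverse.1 hv)
      · exact m2 v hv

/-- Proof: fol_disj for the four pairs of tops. -/
theorem jn_disj (hc : Chd G h lev ch) (h1 : ∀ y, h y = none → mc y ∈ ch y)
    (hn : ∀ y, lev y ≤ n) {P : Finset (V × V)} (hP : Tops G h mc P) {c c' : V × V} (hcP : c ∈ P)
    (hcP' : c' ∈ P) (hne : c ≠ c') : ∀ v ∈ jn h mc n c, v ∉ jn h mc n c' := by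
  have e11 := fol_disj (n := n) hc h1 (hP.d11 c hcP c' hcP' hne) (hP.top1 c hcP)
    (hP.top1 c' hcP')
  have e22 := fol_disj (n := n) hc h1 (hP.d22 c hcP c' hcP' hne) (hP.top2 c hcP)
    (hP.top2 c' hcP')
  have e12 := fol_disj (n := n) hc h1 (hP.d12 c hcP c' hcP') (hP.top1 c hcP)
    (hP.top2 c' hcP')
  have e21 := fol_disj (n := n) hc h1 (hP.d12 c' hcP' c hcP).symm (hP.top2 c hcP)
    (hP.top1 c' hcP')
  intro v hv hv'
  unfold jn at hv hv'
  rw [List.mem_append, List.mem_reverse] at hv hv'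
  rcases hv with hv | hv <;> rcases hv' with hv' | hv'
  · exact e11 v hv hv'
  · exact e12 v hv hv'
  · exact e21 v hv hv'
  · exact e22 v hv hv'

/-- the sum of the vectors of a disjoint family is the sum of the vectors of its vertices.
Proof: `vec h l = ∑ x ∈ l.toFinset, ev h x` as `l` has no repetition; Finset.sum_biUnion. -/
theorem sum_vec {C : Finset (List V)} (hnd : ∀ l ∈ C, l.Nodup)
    (hd : ∀ l ∈ C, ∀ l' ∈ C, l ≠ l' → ∀ v ∈ l, v ∉ l') :
    ∑ l ∈ C, vec h l = ∑ x ∈ C.biUnion List.toFinset, ev h x := by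
  have hpd : Set.PairwiseDisjoint (C : Set (List V)) (List.toFinset : List V → Finset V) := by
    intro l hl l' hl' hne
    change Disjoint l.toFinset l'.toFinset
    rw [disjoint_left]
    intro v hv hv'
    exact hd l (mem_coe.1 hl) l' (mem_coe.1 hl') hne v (List.mem_toFinset.1 hv)
      (List.mem_toFinset.1 hv')
  rw [sum_biUnion hpd]
  refine sum_congr rfl fun l hl => ?_
  rw [List.sum_toFinset _ (hnd l hl)]
  rfl

end Pool.Agent.RamV
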