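import Pool.Agent.Lib.MP_078aef_co_v.YAB
import Pool.Agent.Lib.MP_078aef_co_v.ElM

/-! Two children of every vertex outside the hubs. -/

namespace Pool.Agent.RamV

open Finset Pool.Agent.RamseyHam Pool.Agent.RamQ Pool.Agent.RamH

variable {V : Type*} [Fintype V] [DecidableEq V] {m r : ℕ} {G : SimpleGraph V}
  {h : V → Option (Fin m)} {ch : V → Finset V} {lev : V → ℕ} {Fm Fo S : Finset (El V r)}
  {mc ac : V → V} {st : V → Prop}

/-- two different children of every vertex outside the hubs, not ports, `mc` = next on the chains of `Fm`,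
`ac` = next on the chains of `Fo` -/
structure Cho (h : V → Option (Fin m)) (ch : V → Finset V) (Fm Fo : Finset (El V r))
    (mc ac : V → V) : Prop where
  m1 : ∀ y, h y = none → mc y ∈ ch y
  a1 : ∀ y, h y = none → ac y ∈ ch y
  ne : ∀ y, h y = none → mc y ≠ ac y
  mp : ∀ y, h y = none → mc y ∉ (Fm ∪ Fo).biUnion pts
  ap : ∀ y, h y = none → ac y ∉ (Fm ∪ Fo).biUnion pts
  mn : ∀ e ∈ Fm, ∀ x ∈ vs e, x ∉ pts e → ∀ y, x ∈ ch y → x = mc y
  an : ∀ e ∈ Fo, ∀ x ∈ vs e, x ∉ pts e → ∀ y, x ∈ ch y → x = ac y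

private theorem yb_mem (hel : ∀ e ∈ Fm ∪ Fo, IsEl G h ch e) (hcmp : Cmp ch (Fm ∪ Fo))
    {e : El V r} (he : e ∈ Fm ∪ Fo) {x y : V} (hx : x ∈ vs e) (hp : x ∉ pts e) (hy : x ∈ ch y) :
    x ∈ ch y ∩ (Ov (Fm ∪ Fo) \ (Fm ∪ Fo).biUnion pts) := by
  rw [Finset.mem_inter, Finset.mem_sdiff]
  refine ⟨hy, Finset.mem_biUnion.2 ⟨e, he, hx⟩, fun h1 => ?_⟩
  obtain ⟨f, hf, hxf⟩ := Finset.mem_biUnion.1 h1
  have hne : e ≠ f := by
    rintro rfl
    exact hp hxf
  obtain ⟨v, v', z, z', hok⟩ := hel f hf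
  exact Finset.disjoint_left.1 (disj_vt.1 (hcmp e he f hf hne)).1 hx (hok.pts_sub hxf)

private theorem yb_one (hc : Chd G h lev ch) (hel : ∀ e ∈ Fm ∪ Fo, IsEl G h ch e)
    (hcmp : Cmp ch (Fm ∪ Fo)) (hd : Disjoint Fm Fo) (y : V) (hy : h y = none) :
    ∃ a b : V, a ∈ ch y ∧ b ∈ ch y ∧ a ≠ b ∧ a ∉ (Fm ∪ Fo).biUnion pts ∧
      b ∉ (Fm ∪ Fo).biUnion pts ∧ (∀ e ∈ Fm, ∀ x ∈ vs e, x ∉ pts e → x ∈ ch y → x = a) ∧
      ∀ e ∈ Fo, ∀ x ∈ vs e, x ∉ pts e → x ∈ ch y → x = b := by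
  have h1 := ports_card hel hcmp y
  have h2 := nonports_card hc hel hcmp y
  have h3 := hc.card y hy
  have hmem : ∀ e ∈ Fm ∪ Fo, ∀ x ∈ vs e, x ∉ pts e → x ∈ ch y →
      x ∈ ch y ∩ (Ov (Fm ∪ Fo) \ (Fm ∪ Fo).biUnion pts) := fun e he x hx hp hxy =>
    yb_mem hel hcmp he hx hp hxy
  obtain ⟨P, hP⟩ : ∃ P, P = (Fm ∪ Fo).biUnion pts := ⟨_, rfl⟩
  obtain ⟨N, hN⟩ : ∃ N, N = ch y ∩ (Ov (Fm ∪ Fo) \ (Fm ∪ Fo).biUnion pts) := ⟨_, rfl⟩
  rw [← hN] at h2
  rw [← hP] at h1 ⊢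
  simp only [← hN] at hmem
  have h4 : 1 < ((ch y \ P) \ N).card := by
    have h5 := Finset.card_sdiff_add_card_inter (ch y) P
    have h6 := Finset.le_card_sdiff N (ch y \ P)
    omega
  obtain ⟨a, ha, b, hb, hab⟩ := Finset.one_lt_card.1 h4
  rw [Finset.mem_sdiff, Finset.mem_sdiff] at ha hb
  rcases N.eq_empty_or_nonempty with hE | ⟨x₀, hx₀⟩
  · refine ⟨a, b, ha.1.1, hb.1.1, hab, ha.1.2, hb.1.2, fun e he x hx hp hxy => ?_,
      fun e he x hx hp hxy => ?_⟩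
    · have := hmem e (Finset.mem_union_left _ he) x hx hp hxy
      rw [hE] at this
      exact absurd this (Finset.notMem_empty x)
    · have := hmem e (Finset.mem_union_right _ he) x hx hp hxy
      rw [hE] at this
      exact absurd this (Finset.notMem_empty x)
  · have huni : ∀ x ∈ N, x = x₀ := fun x hx => Finset.card_le_one.1 h2 x hx x₀ hx₀
    have hx₁ := hx₀
    rw [hN, Finset.mem_inter, Finset.mem_sdiff, ← hP] at hx₁
    obtain ⟨hxy, hxO, hxP⟩ := hx₁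
    obtain ⟨e₀, he₀, hxe⟩ := Finset.mem_biUnion.1 hxO
    have hane : a ≠ x₀ := by
      rintro rfl
      exact ha.2 hx₀
    have hdis : ∀ e ∈ Fm ∪ Fo, e ≠ e₀ → ∀ x ∈ vs e, x ∉ pts e → x ∈ ch y → False := by
      intro e he hne x hx hp hxc
      have h5 := huni x (hmem e he x hx hp hxc)
      rw [h5] at hx
      exact Finset.disjoint_left.1 (disj_vt.1 (hcmp e he e₀ he₀ hne)).1 hx hxe
    rcases Finset.mem_union.1 he₀ with h0 | h0
    · refine ⟨x₀, a, hxy, ha.1.1, hane.symm, hxP, ha.1.2, fun e he x hx hp hxc =>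
        huni x (hmem e (Finset.mem_union_left _ he) x hx hp hxc), fun e he x hx hp hxc => ?_⟩
      refine (hdis e (Finset.mem_union_right _ he) ?_ x hx hp hxc).elim
      rintro rfl
      exact Finset.disjoint_left.1 hd h0 he
    · refine ⟨a, x₀, ha.1.1, hxy, hane, ha.1.2, hxP, fun e he x hx hp hxc => ?_,
        fun e he x hx hp hxc => huni x (hmem e (Finset.mem_union_right _ he) x hx hp hxc)⟩
      refine (hdis e (Finset.mem_union_left _ he) ?_ x hx hp hxc).elim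
      rintro rfl
      exact Finset.disjoint_left.1 hd he h0

/-- Proof. For `y` outside the hubs: at most 5 children are ports (ports_card), at most one child is a vertex of a member of
`Fm ∪ Fo` but not a port of a member (nonports_card); vertices of members which are ports of no member.  A vertex `x ∈ vs e`, `x ∉ pts e`
is not a port of another member (different members are disjoint).  If `x` is such a child for `e ∈ Fm` put `mc y = x`, if for `e ∈ Fo` put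
`ac y = x`, and choose the rest among the at least 14 other children. -/
theorem cho_exists (hc : Chd G h lev ch) (hel : ∀ e ∈ Fm ∪ Fo, IsEl G h ch e)
    (hcmp : Cmp ch (Fm ∪ Fo)) (hd : Disjoint Fm Fo) : ∃ mc ac : V → V, Cho h ch Fm Fo mc ac := by
  have key : ∀ y : V, ∃ a b : V, (h y = none → a ∈ ch y ∧ b ∈ ch y ∧ a ≠ b ∧
      a ∉ (Fm ∪ Fo).biUnion pts ∧ b ∉ (Fm ∪ Fo).biUnion pts) ∧
      (∀ e ∈ Fm, ∀ x ∈ vs e, x ∉ pts e → x ∈ ch y → x = a) ∧
      ∀ e ∈ Fo, ∀ x ∈ vs e, x ∉ pts e → x ∈ ch y → x = b := by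
    intro y
    by_cases hy : h y = none
    · obtain ⟨a, b, h1, h2, h3, h4, h5, h6, h7⟩ := yb_one hc hel hcmp hd y hy
      exact ⟨a, b, fun _ => ⟨h1, h2, h3, h4, h5⟩, h6, h7⟩
    · have h0 := hc.hub y hy
      refine ⟨y, y, fun h1 => absurd h1 hy, fun e _ x _ _ hx => ?_, fun e _ x _ _ hx => ?_⟩
      · rw [h0] at hx
        exact absurd hx (Finset.notMem_empty x)
      · rw [h0] at hx
        exact absurd hx (Finset.notMem_empty x)
  choose mc ac h1 h2 h3 using key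
  exact ⟨mc, ac, ⟨fun y hy => (h1 y hy).1, fun y hy => (h1 y hy).2.1,
    fun y hy => (h1 y hy).2.2.1, fun y hy => (h1 y hy).2.2.2.1,
    fun y hy => (h1 y hy).2.2.2.2, fun e he x hx hp y hxy => h2 y e he x hx hp hxy,
    fun e he x hx hp y hxy => h3 y e he x hx hp hxy⟩⟩

end Pool.Agent.RamV
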