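import Pool.Agent.Lib.MP_078aef_co_v.YB

/-! The start vertices. -/

namespace Pool.Agent.RamV

open Finset Pool.Agent.RamseyHam Pool.Agent.RamQ Pool.Agent.RamH

variable {V : Type*} [Fintype V] [DecidableEq V] {m r : ℕ} {G : SimpleGraph V}
  {h : V → Option (Fin m)} {ch : V → Finset V} {lev : V → ℕ} {Fm Fo S : Finset (El V r)}
  {mc ac : V → V} {st : V → Prop}

/-- the start predicate for the set `S` of the switched-on elements -/
def IsSt (h : V → Option (Fin m)) (mc ac : V → V) (S : Finset (El V r)) (st : V → Prop) : Prop :=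
  ∀ x, st x ↔ x ∉ S.biUnion pts ∧ (∀ y, h y = none → x ≠ mc y) ∧
    ∀ y, h y = none → x = ac y → ¬ st y

/-- Proof: recursion from high to low levels (`lev (ac y) < lev y`): define `st` on the vertices of level `≥ n - i` by
induction on `i`, or well-founded recursion on `n - lev x`. -/
theorem st_exists (hc : Chd G h lev ch) (hcho : Cho h ch Fm Fo mc ac) (S : Finset (El V r)) :
    ∃ st : V → Prop, IsSt h mc ac S st := by
  classical
  obtain ⟨N, hN⟩ : ∃ N : ℕ, ∀ x, lev x ≤ N :=
    ⟨univ.sup lev, fun x => le_sup (f := lev) (mem_univ x)⟩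
  have wf : WellFounded (fun y x : V => lev x < lev y) := by
    refine Subrelation.wf (r := InvImage (· < ·) fun x => N - lev x) ?_ (InvImage.wf _ wellFounded_lt)
    intro y x hyx
    have h1 := hN x
    have h2 := hN y
    change N - lev y < N - lev x
    omega
  have hlt : ∀ y x, h y = none → x = ac y → lev x < lev y := by
    intro y x hy hx
    rw [hx]
    exact hc.lt y _ (hcho.a1 y hy)
  refine ⟨wf.fix (fun x rec => x ∉ S.biUnion pts ∧ (∀ y, h y = none → x ≠ mc y) ∧
    ∀ (y : V) (hy : h y = none) (hx : x = ac y), ¬ rec y (hlt y x hy hx)), ?_⟩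
  intro x
  rw [wf.fix_eq]

/-- the pairs of tops -/
noncomputable def Tp (h : V → Option (Fin m)) (ac : V → V) (S : Finset (El V r))
    (st : V → Prop) : Finset (V × V) := by
  classical exact univ.filter (fun c => (∃ e ∈ S, e.p.head? = some c.1 ∧ e.q.head? = some c.2) ∨
    (h c.1 = none ∧ st c.1 ∧ c.2 = ac c.1))

/-- Proof: ports are no `mc`- or `ac`-children; a start vertex is no `mc`-child and no port of `S`; for a start vertex `y` the vertex `ac y` is
no port, not `mc y'` (`Chd.uniq`, `ne`), and not a start vertex; `ac` is injective (`Chd.uniq`); ports of different members of `S` are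
different, `v ≠ v'` (adjacent). -/
theorem tops (hc : Chd G h lev ch) (hcho : Cho h ch Fm Fo mc ac)
    (hel : ∀ e ∈ Fm ∪ Fo, IsEl G h ch e) (hcmp : Cmp ch (Fm ∪ Fo)) (hS : S ⊆ Fm ∪ Fo)
    (hst : IsSt h mc ac S st) : Tops G h mc (Tp h ac S st) := by
  classical
  have hel1 : ∀ e ∈ S, ∀ a b, e.p.head? = some a → e.q.head? = some b →
      a ∈ pts e ∧ b ∈ pts e ∧ a ∈ vs e ∧ b ∈ vs e ∧ G.Adj a b := by
    intro e he a b ha hb
    obtain ⟨v, v', z, z', ok⟩ := hel e (hS he)
    obtain ⟨t, ht⟩ := ok.p.head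
    obtain ⟨t', ht'⟩ := ok.q.head
    rw [ht, List.head?_cons] at ha
    rw [ht', List.head?_cons] at hb
    have ea : v = a := Option.some.inj ha
    have eb : v' = b := Option.some.inj hb
    subst ea
    subst eb
    have h1 : v ∈ pts e := ok.mem_pts.2 (Or.inl rfl)
    have h2 : v' ∈ pts e := ok.mem_pts.2 (Or.inr rfl)
    exact ⟨h1, h2, ok.pts_sub h1, ok.pts_sub h2, ok.adj⟩
  have hvs : ∀ e ∈ S, ∀ f ∈ S, e ≠ f → ∀ x ∈ vs e, x ∉ vs f := by
    intro e he f hf hef x hx
    have h1 := (disj_vt.1 (hcmp e (hS he) f (hS hf) hef)).1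
    exact Finset.disjoint_left.1 h1 hx
  have hpS : ∀ e ∈ S, ∀ x ∈ pts e, x ∈ S.biUnion pts := fun e he x hx => mem_biUnion.2 ⟨e, he, hx⟩
  have hpF : ∀ e ∈ S, ∀ x ∈ pts e, x ∈ (Fm ∪ Fo).biUnion pts := fun e he x hx =>
    mem_biUnion.2 ⟨e, hS he, hx⟩
  have hmem : ∀ c : V × V, c ∈ Tp h ac S st →
      (∃ e ∈ S, e.p.head? = some c.1 ∧ e.q.head? = some c.2) ∨
        (h c.1 = none ∧ st c.1 ∧ c.2 = ac c.1) := by
    intro c hcT
    unfold Tp at hcT
    exact (mem_filter.1 hcT).2
  refine ⟨?_, ?_, ?_, ?_, ?_, ?_⟩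
  · intro c hcT
    rcases hmem c hcT with ⟨e, he, h1, h2⟩ | ⟨h1, h2, h3⟩
    · exact (hel1 e he _ _ h1 h2).2.2.2.2
    · rw [h3]
      exact hc.adj _ _ (hcho.a1 _ h1)
  · intro c hcT y hy
    rcases hmem c hcT with ⟨e, he, h1, h2⟩ | ⟨h1, h2, h3⟩
    · intro h4
      apply hcho.mp y hy
      rw [← h4]
      exact hpF e he _ (hel1 e he _ _ h1 h2).1
    · exact ((hst _).1 h2).2.1 y hy
  · intro c hcT y hy
    rcases hmem c hcT with ⟨e, he, h1, h2⟩ | ⟨h1, h2, h3⟩
    · intro h4
      apply hcho.mp y hy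
      rw [← h4]
      exact hpF e he _ (hel1 e he _ _ h1 h2).2.1
    · intro h4
      rw [h3] at h4
      have h5 := hcho.a1 _ h1
      have h6 := hcho.m1 y hy
      rw [← h4] at h6
      have h7 := hc.uniq _ _ _ h5 h6
      rw [h7] at h4
      exact hcho.ne y hy h4.symm
  · intro c hcT c' hcT' hne h0
    rcases hmem c hcT with ⟨e, he, h1, h2⟩ | ⟨h1, h2, h3⟩ <;>
      rcases hmem c' hcT' with ⟨e', he', h1', h2'⟩ | ⟨h1', h2', h3'⟩
    · by_cases hee : e = e'
      · subst hee
        apply hne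
        rw [h2] at h2'
        exact Prod.ext h0 (Option.some.inj h2')
      · have a1 := (hel1 e he _ _ h1 h2).2.2.1
        have a2 := (hel1 e' he' _ _ h1' h2').2.2.1
        rw [← h0] at a2
        exact hvs e he e' he' hee _ a1 a2
    · have a1 := hpS e he _ (hel1 e he _ _ h1 h2).1
      rw [h0] at a1
      exact ((hst _).1 h2').1 a1
    · have a1 := hpS e' he' _ (hel1 e' he' _ _ h1' h2').1
      rw [← h0] at a1
      exact ((hst _).1 h2).1 a1
    · apply hne
      refine Prod.ext h0 ?_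
      rw [h3, h3', h0]
  · intro c hcT c' hcT' hne h0
    rcases hmem c hcT with ⟨e, he, h1, h2⟩ | ⟨h1, h2, h3⟩ <;>
      rcases hmem c' hcT' with ⟨e', he', h1', h2'⟩ | ⟨h1', h2', h3'⟩
    · by_cases hee : e = e'
      · subst hee
        apply hne
        rw [h1] at h1'
        exact Prod.ext (Option.some.inj h1') h0
      · have a1 := (hel1 e he _ _ h1 h2).2.2.2.1
        have a2 := (hel1 e' he' _ _ h1' h2').2.2.2.1
        rw [← h0] at a2
        exact hvs e he e' he' hee _ a1 a2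
    · apply hcho.ap _ h1'
      rw [← h3', ← h0]
      exact hpF e he _ (hel1 e he _ _ h1 h2).2.1
    · apply hcho.ap _ h1
      rw [← h3, h0]
      exact hpF e' he' _ (hel1 e' he' _ _ h1' h2').2.1
    · apply hne
      have a1 := hcho.a1 _ h1
      have a2 := hcho.a1 _ h1'
      rw [← h3, h0, h3'] at a1
      have a3 := hc.uniq _ _ _ a1 a2
      exact Prod.ext a3 h0
  · intro c hcT c' hcT' h0
    rcases hmem c hcT with ⟨e, he, h1, h2⟩ | ⟨h1, h2, h3⟩ <;>
      rcases hmem c' hcT' with ⟨e', he', h1', h2'⟩ | ⟨h1', h2', h3'⟩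
    · by_cases hee : e = e'
      · subst hee
        have a1 := (hel1 e he _ _ h1 h2).2.2.2.2
        rw [h2] at h2'
        have a2 := Option.some.inj h2'
        rw [a2, ← h0] at a1
        exact G.loopless.irrefl _ a1
      · have a1 := (hel1 e he _ _ h1 h2).2.2.1
        have a2 := (hel1 e' he' _ _ h1' h2').2.2.2.1
        rw [← h0] at a2
        exact hvs e he e' he' hee _ a1 a2
    · apply hcho.ap _ h1'
      rw [← h3', ← h0]
      exact hpF e he _ (hel1 e he _ _ h1 h2).1
    · have a1 := hpS e' he' _ (hel1 e' he' _ _ h1' h2').2.1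
      rw [← h0] at a1
      exact ((hst _).1 h2).1 a1
    · rw [h3'] at h0
      exact ((hst _).1 h2).2.2 _ h1' h0 h2'

end Pool.Agent.RamV
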