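import Pool.Agent.Lib.MP_078aef_co_v.YBA

/-! The covered vertices. -/

namespace Pool.Agent.RamV

open Finset Pool.Agent.RamseyHam Pool.Agent.RamQ Pool.Agent.RamH

variable {V : Type*} [Fintype V] [DecidableEq V] {m r : ℕ} {G : SimpleGraph V}
  {h : V → Option (Fin m)} {ch : V → Finset V} {lev : V → ℕ} {Fm Fo S : Finset (El V r)}
  {mc ac : V → V} {st : V → Prop}

private theorem mem_take_one {V : Type*} [DecidableEq V] {l : List V} {x : V} :
    x ∈ (l.take 1).toFinset ↔ l.head? = some x := by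
  cases l with
  | nil => simp
  | cons a l => simp [eq_comm]

omit [Fintype V] in
private theorem mem_pts_iff {e : El V r} {x : V} :
    x ∈ pts e ↔ e.p.head? = some x ∨ e.q.head? = some x := by
  unfold pts
  rw [Finset.mem_union, mem_take_one, mem_take_one]

omit [Fintype V] [DecidableEq V] in
private theorem mem_jn {n : ℕ} {c : V × V} {x : V} :
    x ∈ jn h mc n c ↔ x ∈ fol h mc n c.1 ∨ x ∈ fol h mc n c.2 := by
  unfold jn
  rw [List.mem_append, List.mem_reverse]

/-- the covered vertices.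
Proof: exists_top: `x ∈ fol z`, `z` no `mc`-child.  If `z` is a port of `S` or `z = ac y` with `st y` then `z` is a member of a pair; otherwise
`st z` (if `z = ac y` then `¬ st y`), and if `h z = none` the pair `(z, ac z)` is in `Tp`.  If `h z ≠ none` then `z = x` and
`st x`.  Conversely let `h x ≠ none`, `st x`, `x ∈ fol z` for a top `z` of a pair: `z = x` (else `x` is an `mc`-child), but `x` is no port of `S`, not
`ac y` with `st y`, and `h x ≠ none`. -/
theorem covered (hc : Chd G h lev ch) (hcho : Cho h ch Fm Fo mc ac)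
    (hst : IsSt h mc ac S st) (hS : S ⊆ Fm ∪ Fo) (hel : ∀ e ∈ Fm ∪ Fo, IsEl G h ch e)
    {n : ℕ} (hn : ∀ y, lev y ≤ n) (x : V) :
    (∃ c ∈ Tp h ac S st, x ∈ jn h mc n c) ↔ (h x = none ∨ ¬ st x) := by
  classical
  constructor
  · rintro ⟨c, hcT, hx⟩
    by_contra hcon
    rw [not_or, not_not] at hcon
    obtain ⟨hx1, hx2⟩ := hcon
    obtain ⟨hs1, hs2, hs3⟩ := (hst x).1 hx2
    rw [Tp, Finset.mem_filter] at hcT
    have hT := hcT.2
    have hpts : ∀ e ∈ S, x ∉ pts e := fun e he hxe => hs1 (Finset.mem_biUnion.2 ⟨e, he, hxe⟩)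
    rcases mem_jn.1 hx with hx' | hx'
    · rcases fol_pred n c.1 x hx' with h1 | ⟨u, _, hu, hxu⟩
      · rcases hT with ⟨e, he, h2, _⟩ | ⟨h2, _, _⟩
        · exact hpts e he (mem_pts_iff.2 (Or.inl (by rw [h2, h1])))
        · exact hx1 (by rw [h1]; exact h2)
      · exact hs2 u hu hxu
    · rcases fol_pred n c.2 x hx' with h1 | ⟨u, _, hu, hxu⟩
      · rcases hT with ⟨e, he, _, h2⟩ | ⟨h2, h3, h4⟩
        · exact hpts e he (mem_pts_iff.2 (Or.inr (by rw [h2, h1])))
        · exact hs3 c.1 h2 (h1.trans h4) h3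
      · exact hs2 u hu hxu
  · intro hx
    obtain ⟨z, hz1, hz2, hz3⟩ := exists_top hc hcho.m1 hn x
    by_cases h1 : z ∈ S.biUnion pts
    · obtain ⟨e, he, hze⟩ := Finset.mem_biUnion.1 h1
      obtain ⟨v, v', w, w', hok⟩ := hel e (hS he)
      obtain ⟨t, ht⟩ := hok.p.head
      obtain ⟨t', ht'⟩ := hok.q.head
      refine ⟨(v, v'), ?_, mem_jn.2 ?_⟩
      · rw [Tp, Finset.mem_filter]
        exact ⟨Finset.mem_univ _, Or.inl ⟨e, he, by rw [ht]; rfl, by rw [ht']; rfl⟩⟩
      · rcases hok.mem_pts.1 hze with h2 | h2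
        · exact Or.inl (h2 ▸ hz1)
        · exact Or.inr (h2 ▸ hz1)
    by_cases h2 : ∃ y, h y = none ∧ z = ac y ∧ st y
    · obtain ⟨y, hy1, hy2, hy3⟩ := h2
      refine ⟨(y, ac y), ?_, mem_jn.2 (Or.inr (hy2 ▸ hz1))⟩
      rw [Tp, Finset.mem_filter]
      exact ⟨Finset.mem_univ _, Or.inr ⟨hy1, hy3, rfl⟩⟩
    have hstz : st z := (hst z).2 ⟨h1, hz2, fun y hy hzy hsy => h2 ⟨y, hy, hzy, hsy⟩⟩
    have hzn : h z = none := by
      rcases hz3 with h3 | h3
      · rw [h3] at hstz ⊢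
        exact hx.resolve_right (not_not.2 hstz)
      · exact h3
    refine ⟨(z, ac z), ?_, mem_jn.2 (Or.inl hz1)⟩
    rw [Tp, Finset.mem_filter]
    exact ⟨Finset.mem_univ _, Or.inr ⟨hzn, hstz, rfl⟩⟩

end Pool.Agent.RamV
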