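import Pool.Agent.Lib.MP_078aef_co_v.YBA

/-! Switching on one element. -/

namespace Pool.Agent.RamV

open Finset Pool.Agent.RamseyHam Pool.Agent.RamQ Pool.Agent.RamH

variable {V : Type*} [Fintype V] [DecidableEq V] {m r : ℕ} {G : SimpleGraph V}
  {h : V → Option (Fin m)} {ch : V → Finset V} {lev : V → ℕ} {Fm Fo S : Finset (El V r)}
  {mc ac : V → V} {st : V → Prop}

omit [Fintype V] in
private theorem next_mem {v z y : V} {l : List V} (hp : Pth h ch v l z) (hy : y ∈ l)
    (hyn : h y = none) : ∃ x ∈ l.tail, x ∈ ch y := by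
  obtain ⟨l1, l2, rfl, h2⟩ := hp.sub y hy
  cases h2 with
  | hub _ h3 => exact absurd hyn h3
  | cons _ x l' _ hx h3 =>
    refine ⟨x, ?_, hx⟩
    have h4 := h3.mem_start
    cases l1 with
    | nil => exact h4
    | cons a l1 =>
      rw [List.cons_append, List.tail_cons]
      exact List.mem_append_right _ (List.mem_cons_of_mem _ h4)

/-- the successor on an element of a vertex outside the hubs -/
private theorem next_vs (hc : Chd G h lev ch) {e : El V r} (he : IsEl G h ch e) {y : V}
    (hy : y ∈ vs e) (hyn : h y = none) : ∃ x ∈ vs e, x ∉ pts e ∧ x ∈ ch y := by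
  obtain ⟨v, v', z, z', he⟩ := he
  rcases mem_vs.1 hy with h1 | h1
  · obtain ⟨x, hx, hxy⟩ := next_mem he.p h1 hyn
    obtain ⟨t, ht⟩ := he.p.head
    have hxp : x ∈ e.p := List.mem_of_mem_tail hx
    refine ⟨x, mem_vs.2 (Or.inl hxp), fun h2 => ?_, hxy⟩
    rcases he.mem_pts.1 h2 with rfl | rfl
    · have h3 := he.p.nodup hc
      rw [ht] at h3 hx
      exact (List.nodup_cons.1 h3).1 hx
    · exact he.disj _ hxp he.q.mem_start
  · obtain ⟨x, hx, hxy⟩ := next_mem he.q h1 hyn
    obtain ⟨t, ht⟩ := he.q.head
    have hxp : x ∈ e.q := List.mem_of_mem_tail hx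
    refine ⟨x, mem_vs.2 (Or.inr hxp), fun h2 => ?_, hxy⟩
    rcases he.mem_pts.1 h2 with rfl | rfl
    · exact he.disj _ he.p.mem_start hxp
    · have h3 := he.q.nodup hc
      rw [ht] at h3 hx
      exact (List.nodup_cons.1 h3).1 hx

/-- switching on one element.
Proof: induction from high to low levels.  `x ∈ pts e`: `x` is no port of `S` (disjoint), no `mc`- or `ac`-child: `st x`, `¬ st' x`.
`x` a port of `S`: both false. `x = mc y`: both false, and `x ∉ vs e` or it is a port (`an`: it would be `ac y`). `x = ac y`: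
`x ∈ vs e ↔ y ∈ vs e` (if `y ∈ vs e` the next vertex of the chain is `ac y`; if `x ∈ vs e`, not a port, its parent is on `e`).  Otherwise
`x` is no child (then both true) or a child which is not on `e` and neither `mc` nor `ac`: both true. -/
theorem switch (hc : Chd G h lev ch) (hcho : Cho h ch Fm Fo mc ac)
    (hel : ∀ e ∈ Fm ∪ Fo, IsEl G h ch e) (hcmp : Cmp ch (Fm ∪ Fo)) (hS : S ⊆ Fm ∪ Fo)
    {e : El V r} (he : e ∈ Fo) (heS : e ∉ S) {st' : V → Prop} (hst : IsSt h mc ac S st)
    (hst' : IsSt h mc ac (insert e S) st') (x : V) :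
    (x ∈ vs e → st x ∧ ¬ st' x ∨ ¬ st x ∧ st' x) ∧ (x ∉ vs e → (st x ↔ st' x)) := by
  have hee : e ∈ Fm ∪ Fo := mem_union_right _ he
  obtain ⟨v, v', z, z', hok⟩ := hel e hee
  have hdis : ∀ f ∈ S, ∀ x, x ∈ vs f → x ∉ vs e := by
    intro f hf x h1 h2
    have hne : f ≠ e := fun h3 => heS (h3 ▸ hf)
    exact Finset.disjoint_left.1 (disj_vt.1 (hcmp f (hS hf) e hee hne)).1 h1 h2
  have hpf : ∀ f ∈ S, pts f ⊆ vs f := by
    intro f hf
    obtain ⟨_, _, _, _, hf'⟩ := hel f (hS hf)
    exact hf'.pts_sub
  obtain ⟨N, hN⟩ : ∃ N, ∀ y, lev y ≤ N := ⟨univ.sup lev, fun y => Finset.le_sup (mem_univ y)⟩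
  have key : ∀ n, ∀ x, N - lev x ≤ n →
      (x ∈ vs e → st x ∧ ¬ st' x ∨ ¬ st x ∧ st' x) ∧ (x ∉ vs e → (st x ↔ st' x)) := by
    intro n
    induction n using Nat.strong_induction_on with
    | _ n ih =>
      intro x hx
      by_cases hA : x ∈ pts e
      · have hxv : x ∈ vs e := hok.pts_sub hA
        have hxU : x ∈ (Fm ∪ Fo).biUnion pts := mem_biUnion.2 ⟨e, hee, hA⟩
        refine ⟨fun _ => Or.inl ⟨(hst x).2 ⟨?_, ?_, ?_⟩, ?_⟩, fun h1 => absurd hxv h1⟩
        · intro h1
          obtain ⟨f, hf, hxf⟩ := mem_biUnion.1 h1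
          exact hdis f hf x (hpf f hf hxf) hxv
        · rintro y hy rfl
          exact hcho.mp y hy hxU
        · rintro y hy rfl
          exact absurd hxU (hcho.ap y hy)
        · intro h1
          exact ((hst' x).1 h1).1 (mem_biUnion.2 ⟨e, mem_insert_self _ _, hA⟩)
      · by_cases hB : x ∈ S.biUnion pts
        · obtain ⟨f, hf, hxf⟩ := mem_biUnion.1 hB
          have hxv : x ∉ vs e := hdis f hf x (hpf f hf hxf)
          refine ⟨fun h1 => absurd h1 hxv, fun _ => ⟨fun h1 => absurd hB ((hst x).1 h1).1, fun h1 => ?_⟩⟩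
          exact absurd (mem_biUnion.2 ⟨f, mem_insert_of_mem hf, hxf⟩) ((hst' x).1 h1).1
        · have hB' : x ∉ (insert e S).biUnion pts := by
            intro h1
            obtain ⟨f, hf, hxf⟩ := mem_biUnion.1 h1
            rcases mem_insert.1 hf with rfl | hf
            · exact hA hxf
            · exact hB (mem_biUnion.2 ⟨f, hf, hxf⟩)
          by_cases hC : ∃ y, h y = none ∧ x = mc y
          · obtain ⟨y, hy, hxy⟩ := hC
            have n1 : ¬ st x := fun h1 => ((hst x).1 h1).2.1 y hy hxy
            have n2 : ¬ st' x := fun h1 => ((hst' x).1 h1).2.1 y hy hxy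
            refine ⟨fun h1 => ?_, fun _ => ⟨fun h1 => absurd h1 n1, fun h1 => absurd h1 n2⟩⟩
            exfalso
            have h2 := hcho.an e he x h1 hA y (hxy ▸ hcho.m1 y hy)
            exact hcho.ne y hy (hxy.symm.trans h2)
          · by_cases hD : ∃ y, h y = none ∧ x = ac y
            · obtain ⟨y, hy, hxy⟩ := hD
              have hxc : x ∈ ch y := hxy ▸ hcho.a1 y hy
              have hun : ∀ y', h y' = none → x = ac y' → y' = y := fun y' hy' h1 =>
                hc.uniq y' y x (h1 ▸ hcho.a1 y' hy') hxc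
              have s1 : st x ↔ ¬ st y := by
                rw [hst x]
                constructor
                · rintro ⟨_, _, h3⟩
                  exact h3 y hy hxy
                · intro h3
                  exact ⟨hB, fun y' hy' h4 => hC ⟨y', hy', h4⟩, fun y' hy' h4 => by
                    rw [hun y' hy' h4]; exact h3⟩
              have s2 : st' x ↔ ¬ st' y := by
                rw [hst' x]
                constructor
                · rintro ⟨_, _, h3⟩
                  exact h3 y hy hxy
                · intro h3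
                  exact ⟨hB', fun y' hy' h4 => hC ⟨y', hy', h4⟩, fun y' hy' h4 => by
                    rw [hun y' hy' h4]; exact h3⟩
              have hlt := hc.lt y x hxc
              have hNy := hN y
              have hIH := ih (N - lev y) (by omega) y le_rfl
              have hiff : x ∈ vs e ↔ y ∈ vs e := by
                constructor
                · intro h1
                  obtain ⟨y', hy', h2⟩ := hok.par h1 hA
                  rwa [← hc.uniq y' y x h2 hxc]
                · intro h1
                  obtain ⟨x', hx', hx2, hx3⟩ := next_vs hc (hel e hee) h1 hy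
                  have h2 := hcho.an e he x' hx' hx2 y hx3
                  rw [hxy, ← h2]
                  exact hx'
              rw [s1, s2, hiff]
              refine ⟨fun h1 => ?_, fun h1 => ?_⟩
              · have := hIH.1 h1
                tauto
              · have := hIH.2 h1
                tauto
            · have t1 : st x := (hst x).2 ⟨hB, fun y hy h1 => hC ⟨y, hy, h1⟩,
                fun y hy h1 => absurd ⟨y, hy, h1⟩ hD⟩
              have t2 : st' x := (hst' x).2 ⟨hB', fun y hy h1 => hC ⟨y, hy, h1⟩,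
                fun y hy h1 => absurd ⟨y, hy, h1⟩ hD⟩
              refine ⟨fun h1 => ?_, fun _ => ⟨fun _ => t2, fun _ => t1⟩⟩
              exfalso
              obtain ⟨y, _, hxy⟩ := hok.par h1 hA
              have hy : h y = none := by
                by_contra h2
                rw [hc.hub y h2] at hxy
                exact Finset.notMem_empty _ hxy
              exact hD ⟨y, hy, hcho.an e he x h1 hA y hxy⟩
  exact key _ x le_rfl

/-- the parity vector -/
noncomputable def pv (h : V → Option (Fin m)) (st : V → Prop) : Fin m → ZMod 2 := by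
  classical exact ∑ x ∈ univ.filter (fun x => ¬ st x), ev h x

/-- Proof: switch; the sum of `ev h x` over `vs e` is `ve h e` (no repetitions, disjoint chains); characteristic 2. -/
theorem pv_switch (hc : Chd G h lev ch) (hcho : Cho h ch Fm Fo mc ac)
    (hel : ∀ e ∈ Fm ∪ Fo, IsEl G h ch e) (hcmp : Cmp ch (Fm ∪ Fo)) (hS : S ⊆ Fm ∪ Fo)
    {e : El V r} (he : e ∈ Fo) (heS : e ∉ S) {st' : V → Prop} (hst : IsSt h mc ac S st)
    (hst' : IsSt h mc ac (insert e S) st') : pv h st' = pv h st + ve h e := by
  classical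
  have hee : e ∈ Fm ∪ Fo := mem_union_right _ he
  obtain ⟨v, v', z, z', hok⟩ := hel e hee
  have hve : ve h e = ∑ x ∈ vs e, ev h x := by
    have hd : Disjoint e.p.toFinset e.q.toFinset := by
      rw [Finset.disjoint_left]
      intro x h1 h2
      exact hok.disj x (List.mem_toFinset.1 h1) (List.mem_toFinset.1 h2)
    rw [vs, Finset.sum_union hd, List.sum_toFinset _ (hok.p.nodup hc),
      List.sum_toFinset _ (hok.q.nodup hc)]
    rfl
  have h2 : ∀ a : Fin m → ZMod 2, a + a = 0 := fun a => by
    funext i
    exact CharTwo.add_self_eq_zero (a i)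
  have e1 : pv h st' = ∑ x, if ¬ st' x then ev h x else 0 := by
    unfold pv
    rw [Finset.sum_filter]
  have e2 : pv h st = ∑ x, if ¬ st x then ev h x else 0 := by
    unfold pv
    rw [Finset.sum_filter]
  have e3 : ∑ x ∈ vs e, ev h x = ∑ x, if x ∈ vs e then ev h x else 0 := by
    rw [Finset.sum_ite_mem, Finset.univ_inter]
  rw [e1, e2, hve, e3, ← Finset.sum_add_distrib]
  refine Finset.sum_congr rfl fun x _ => ?_
  obtain ⟨s1, s2⟩ := switch hc hcho hel hcmp hS he heS hst hst' x
  by_cases hx : x ∈ vs e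
  · rw [if_pos hx]
    rcases s1 hx with ⟨a1, a2⟩ | ⟨a1, a2⟩
    · rw [if_pos a2, if_neg (not_not.2 a1), zero_add]
    · rw [if_neg (not_not.2 a2), if_pos a1, h2]
  · rw [if_neg hx, add_zero]
    by_cases a1 : st x
    · rw [if_neg (not_not.2 a1), if_neg (not_not.2 ((s2 hx).1 a1))]
    · rw [if_pos a1, if_pos (fun a2 => a1 ((s2 hx).2 a2))]

end Pool.Agent.RamV
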