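import Pool.Agent.Lib.MP_078aef_co_v.YBB
import Pool.Agent.Lib.MP_078aef_co_v.YBC

/-! The sum of the vectors of the paths. -/

namespace Pool.Agent.RamV

open Finset Pool.Agent.RamseyHam Pool.Agent.RamQ Pool.Agent.RamH

variable {V : Type*} [Fintype V] [DecidableEq V] {m r : ℕ} {G : SimpleGraph V}
  {h : V → Option (Fin m)} {ch : V → Finset V} {lev : V → ℕ} {Fm Fo S : Finset (El V r)}
  {mc ac : V → V} {st : V → Prop}

/-- the sum of the vectors of the paths. Proof: sum_vec, covered (`ev h x = 0` if `h x = none`). -/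
theorem sum_paths (hc : Chd G h lev ch) (hcho : Cho h ch Fm Fo mc ac)
    (hel : ∀ e ∈ Fm ∪ Fo, IsEl G h ch e) (hcmp : Cmp ch (Fm ∪ Fo)) (hS : S ⊆ Fm ∪ Fo)
    (hst : IsSt h mc ac S st) {n : ℕ} (hn : ∀ y, lev y ≤ n) :
    ∑ l ∈ (Tp h ac S st).image (jn h mc n), vec h l = pv h st := by
  have hT : Tops G h mc (Tp h ac S st) := tops hc hcho hel hcmp hS hst
  have hnd : ∀ l ∈ (Tp h ac S st).image (jn h mc n), l.Nodup := by
    intro l hl
    obtain ⟨c, hcT, rfl⟩ := Finset.mem_image.1 hl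
    exact (jn_cn hc hcho.m1 hn hT hcT).nodup
  have hd : ∀ l ∈ (Tp h ac S st).image (jn h mc n), ∀ l' ∈ (Tp h ac S st).image (jn h mc n),
      l ≠ l' → ∀ v ∈ l, v ∉ l' := by
    intro l hl l' hl' hne
    obtain ⟨c, hcT, rfl⟩ := Finset.mem_image.1 hl
    obtain ⟨c', hcT', rfl⟩ := Finset.mem_image.1 hl'
    have hcc : c ≠ c' := by
      rintro rfl
      exact hne rfl
    exact jn_disj hc hcho.m1 hn hT hcT hcT' hcc
  rw [sum_vec hnd hd]
  have key : ∀ x, x ∈ ((Tp h ac S st).image (jn h mc n)).biUnion List.toFinset ↔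
      (h x = none ∨ ¬ st x) := by
    intro x
    rw [← covered hc hcho hst hS hel hn x]
    constructor
    · intro hx
      obtain ⟨l, hl, hxl⟩ := Finset.mem_biUnion.1 hx
      obtain ⟨c, hcT, rfl⟩ := Finset.mem_image.1 hl
      exact ⟨c, hcT, List.mem_toFinset.1 hxl⟩
    · rintro ⟨c, hcT, hxc⟩
      exact Finset.mem_biUnion.2 ⟨jn h mc n c, Finset.mem_image_of_mem _ hcT,
        List.mem_toFinset.2 hxc⟩
  classical
  unfold pv
  symm
  apply Finset.sum_subset
  · intro x hx
    rw [key]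
    exact Or.inr (Finset.mem_filter.1 hx).2
  · intro x hx hx'
    rw [key] at hx
    have hst' : st x := by
      by_contra hcon
      exact hx' (Finset.mem_filter.2 ⟨Finset.mem_univ x, hcon⟩)
    have hnone : h x = none := by
      rcases hx with h1 | h1
      · exact h1
      · exact absurd hst' h1
    unfold ev
    rw [hnone]

end Pool.Agent.RamV
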