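import Pool.Agent.Lib.MP_078aef_co_v.YBD
import Pool.Agent.Lib.MP_078aef_co_v.GoalB

/-! An even choice. -/

namespace Pool.Agent.RamV

open Finset Pool.Agent.RamseyHam Pool.Agent.RamQ Pool.Agent.RamH

variable {V : Type*} [Fintype V] [DecidableEq V] {m r : ℕ} {G : SimpleGraph V}
  {h : V → Option (Fin m)} {ch : V → Finset V} {lev : V → ℕ} {Fm Fo : Finset (El V r)}

private theorem yca_two (x : Fin m → ZMod 2) : x + x = 0 := by
  funext i
  exact CharTwo.add_self_eq_zero _

private theorem yca_span {ι : Type*} {f : ι → Fin m → ZMod 2} {S : Finset ι}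
    {x : Fin m → ZMod 2} (hx : x ∈ Submodule.span (ZMod 2) (f '' (S : Set ι))) :
    ∃ J ⊆ S, x = ∑ e ∈ J, f e := by
  classical
  obtain ⟨c, hc⟩ := (Submodule.mem_span_image_finset_iff_exists_fun' (ZMod 2)).1 hx
  refine ⟨S.filter fun e => c e ≠ 0, filter_subset _ _, ?_⟩
  rw [← hc, sum_filter]
  refine sum_congr rfl fun e _ => ?_
  by_cases h : c e = 0
  · rw [h, zero_smul, if_neg (by simp)]
  · have h1 : c e = 1 := by
      have key : ∀ z : ZMod 2, z ≠ 0 → z = 1 := by decide
      exact key _ h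
    rw [if_pos h, h1, one_smul]

private theorem yca_vec {l : List V} (hl : IsCn G h l) (hFo : Bas h Fo) :
    vec h l ∈ Submodule.span (ZMod 2) (ve h '' (Fo : Set (El V r))) := by
  obtain ⟨a, w, b, hlw, ha, hb, hw⟩ := hl.shape
  obtain ⟨i, hi⟩ := Option.ne_none_iff_exists'.1 ha
  obtain ⟨j, hj⟩ := Option.ne_none_iff_exists'.1 hb
  have h1 : vec h l = Pi.single i 1 + Pi.single j 1 := by
    rw [hlw, vec_cons, vec_append, vec_cons, vec_nil, add_zero, vec_eq_zero h hw, zero_add,
      ev_some hi, ev_some hj]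
  rw [h1]
  exact hFo.span i j

/-- Proof: `pv h st0 = ∑ over the paths of vec` (sum_paths) is a sum of vectors `single i + single i'` (IsCn.ends), so it is in the span of
`ve h '' Fo` (`hFo.span`), so it is `∑ e ∈ J, ve h e` for some `J ⊆ Fo` (coefficients in `ZMod 2`); switch on the members of `J` one
after the other (pv_switch, induction on subsets of `J`). -/
theorem even_choice (hc : Chd G h lev ch) {mc ac : V → V} (hcho : Cho h ch Fm Fo mc ac)
    (hel : ∀ e ∈ Fm ∪ Fo, IsEl G h ch e) (hcmp : Cmp ch (Fm ∪ Fo)) (hd : Disjoint Fm Fo)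
    (hFo : Bas h Fo) : ∃ (J : Finset (El V r)) (st : V → Prop), J ⊆ Fo ∧
      IsSt h mc ac (Fm ∪ J) st ∧ pv h st = 0 := by
  classical
  obtain ⟨st0, hst0⟩ := st_exists hc hcho Fm
  have hn : ∀ y, lev y ≤ univ.sup lev := fun y => le_sup (mem_univ y)
  have hsub : Fm ⊆ Fm ∪ Fo := subset_union_left
  have hT := tops hc hcho hel hcmp hsub hst0
  have hmem : pv h st0 ∈ Submodule.span (ZMod 2) (ve h '' (Fo : Set (El V r))) := by
    rw [← sum_paths hc hcho hel hcmp hsub hst0 hn]
    refine Submodule.sum_mem _ fun l hl => ?_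
    obtain ⟨c, hcT, rfl⟩ := mem_image.1 hl
    exact yca_vec (jn_cn hc hcho.m1 hn hT hcT) hFo
  obtain ⟨J, hJ, hx⟩ := yca_span hmem
  have key : ∀ J' : Finset (El V r), J' ⊆ Fo → ∃ st : V → Prop, IsSt h mc ac (Fm ∪ J') st ∧
      pv h st = pv h st0 + ∑ e ∈ J', ve h e := by
    intro J'
    induction J' using Finset.induction_on with
    | empty =>
      intro _
      exact ⟨st0, by rw [union_empty]; exact hst0, by rw [sum_empty, add_zero]⟩
    | insert e J' heJ ih =>
      intro hJ'
      obtain ⟨st, hst, hpv⟩ := ih ((subset_insert e J').trans hJ')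
      have heo : e ∈ Fo := hJ' (mem_insert_self e J')
      obtain ⟨st', hst'⟩ := st_exists hc hcho (insert e (Fm ∪ J'))
      refine ⟨st', by rw [union_insert]; exact hst', ?_⟩
      have heS : e ∉ Fm ∪ J' := by
        rw [mem_union, not_or]
        exact ⟨fun h1 => disjoint_left.1 hd h1 heo, heJ⟩
      rw [pv_switch hc hcho hel hcmp
        (union_subset_union_right ((subset_insert e J').trans hJ')) heo heS hst hst', hpv,
        sum_insert heJ, add_assoc, add_comm (∑ e ∈ J', ve h e)]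
  obtain ⟨st, hst, hpv⟩ := key J hJ
  refine ⟨J, st, hJ, hst, ?_⟩
  rw [hpv, ← hx, yca_two]

end Pool.Agent.RamV
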