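import Pool.Agent.Lib.MP_078aef_co_v.Defs
import Pool.Agent.Lib.MP_078aef_co_h.Euler

/-! Closed tours through the paths, with few non-adjacent joints. -/

namespace Pool.Agent.RamV

open Finset Pool.Agent.RamseyHam Pool.Agent.RamQ Pool.Agent.RamH

variable {V : Type*} {m : ℕ}

/-- the joints of a cyclic sequence of nonempty lists: the last vertex of a list and the first
vertex of the next one -/
def jt (t : List (List V)) : List (V × V) :=
  (t.filterMap List.getLast?).zip ((t.filterMap List.head?).rotate 1)

/-- a closed tour through the members of `C` -/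
structure CT (h : V → Option (Fin m)) (C : Finset (List V)) (t : List (List V)) : Prop where
  ne : t ≠ []
  mem : ∀ l ∈ t, l ∈ C ∨ l.reverse ∈ C
  all : ∀ l ∈ C, l ∈ t ∨ l.reverse ∈ t
  nodup : t.flatten.Nodup
  joint : ∀ c ∈ jt t, h c.1 = h c.2

/-- the number of non-adjacent joints -/
noncomputable def bdc (G : SimpleGraph V) (t : List (List V)) : ℕ := by
  classical exact (jt t).countP (fun c => ¬ G.Adj c.1 c.2)

variable {G : SimpleGraph V} {h : V → Option (Fin m)} {C : Finset (List V)}
  {t t1 t2 : List (List V)}

private theorem jt_heads (v0 : V) (ht : ∀ l ∈ t, l ≠ []) :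
    t.filterMap List.head? = t.map (fun l => l.head?.getD v0) := by
  induction t with
  | nil => rfl
  | cons l t ih =>
    obtain ⟨x, l', rfl⟩ := List.exists_cons_of_ne_nil (ht l List.mem_cons_self)
    rw [List.filterMap_cons_some (b := x) (by rfl), ih fun l hl => ht l (List.mem_cons_of_mem _ hl)]
    rfl

private theorem jt_lasts (v0 : V) (ht : ∀ l ∈ t, l ≠ []) :
    t.filterMap List.getLast? = t.map (fun l => l.getLast?.getD v0) := by
  induction t with
  | nil => rfl
  | cons l t ih =>
    have hl := ht l List.mem_cons_self
    have h1 : l.getLast? = some (l.getLast hl) := List.getLast?_eq_some_getLast hl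
    rw [List.filterMap_cons_some h1, ih fun l hl => ht l (List.mem_cons_of_mem _ hl),
      List.map_cons, h1]
    rfl

private theorem jt_parts (ht : ∀ l ∈ t, l ≠ []) (hne : t ≠ []) : ∃ (a b : V) (H L : List V),
    t.filterMap List.head? = a :: H ∧ t.filterMap List.getLast? = L ++ [b] ∧
      L.length = H.length ∧ t.flatten.head? = some a ∧ t.flatten.getLast? = some b := by
  induction t with
  | nil => exact absurd rfl hne
  | cons l t ih =>
    have hl := ht l List.mem_cons_self
    obtain ⟨x, l', hl'⟩ := List.exists_cons_of_ne_nil hl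
    have h1 : l.getLast? = some (l.getLast hl) := List.getLast?_eq_some_getLast hl
    have h2 : l.head? = some x := by rw [hl']; rfl
    rcases eq_or_ne t [] with rfl | hne'
    · refine ⟨x, l.getLast hl, [], [], ?_, ?_, rfl, ?_, ?_⟩
      · rw [List.filterMap_cons_some h2]
        rfl
      · rw [List.filterMap_cons_some h1]
        rfl
      · rw [List.flatten_cons, List.flatten_nil, List.append_nil, h2]
      · rw [List.flatten_cons, List.flatten_nil, List.append_nil, h1]
    · obtain ⟨a, b, H, L, e1, e2, e3, e4, e5⟩ :=
        ih (fun l hl => ht l (List.mem_cons_of_mem _ hl)) hne'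
      refine ⟨x, b, a :: H, l.getLast hl :: L, ?_, ?_, ?_, ?_, ?_⟩
      · rw [List.filterMap_cons_some h2, e1]
      · rw [List.filterMap_cons_some h1, e2]
        rfl
      · rw [List.length_cons, List.length_cons, e3]
      · rw [List.flatten_cons, List.head?_append, h2]
        rfl
      · rw [List.flatten_cons, List.getLast?_append, e5]
        rfl

private theorem jt_eq {a b : V} {H L : List V} (e1 : t.filterMap List.head? = a :: H)
    (e2 : t.filterMap List.getLast? = L ++ [b]) (e3 : L.length = H.length) :
    jt t = L.zip H ++ [(b, a)] := by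
  unfold jt
  rw [e1, e2, List.rotate_cons_succ, List.rotate_zero, List.zip_append e3]
  rfl

private theorem jt_zip_rev {A B : List V} (h : A.length = B.length) :
    A.reverse.zip B.reverse = (A.zip B).reverse := by
  induction A generalizing B with
  | nil =>
    rw [List.length_nil] at h
    rw [List.eq_nil_of_length_eq_zero h.symm]
    rfl
  | cons a A ih =>
    cases B with
    | nil => exact absurd h (by simp)
    | cons b B =>
      rw [List.length_cons, List.length_cons, Nat.add_right_cancel_iff] at h
      rw [List.reverse_cons, List.reverse_cons, List.zip_append (by simp [h]), ih h]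
      change (A.zip B).reverse ++ [(a, b)] = ((a, b) :: A.zip B).reverse
      rw [List.reverse_cons]

/-- Proof: for nonempty lists the two filterMaps are maps (List.getLast?, List.head? are `some`), rotate commutes with map and zip. -/
theorem jt_rotate (ht : ∀ l ∈ t, l ≠ []) (k : ℕ) : jt (t.rotate k) = (jt t).rotate k := by
  rcases eq_or_ne t [] with rfl | hne
  · simp [jt]
  obtain ⟨a, _⟩ := jt_parts ht hne
  have ht' : ∀ l ∈ t.rotate k, l ≠ [] := fun l hl => ht l (List.mem_rotate.1 hl)
  unfold jt
  rw [jt_heads a ht, jt_lasts a ht, jt_heads a ht', jt_lasts a ht', List.map_rotate,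
    List.map_rotate, List.zip_eq_zipWith, List.zip_eq_zipWith,
    List.zipWith_rotate_distrib _ _ _ _ (by simp),
    List.rotate_rotate, List.rotate_rotate, Nat.add_comm]

/-- the joints of a tour divided in two parts `t1`, `t2`: the joints inside `t1`, the joint between them, the joints inside `t2`, the
closing joint.
Proof: unfold. -/
theorem jt_append {a1 b1 a2 b2 : V} (ht : ∀ l ∈ t1 ++ t2, l ≠ [])
    (h1 : t1.flatten.head? = some a1) (h2 : t1.flatten.getLast? = some b1)
    (h3 : t2.flatten.head? = some a2) (h4 : t2.flatten.getLast? = some b2) :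
    jt (t1 ++ t2) = (jt t1).dropLast ++ (b1, a2) :: ((jt t2).dropLast ++ [(b2, a1)]) := by
  have n1 : t1 ≠ [] := by
    rintro rfl
    exact absurd h1 (by simp)
  have n2 : t2 ≠ [] := by
    rintro rfl
    exact absurd h3 (by simp)
  obtain ⟨x1, y1, H1, L1, e1, e2, e3, e4, e5⟩ :=
    jt_parts (fun l hl => ht l (List.mem_append_left _ hl)) n1
  obtain ⟨x2, y2, H2, L2, f1, f2, f3, f4, f5⟩ :=
    jt_parts (fun l hl => ht l (List.mem_append_right _ hl)) n2
  rw [e4] at h1
  rw [e5] at h2
  rw [f4] at h3
  rw [f5] at h4
  obtain rfl := Option.some.inj h1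
  obtain rfl := Option.some.inj h2
  obtain rfl := Option.some.inj h3
  obtain rfl := Option.some.inj h4
  have g1 : (t1 ++ t2).filterMap List.head? = x1 :: (H1 ++ x2 :: H2) := by
    rw [List.filterMap_append, e1, f1]
    rfl
  have g2 : (t1 ++ t2).filterMap List.getLast? = (L1 ++ y1 :: L2) ++ [y2] := by
    rw [List.filterMap_append, e2, f2]
    simp
  rw [jt_eq g1 g2 (by simp [e3, f3]), jt_eq e1 e2 e3, jt_eq f1 f2 f3, List.dropLast_concat,
    List.dropLast_concat, List.zip_append e3]
  simp

/-- the joints of a reversed sequence. Proof: induction on `t`. -/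
theorem jt_reverse (ht : ∀ l ∈ t, l ≠ []) :
    (jt (t.reverse.map List.reverse)).dropLast = ((jt t).dropLast.map Prod.swap).reverse := by
  rcases eq_or_ne t [] with rfl | hne
  · simp [jt]
  obtain ⟨x, y, H, L, e1, e2, e3, _, _⟩ := jt_parts ht hne
  have g1 : (t.reverse.map List.reverse).filterMap List.head? = y :: L.reverse := by
    rw [List.filterMap_map, List.filterMap_reverse]
    have h1 : (List.head? ∘ List.reverse : List V → Option V) = List.getLast? := by
      funext l
      simp
    rw [h1, e2, List.reverse_append]
    rfl
  have g2 : (t.reverse.map List.reverse).filterMap List.getLast? = H.reverse ++ [x] := by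
    rw [List.filterMap_map, List.filterMap_reverse]
    have h1 : (List.getLast? ∘ List.reverse : List V → Option V) = List.head? := by
      funext l
      simp
    rw [h1, e1, List.reverse_cons]
  rw [jt_eq g1 g2 (by simp [e3]), jt_eq e1 e2 e3, List.dropLast_concat, List.dropLast_concat,
    List.zip_swap, jt_zip_rev e3.symm]

end Pool.Agent.RamV
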