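import Pool.Agent.Lib.MP_078aef_co_v.ZA

/-! Tours exist and can be rotated. -/

namespace Pool.Agent.RamV

open Finset Pool.Agent.RamseyHam Pool.Agent.RamQ Pool.Agent.RamH

variable {V : Type*} {m : ℕ} {G : SimpleGraph V} {h : V → Option (Fin m)}
  {C : Finset (List V)} {t t1 t2 : List (List V)}

private theorem zaa_joint (x : V) : ∀ (t' : List (List V)) (l0 : List V),
    (∀ l ∈ l0 :: t', l ≠ []) →
    (l0 :: t').IsChain (fun l l' => ∃ a b, l.getLast? = some a ∧ l'.head? = some b ∧ h a = h b) →
    (∀ a, (l0 :: t').flatten.getLast? = some a → h a = h x) →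
    ∀ c ∈ ((l0 :: t').filterMap List.getLast?).zip (t'.filterMap List.head? ++ [x]),
      h c.1 = h c.2 := by
  intro t'
  induction t' with
  | nil =>
    intro l0 hne _ hcl c hc
    obtain ⟨b0, hb0⟩ := Option.ne_none_iff_exists'.1
      (mt List.getLast?_eq_none_iff.1 (hne l0 List.mem_cons_self))
    rw [List.filterMap_cons_some hb0] at hc
    simp only [List.filterMap_nil, List.nil_append, List.zip_cons_cons, List.zip_nil_right,
      List.mem_singleton] at hc
    rw [hc]
    refine hcl b0 ?_
    rw [List.flatten_cons, List.flatten_nil, List.append_nil]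
    exact hb0
  | cons l1 t'' ih =>
    intro l0 hne hch hcl c hc
    have hne1 := hne l1 (List.mem_cons_of_mem _ List.mem_cons_self)
    obtain ⟨b0, hb0⟩ := Option.ne_none_iff_exists'.1
      (mt List.getLast?_eq_none_iff.1 (hne l0 List.mem_cons_self))
    obtain ⟨a1, ha1⟩ := Option.ne_none_iff_exists'.1 (mt List.head?_eq_none_iff.1 hne1)
    rw [List.isChain_cons_cons] at hch
    rw [List.filterMap_cons_some hb0, List.filterMap_cons_some ha1, List.cons_append,
      List.zip_cons_cons, List.mem_cons] at hc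
    rcases hc with hc | hc
    · obtain ⟨a, b, h1, h2, h3⟩ := hch.1
      rw [hb0, Option.some_inj] at h1
      rw [ha1, Option.some_inj] at h2
      rw [hc, h1, h2]
      exact h3
    · refine ih l1 (fun l hl => hne l (List.mem_cons_of_mem _ hl)) hch.2 (fun a ha => hcl a ?_) c hc
      rw [List.flatten_cons, List.getLast?_append, ha]
      rfl

/-- Proof: euler (Lib/MP_078aef_co_h/Euler.lean). -/
theorem tour_exists [Fintype V] [DecidableEq V] (hC : Sta G h C) (hS : Sp h C)
    (hne : C.Nonempty) : ∃ t, CT h C t := by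
  obtain ⟨t, ht0, hmem, hall, hnd, hch, a, b, ha, hb, hab⟩ := euler hC hS hne
  refine ⟨t, ht0, hmem, hall, hnd, ?_⟩
  have hnil : ∀ l ∈ t, l ≠ [] := by
    intro l hl
    rcases hmem l hl with h1 | h1
    · exact (hC.cn l h1).ne_nil
    · intro h2
      apply (hC.cn _ h1).ne_nil
      rw [h2]
      rfl
  obtain ⟨l0, t', rfl⟩ := List.exists_cons_of_ne_nil ht0
  obtain ⟨a0, ha0⟩ := Option.ne_none_iff_exists'.1
    (mt List.head?_eq_none_iff.1 (hnil l0 List.mem_cons_self))
  have hb0 : b = a0 := by
    rw [List.flatten_cons, List.head?_append, ha0] at hb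
    exact (Option.some_inj.1 hb).symm
  intro c hc
  unfold jt at hc
  rw [List.filterMap_cons_some ha0, List.rotate_cons_succ, List.rotate_zero] at hc
  refine zaa_joint (h := h) a0 t' l0 hnil hch (fun a' ha' => ?_) c hc
  rw [ha, Option.some_inj] at ha'
  rw [← ha', hab, hb0]

theorem CT.rotate (ht : CT h C t) (hne : ∀ l ∈ C, l ≠ []) (k : ℕ) : CT h C (t.rotate k) := by
  have hnil : ∀ l ∈ t, l ≠ [] := by
    intro l hl
    rcases ht.mem l hl with h1 | h1
    · exact hne l h1
    · intro h2
      apply hne _ h1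
      rw [h2]
      rfl
  refine ⟨fun h0 => ht.ne (List.rotate_eq_nil_iff.1 h0), fun l hl => ht.mem l (List.mem_rotate.1 hl),
    fun l hl => ?_, ?_, fun c hc => ?_⟩
  · rcases ht.all l hl with h1 | h1
    · exact Or.inl (List.mem_rotate.2 h1)
    · exact Or.inr (List.mem_rotate.2 h1)
  · exact ((List.rotate_perm t k).flatten.nodup_iff).2 ht.nodup
  · rw [jt_rotate hnil, List.mem_rotate] at hc
    exact ht.joint c hc

end Pool.Agent.RamV
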