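import Pool.Agent.Lib.MP_078aef_co_v.ZA
import Pool.Agent.Lib.MP_078aef_co_h.Fill
import Pool.Agent.Lib.MP_078aef_co_h.Dec

/-! Joints and hubs. -/

namespace Pool.Agent.RamV

open Finset Pool.Agent.RamseyHam Pool.Agent.RamQ Pool.Agent.RamH

variable {V : Type*} [Fintype V] [DecidableEq V] {m : ℕ} {G : SimpleGraph V}
  {h : V → Option (Fin m)} {C : Finset (List V)} {t : List (List V)}

/-- the uncovered vertices of the hub `i` -/
noncomputable def Un (h : V → Option (Fin m)) (C : Finset (List V)) (i : Fin m) : Finset V := by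
  classical exact (Hb h i).filter (fun v => ¬ On C v)

section lists

variable {V : Type*}

private theorem zb_len (t : List (List V)) (ht : ∀ l ∈ t, l ≠ []) :
    (t.filterMap List.getLast?).length = t.length ∧
      (t.filterMap List.head?).length = t.length := by
  induction t with
  | nil => exact ⟨rfl, rfl⟩
  | cons l t ih =>
    obtain ⟨h1, h2⟩ := ih fun l hl => ht l (List.mem_cons_of_mem _ hl)
    have h3 := ht l List.mem_cons_self
    rw [List.filterMap_cons_some (List.getLast?_eq_some_getLast h3),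
      List.filterMap_cons_some (List.head?_eq_some_head h3)]
    exact ⟨congrArg Nat.succ h1, congrArg Nat.succ h2⟩

private theorem zb_fst {t : List (List V)} (ht : ∀ l ∈ t, l ≠ []) :
    (jt t).map Prod.fst = t.filterMap List.getLast? := by
  obtain ⟨h1, h2⟩ := zb_len t ht
  refine List.map_fst_zip (le_of_eq ?_)
  rw [List.length_rotate, h1, h2]

private theorem zb_snd {t : List (List V)} (ht : ∀ l ∈ t, l ≠ []) :
    (jt t).map Prod.snd = (t.filterMap List.head?).rotate 1 := by
  obtain ⟨h1, h2⟩ := zb_len t ht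
  refine List.map_snd_zip (le_of_eq ?_)
  rw [List.length_rotate, h1, h2]

private theorem zb_gl (a b : V) (w : List V) : (a :: (w ++ [b])).getLast? = some b := by
  rw [List.getLast?_cons, List.getLast?_append]
  simp

private theorem zb_sub {f : List V → Option V} (hf : ∀ l a, f l = some a → a ∈ l)
    (t : List (List V)) : (t.filterMap f).Sublist t.flatten := by
  induction t with
  | nil => exact List.Sublist.refl _
  | cons l t ih =>
    rw [List.flatten_cons]
    cases h : f l with
    | none =>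
      rw [List.filterMap_cons_none h]
      exact ih.trans (List.sublist_append_right _ _)
    | some a =>
      rw [List.filterMap_cons_some h]
      exact List.Sublist.append (List.singleton_sublist.2 (hf l a h)) ih

end lists

omit [Fintype V] [DecidableEq V] in
private theorem zb_cn (hC : Sta G h C) (ht : CT h C t) {l : List V} (hl : l ∈ t) :
    IsCn G h l := by
  rcases ht.mem l hl with h1 | h1
  · exact hC.cn l h1
  · have h2 := (hC.cn _ h1).reverse
    rwa [List.reverse_reverse] at h2

omit [Fintype V] [DecidableEq V] in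
private theorem zb_on (ht : CT h C t) {l : List V} (hl : l ∈ t) {v : V} (hv : v ∈ l) :
    On C v := by
  rcases ht.mem l hl with h1 | h1
  · exact ⟨l, h1, hv⟩
  · exact ⟨l.reverse, h1, List.mem_reverse.2 hv⟩

omit [Fintype V] [DecidableEq V] in
private theorem zb_ne (hC : Sta G h C) (ht : CT h C t) : ∀ l ∈ t, l ≠ [] := fun _ hl =>
  (zb_cn hC ht hl).ne_nil

omit [Fintype V] [DecidableEq V] in
private theorem zb_last (hC : Sta G h C) (ht : CT h C t) {v : V} :
    (∃ c ∈ jt t, c.1 = v) ↔ ∃ l ∈ t, l.getLast? = some v := by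
  rw [← List.mem_map, zb_fst (zb_ne hC ht), List.mem_filterMap]

omit [Fintype V] [DecidableEq V] in
private theorem zb_head (hC : Sta G h C) (ht : CT h C t) {v : V} :
    (∃ c ∈ jt t, c.2 = v) ↔ ∃ l ∈ t, l.head? = some v := by
  rw [← List.mem_map, zb_snd (zb_ne hC ht), List.mem_rotate, List.mem_filterMap]

omit [Fintype V] [DecidableEq V] in
private theorem zb_ev (h : V → Option (Fin m)) (k : Fin m) (l : List V)
    (h1 : ∀ v ∈ l, h v ≠ some k) : vec h l k = 0 := by
  unfold vec
  induction l with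
  | nil => rfl
  | cons x l ih =>
    rw [List.map_cons, List.sum_cons, Pi.add_apply,
      ih (fun v hv => h1 v (List.mem_cons_of_mem _ hv)), add_zero]
    have h2 := h1 x List.mem_cons_self
    unfold ev
    cases hx : h x with
    | none => rfl
    | some i =>
      show (Pi.single i 1 : Fin m → ZMod 2) k = 0
      rw [Pi.single_eq_of_ne]
      rintro rfl
      exact h2 hx

omit [Fintype V] [DecidableEq V] in
private theorem zb_hub (hC : Sta G h C) (hS : Sp h C) (hne : C.Nonempty) (k : Fin m) :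
    ∃ l ∈ C, ∃ v ∈ l, h v = some k := by
  by_contra hcon
  push Not at hcon
  obtain ⟨l0, hl0⟩ := hne
  obtain ⟨-, -, a, w, b, e, ha, -, -⟩ := hC.cn l0 hl0
  have hal : a ∈ l0 := by rw [e]; simp
  obtain ⟨j, hj⟩ := Option.ne_none_iff_exists'.1 ha
  have hjk : j ≠ k := by
    rintro rfl
    exact hcon l0 hl0 a hal hj
  have hsp : Submodule.span (ZMod 2) (vec h '' (C : Set (List V))) ≤
      LinearMap.ker (LinearMap.proj (R := ZMod 2) (φ := fun _ : Fin m => ZMod 2) k) := by
    rw [Submodule.span_le]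
    rintro _ ⟨l, hl, rfl⟩
    exact zb_ev h k l (hcon l hl)
  have h2 : ((Pi.single k 1 + Pi.single j 1 : Fin m → ZMod 2)) k = 0 := hsp (hS k j)
  rw [Pi.add_apply, Pi.single_eq_same, Pi.single_eq_of_ne (Ne.symm hjk), add_zero] at h2
  exact one_ne_zero h2

/-- every hub has a joint. Proof: asm_hub in Lib/MP_078aef_co_h/Asm.lean (private; copy): a member of `C` has a vertex in the hub; only its
two ends are in hubs; an end is the last or the first vertex of a member of `t`, so it is in a joint. -/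
theorem joint_hub (hC : Sta G h C) (hS : Sp h C) (hne : C.Nonempty) (ht : CT h C t) (k : Fin m) :
    ∃ c ∈ jt t, h c.1 = some k := by
  obtain ⟨l, hl, v, hv, hk⟩ := zb_hub hC hS hne k
  have key : ∀ l' ∈ t, v ∈ l' → ∃ c ∈ jt t, h c.1 = some k := by
    intro l' hl' hv'
    obtain ⟨a, w, b, rfl, ha, hb, hw⟩ := (zb_cn hC ht hl').shape
    have h1 : v = a ∨ v = b := by
      rcases List.mem_cons.1 hv' with h2 | h2
      · exact Or.inl h2
      · rcases List.mem_append.1 h2 with h3 | h3
        · rw [hw v h3] at hk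
          exact absurd hk (by simp)
        · exact Or.inr (List.mem_singleton.1 h3)
    rcases h1 with rfl | rfl
    · obtain ⟨c, hc, h2⟩ := (zb_head hC ht).2 ⟨_, hl', List.head?_cons⟩
      refine ⟨c, hc, ?_⟩
      rw [ht.joint c hc, h2, hk]
    · obtain ⟨c, hc, h2⟩ := (zb_last hC ht).2 ⟨_, hl', zb_gl _ _ _⟩
      exact ⟨c, hc, by rw [h2, hk]⟩
  rcases ht.all l hl with h1 | h1
  · exact key l h1 hv
  · exact key l.reverse h1 (List.mem_reverse.2 hv)

/-- the entries of the joints are all different: they are the last and the first vertices of the members of `t`, which have at least two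
vertices. -/
theorem joint_inj (hC : Sta G h C) (ht : CT h C t) : ((jt t).map Prod.fst).Nodup ∧
    ((jt t).map Prod.snd).Nodup ∧ (∀ c ∈ jt t, ∀ c' ∈ jt t, c.1 ≠ c'.2) ∧
    ∀ c ∈ jt t, (h c.1 ≠ none ∧ On C c.1) ∧ (h c.2 ≠ none ∧ On C c.2) := by
  have hlast : ∀ c ∈ jt t, ∃ a w, a :: (w ++ [c.1]) ∈ t ∧ h c.1 ≠ none := by
    intro c hc
    obtain ⟨l, hl, h1⟩ := (zb_last hC ht).1 ⟨c, hc, rfl⟩
    obtain ⟨a, w, b, rfl, ha, hb, hw⟩ := (zb_cn hC ht hl).shape
    have h2 : b = c.1 := by
      rw [zb_gl] at h1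
      exact Option.some.inj h1
    rw [h2] at hl hb
    exact ⟨a, w, hl, hb⟩
  have hhead : ∀ c ∈ jt t, ∃ w b, c.2 :: (w ++ [b]) ∈ t ∧ h c.2 ≠ none := by
    intro c hc
    obtain ⟨l, hl, h1⟩ := (zb_head hC ht).1 ⟨c, hc, rfl⟩
    obtain ⟨a, w, b, rfl, ha, hb, hw⟩ := (zb_cn hC ht hl).shape
    have h2 : a = c.2 := Option.some.inj h1
    rw [h2] at hl ha
    exact ⟨w, b, hl, ha⟩
  refine ⟨?_, ?_, ?_, ?_⟩
  · rw [zb_fst (zb_ne hC ht)]
    exact ht.nodup.sublist (zb_sub (fun l a h1 => List.mem_of_getLast? h1) t)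
  · rw [zb_snd (zb_ne hC ht), List.nodup_rotate]
    exact ht.nodup.sublist (zb_sub (fun l a h1 => List.mem_of_head? h1) t)
  · intro c hc c' hc' he
    obtain ⟨a, w, h1, -⟩ := hlast c hc
    obtain ⟨w', b, h2, -⟩ := hhead c' hc'
    obtain ⟨h3, h4⟩ := List.nodup_flatten.1 ht.nodup
    have h5 : a :: (w ++ [c.1]) = c'.2 :: (w' ++ [b]) := by
      by_contra hne
      have i1 : Std.Symm (List.Disjoint (α := V)) := ⟨fun _ _ h => List.Disjoint.symm h⟩
      have h6 := h4.forall h1 h2 hne
      refine h6 (a := c.1) (by simp) ?_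
      rw [he]
      exact List.mem_cons_self
    have h6 := h3 _ h1
    rw [List.cons.injEq] at h5
    rw [h5.1, ← he, List.nodup_cons] at h6
    exact h6.1 (by simp)
  · intro c hc
    obtain ⟨a, w, h1, h2⟩ := hlast c hc
    obtain ⟨w', b, h3, h4⟩ := hhead c hc
    exact ⟨⟨h2, zb_on ht h1 (by simp)⟩, h4, zb_on ht h3 (by simp)⟩

end Pool.Agent.RamV
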