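import Pool.Agent.Lib.MP_078aef_co_v.ZB

/-! Filling the hubs. -/

namespace Pool.Agent.RamV

open Finset Pool.Agent.RamseyHam Pool.Agent.RamQ Pool.Agent.RamH

variable {V : Type*} [Fintype V] [DecidableEq V] {m : ℕ} {G : SimpleGraph V}
  {h : V → Option (Fin m)} {C : Finset (List V)} {t : List (List V)}

omit [Fintype V] [DecidableEq V] in
private theorem zba_split {x y : V} {l : List V} (h : Seg G x l y) (hxy : x ≠ y) :
    ∃ q, l = x :: (q ++ [y]) := by
  rcases l with _ | ⟨z, l⟩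
  · have h1 := h.head
    simp at h1
  · have h1 := h.head
    rw [List.head?_cons, Option.some.injEq] at h1
    rcases List.eq_nil_or_concat l with h0 | ⟨q, y', h0⟩
    · have h2 := h.last
      rw [h0, List.getLast?_singleton, Option.some.injEq] at h2
      exact absurd (h1.symm.trans h2) hxy
    · have h2 := h.last
      have h3 : (z :: l).getLast? = some y' := by
        have h4 : z :: l = (z :: q) ++ [y'] := by
          rw [h0, List.concat_eq_append]
          rfl
        rw [h4, List.getLast?_append]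
        rfl
      rw [h3, Option.some.injEq] at h2
      refine ⟨q, ?_⟩
      rw [h0, h1, h2]
      simp

/-- Proof. For every hub `k` let `bad` be the set of the `c.1`, `c` a joint with `h c.1 = some k`, `¬ G.Adj c.1 c.2`: independent
(`hbest`, joint_inj), so at most `b k` members; `U k = bad` if it is nonempty, otherwise `U k = {c.1}` for one joint of the hub
(joint_hub).  `f c.1 = c.2`.  `D = Un h C k ∪ U k ∪ (U k).image f` is `τ k`-robust (Rb.extend and `hnb`); fill. `mid c.1` = the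
list from `fill` without its first and last vertex for `c.1 ∈ U k`, and `[]` otherwise (then `c.1 ~ c.2`). -/
theorem mids (hC : Sta G h C) (hS : Sp h C) (hne : C.Nonempty) (ht : CT h C t)
    (hbest : ∀ c ∈ jt t, ∀ c' ∈ jt t, c ≠ c' → ¬ G.Adj c.1 c.2 →
      ¬ G.Adj c'.1 c'.2 → h c.1 = h c'.1 → ¬ G.Adj c.1 c'.1) (b τ : Fin m → ℕ)
    (hb : ∀ i, al G (Hb h i) ≤ b i) (hτ : ∀ i, (b i + 1) * (2 * b i + 2) + b i + 1 ≤ τ i)
    (hrob : ∀ i, Rb G (Un h C i) (τ i))
    (hnb : ∀ i, ∀ v ∈ Hb h i, τ i ≤ (nb G v ∩ Un h C i).card) :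
    ∃ mid : V → List V,
      (∀ c ∈ jt t, Seg G c.1 (c.1 :: (mid c.1 ++ [c.2])) c.2 ∧ (mid c.1).Nodup ∧
        ∀ x ∈ mid c.1, h x ≠ none ∧ ¬ On C x) ∧
      (∀ c ∈ jt t, ∀ c' ∈ jt t, c ≠ c' → ∀ x ∈ mid c.1, x ∉ mid c'.1) ∧
      ∀ x, h x ≠ none → ¬ On C x → ∃ c ∈ jt t, x ∈ mid c.1 := by
  classical
  obtain ⟨j1, j2, j3, j4⟩ := joint_inj hC ht
  have i1 : ∀ c ∈ jt t, ∀ c' ∈ jt t, c.1 = c'.1 → c = c' := fun c hc c' hc' hcc =>
    List.inj_on_of_nodup_map j1 hc hc' hcc
  have i2 : ∀ c ∈ jt t, ∀ c' ∈ jt t, c.2 = c'.2 → c = c' := fun c hc c' hc' hcc =>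
    List.inj_on_of_nodup_map j2 hc hc' hcc
  choose c0 hc0 hc0k using joint_hub hC hS hne ht
  -- the partner
  obtain ⟨f, hf⟩ : ∃ f : V → V, ∀ c ∈ jt t, f c.1 = c.2 := by
    refine ⟨fun v => if hv : ∃ c ∈ jt t, c.1 = v then (Classical.choose hv).2 else v,
      fun c hc => ?_⟩
    have hv : ∃ c' ∈ jt t, c'.1 = c.1 := ⟨c, hc, rfl⟩
    beta_reduce
    rw [dif_pos hv]
    have h1 := Classical.choose_spec hv
    rw [i1 _ h1.1 c hc h1.2]
  -- the bad vertices
  obtain ⟨bad, hbad⟩ : ∃ bad : Fin m → Finset V, ∀ k v, v ∈ bad k ↔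
      h v = some k ∧ ∃ c ∈ jt t, c.1 = v ∧ ¬ G.Adj c.1 c.2 :=
    ⟨fun k => univ.filter fun v => h v = some k ∧ ∃ c ∈ jt t, c.1 = v ∧ ¬ G.Adj c.1 c.2,
      fun k v => by simp only [mem_filter, mem_univ, true_and]⟩
  have hbadc : ∀ k, (bad k).card ≤ b k := by
    intro k
    refine (Ind.card_le_al (G := G) (D := Hb h k) ?_ fun v hv => ?_).trans (hb k)
    · intro x hx y hy hadj
      obtain ⟨h1, c, hc, rfl, h2⟩ := (hbad k x).1 hx
      obtain ⟨h3, c', hc', rfl, h4⟩ := (hbad k y).1 hy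
      by_cases hcc : c = c'
      · subst hcc
        exact G.loopless.irrefl _ hadj
      · exact hbest c hc c' hc' hcc h2 h4 (h1.trans h3.symm) hadj
    · exact mem_Hb.2 ((hbad k v).1 hv).1
  obtain ⟨U, hU⟩ : ∃ U : Fin m → Finset V, ∀ k,
      U k = if (bad k).Nonempty then bad k else {(c0 k).1} := ⟨_, fun _ => rfl⟩
  have u1 : ∀ k v, v ∈ U k → h v = some k ∧ ∃ c ∈ jt t, c.1 = v := by
    intro k v hv
    rw [hU] at hv
    split_ifs at hv with hk
    · obtain ⟨h1, c, hc, h2, _⟩ := (hbad k v).1 hv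
      exact ⟨h1, c, hc, h2⟩
    · rw [mem_singleton] at hv
      rw [hv]
      exact ⟨hc0k k, c0 k, hc0 k, rfl⟩
  have u2 : ∀ k, (U k).Nonempty := by
    intro k
    rw [hU]
    split_ifs with hk
    · exact hk
    · exact singleton_nonempty _
  have u3 : ∀ k, (U k).card ≤ b k + 1 := by
    intro k
    rw [hU]
    split_ifs with hk
    · exact (hbadc k).trans (Nat.le_succ _)
    · rw [card_singleton]
      omega
  have u4 : ∀ c ∈ jt t, ∀ k, h c.1 = some k → ¬ G.Adj c.1 c.2 → c.1 ∈ U k := by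
    intro c hc k hk hadj
    have h1 : c.1 ∈ bad k := (hbad k _).2 ⟨hk, c, hc, rfl, hadj⟩
    rw [hU, if_pos ⟨_, h1⟩]
    exact h1
  have hHb : ∀ k, ∀ v ∈ Un h C k ∪ U k ∪ (U k).image f, v ∈ Hb h k := by
    intro k v hv
    rw [mem_union, mem_union, mem_image] at hv
    rcases hv with (hv | hv) | ⟨u, hu, rfl⟩
    · unfold Un at hv
      exact (mem_filter.1 hv).1
    · exact mem_Hb.2 (u1 k v hv).1
    · obtain ⟨h1, c, hc, rfl⟩ := u1 k u hu
      rw [hf c hc, mem_Hb, ← ht.joint c hc]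
      exact h1
  have hex : ∀ k, ∃ P : V → List V,
      (∀ u ∈ U k, Seg G u (P u) (f u) ∧ (P u).Nodup ∧
        ∀ x ∈ P u, x ∈ Un h C k ∪ U k ∪ (U k).image f) ∧
      (∀ u ∈ U k, ∀ u' ∈ U k, u ≠ u' → ∀ x ∈ P u, x ∉ P u') ∧
      ∀ x ∈ Un h C k ∪ U k ∪ (U k).image f, ∃ u ∈ U k, x ∈ P u := by
    intro k
    refine fill (A := b k) (τ := τ k) ?_ ?_ f (u2 k) ?_ ?_ ?_ ?_ ?_
    · refine (hrob k).extend ?_ fun v hv _ => hnb k v (hHb k v hv)
      intro v hv
      exact mem_union_left _ (mem_union_left _ hv)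
    · exact (al_mono (hHb k)).trans (hb k)
    · intro v hv
      exact mem_union_left _ (mem_union_right _ hv)
    · intro v hv
      exact mem_union_right _ (mem_image_of_mem f hv)
    · intro v hv hv'
      obtain ⟨_, c, hc, rfl⟩ := u1 k v hv
      rw [hf c hc] at hv'
      obtain ⟨_, c', hc', h2⟩ := u1 k _ hv'
      exact j3 c' hc' c hc h2
    · intro v hv v' hv' hvv
      obtain ⟨_, c, hc, rfl⟩ := u1 k v hv
      obtain ⟨_, c', hc', rfl⟩ := u1 k v' hv'
      rw [hf c hc, hf c' hc'] at hvv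
      rw [i2 c hc c' hc' hvv]
    · have h1 := Nat.mul_le_mul_right (2 * b k + 2) (u3 k)
      have h2 := hτ k
      omega
  choose P hP1 hP2 hP3 using hex
  have hsp : ∀ k u, ∃ q : List V, u ∈ U k → P k u = u :: (q ++ [f u]) := by
    intro k u
    by_cases hu : u ∈ U k
    · obtain ⟨_, c, hc, h1⟩ := u1 k u hu
      have hne' : u ≠ f u := by
        rw [← h1, hf c hc]
        exact j3 c hc c hc
      obtain ⟨q, hq⟩ := zba_split (hP1 k u hu).1 hne'
      exact ⟨q, fun _ => hq⟩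
    · exact ⟨[], fun h => absurd h hu⟩
  choose q hq using hsp
  obtain ⟨mid, hmid⟩ : ∃ mid : V → List V, ∀ v k, h v = some k →
      mid v = if v ∈ U k then q k v else [] := by
    refine ⟨fun v => match h v with
      | some k => if v ∈ U k then q k v else []
      | none => [], fun v k hk => ?_⟩
    beta_reduce
    rw [hk]
  -- the middle of a path of a member of `U k`
  have hin : ∀ k, ∀ u ∈ U k, ∀ x ∈ q k u, x ∈ P k u := by
    intro k u hu x hx
    rw [hq k u hu]
    exact List.mem_cons_of_mem _ (List.mem_append_left _ hx)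
  have hun : ∀ k, ∀ u ∈ U k, ∀ x ∈ q k u, x ∈ Un h C k := by
    intro k u hu x hx
    have hnd := (hP1 k u hu).2.1
    rw [hq k u hu, List.nodup_cons, List.nodup_append] at hnd
    have hxP := hin k u hu x hx
    have h1 := (hP1 k u hu).2.2 x hxP
    rw [mem_union, mem_union, mem_image] at h1
    rcases h1 with (h1 | h1) | ⟨u', hu', h1⟩
    · exact h1
    · exfalso
      by_cases hux : u = x
      · subst hux
        exact hnd.1 (List.mem_append_left _ hx)
      · refine hP2 k u hu x h1 hux x hxP ?_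
        rw [hq k x h1]
        exact List.mem_cons_self
    · exfalso
      by_cases huu : u = u'
      · subst huu
        exact hnd.2.2.2 x hx (f u) (List.mem_singleton_self _) h1.symm
      · refine hP2 k u hu u' hu' huu x hxP ?_
        rw [hq k u' hu', ← h1]
        exact List.mem_cons_of_mem _ (List.mem_append_right _ (List.mem_singleton_self _))
  have hUn : ∀ k, ∀ x ∈ Un h C k, h x = some k ∧ ¬ On C x := by
    intro k x hx
    unfold Un at hx
    rw [mem_filter, mem_Hb] at hx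
    exact hx
  refine ⟨mid, fun c hc => ?_, ?_, ?_⟩
  · obtain ⟨k, hk⟩ := Option.ne_none_iff_exists'.1 (j4 c hc).1.1
    rw [hmid c.1 k hk]
    split_ifs with hcU
    · have h1 := hP1 k c.1 hcU
      rw [hq k c.1 hcU, hf c hc] at h1
      refine ⟨h1.1, ?_, fun x hx => ?_⟩
      · have h2 := h1.2.1
        rw [List.nodup_cons, List.nodup_append] at h2
        exact h2.2.1
      · obtain ⟨h2, h3⟩ := hUn k x (hun k c.1 hcU x hx)
        exact ⟨by rw [h2]; exact Option.some_ne_none k, h3⟩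
    · have hadj : G.Adj c.1 c.2 := by
        by_contra hcon
        exact hcU (u4 c hc k hk hcon)
      refine ⟨⟨?_, ?_, ?_⟩, List.nodup_nil, fun x hx => absurd hx List.not_mem_nil⟩
      · simpa using hadj
      · rfl
      · rfl
  · intro c hc c' hc' hcc x hx hx'
    obtain ⟨k, hk⟩ := Option.ne_none_iff_exists'.1 (j4 c hc).1.1
    obtain ⟨k', hk'⟩ := Option.ne_none_iff_exists'.1 (j4 c' hc').1.1
    rw [hmid c.1 k hk] at hx
    rw [hmid c'.1 k' hk'] at hx'
    split_ifs at hx with h1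
    · split_ifs at hx' with h2
      · have h3 := (hUn k x (hun k _ h1 x hx)).1
        have h4 := (hUn k' x (hun k' _ h2 x hx')).1
        have h5 : k = k' := Option.some.inj (h3.symm.trans h4)
        subst h5
        exact hP2 k c.1 h1 c'.1 h2 (fun h6 => hcc (i1 c hc c' hc' h6)) x (hin k _ h1 x hx)
          (hin k _ h2 x hx')
      · exact absurd hx' List.not_mem_nil
    · exact absurd hx List.not_mem_nil
  · intro x hx hxC
    obtain ⟨k, hk⟩ := Option.ne_none_iff_exists'.1 hx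
    have hxU : x ∈ Un h C k := by
      unfold Un
      exact mem_filter.2 ⟨mem_Hb.2 hk, hxC⟩
    obtain ⟨u, hu, hxu⟩ := hP3 k x (mem_union_left _ (mem_union_left _ hxU))
    obtain ⟨h1, c, hc, rfl⟩ := u1 k u hu
    refine ⟨c, hc, ?_⟩
    rw [hmid c.1 k h1, if_pos hu]
    rw [hq k c.1 hu, List.mem_cons, List.mem_append, List.mem_singleton, hf c hc] at hxu
    rcases hxu with h2 | h2 | h2
    · exact absurd (h2 ▸ (j4 c hc).1.2) hxC
    · exact h2
    · exact absurd (h2 ▸ (j4 c hc).2.2) hxC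

end Pool.Agent.RamV
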